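import Pool.Agent.Helper1.Tet.Defs

/-!
# HT: symmetric tetrahedra that tile space (MP_8ae016_co) — definitions

Two classes of edge vectors (order of the edges: 01, 02, 03, 12, 13, 23):
* `c2v x` (two-fold axis): `(a, b, c, c, b, a')`, in class coordinates `x = (a, a', 2b, 2c)`;
* `miv x` (mirror plane): `(p, a, b, a, b, q)`, in class coordinates `x = (p, q, 2a, 2b)`.
In both classes `l 0 = x 0`, `l 5 = x 1`, `l 1 = x 2 / 2`, `l 2 = x 3 / 2`.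
-/

open Real Set
open Pool.Agent.Helper1.Tet

namespace Pool.Agent.Helper13.HT

/-- edge lengths in the class with a two-fold axis, in class coordinates -/
noncomputable def c2v (x : Fin 4 → ℝ) : Fin 6 → ℝ :=
  ![x 0, x 2 / 2, x 3 / 2, x 3 / 2, x 2 / 2, x 1]

/-- edge lengths in the class with a mirror plane, in class coordinates -/
noncomputable def miv (x : Fin 4 → ℝ) : Fin 6 → ℝ :=
  ![x 0, x 2 / 2, x 3 / 2, x 2 / 2, x 3 / 2, x 1]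

/-- the four class angles (at the edges 01, 23, 02, 03) -/
noncomputable def ca (l : Fin 6 → ℝ) : Fin 4 → ℝ := ![al l 0, al l 5, al l 1, al l 2]

/-- all entries are nonnegative half integers -/
def HalfNat {n : ℕ} (u : Fin n → ℝ) : Prop := ∀ i, ∃ k : ℕ, u i = (k : ℝ) / 2

/-- normalized point of a class `V` (`V = c2v` or `V = miv`) -/
def Nrm (V : (Fin 4 → ℝ) → Fin 6 → ℝ) (x : Fin 4 → ℝ) : Prop :=
  V x ∈ TT ∧ ∑ i, x i * ca (V x) i = π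

/-- the cone condition: `x` is a convex combination of half-integral relations -/
def Cone (V : (Fin 4 → ℝ) → Fin 6 → ℝ) (x : Fin 4 → ℝ) : Prop :=
  x ∈ convexHull ℝ {u : Fin 4 → ℝ | HalfNat u ∧ ∑ i, u i * ca (V x) i = π}

/-- normalization of a class point -/
noncomputable def nz (V : (Fin 4 → ℝ) → Fin 6 → ℝ) (y : Fin 4 → ℝ) : Fin 4 → ℝ :=
  (π / ∑ i, y i * ca (V y) i) • y

/-- the Hill relation for a tetrahedron `(a, b, c, c, b, a')` -/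
def HillRel (a a' b c : ℝ) : Prop := a = b ∧ 3 * (c ^ 2 - b ^ 2) = a' ^ 2

/-- Hill tetrahedra in the class `c2v` (four orders) -/
def HillC (x : Fin 4 → ℝ) : Prop :=
  HillRel (x 0) (x 1) (x 2 / 2) (x 3 / 2) ∨ HillRel (x 1) (x 0) (x 2 / 2) (x 3 / 2) ∨
    HillRel (x 0) (x 1) (x 3 / 2) (x 2 / 2) ∨ HillRel (x 1) (x 0) (x 3 / 2) (x 2 / 2)

/-- the trigonometric relation of the mirror class, for class angles
`θ = (φ, ψ, α, β)` -/
noncomputable def FM (θ : Fin 4 → ℝ) : ℝ :=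
  cos (θ 2) ^ 2 + cos (θ 3) ^ 2 + 2 * cos (θ 2) * cos (θ 3) * cos (θ 0) -
    (1 - cos (θ 1)) * sin (θ 0) ^ 2 / 2

/-- the trigonometric relation of the class with a two-fold axis -/
noncomputable def FC (θ : Fin 4 → ℝ) : ℝ :=
  cos ((θ 0 - θ 1) / 2) - cos ((θ 0 + θ 1) / 2) - cos (θ 2) - cos (θ 3)

/-- 16 times the area form of the mirror class (the tetrahedron is degenerate iff it is `0`) -/
def HM (x : Fin 4 → ℝ) : ℝ :=
  4 * (x 2 ^ 2 - x 0 ^ 2) * (x 3 ^ 2 - x 0 ^ 2) -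
    (x 2 ^ 2 + x 3 ^ 2 - 2 * x 0 ^ 2 - 4 * x 1 ^ 2) ^ 2

/-- the point `q u + (1 - q) w` of a segment -/
def seg (u w : Fin 4 → ℝ) (q : ℝ) : Fin 4 → ℝ := fun i => q * u i + (1 - q) * w i

@[simp] lemma c2v_0 (x : Fin 4 → ℝ) : c2v x 0 = x 0 := rfl
@[simp] lemma c2v_1 (x : Fin 4 → ℝ) : c2v x 1 = x 2 / 2 := rfl
@[simp] lemma c2v_2 (x : Fin 4 → ℝ) : c2v x 2 = x 3 / 2 := rfl
@[simp] lemma c2v_3 (x : Fin 4 → ℝ) : c2v x 3 = x 3 / 2 := rfl
@[simp] lemma c2v_4 (x : Fin 4 → ℝ) : c2v x 4 = x 2 / 2 := rfl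
@[simp] lemma c2v_5 (x : Fin 4 → ℝ) : c2v x 5 = x 1 := rfl
@[simp] lemma miv_0 (x : Fin 4 → ℝ) : miv x 0 = x 0 := rfl
@[simp] lemma miv_1 (x : Fin 4 → ℝ) : miv x 1 = x 2 / 2 := rfl
@[simp] lemma miv_2 (x : Fin 4 → ℝ) : miv x 2 = x 3 / 2 := rfl
@[simp] lemma miv_3 (x : Fin 4 → ℝ) : miv x 3 = x 2 / 2 := rfl
@[simp] lemma miv_4 (x : Fin 4 → ℝ) : miv x 4 = x 3 / 2 := rfl
@[simp] lemma miv_5 (x : Fin 4 → ℝ) : miv x 5 = x 1 := rfl
@[simp] lemma ca_0 (l : Fin 6 → ℝ) : ca l 0 = al l 0 := rfl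
@[simp] lemma ca_1 (l : Fin 6 → ℝ) : ca l 1 = al l 5 := rfl
@[simp] lemma ca_2 (l : Fin 6 → ℝ) : ca l 2 = al l 1 := rfl
@[simp] lemma ca_3 (l : Fin 6 → ℝ) : ca l 3 = al l 2 := rfl

end Pool.Agent.Helper13.HT
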