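import Pool.Agent.Helper1.Tet.Analytic
import Pool.Agent.Helper13.HT.Defs

/-!
# HT-20 (D): relations holding at infinitely many points of a segment hold on a maximal interval

`S ⊆ [0,1]` is infinite, so it has an accumulation point `q₀ ∈ [0,1]`
(`Set.Infinite.exists_accPt_of_subset_isCompact`). `seg u w` is continuous and `K` closed: `seg u w q₀ ∈ K`; so `q₀ ≠ 0`
(`seg u w 0 = w`), `q₀ ≠ 1`, and `V (seg u w q₀) ∈ TT`. `O = {q ∈ (0,1) : V (seg u w q) ∈ TT}` is open (`isOpen_TT`, `V ∘ seg u w`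
is continuous, even affine). Let `I` be the connected component of `q₀` in `O` (or: `e = sSup {t | q₀ ≤ t, [q₀, t] ⊆ O}`, `s` likewise): an open
interval `(s, e)` with `0 ≤ s < q₀ < e ≤ 1`, and `s = 0` or `V (seg u w s) ∉ TT` (otherwise `s ∈ O` and the interval
could be enlarged), same for `e`. The functions `q ↦ ∑ u i * ca (V (seg u w q)) i - π` are analytic on `O`
(`analyticAt_al` composed with an affine map), they vanish on `S`, which accumulates at `q₀`:
`AnalyticOnNhd.eqOn_zero_of_preconnected_of_frequently_eq_zero` on `I`.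
-/

open Real Set Filter Topology
open Pool.Agent.Helper1.Tet

namespace Pool.Agent.Helper13.HT

/-- the interval data of a segment: tetrahedra of the class with the two relations -/
def Good (V : (Fin 4 → ℝ) → Fin 6 → ℝ) (u w : Fin 4 → ℝ) (s e : ℝ) : Prop :=
  ∀ q ∈ Ioo s e, V (seg u w q) ∈ TT ∧ ∑ i, u i * ca (V (seg u w q)) i = π ∧
    ∑ i, w i * ca (V (seg u w q)) i = π

theorem Good.nrm {V : (Fin 4 → ℝ) → Fin 6 → ℝ} {u w : Fin 4 → ℝ} {s e : ℝ} (h : Good V u w s e)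
    {q : ℝ} (hq : q ∈ Ioo s e) : Nrm V (seg u w q) := by
  obtain ⟨h1, h2, h3⟩ := h q hq
  refine ⟨h1, ?_⟩
  have : ∑ i, seg u w q i * ca (V (seg u w q)) i =
      q * (∑ i, u i * ca (V (seg u w q)) i) + (1 - q) * (∑ i, w i * ca (V (seg u w q)) i) := by
    rw [Finset.mul_sum, Finset.mul_sum, ← Finset.sum_add_distrib]
    apply Finset.sum_congr rfl
    intro i _
    simp only [seg]
    ring
  rw [this, h2, h3]
  ring

theorem seg_swap (u w : Fin 4 → ℝ) (q : ℝ) : seg w u (1 - q) = seg u w q := by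
  funext i
  simp only [seg]
  ring

theorem Good.swap {V : (Fin 4 → ℝ) → Fin 6 → ℝ} {u w : Fin 4 → ℝ} {s e : ℝ}
    (h : Good V u w s e) : Good V w u (1 - e) (1 - s) := by
  intro q hq
  have h1 := h (1 - q) ⟨by linarith [hq.2], by linarith [hq.1]⟩
  have h2 : seg u w (1 - q) = seg w u q := by
    rw [← seg_swap w u q]
  rw [h2] at h1
  exact ⟨h1.1, h1.2.2, h1.2.1⟩

open scoped ContDiff in
private lemma seg_cd {V : (Fin 4 → ℝ) → Fin 6 → ℝ} (hV : V = c2v ∨ V = miv)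
    (u w : Fin 4 → ℝ) : ContDiff ℝ ω (fun q : ℝ => V (seg u w q)) := by
  rcases hV with rfl | rfl
  · refine contDiff_pi.2 fun j => ?_
    fin_cases j <;> simp [seg] <;> fun_prop
  · refine contDiff_pi.2 fun j => ?_
    fin_cases j <;> simp [seg] <;> fun_prop

open scoped ContDiff in
private lemma seg_ca {V : (Fin 4 → ℝ) → Fin 6 → ℝ} (hV : V = c2v ∨ V = miv)
    (u w : Fin 4 → ℝ) (i : Fin 4) {q : ℝ} (hq : V (seg u w q) ∈ TT) :
    ContDiffAt ℝ ω (fun q : ℝ => ca (V (seg u w q)) i) q := by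
  have h1 : ∀ j : Fin 6, ContDiffAt ℝ ω (fun q : ℝ => al (V (seg u w q)) j) q := fun j =>
    ContDiffAt.comp (g := fun l : Fin 6 → ℝ => al l j) (f := fun q : ℝ => V (seg u w q)) q
      (contDiffAt_al hq j) (seg_cd hV u w).contDiffAt
  fin_cases i
  · exact h1 0
  · exact h1 5
  · exact h1 1
  · exact h1 2

open scoped ContDiff in
private lemma seg_rel {V : (Fin 4 → ℝ) → Fin 6 → ℝ} (hV : V = c2v ∨ V = miv)
    (u w v : Fin 4 → ℝ) {I : Set ℝ} (hI : ∀ q ∈ I, V (seg u w q) ∈ TT)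
    (hp : IsPreconnected I) {q₀ : ℝ} (h0 : q₀ ∈ I)
    (hf : ∃ᶠ q in 𝓝[≠] q₀, ∑ i, v i * ca (V (seg u w q)) i = π) :
    ∀ q ∈ I, ∑ i, v i * ca (V (seg u w q)) i = π := by
  have h1 : AnalyticOnNhd ℝ (fun q : ℝ => ∑ i, v i * ca (V (seg u w q)) i - π) I := by
    intro q hq
    refine ContDiffAt.analyticAt ?_
    refine ContDiffAt.sub (ContDiffAt.sum fun i _ => ?_) contDiffAt_const
    exact contDiffAt_const.mul (seg_ca hV u w i (hI q hq))
  have h2 := h1.eqOn_zero_of_preconnected_of_frequently_eq_zero hp h0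
    (hf.mono fun q hq => by simp only [hq, sub_self])
  intro q hq
  have h3 := h2 hq
  simp only [Pi.zero_apply] at h3
  linarith

private lemma comp_Ioo {O : Set ℝ} (hO : IsOpen O) (hO1 : O ⊆ Ioo 0 1) {q₀ : ℝ} (hq : q₀ ∈ O) :
    ∃ s e : ℝ, 0 ≤ s ∧ s < q₀ ∧ q₀ < e ∧ e ≤ 1 ∧ Ioo s e ⊆ O ∧ s ∉ O ∧ e ∉ O := by
  set I := connectedComponentIn O q₀ with hIdef
  have hIo : IsOpen I := hO.connectedComponentIn
  have hIs : I ⊆ O := connectedComponentIn_subset _ _
  have hqI : q₀ ∈ I := mem_connectedComponentIn hq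
  have hpc : IsPreconnected I := isPreconnected_connectedComponentIn
  have hbb : BddBelow I := ⟨0, fun x hx => (hO1 (hIs hx)).1.le⟩
  have hba : BddAbove I := ⟨1, fun x hx => (hO1 (hIs hx)).2.le⟩
  have hne : I.Nonempty := ⟨q₀, hqI⟩
  have hsub : Ioo (sInf I) (sSup I) ⊆ I := IsConnected.Ioo_csInf_csSup_subset ⟨hne, hpc⟩ hbb hba
  -- the ends are not in `I`
  have hsI : sInf I ∉ I := by
    intro h
    obtain ⟨ε, hε, hb⟩ := Metric.isOpen_iff.1 hIo _ h
    have h1 : sInf I - ε / 2 ∈ I := hb (by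
      rw [Metric.mem_ball, Real.dist_eq]
      rw [abs_lt]; constructor <;> linarith)
    have h2 := csInf_le hbb h1
    linarith
  have heI : sSup I ∉ I := by
    intro h
    obtain ⟨ε, hε, hb⟩ := Metric.isOpen_iff.1 hIo _ h
    have h1 : sSup I + ε / 2 ∈ I := hb (by
      rw [Metric.mem_ball, Real.dist_eq]
      rw [abs_lt]; constructor <;> linarith)
    have h2 := le_csSup hba h1
    linarith
  have hsq : sInf I < q₀ := lt_of_le_of_ne (csInf_le hbb hqI) fun h => hsI (h ▸ hqI)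
  have hqe : q₀ < sSup I := lt_of_le_of_ne (le_csSup hba hqI) fun h => heI (h ▸ hqI)
  have hmax : ∀ t, t ∈ closure I → t ∉ I → t ∉ O := by
    intro t ht htI htO
    obtain ⟨ε, hε, hb⟩ := Metric.isOpen_iff.1 hO _ htO
    obtain ⟨y, hyI, hyt⟩ := Metric.mem_closure_iff.1 ht ε hε
    have hp2 : IsPreconnected (Metric.ball t ε) := (convex_ball t ε).isPreconnected
    have hyb : y ∈ Metric.ball t ε := by rw [Metric.mem_ball, dist_comm]; exact hyt
    have hp3 : IsPreconnected (I ∪ Metric.ball t ε) := hpc.union y hyI hyb hp2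
    have h4 : I ∪ Metric.ball t ε ⊆ I :=
      hp3.subset_connectedComponentIn (Or.inl hqI) (union_subset hIs hb)
    exact htI (h4 (Or.inr (Metric.mem_ball_self hε)))
  refine ⟨sInf I, sSup I, ?_, hsq, hqe, ?_, hsub.trans hIs, ?_, ?_⟩
  · exact le_csInf hne fun x hx => (hO1 (hIs hx)).1.le
  · exact csSup_le hne fun x hx => (hO1 (hIs hx)).2.le
  · exact hmax _ (csInf_mem_closure hne hbb) hsI
  · exact hmax _ (csSup_mem_closure hne hba) heI

theorem seg_interval {V : (Fin 4 → ℝ) → Fin 6 → ℝ} (hV : V = c2v ∨ V = miv) (u w : Fin 4 → ℝ)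
    (K : Set (Fin 4 → ℝ)) (hK : IsCompact K) (hKT : ∀ x ∈ K, V x ∈ TT) (S : Set ℝ)
    (hS : S.Infinite) (hSI : S ⊆ Ioo 0 1) (hSK : ∀ q ∈ S, seg u w q ∈ K)
    (hrel : ∀ q ∈ S, ∑ i, u i * ca (V (seg u w q)) i = π ∧
      ∑ i, w i * ca (V (seg u w q)) i = π) (huK : u ∉ K) (hwK : w ∉ K) :
    ∃ s e : ℝ, 0 ≤ s ∧ s < e ∧ e ≤ 1 ∧ Good V u w s e ∧ (s = 0 ∨ V (seg u w s) ∉ TT) ∧
      (e = 1 ∨ V (seg u w e) ∉ TT) := by
  have hVc : Continuous fun q : ℝ => V (seg u w q) := (seg_cd hV u w).continuous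
  have hsc : Continuous fun q : ℝ => seg u w q := by
    unfold seg; fun_prop
  set O : Set ℝ := Ioo 0 1 ∩ (fun q : ℝ => V (seg u w q)) ⁻¹' TT with hOdef
  have hO : IsOpen O := isOpen_Ioo.inter (isOpen_TT.preimage hVc)
  obtain ⟨q₀, hq0, hacc⟩ := hS.exists_accPt_of_subset_isCompact (isCompact_Icc (a := (0 : ℝ))
    (b := 1)) (hSI.trans Ioo_subset_Icc_self)
  have hqK : seg u w q₀ ∈ K := by
    have h1 : q₀ ∈ closure S := mem_closure_iff_clusterPt.2 hacc.clusterPt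
    have h2 : seg u w q₀ ∈ closure ((fun q : ℝ => seg u w q) '' S) :=
      image_closure_subset_closure_image hsc (mem_image_of_mem _ h1)
    have h3 : (fun q : ℝ => seg u w q) '' S ⊆ K := by
      rintro _ ⟨q, hq, rfl⟩
      exact hSK q hq
    exact hK.isClosed.closure_subset_iff.2 h3 h2
  have hq01 : q₀ ∈ Ioo (0 : ℝ) 1 := by
    refine ⟨lt_of_le_of_ne hq0.1 ?_, lt_of_le_of_ne hq0.2 ?_⟩
    · rintro rfl
      apply hwK
      have : seg u w 0 = w := by funext i; simp [seg]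
      rwa [this] at hqK
    · rintro rfl
      apply huK
      have : seg u w 1 = u := by funext i; simp [seg]
      rwa [this] at hqK
  have hqO : q₀ ∈ O := ⟨hq01, hKT _ hqK⟩
  obtain ⟨s, e, hs0, hsq, hqe, he1, hsub, hsO, heO⟩ := comp_Ioo hO inter_subset_left hqO
  have hfr : ∃ᶠ q in 𝓝[≠] q₀, q ∈ S := accPt_iff_frequently_nhdsNE.1 hacc
  have hI : ∀ q ∈ Ioo s e, V (seg u w q) ∈ TT := fun q hq => (hsub hq).2
  have hp : IsPreconnected (Ioo s e) := isPreconnected_Ioo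
  refine ⟨s, e, hs0, hsq.trans hqe, he1, ?_, ?_, ?_⟩
  · intro q hq
    exact ⟨hI q hq, seg_rel hV u w u hI hp ⟨hsq, hqe⟩ (hfr.mono fun q hq => (hrel q hq).1) q hq,
      seg_rel hV u w w hI hp ⟨hsq, hqe⟩ (hfr.mono fun q hq => (hrel q hq).2) q hq⟩
  · rcases hs0.eq_or_lt with h | h
    · exact Or.inl h.symm
    · refine Or.inr fun hT => hsO ⟨⟨h, ?_⟩, hT⟩
      linarith
  · rcases he1.eq_or_lt with h | h
    · exact Or.inl h
    · refine Or.inr fun hT => heO ⟨⟨?_, h⟩, hT⟩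
      linarith

end Pool.Agent.Helper13.HT
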