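import Pool.Agent.Helper13.HT.C2Ineq
import Pool.Agent.Helper13.HT.SegAn

/-!
# HT-21 (D): interior end of a segment in the class with a two-fold axis

Let `x = seg u w e`, `0 < e < 1`. For `q ∈ (s, e)` the coordinates of `seg u w q` are `> 0` (`c2_pos`), so `u i, w i` are not both `0` and
`x i > 0`. By continuity (`c2_TT` on `(s,e)`) `cP x ≥ 0`, `cQ x ≥ 0`, and by `c2_TT` at `e` they are not both `> 0`. `c2_G` holds on
`(s, e)` (`Good.nrm`), its closure holds at `x`.
(i) `cQ x = 0 < cP x`: `c2_D`: all `D = cP/16 > 0`. So the angles `al (c2v ·) j = arccos (W/(√D √D))` are continuous at `x`. By `c2_W`: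
  `W 0 = W 5 = -cP/16`, so `cos = -1`; `W 1 + W 2 = cP/8`, `W 1 = W 2 = cP/16`, so `cos = 1`: `ca → (π, π, 0, 0)`. The relation `∑ u i ca i = π`
  gives `u 0 + u 1 = 1`, same for `w`, so `x 0 + x 1 = 1` on the whole interval, against `c2_G`.
(ii) `cP x = 0 < cQ x`: `D 0 = D 1 = x1² cQ/2`, `D 2 = D 3 = x0² cQ/2`, `W 0 = x0² cQ/2`, `W 5 = x1² cQ/2`: `ca 0, ca 1 → 0`.
  `cP = 0`: `x3² - x2² = ±4 x0 x1`. With `+`: `W 1 + W 2 = 0`, `W 1 - W 2 = x0 x1 cQ`, so `W 1 = x0 x1 cQ/2 = √D √D`, `W 2 = - …`: `ca 2 → 0`, `ca 3 → π`: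
  `u 3 = w 3 = 1`, so `x 3 = 1` on the interval, against `c2_G`. With `-`: `ca 2 → π`, `ca 3 → 0`, `x 2 = 1` on the interval. Contradiction.
(iii) `cP x = cQ x = 0`: say `x3² - x2² = 4 x0 x1`; with `x2² + x3² = 2x0² + 2x1²`: `x3² = (x0+x1)²`, `x2² = (x0-x1)²`, `x3 = x0 + x1`, `x2 = |x0 - x1|`.
  Closure of `c2_G`: `x0 + x1 ≤ 1`; if `x1 ≤ x0`: `1 ≤ x1 + (x2+x3)/2 = x0 + x1`; if `x0 ≤ x1`: `1 ≤ x0 + (x2 + x3)/2 = x0 + x1`. So
  `x0 + x1 = 1 = x3`. With `-`: `x0 + x1 = 1 = x2`.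
-/

open Real Set Filter Topology
open Pool.Agent.Helper1.Tet

namespace Pool.Agent.Helper13.HT

private lemma c2end_cont (u w : Fin 4 → ℝ) (i : Fin 4) : Continuous fun q => seg u w q i := by
  unfold seg
  fun_prop

private lemma c2end_ge {f : ℝ → ℝ} (hf : Continuous f) {s e : ℝ} (hse : s < e)
    (h : ∀ q ∈ Ioo s e, 0 ≤ f q) : 0 ≤ f e := by
  have h1 : e ∈ closure (Ioo s e) := by
    rw [closure_Ioo hse.ne]
    exact ⟨hse.le, le_rfl⟩
  exact closure_minimal (show Ioo s e ⊆ {q | 0 ≤ f q} from h)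
    (isClosed_le continuous_const hf) h1

private lemma c2end_vc (u w : Fin 4 → ℝ) (k : Fin 6) :
    Continuous fun q => c2v (seg u w q) k := by
  fin_cases k <;> simp [seg] <;> fun_prop

private lemma c2end_Dc (u w : Fin 4 → ℝ) (v : Fin 4) :
    Continuous fun q => D (c2v (seg u w q)) v := by
  have h := c2end_vc u w
  fin_cases v <;> simp only [D, heron] <;> simp <;> unfold seg <;> fun_prop

private lemma c2end_Wc (u w : Fin 4 → ℝ) (j : Fin 6) :
    Continuous fun q => W (c2v (seg u w q)) j := by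
  have h := c2end_vc u w
  unfold W wform
  fun_prop

/-- angles are continuous where all `D` are positive -/
private lemma c2end_al (u w : Fin 4 → ℝ) {e : ℝ} (hD : ∀ v, 0 < D (c2v (seg u w e)) v)
    (j : Fin 6) : ContinuousAt (fun q => al (c2v (seg u w q)) j) e := by
  unfold al
  refine Real.continuous_arccos.continuousAt.comp ?_
  refine ContinuousAt.div (c2end_Wc u w j).continuousAt ?_ ?_
  · exact ((c2end_Dc u w _).sqrt.mul (c2end_Dc u w _).sqrt).continuousAt
  · have h1 := Real.sqrt_pos.2 (hD (ec j))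
    have h2 := Real.sqrt_pos.2 (hD (ed j))
    positivity

/-- the relations extend to the end if all `D` are positive there -/
private lemma c2end_rel (u w v : Fin 4 → ℝ) {s e : ℝ} (hse : s < e)
    (hD : ∀ v, 0 < D (c2v (seg u w e)) v)
    (h : ∀ q ∈ Ioo s e, ∑ i, v i * ca (c2v (seg u w q)) i = π) :
    v 0 * al (c2v (seg u w e)) 0 + v 1 * al (c2v (seg u w e)) 5 +
      v 2 * al (c2v (seg u w e)) 1 + v 3 * al (c2v (seg u w e)) 2 = π := by
  have h0 := c2end_al u w hD 0
  have h5 := c2end_al u w hD 5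
  have h1 := c2end_al u w hD 1
  have h2 := c2end_al u w hD 2
  have hc : ContinuousAt (fun q => v 0 * al (c2v (seg u w q)) 0 + v 1 * al (c2v (seg u w q)) 5 +
      v 2 * al (c2v (seg u w q)) 1 + v 3 * al (c2v (seg u w q)) 2) e := by
    fun_prop
  have ht := hc.tendsto.mono_left (nhdsWithin_le_nhds (s := Iio e))
  have hev : (fun q => v 0 * al (c2v (seg u w q)) 0 + v 1 * al (c2v (seg u w q)) 5 +
      v 2 * al (c2v (seg u w q)) 1 + v 3 * al (c2v (seg u w q)) 2) =ᶠ[𝓝[<] e] fun _ => π := by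
    filter_upwards [Ioo_mem_nhdsLT hse] with q hq
    have := h q hq
    rw [Fin.sum_univ_four] at this
    simpa using this
  have ht2 : Tendsto (fun _ : ℝ => π) (𝓝[<] e) (𝓝 π) := tendsto_const_nhds
  exact tendsto_nhds_unique (ht.congr' hev) ht2

private lemma c2end_val {a b c : ℝ} (ha : 0 < a) (hb : 0 < b) (h : c = √a * √b) :
    c / (√a * √b) = 1 ∧ (-c) / (√a * √b) = -1 := by
  have h1 := Real.sqrt_pos.2 ha
  have h2 := Real.sqrt_pos.2 hb
  have h3 : √a * √b ≠ 0 := by positivity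
  rw [h]
  exact ⟨div_self h3, by rw [neg_div, div_self h3]⟩

private lemma c2end_al1 {l : Fin 6 → ℝ} {j : Fin 6} (ha : 0 < D l (ec j)) (hb : 0 < D l (ed j))
    (h : W l j = √(D l (ec j)) * √(D l (ed j))) : al l j = 0 := by
  unfold al
  rw [(c2end_val ha hb h).1, Real.arccos_one]

private lemma c2end_al2 {l : Fin 6 → ℝ} {j : Fin 6} (ha : 0 < D l (ec j)) (hb : 0 < D l (ed j))
    (h : -W l j = √(D l (ec j)) * √(D l (ed j))) : al l j = π := by
  have h1 := (c2end_val ha hb h).2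
  rw [neg_neg] at h1
  unfold al
  rw [h1, Real.arccos_neg_one]

/-- case (i) -/
private lemma c2end_i (u w : Fin 4 → ℝ) {s e : ℝ} (hse : s < e) (hI : Good c2v u w s e)
    (hP : 0 < cP (seg u w e)) (hQ : cQ (seg u w e) = 0) : False := by
  obtain ⟨hD0, hD1, hD2, hD3⟩ := c2_D (seg u w e)
  obtain ⟨hW0, hW5, hWa, hWb⟩ := c2_W (seg u w e)
  rw [hQ] at hD0 hD1 hD2 hD3 hW0 hW5 hWb
  simp only [mul_zero, zero_div, zero_add, zero_sub] at hD0 hD1 hD2 hD3 hW0 hW5 hWb
  set p := cP (seg u w e) / 16 with hp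
  have hp0 : 0 < p := by positivity
  have hW1 : W (c2v (seg u w e)) 1 = p := by linarith
  have hW2 : W (c2v (seg u w e)) 2 = p := by linarith
  have hDp : ∀ v, 0 < D (c2v (seg u w e)) v := by
    intro v
    fin_cases v
    · show 0 < D (c2v (seg u w e)) 0; rw [hD0]; exact hp0
    · show 0 < D (c2v (seg u w e)) 1; rw [hD1]; exact hp0
    · show 0 < D (c2v (seg u w e)) 2; rw [hD2]; exact hp0
    · show 0 < D (c2v (seg u w e)) 3; rw [hD3]; exact hp0
  have hss : √p * √p = p := Real.mul_self_sqrt hp0.le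
  have a0 : al (c2v (seg u w e)) 0 = π := c2end_al2 (hDp _) (hDp _) (by
    show -W (c2v (seg u w e)) 0 = √(D (c2v (seg u w e)) 2) * √(D (c2v (seg u w e)) 3)
    rw [hD2, hD3, hss, hW0, neg_neg])
  have a5 : al (c2v (seg u w e)) 5 = π := c2end_al2 (hDp _) (hDp _) (by
    show -W (c2v (seg u w e)) 5 = √(D (c2v (seg u w e)) 0) * √(D (c2v (seg u w e)) 1)
    rw [hD0, hD1, hss, hW5, neg_neg])
  have a1 : al (c2v (seg u w e)) 1 = 0 := c2end_al1 (hDp _) (hDp _) (by
    show W (c2v (seg u w e)) 1 = √(D (c2v (seg u w e)) 1) * √(D (c2v (seg u w e)) 3)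
    rw [hD1, hD3, hss, hW1])
  have a2 : al (c2v (seg u w e)) 2 = 0 := c2end_al1 (hDp _) (hDp _) (by
    show W (c2v (seg u w e)) 2 = √(D (c2v (seg u w e)) 1) * √(D (c2v (seg u w e)) 2)
    rw [hD1, hD2, hss, hW2])
  have r1 := c2end_rel u w u hse hDp (fun q hq => (hI q hq).2.1)
  have r2 := c2end_rel u w w hse hDp (fun q hq => (hI q hq).2.2)
  rw [a0, a5, a1, a2] at r1 r2
  have hpi := Real.pi_pos
  have s1 : u 0 + u 1 = 1 := by
    have : (u 0 + u 1 - 1) * π = 0 := by linarith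
    rcases mul_eq_zero.1 this with h | h
    · linarith
    · exact absurd h hpi.ne'
  have s2 : w 0 + w 1 = 1 := by
    have : (w 0 + w 1 - 1) * π = 0 := by linarith
    rcases mul_eq_zero.1 this with h | h
    · linarith
    · exact absurd h hpi.ne'
  have hq : (s + e) / 2 ∈ Ioo s e := ⟨by linarith, by linarith⟩
  have g := (c2_G (hI.nrm hq)).1
  have : seg u w ((s + e) / 2) 0 + seg u w ((s + e) / 2) 1 = 1 := by
    simp only [seg]
    linear_combination ((s + e) / 2) * s1 + (1 - (s + e) / 2) * s2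
  linarith

/-- case (ii) -/
private lemma c2end_ii (u w : Fin 4 → ℝ) {s e : ℝ} (hse : s < e) (hI : Good c2v u w s e)
    (h0 : 0 < seg u w e 0) (h1 : 0 < seg u w e 1)
    (hP : cP (seg u w e) = 0) (hQ : 0 < cQ (seg u w e))
    (hs : seg u w e 3 ^ 2 - seg u w e 2 ^ 2 = 4 * seg u w e 0 * seg u w e 1 ∨
      seg u w e 3 ^ 2 - seg u w e 2 ^ 2 = -(4 * seg u w e 0 * seg u w e 1)) : False := by
  obtain ⟨hD0, hD1, hD2, hD3⟩ := c2_D (seg u w e)
  obtain ⟨hW0, hW5, hWa, hWb⟩ := c2_W (seg u w e)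
  rw [hP] at hD0 hD1 hD2 hD3 hW0 hW5 hWa
  simp only [zero_div, add_zero, sub_zero] at hD0 hD1 hD2 hD3 hW0 hW5 hWa
  have hDp : ∀ v, 0 < D (c2v (seg u w e)) v := by
    intro v
    fin_cases v
    · show 0 < D (c2v (seg u w e)) 0; rw [hD0]; positivity
    · show 0 < D (c2v (seg u w e)) 1; rw [hD1]; positivity
    · show 0 < D (c2v (seg u w e)) 2; rw [hD2]; positivity
    · show 0 < D (c2v (seg u w e)) 3; rw [hD3]; positivity
  have hss : ∀ {p : ℝ}, 0 < p → √p * √p = p := fun hp => Real.mul_self_sqrt hp.le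
  have hsx : √(seg u w e 1 ^ 2 * cQ (seg u w e) / 2) * √(seg u w e 0 ^ 2 * cQ (seg u w e) / 2) =
      seg u w e 0 * seg u w e 1 * cQ (seg u w e) / 2 := by
    rw [← Real.sqrt_mul (by positivity)]
    have : seg u w e 1 ^ 2 * cQ (seg u w e) / 2 * (seg u w e 0 ^ 2 * cQ (seg u w e) / 2) =
        (seg u w e 0 * seg u w e 1 * cQ (seg u w e) / 2) ^ 2 := by ring
    rw [this]
    exact Real.sqrt_sq (by positivity)
  have a0 : al (c2v (seg u w e)) 0 = 0 := c2end_al1 (hDp _) (hDp _) (by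
    show W (c2v (seg u w e)) 0 = √(D (c2v (seg u w e)) 2) * √(D (c2v (seg u w e)) 3)
    rw [hD2, hD3, hss (by positivity), hW0])
  have a5 : al (c2v (seg u w e)) 5 = 0 := c2end_al1 (hDp _) (hDp _) (by
    show W (c2v (seg u w e)) 5 = √(D (c2v (seg u w e)) 0) * √(D (c2v (seg u w e)) 1)
    rw [hD0, hD1, hss (by positivity), hW5])
  have r1 := c2end_rel u w u hse hDp (fun q hq => (hI q hq).2.1)
  have r2 := c2end_rel u w w hse hDp (fun q hq => (hI q hq).2.2)
  have hpi := Real.pi_pos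
  have hq : (s + e) / 2 ∈ Ioo s e := ⟨by linarith, by linarith⟩
  obtain ⟨-, g2, g3, -, -⟩ := c2_G (hI.nrm hq)
  rcases hs with hs | hs
  · rw [hs] at hWb
    have hW1 : W (c2v (seg u w e)) 1 = seg u w e 0 * seg u w e 1 * cQ (seg u w e) / 2 := by
      linear_combination (hWa + hWb) / 2
    have hW2 : -W (c2v (seg u w e)) 2 = seg u w e 0 * seg u w e 1 * cQ (seg u w e) / 2 := by
      linear_combination (hWb - hWa) / 2
    have a1 : al (c2v (seg u w e)) 1 = 0 := c2end_al1 (hDp _) (hDp _) (by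
      show W (c2v (seg u w e)) 1 = √(D (c2v (seg u w e)) 1) * √(D (c2v (seg u w e)) 3)
      rw [hD1, hD3, hsx, hW1])
    have a2 : al (c2v (seg u w e)) 2 = π := c2end_al2 (hDp _) (hDp _) (by
      show -W (c2v (seg u w e)) 2 = √(D (c2v (seg u w e)) 1) * √(D (c2v (seg u w e)) 2)
      rw [hD1, hD2, hsx, hW2])
    rw [a0, a5, a1, a2] at r1 r2
    have s1 : u 3 = 1 := by
      have : (u 3 - 1) * π = 0 := by linarith
      rcases mul_eq_zero.1 this with h | h
      · linarith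
      · exact absurd h hpi.ne'
    have s2 : w 3 = 1 := by
      have : (w 3 - 1) * π = 0 := by linarith
      rcases mul_eq_zero.1 this with h | h
      · linarith
      · exact absurd h hpi.ne'
    have : seg u w ((s + e) / 2) 3 = 1 := by
      simp only [seg]
      linear_combination ((s + e) / 2) * s1 + (1 - (s + e) / 2) * s2
    linarith
  · rw [hs] at hWb
    have hW1 : -W (c2v (seg u w e)) 1 = seg u w e 0 * seg u w e 1 * cQ (seg u w e) / 2 := by
      linear_combination -(hWa + hWb) / 2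
    have hW2 : W (c2v (seg u w e)) 2 = seg u w e 0 * seg u w e 1 * cQ (seg u w e) / 2 := by
      linear_combination (hWa - hWb) / 2
    have a1 : al (c2v (seg u w e)) 1 = π := c2end_al2 (hDp _) (hDp _) (by
      show -W (c2v (seg u w e)) 1 = √(D (c2v (seg u w e)) 1) * √(D (c2v (seg u w e)) 3)
      rw [hD1, hD3, hsx, hW1])
    have a2 : al (c2v (seg u w e)) 2 = 0 := c2end_al1 (hDp _) (hDp _) (by
      show W (c2v (seg u w e)) 2 = √(D (c2v (seg u w e)) 1) * √(D (c2v (seg u w e)) 2)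
      rw [hD1, hD2, hsx, hW2])
    rw [a0, a5, a1, a2] at r1 r2
    have s1 : u 2 = 1 := by
      have : (u 2 - 1) * π = 0 := by linarith
      rcases mul_eq_zero.1 this with h | h
      · linarith
      · exact absurd h hpi.ne'
    have s2 : w 2 = 1 := by
      have : (w 2 - 1) * π = 0 := by linarith
      rcases mul_eq_zero.1 this with h | h
      · linarith
      · exact absurd h hpi.ne'
    have : seg u w ((s + e) / 2) 2 = 1 := by
      simp only [seg]
      linear_combination ((s + e) / 2) * s1 + (1 - (s + e) / 2) * s2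
    linarith

/-- case (iii) -/
private lemma c2end_iii {a b c d : ℝ} (ha : 0 < a) (hb : 0 < b) (hd : 0 < d)
    (hQ : c ^ 2 + d ^ 2 - 2 * a ^ 2 - 2 * b ^ 2 = 0) (hs : d ^ 2 - c ^ 2 = 4 * a * b)
    (g1 : a + b ≤ 1) (g2 : 1 ≤ a + (c + d) / 2) (g3 : 1 ≤ b + (c + d) / 2) :
    a + b = 1 ∧ d = 1 := by
  have h1 : d = a + b := by
    have : d ^ 2 = (a + b) ^ 2 := by linarith
    rcases sq_eq_sq_iff_eq_or_eq_neg.1 this with h | h
    · exact h
    · linarith
  have h2 : c ^ 2 = (a - b) ^ 2 := by linarith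
  rcases sq_eq_sq_iff_eq_or_eq_neg.1 h2 with h | h
  · constructor <;> linarith
  · constructor <;> linarith

theorem c2_end (u w : Fin 4 → ℝ) (hu : ∀ i, 0 ≤ u i) (hw : ∀ i, 0 ≤ w i) (s e : ℝ) (hs : 0 ≤ s)
    (hse : s < e) (he : e < 1) (hI : Good c2v u w s e) (hend : c2v (seg u w e) ∉ TT) :
    seg u w e 0 + seg u w e 1 = 1 ∧ (seg u w e 2 = 1 ∨ seg u w e 3 = 1) := by
  have he0 : 0 < e := by linarith
  have hq : (s + e) / 2 ∈ Ioo s e := ⟨by linarith, by linarith⟩
  have hpos : ∀ i, 0 < seg u w e i := by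
    intro i
    have h1 := c2_pos (hI _ hq).1 i
    have hui := hu i
    have hwi := hw i
    have h2 : 0 < u i ∨ 0 < w i := by
      by_contra hn
      rw [not_or, not_lt, not_lt] at hn
      have e1 : u i = 0 := le_antisymm hn.1 hui
      have e2 : w i = 0 := le_antisymm hn.2 hwi
      simp only [seg, e1, e2, mul_zero, add_zero, lt_irrefl] at h1
    have h3 : 0 < 1 - e := by linarith
    show 0 < e * u i + (1 - e) * w i
    rcases h2 with h2 | h2
    · have := mul_pos he0 h2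
      have := mul_nonneg h3.le hwi
      linarith
    · have := mul_pos h3 h2
      have := mul_nonneg he0.le hui
      linarith
  have c0 := c2end_cont u w 0
  have c1 := c2end_cont u w 1
  have c2 := c2end_cont u w 2
  have c3 := c2end_cont u w 3
  have hPc : Continuous fun q => cP (seg u w q) := by
    unfold cP
    fun_prop
  have hQc : Continuous fun q => cQ (seg u w q) := by
    unfold cQ
    fun_prop
  have hPQ : ∀ q ∈ Ioo s e, 0 < cP (seg u w q) ∧ 0 < cQ (seg u w q) := fun q hq =>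
    (c2_TT _ (c2_pos (hI q hq).1)).1 (hI q hq).1
  have hP : 0 ≤ cP (seg u w e) := c2end_ge hPc hse fun q hq => (hPQ q hq).1.le
  have hQ : 0 ≤ cQ (seg u w e) := c2end_ge hQc hse fun q hq => (hPQ q hq).2.le
  have hnot : ¬ (0 < cP (seg u w e) ∧ 0 < cQ (seg u w e)) := fun h =>
    hend ((c2_TT _ hpos).2 h)
  have hG : ∀ q ∈ Ioo s e, _ := fun q hq => c2_G (hI.nrm hq)
  have g1 : seg u w e 0 + seg u w e 1 ≤ 1 := by
    have := c2end_ge (f := fun q => 1 - (seg u w q 0 + seg u w q 1)) (by fun_prop) hse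
      (fun q hq => by
        have := (hG q hq).1
        show (0:ℝ) ≤ 1 - (seg u w q 0 + seg u w q 1)
        linarith)
    linarith
  have g2 : 1 ≤ seg u w e 0 + (seg u w e 2 + seg u w e 3) / 2 := by
    have := c2end_ge (f := fun q => seg u w q 0 + (seg u w q 2 + seg u w q 3) / 2 - 1)
      (by fun_prop) hse
      (fun q hq => by
        have := (hG q hq).2.2.2.1
        show (0:ℝ) ≤ seg u w q 0 + (seg u w q 2 + seg u w q 3) / 2 - 1
        linarith)
    linarith
  have g3 : 1 ≤ seg u w e 1 + (seg u w e 2 + seg u w e 3) / 2 := by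
    have := c2end_ge (f := fun q => seg u w q 1 + (seg u w q 2 + seg u w q 3) / 2 - 1)
      (by fun_prop) hse
      (fun q hq => by
        have := (hG q hq).2.2.2.2
        show (0:ℝ) ≤ seg u w q 1 + (seg u w q 2 + seg u w q 3) / 2 - 1
        linarith)
    linarith
  rcases hP.eq_or_lt with hP | hP
  · have hsgn : seg u w e 3 ^ 2 - seg u w e 2 ^ 2 = 4 * seg u w e 0 * seg u w e 1 ∨
        seg u w e 3 ^ 2 - seg u w e 2 ^ 2 = -(4 * seg u w e 0 * seg u w e 1) := by
      apply sq_eq_sq_iff_eq_or_eq_neg.1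
      unfold cP at hP
      linarith
    rcases hQ.eq_or_lt with hQ | hQ
    · have hQ' := hQ.symm
      unfold cQ at hQ'
      rcases hsgn with hsgn | hsgn
      · obtain ⟨r1, r2⟩ := c2end_iii (hpos 0) (hpos 1) (hpos 3) hQ' hsgn g1 g2 g3
        exact ⟨r1, Or.inr r2⟩
      · obtain ⟨r1, r2⟩ := c2end_iii (hpos 0) (hpos 1) (hpos 2) (by linarith)
          (by linarith) g1 (by linarith) (by linarith)
        exact ⟨r1, Or.inl r2⟩
    · exact (c2end_ii u w hse hI (hpos 0) (hpos 1) hP.symm hQ hsgn).elim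
  · rcases hQ.eq_or_lt with hQ | hQ
    · exact (c2end_i u w hse hI hP hQ.symm).elim
    · exact (hnot ⟨hP, hQ⟩).elim

end Pool.Agent.Helper13.HT
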