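import Pool.Agent.Helper13.HT.Group

/-!
# HT-11 (C): `cos A + cos B = cos C + cos D` along a line

All values at `t = 0` are `A, B, C, D`, the slopes `a, b, c, d` (not all zero). Use `group_lemma` with `n = 4`, coefficients
`(1, 1, -1, -1)`, at `t = 0`: for every `v`: (cos) `∑_{slope² = v} σ cos X = 0`, (sin) `∑_{slope² = v} σ slope sin X = 0`.
Facts: `|A| < B`, so with `h2, h3`: `|A| + B < π`, `|A| < π/2`, `0 < B < π`, `0 < C, D < π`.
Partition the four by `slope²` (`by_cases a^2 = b^2`, ...):
* a group with exactly one element of slope `≠ 0`: `cos X = 0` and `sin X = 0`: impossible.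
* `{A,B}`, `{C,D}`: `cos C = - cos D`, so `C = π - D`, against `h3`.
* `{A,C}`, `{B,D}`: `cos A = cos C` gives `|A| = C`; `cos B = cos D` gives `B = D`; against `h2`. Same for `{A,D}`, `{B,C}`.
* all four (slope² = s² ≠ 0): put `z = e^{i X'}`, `X' = ±X` with slope `s`; `a + b = c + d` for unit complex numbers. If
  the sum is `0`: `cos C + cos D = 0`, no. Else `ab = cd` (conjugate: `1/a + 1/b = 1/c + 1/d`), so `(a-c)(a-d) = 0`,
  `cos A = cos C, cos B = cos D` or `cos A = cos D, cos B = cos C`: as before impossible.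
* three and one (slope 0, `cos X = 0`): `X = A` impossible (`|A| < π/2`).
  `X = D`: `D = π/2`, `a + b = c` for unit numbers: `a² + ab + b² = 0`, `a, b = c e^{±iπ/3}`, so
  `{cos A, cos B} = {cos (C - π/3), cos (C + π/3)}` with `cos A > cos B` (as `|A| < B`), `C < π/2`: `B = C + π/3`,
  `|A| = |C - π/3|`: first alternative. `X = C`: second alternative.
  `X = B`: `B = π/2`, `b = 0`, `c + d = a`: `{cos C, cos D} = {cos (A + π/3), cos (A - π/3)}`, so
  `{C, D} = {π/3 + |A|, |π/3 - |A||}`; `h2` gives `|A| < π/6`. The relation (sin): `a sin A = c sin C + d sin D`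
  with `|a| = |c| = |d|`; `c = d` would give `sin C + sin D ≤ |sin A| < 1/2`, but it is `√3 cos A ≥ 3/2`. So `d = -c`, and
  `c (sin C - sin D) = a sin A`, `C + D = 2π/3`, `sin C - sin D = 2 cos(π/3) sin((C-D)/2) = sin((C-D)/2)`, `(C-D)/2 = ±A`. Third
  alternative (if `A = 0` both signs are possible and the choice is made by `c = a` or `c = -a`).
-/

open Real

namespace Pool.Agent.Helper13.HT

private lemma half {θ : ℝ} (h : cos θ = 1 / 2) (h1 : -π < θ) (h2 : θ < 5 * π / 3) :
    θ = π / 3 ∨ θ = -(π / 3) := by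
  rw [← cos_pi_div_three] at h
  have hp := pi_pos
  obtain ⟨k, hk | hk⟩ := cos_eq_cos_iff.1 h
  · have hk1 : (k : ℝ) < 1 := by nlinarith
    have hk2 : (-1 : ℝ) < k := by nlinarith
    have hk3 : k = 0 := by
      have e1 : k < 1 := by exact_mod_cast hk1
      have e2 : -1 < k := by exact_mod_cast hk2
      omega
    left
    rw [hk3] at hk
    push_cast at hk
    linarith
  · have hk1 : (k : ℝ) < 1 := by nlinarith
    have hk2 : (-1 : ℝ) < k := by nlinarith
    have hk3 : k = 0 := by
      have e1 : k < 1 := by exact_mod_cast hk1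
      have e2 : -1 < k := by exact_mod_cast hk2
      omega
    right
    rw [hk3] at hk
    push_cast at hk
    linarith

private lemma tri {x y C : ℝ} (h : cos x + cos y = cos C) (h' : sin x + sin y = sin C) :
    cos (C - x) = 1 / 2 ∧ cos (C - y) = 1 / 2 ∧ cos (x - y) = -(1 / 2) := by
  have sx := sin_sq_add_cos_sq x
  have sy := sin_sq_add_cos_sq y
  have sC := sin_sq_add_cos_sq C
  rw [cos_sub, cos_sub, cos_sub, ← h, ← h']
  rw [← h, ← h'] at sC
  refine ⟨?_, ?_, ?_⟩
  · linear_combination (1 / 2) * sC + (1 / 2) * sx - (1 / 2) * sy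
  · linear_combination (1 / 2) * sC + (1 / 2) * sy - (1 / 2) * sx
  · linear_combination (1 / 2) * sC - (1 / 2) * sx - (1 / 2) * sy

private lemma two {x y z w : ℝ} (h : cos x + cos y = cos z + cos w)
    (h' : sin x + sin y = sin z + sin w) (hp : 0 < cos z + cos w) :
    cos x = cos z ∨ cos x = cos w := by
  have sx := sin_sq_add_cos_sq x
  have sy := sin_sq_add_cos_sq y
  have sz := sin_sq_add_cos_sq z
  have sw := sin_sq_add_cos_sq w
  have hy1 : cos y = cos z + cos w - cos x := by linarith
  have hy2 : sin y = sin z + sin w - sin x := by linarith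
  rw [hy1, hy2] at sy
  obtain ⟨V, hV⟩ : ∃ V, V = cos z + cos w := ⟨_, rfl⟩
  obtain ⟨W, hW⟩ : ∃ W, W = sin z + sin w := ⟨_, rfl⟩
  have E1 : V * (cos x - cos z) + W * (sin x - sin z) = 0 := by
    rw [hV, hW]
    linear_combination (1 / 2) * sx - (1 / 2) * sy - (1 / 2) * sz + (1 / 2) * sw
  have E3 : V * (cos x + cos z) + W * (sin x + sin z) = V ^ 2 + W ^ 2 := by
    rw [hV, hW]
    linear_combination (1 / 2) * sx - (1 / 2) * sy + (1 / 2) * sz - (1 / 2) * sw
  have hV0 : 0 < V := by rw [hV]; exact hp
  by_cases hq : sin x = sin z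
  · left
    rw [hq] at E1
    have e1 : V * (cos x - cos z) = 0 := by linarith
    rcases mul_eq_zero.mp e1 with e2 | e2
    · linarith
    · linarith
  · right
    have hq' : sin x - sin z ≠ 0 := sub_ne_zero.mpr hq
    have e1 : (sin x - sin z) * (V * (sin x + sin z) - W * (cos x + cos z)) = 0 := by
      linear_combination V * sx - V * sz - (cos x + cos z) * E1
    have e2 : V * (sin x + sin z) - W * (cos x + cos z) = 0 := by
      rcases mul_eq_zero.mp e1 with e3 | e3
      · exact absurd e3 hq'
      · exact e3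
    have e4 : (V ^ 2 + W ^ 2) * (cos x + cos z - V) = 0 := by
      linear_combination V * E3 - W * e2
    have e5 : 0 < V ^ 2 + W ^ 2 := by positivity
    rcases mul_eq_zero.mp e4 with e6 | e6
    · linarith
    · linarith

private lemma c5core {x y C : ℝ} (hcos : cos x + cos y = cos C) (hsin : sin x + sin y = sin C)
    (hxy : |x| < |y|) (hx : |x| < π / 2) (hy : |y| < π) (hC : 0 < C) (hC2 : C < π / 2) :
    |y| = C + π / 3 ∧ |x| = |C - π / 3| := by
  obtain ⟨t1, t2, t3⟩ := tri hcos hsin
  have hp := pi_pos
  have hne : x ≠ y := by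
    intro e
    rw [e, sub_self, cos_zero] at t3
    linarith
  obtain ⟨x1, x2⟩ := abs_lt.mp hx
  obtain ⟨y1, y2⟩ := abs_lt.mp hy
  rcases half t1 (by linarith) (by linarith) with e1 | e1 <;>
    rcases half t2 (by linarith) (by linarith) with e2 | e2
  · exact absurd (by linarith) hne
  · have hy3 : y = C + π / 3 := by linarith
    have hx3 : x = C - π / 3 := by linarith
    rw [hy3, hx3]
    exact ⟨abs_of_pos (by linarith), rfl⟩
  · have hy3 : y = C - π / 3 := by linarith
    have hx3 : x = C + π / 3 := by linarith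
    rw [hy3, hx3, abs_of_pos (by linarith : 0 < C + π / 3)] at hxy
    rcases lt_abs.mp hxy with e3 | e3
    · linarith
    · linarith
  · exact absurd (by linarith) hne

private lemma c5 {A B C a b c : ℝ} (hcos : cos A + cos B = cos C)
    (hsin : a * sin A + b * sin B = c * sin C) (hab : b ^ 2 = a ^ 2) (hac : c ^ 2 = a ^ 2)
    (ha : a ≠ 0) (hA : |A| < B) (hA2 : |A| < π / 2) (hB : B < π) (hC : 0 < C) (hC2 : C < π / 2) :
    B = C + π / 3 ∧ |A| = |C - π / 3| := by
  have hB0 : 0 < B := lt_of_le_of_lt (abs_nonneg A) hA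
  have hBa : |B| = B := abs_of_pos hB0
  have hc : c ≠ 0 := by
    intro e
    apply ha
    rw [e] at hac
    have : a ^ 2 = 0 := by linarith
    exact pow_eq_zero_iff (two_ne_zero) |>.mp this
  have h1 : a = c ∨ a = -c := sq_eq_sq_iff_eq_or_eq_neg.mp hac.symm
  have h2 : b = c ∨ b = -c := sq_eq_sq_iff_eq_or_eq_neg.mp (hab.trans hac.symm)
  rcases h1 with h1 | h1 <;> rcases h2 with h2 | h2 <;> rw [h1, h2] at hsin
  · have e : sin A + sin B = sin C := by
      apply mul_left_cancel₀ hc
      linarith
    have := c5core hcos e (by rw [hBa]; exact hA) hA2 (by rw [hBa]; exact hB) hC hC2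
    rw [hBa] at this
    exact this
  · have e : sin A + sin (-B) = sin C := by
      rw [sin_neg]
      apply mul_left_cancel₀ hc
      linarith
    have := c5core (y := -B) (by rw [cos_neg]; exact hcos) e (by rw [abs_neg, hBa]; exact hA) hA2
      (by rw [abs_neg, hBa]; exact hB) hC hC2
    rw [abs_neg, hBa] at this
    exact this
  · have e : sin (-A) + sin B = sin C := by
      rw [sin_neg]
      apply mul_left_cancel₀ hc
      linarith
    have := c5core (x := -A) (by rw [cos_neg]; exact hcos) e (by rw [abs_neg, hBa]; exact hA)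
      (by rw [abs_neg]; exact hA2) (by rw [hBa]; exact hB) hC hC2
    rw [abs_neg, hBa] at this
    exact this
  · have e : sin (-A) + sin (-B) = sin C := by
      rw [sin_neg, sin_neg]
      apply mul_left_cancel₀ hc
      linarith
    have := c5core (x := -A) (y := -B) (by rw [cos_neg, cos_neg]; exact hcos) e
      (by rw [abs_neg, abs_neg, hBa]; exact hA)
      (by rw [abs_neg]; exact hA2) (by rw [abs_neg, hBa]; exact hB) hC hC2
    rw [abs_neg, abs_neg, hBa] at this
    exact this

private lemma c7 {A C D a c d : ℝ} (hcos : cos C + cos D = cos A)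
    (hsin : c * sin C + d * sin D = a * sin A) (hac : c ^ 2 = a ^ 2) (had : d ^ 2 = a ^ 2)
    (ha : a ≠ 0) (hA2 : |A| < π / 2) (h2 : |A| + π / 2 < C + D) (h3 : C + D < π)
    (hC : 0 < C) (hD : 0 < D) :
    (C = π / 3 + A ∧ D = π / 3 - A ∧ c = a ∧ d = -a) ∨
      (C = π / 3 - A ∧ D = π / 3 + A ∧ c = -a ∧ d = a) := by
  have hp := pi_pos
  have hA3 := le_abs_self A
  have hA4 := neg_abs_le A
  obtain ⟨x1, x2⟩ := abs_lt.mp hA2
  have h1 : c = a ∨ c = -a := sq_eq_sq_iff_eq_or_eq_neg.mp hac
  have h4 : d = a ∨ d = -a := sq_eq_sq_iff_eq_or_eq_neg.mp had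
  rcases h1 with h1 | h1 <;> rcases h4 with h4 | h4 <;> rw [h1, h4] at hsin
  · exfalso
    have e : sin C + sin D = sin A := by
      apply mul_left_cancel₀ ha
      linarith
    obtain ⟨t1, t2, t3⟩ := tri hcos e
    have t1' : cos (C - A) = 1 / 2 := by rw [← cos_neg, neg_sub]; exact t1
    have t2' : cos (D - A) = 1 / 2 := by rw [← cos_neg, neg_sub]; exact t2
    have hne : C ≠ D := by
      intro e
      rw [e, sub_self, cos_zero] at t3
      linarith
    rcases half t1' (by linarith) (by linarith) with e1 | e1 <;>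
      rcases half t2' (by linarith) (by linarith) with e2 | e2
    · exact hne (by linarith)
    · linarith
    · linarith
    · exact hne (by linarith)
  · left
    have e : sin C + sin (-D) = sin A := by
      rw [sin_neg]
      apply mul_left_cancel₀ ha
      linarith
    obtain ⟨t1, t2, t3⟩ := tri (y := -D) (by rw [cos_neg]; exact hcos) e
    have t1' : cos (C - A) = 1 / 2 := by rw [← cos_neg, neg_sub]; exact t1
    have t2' : cos (D + A) = 1 / 2 := by
      have : D + A = A - -D := by ring
      rw [this]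
      exact t2
    have hne : C ≠ -D := by
      intro e
      linarith
    rcases half t1' (by linarith) (by linarith) with e1 | e1 <;>
      rcases half t2' (by linarith) (by linarith) with e2 | e2
    · exact ⟨by linarith, by linarith, h1, h4⟩
    · exfalso
      have : C = -D + 2 * (π / 3) - 2 * (π / 3) + 0 := by
        have e5 : C - (-D) = 0 := by linarith
        linarith
      exact hne (by linarith)
    · exfalso
      exact hne (by linarith)
    · exfalso
      linarith
  · right
    have e : sin (-C) + sin D = sin A := by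
      rw [sin_neg]
      apply mul_left_cancel₀ ha
      linarith
    obtain ⟨t1, t2, t3⟩ := tri (x := -C) (by rw [cos_neg]; exact hcos) e
    have t1' : cos (C + A) = 1 / 2 := by
      have : C + A = A - -C := by ring
      rw [this]
      exact t1
    have t2' : cos (D - A) = 1 / 2 := by rw [← cos_neg, neg_sub]; exact t2
    rcases half t1' (by linarith) (by linarith) with e1 | e1 <;>
      rcases half t2' (by linarith) (by linarith) with e2 | e2
    · exact ⟨by linarith, by linarith, h1, h4⟩
    · exfalso
      linarith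
    · exfalso
      linarith
    · exfalso
      linarith
  · exfalso
    have e : sin (-C) + sin (-D) = sin A := by
      rw [sin_neg, sin_neg]
      apply mul_left_cancel₀ ha
      linarith
    obtain ⟨t1, t2, t3⟩ := tri (x := -C) (y := -D) (by rw [cos_neg, cos_neg]; exact hcos) e
    have t1' : cos (C + A) = 1 / 2 := by
      have : C + A = A - -C := by ring
      rw [this]
      exact t1
    have t2' : cos (D + A) = 1 / 2 := by
      have : D + A = A - -D := by ring
      rw [this]
      exact t2
    have hne : C ≠ D := by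
      intro e
      rw [e, sub_self, cos_zero] at t3
      linarith
    rcases half t1' (by linarith) (by linarith) with e1 | e1 <;>
      rcases half t2' (by linarith) (by linarith) with e2 | e2
    · exact hne (by linarith)
    · linarith
    · linarith
    · exact hne (by linarith)

private lemma bad {A B C D : ℝ} (hA : |A| < B) (h2 : |A| + B < C + D) (h3 : C + D < π)
    (hC : 0 < C) (hD : 0 < D) (e1 : cos A = cos C) (e2 : cos B = cos D) : False := by
  have hp := pi_pos
  have h0 := abs_nonneg A
  rw [← cos_abs] at e1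
  have f1 : |A| = C := injOn_cos ⟨h0, by linarith⟩ ⟨hC.le, by linarith⟩ e1
  have f2 : B = D := injOn_cos ⟨by linarith, by linarith⟩ ⟨hD.le, by linarith⟩ e2
  linarith

theorem c2_line (A B C D a b c d : ℝ)
    (h : ∀ t : ℝ, cos (A + a * t) + cos (B + b * t) = cos (C + c * t) + cos (D + d * t))
    (hne : ¬ (a = 0 ∧ b = 0 ∧ c = 0 ∧ d = 0)) (h1 : |A| < B) (h2 : |A| + B < C + D)
    (h3 : C + D < π) (hC : 0 < C) (hD : 0 < D) :
    (D = π / 2 ∧ B = C + π / 3 ∧ |A| = |C - π / 3|) ∨
    (C = π / 2 ∧ B = D + π / 3 ∧ |A| = |D - π / 3|) ∨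
    (B = π / 2 ∧ b = 0 ∧ a ≠ 0 ∧
      ((C = π / 3 + A ∧ D = π / 3 - A ∧ c = a ∧ d = -a) ∨
       (C = π / 3 - A ∧ D = π / 3 + A ∧ c = -a ∧ d = a))) := by
  have hp := pi_pos
  have hA0 := abs_nonneg A
  have hA2 : |A| < π / 2 := by linarith
  have hBpi : B < π := by linarith
  have hcA : 0 < cos A := by
    rw [← cos_abs]
    exact cos_pos_of_mem_Ioo ⟨by linarith, hA2⟩
  have hCD : 0 < cos C + cos D := by
    rw [cos_add_cos]
    have e1 : 0 < cos ((C + D) / 2) := cos_pos_of_mem_Ioo ⟨by linarith, by linarith⟩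
    have e2 : 0 < cos ((C - D) / 2) := cos_pos_of_mem_Ioo ⟨by linarith, by linarith⟩
    positivity
  have htot : cos A + cos B = cos C + cos D := by
    have := h 0
    simpa using this
  have G : ∀ v : ℝ,
      (if a ^ 2 = v then cos A else 0) + (if b ^ 2 = v then cos B else 0) -
        (if c ^ 2 = v then cos C else 0) - (if d ^ 2 = v then cos D else 0) = 0 ∧
      (if a ^ 2 = v then a * sin A else 0) + (if b ^ 2 = v then b * sin B else 0) -
        (if c ^ 2 = v then c * sin C else 0) - (if d ^ 2 = v then d * sin D else 0) = 0 := by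
    intro v
    have hh : ∀ t : ℝ, ∑ i, (![1, 1, -1, -1] : Fin 4 → ℝ) i *
        cos ((![A, B, C, D] : Fin 4 → ℝ) i + (![a, b, c, d] : Fin 4 → ℝ) i * t) = 0 := by
      intro t
      rw [Fin.sum_univ_four]
      simp
      linarith [h t]
    have g := group_lemma (![1, 1, -1, -1] : Fin 4 → ℝ) (![A, B, C, D] : Fin 4 → ℝ)
      (![a, b, c, d] : Fin 4 → ℝ) hh v 0
    rw [Fin.sum_univ_four, Fin.sum_univ_four] at g
    simp at g
    obtain ⟨g1, g2⟩ := g
    constructor
    · clear g2
      split_ifs at g1 ⊢ <;> linarith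
    · clear g1
      split_ifs at g2 ⊢ <;> linarith
  obtain ⟨G1, G2⟩ := G (a ^ 2)
  rw [if_pos rfl] at G1 G2
  by_cases hab : b ^ 2 = a ^ 2 <;> by_cases hac : c ^ 2 = a ^ 2 <;> by_cases had : d ^ 2 = a ^ 2
  · -- all
    rw [if_pos hab, if_pos hac, if_pos had] at G2
    exfalso
    have ha : a ≠ 0 := by
      intro e
      apply hne
      rw [e] at hab hac had
      simp at hab hac had
      exact ⟨e, hab, hac, had⟩
    have key : ∀ x y z : ℝ, cos x = cos A → cos y = cos B → cos z = cos C →
        sin x + sin y = sin z + sin D → False := by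
      intro x y z hx hy hz hs
      rcases two (x := x) (y := y) (z := z) (w := D) (by rw [hx, hy, hz]; exact htot) hs
        (by rw [hz]; exact hCD) with e | e
      · rw [hx, hz] at e
        exact bad h1 h2 h3 hC hD e (by linarith)
      · rw [hx] at e
        exact bad h1 (by linarith) (by linarith) hD hC e (by linarith)
    have hd : d ≠ 0 := by
      intro e
      apply ha
      rw [e] at had
      have : a ^ 2 = 0 := by linarith
      exact pow_eq_zero_iff (two_ne_zero) |>.mp this
    have k1 : a = d ∨ a = -d := sq_eq_sq_iff_eq_or_eq_neg.mp had.symm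
    have k2 : b = d ∨ b = -d := sq_eq_sq_iff_eq_or_eq_neg.mp (hab.trans had.symm)
    have k3 : c = d ∨ c = -d := sq_eq_sq_iff_eq_or_eq_neg.mp (hac.trans had.symm)
    rcases k1 with k1 | k1 <;> rcases k2 with k2 | k2 <;> rcases k3 with k3 | k3 <;>
      rw [k1, k2, k3] at G2
    · exact key A B C rfl rfl rfl (mul_left_cancel₀ hd (by linarith))
    · exact key A B (-C) rfl rfl (cos_neg C) (mul_left_cancel₀ hd (by rw [sin_neg]; linarith))
    · exact key A (-B) C rfl (cos_neg B) rfl (mul_left_cancel₀ hd (by rw [sin_neg]; linarith))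
    · exact key A (-B) (-C) rfl (cos_neg B) (cos_neg C)
        (mul_left_cancel₀ hd (by rw [sin_neg, sin_neg]; linarith))
    · exact key (-A) B C (cos_neg A) rfl rfl (mul_left_cancel₀ hd (by rw [sin_neg]; linarith))
    · exact key (-A) B (-C) (cos_neg A) rfl (cos_neg C)
        (mul_left_cancel₀ hd (by rw [sin_neg, sin_neg]; linarith))
    · exact key (-A) (-B) C (cos_neg A) (cos_neg B) rfl
        (mul_left_cancel₀ hd (by rw [sin_neg, sin_neg]; linarith))
    · exact key (-A) (-B) (-C) (cos_neg A) (cos_neg B) (cos_neg C)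
        (mul_left_cancel₀ hd (by rw [sin_neg, sin_neg, sin_neg]; linarith))
  · -- a b c
    rw [if_pos hab, if_pos hac, if_neg had] at G1 G2
    obtain ⟨K1, K2⟩ := G (d ^ 2)
    rw [if_neg (Ne.symm had), if_neg (fun e => had (e.symm.trans hab)),
      if_neg (fun e => had (e.symm.trans hac)), if_pos rfl] at K1 K2
    have hcD : cos D = 0 := by linarith
    have hDpi : D = π / 2 := by
      apply injOn_cos ⟨hD.le, by linarith⟩ ⟨by linarith, by linarith⟩
      rw [hcD, cos_pi_div_two]
    have hd0 : d = 0 := by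
      rw [hDpi, sin_pi_div_two] at K2
      linarith
    have ha : a ≠ 0 := by
      intro e
      apply had
      rw [hd0, e]
    left
    obtain ⟨r1, r2⟩ := c5 (by linarith) (by linarith) hab hac ha h1 hA2 hBpi hC
      (by linarith)
    exact ⟨hDpi, r1, r2⟩
  · -- a b d
    rw [if_pos hab, if_neg hac, if_pos had] at G1 G2
    obtain ⟨K1, K2⟩ := G (c ^ 2)
    rw [if_neg (Ne.symm hac), if_neg (fun e => hac (e.symm.trans hab)), if_pos rfl,
      if_neg (fun e => hac (e.symm.trans had))] at K1 K2
    have hcC : cos C = 0 := by linarith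
    have hCpi : C = π / 2 := by
      apply injOn_cos ⟨hC.le, by linarith⟩ ⟨by linarith, by linarith⟩
      rw [hcC, cos_pi_div_two]
    have hc0 : c = 0 := by
      rw [hCpi, sin_pi_div_two] at K2
      linarith
    have ha : a ≠ 0 := by
      intro e
      apply hac
      rw [hc0, e]
    right
    left
    obtain ⟨r1, r2⟩ := c5 (by linarith) (by linarith) hab had ha h1 hA2 hBpi hD
      (by linarith)
    exact ⟨hCpi, r1, r2⟩
  · -- a b
    rw [if_pos hab, if_neg hac, if_neg had] at G1
    exfalso
    linarith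
  · -- a c d
    rw [if_neg hab, if_pos hac, if_pos had] at G1 G2
    obtain ⟨K1, K2⟩ := G (b ^ 2)
    rw [if_neg (Ne.symm hab), if_pos rfl, if_neg (fun e => hab (e.symm.trans hac)),
      if_neg (fun e => hab (e.symm.trans had))] at K1 K2
    have hcB : cos B = 0 := by linarith
    have hB0 : 0 < B := by linarith
    have hBpi2 : B = π / 2 := by
      apply injOn_cos ⟨hB0.le, by linarith⟩ ⟨by linarith, by linarith⟩
      rw [hcB, cos_pi_div_two]
    have hb0 : b = 0 := by
      rw [hBpi2, sin_pi_div_two] at K2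
      linarith
    have ha : a ≠ 0 := by
      intro e
      apply hab
      rw [hb0, e]
    right
    right
    refine ⟨hBpi2, hb0, ha, ?_⟩
    exact c7 (by linarith) (by linarith) hac had ha hA2 (by linarith) h3 hC hD
  · -- a c
    rw [if_neg hab, if_pos hac, if_neg had] at G1
    exfalso
    exact bad h1 h2 h3 hC hD (by linarith) (by linarith)
  · -- a d
    rw [if_neg hab, if_neg hac, if_pos had] at G1
    exfalso
    exact bad h1 (by linarith) (by linarith) hD hC (by linarith) (by linarith)
  · -- a
    rw [if_neg hab, if_neg hac, if_neg had] at G1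
    exfalso
    linarith

end Pool.Agent.Helper13.HT
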