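import Pool.Agent.Helper1.Tet.TTFacts
import Pool.Agent.Helper13.HT.Defs

/-!
# HT-06 (B): formulas for the class with a two-fold axis

All are polynomial identities after unfolding (`simp [D, W, heron, wform, ea, eb, ec, ed, ix, c2v]`, then `ring`), except
`c2_TT`: `128 * Gr (c2v x) = cP x * cQ x` (`c2_Gr`; all constants were checked numerically). If `cP, cQ > 0`
then `Gr > 0`, and `D (c2v x) v > 0` for all `v` by `c2_D`; `D v = heron > 0` with positive sides gives the three strict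
triangle inequalities of the face (`heron x y z = (x+y+z)(x+y-z)(x-y+z)(-x+y+z)`; two of the last three factors cannot both be
negative). Conversely from `c2v x ∈ TT`: `Gr > 0`, so `cP, cQ` have the same sign; if both were negative, `c2_D` gives
`D (c2v x) 0 < 0`, against `TT_facts`.
-/

open Real Set
open Pool.Agent.Helper1.Tet

namespace Pool.Agent.Helper13.HT

private theorem c2form_sym (x : Fin 4 → ℝ) :
    W (c2v x) 4 = W (c2v x) 1 ∧ W (c2v x) 3 = W (c2v x) 2 ∧ D (c2v x) 0 = D (c2v x) 1 ∧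
      D (c2v x) 2 = D (c2v x) 3 := by
  refine ⟨?_, ?_, ?_, ?_⟩ <;>
  · simp [D, W, heron, wform, ea, eb, ec, ed, ix, c2v]
    try ring

private theorem c2form_heron {a b c : ℝ} (ha : 0 < a) (hb : 0 < b) (hc : 0 < c)
    (h : 0 < heron a b c) : c < a + b ∧ b < a + c ∧ a < b + c := by
  unfold heron at h
  have h1 : 0 < a + b + c := by linarith
  have h2 : 0 < (a + b - c) * (a - b + c) * (-a + b + c) := by
    rw [mul_assoc, mul_assoc] at h
    rw [mul_assoc]
    exact (mul_pos_iff_of_pos_left h1).1 h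
  by_contra hn
  have hn' : ¬ (0 < a + b - c ∧ 0 < a - b + c ∧ 0 < -a + b + c) := by
    rintro ⟨h3, h4, h5⟩
    exact hn ⟨by linarith, by linarith, by linarith⟩
  apply hn'
  rcases lt_or_ge 0 (a + b - c) with h3 | h3
  · rcases lt_or_ge 0 (a - b + c) with h4 | h4
    · exact ⟨h3, h4, (mul_pos_iff_of_pos_left (mul_pos h3 h4)).1 h2⟩
    · exfalso
      have h5 : 0 < -a + b + c := by linarith
      have h6 : (a + b - c) * (a - b + c) ≤ 0 := mul_nonpos_of_nonneg_of_nonpos h3.le h4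
      have h7 := mul_nonpos_of_nonpos_of_nonneg h6 h5.le
      linarith
  · exfalso
    have h4 : 0 < a - b + c := by linarith
    have h5 : 0 < -a + b + c := by linarith
    have h6 : (a + b - c) * (a - b + c) ≤ 0 := mul_nonpos_of_nonpos_of_nonneg h3 h4.le
    have h7 := mul_nonpos_of_nonpos_of_nonneg h6 h5.le
    linarith

theorem c2_al (x : Fin 4 → ℝ) : al (c2v x) 4 = al (c2v x) 1 ∧ al (c2v x) 3 = al (c2v x) 2 := by
  obtain ⟨h1, h2, h3, h4⟩ := c2form_sym x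
  constructor
  · show arccos (W (c2v x) 4 / (√(D (c2v x) 0) * √(D (c2v x) 2))) =
      arccos (W (c2v x) 1 / (√(D (c2v x) 1) * √(D (c2v x) 3)))
    rw [h1, h3, h4]
  · show arccos (W (c2v x) 3 / (√(D (c2v x) 0) * √(D (c2v x) 3))) =
      arccos (W (c2v x) 2 / (√(D (c2v x) 1) * √(D (c2v x) 2)))
    rw [h2, h3, h4]

/-- the quantity `4 (a²a'² - (b²-c²)²) · 4` -/
noncomputable def cP (x : Fin 4 → ℝ) : ℝ := 16 * x 0 ^ 2 * x 1 ^ 2 - (x 3 ^ 2 - x 2 ^ 2) ^ 2
/-- the quantity `2 (2(b²+c²) - a² - a'²)` -/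
noncomputable def cQ (x : Fin 4 → ℝ) : ℝ := x 2 ^ 2 + x 3 ^ 2 - 2 * x 0 ^ 2 - 2 * x 1 ^ 2

theorem c2_D (x : Fin 4 → ℝ) :
    D (c2v x) 0 = x 1 ^ 2 * cQ x / 2 + cP x / 16 ∧ D (c2v x) 1 = x 1 ^ 2 * cQ x / 2 + cP x / 16 ∧
    D (c2v x) 2 = x 0 ^ 2 * cQ x / 2 + cP x / 16 ∧ D (c2v x) 3 = x 0 ^ 2 * cQ x / 2 + cP x / 16 := by
  refine ⟨?_, ?_, ?_, ?_⟩ <;>
  · simp [D, heron, c2v, cP, cQ]
    ring

theorem c2_W (x : Fin 4 → ℝ) :
    W (c2v x) 0 = x 0 ^ 2 * cQ x / 2 - cP x / 16 ∧ W (c2v x) 5 = x 1 ^ 2 * cQ x / 2 - cP x / 16 ∧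
    W (c2v x) 1 + W (c2v x) 2 = cP x / 8 ∧
    W (c2v x) 1 - W (c2v x) 2 = (x 3 ^ 2 - x 2 ^ 2) * cQ x / 4 := by
  refine ⟨?_, ?_, ?_, ?_⟩ <;>
  · simp [W, wform, ea, eb, ec, ed, ix, c2v, cP, cQ]
    ring

theorem c2_Gr (x : Fin 4 → ℝ) : 128 * Gr (c2v x) = cP x * cQ x := by
  simp [Gr, c2v, cP, cQ]
  ring

theorem c2_TT (x : Fin 4 → ℝ) (hx : ∀ i, 0 < x i) :
    c2v x ∈ TT ↔ 0 < cP x ∧ 0 < cQ x := by
  have hGr := c2_Gr x
  obtain ⟨hD0, -, hD2, -⟩ := c2_D x
  have h0 := hx 0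
  have h1 := hx 1
  have h2 := hx 2
  have h3 := hx 3
  constructor
  · intro h
    have hG : 0 < Gr (c2v x) := h.2
    have hD := (TT_facts h).2.1 0
    rw [hD0] at hD
    have hPQ : 0 < cP x * cQ x := by linarith
    rcases pos_and_pos_or_neg_and_neg_of_mul_pos hPQ with h4 | h4
    · exact h4
    · exfalso
      have h5 : x 1 ^ 2 * cQ x < 0 := mul_neg_of_pos_of_neg (by positivity) h4.2
      linarith [h4.1]
  · rintro ⟨hP, hQ⟩
    have hG : 0 < Gr (c2v x) := by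
      have := mul_pos hP hQ
      linarith
    have hd0 : 0 < D (c2v x) 0 := by
      rw [hD0]
      positivity
    have hd2 : 0 < D (c2v x) 2 := by
      rw [hD2]
      positivity
    have e0 : D (c2v x) 0 = heron (x 3 / 2) (x 2 / 2) (x 1) := rfl
    have e2 : D (c2v x) 2 = heron (x 0) (x 3 / 2) (x 2 / 2) := rfl
    rw [e0] at hd0
    rw [e2] at hd2
    obtain ⟨t1, t2, t3⟩ := c2form_heron (by positivity) (by positivity) h1 hd0
    obtain ⟨t4, t5, t6⟩ := c2form_heron h0 (by positivity) (by positivity) hd2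
    refine ⟨?_, hG⟩
    intro a b c hab hbc hac
    fin_cases a <;> fin_cases b <;> fin_cases c <;>
      first
      | exact absurd rfl hab
      | exact absurd rfl hbc
      | exact absurd rfl hac
      | (simp [ix]; linarith)

end Pool.Agent.Helper13.HT
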