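import Pool.Agent.Helper1.Tet.Strict
import Pool.Agent.Helper1.Tet.Perimeter
import Pool.Agent.Helper13.HT.C2Form

/-!
# HT-07 (B): inequalities for the class with a two-fold axis

`c2_G`: `perimeter` for `l = c2v x ∈ TT`: `π * tt l v < HH l < π * qq l c` with
`HH l = π ∑ l j - ∑ l j α j` and `∑ l j α j = ∑ x i θ i = π` (use `c2_al`, and `l 1 = l 4 = x 2 / 2`, ...). So the sum of
`l` over the three edges at a vertex is `> 1` and over two opposite edges `< 1`. (`tt`, `qq`: unfold with `Fin.sum_univ_six`,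
`simp [tt, qq, ea, eb, cl]`.)
`c2_angles`: `θ i ∈ (0, π)` from `TT_facts`. Relation `FC = 0`: by `TT_facts`, `cos α j = W j / (√D √D)`. With
`h = D 2 = D 3`, `h' = D 0 = D 1` (both `> 0`): `1 - cos θ 0 = (cP/8)/h`, `1 - cos θ 1 = (cP/8)/h'` and
`cos θ 2 + cos θ 3 = (cP/8)/√(h h')`, where `cP > 0` (`c2_TT`). As `1 - cos t = 2 sin² (t/2)`, both
`2 sin (θ0/2) sin (θ1/2)` and `cos θ 2 + cos θ 3` are positive with the same square; and
`2 sin (θ0/2) sin (θ1/2) = cos ((θ0-θ1)/2) - cos ((θ0+θ1)/2)`.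
`TT_strict`: `sv > 0`: `θ0 + θ2 + θ3 > π`, `θ1 + θ2 + θ3 > π`, i.e. `π - min(θ0,θ1) < θ2 + θ3`, which is the third claim;
`gc ≥ 0` (class 0): `2 θ2 + 2 θ3 ≤ 2π`, and equality would give `cos θ 2 + cos θ 3 = 0`. (`ra_sv`, `ra_gc` of
Helper1/Tet/RegionAux or `sv_eq`, `gc_eq` of Boundary unfold `sv` and `gc`.)
-/

open Real Set
open Pool.Agent.Helper1.Tet

namespace Pool.Agent.Helper13.HT

theorem c2_G {x : Fin 4 → ℝ} (h : Nrm c2v x) :
    x 0 + x 1 < 1 ∧ x 2 < 1 ∧ x 3 < 1 ∧ 1 < x 0 + (x 2 + x 3) / 2 ∧ 1 < x 1 + (x 2 + x 3) / 2 := by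
  obtain ⟨hT, hs⟩ := h
  obtain ⟨h1, h2⟩ := perimeter hT
  obtain ⟨h3, h4⟩ := c2_al x
  have hH : HH (c2v x) = π * (x 0 + x 1 + x 2 + x 3 - 1) := by
    rw [Fin.sum_univ_four] at hs
    simp only [ca_0, ca_1, ca_2, ca_3] at hs
    unfold HH
    simp only [Fin.sum_univ_six, c2v_0, c2v_1, c2v_2, c2v_3, c2v_4, c2v_5]
    rw [h3, h4]
    linear_combination -hs
  have ht0 : tt (c2v x) 0 = x 3 / 2 + x 2 / 2 + x 1 := by
    simp [tt, Fin.sum_univ_six, ea, eb]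
  have ht2 : tt (c2v x) 2 = x 0 + (x 2 + x 3) / 2 := by
    simp [tt, Fin.sum_univ_six, ea, eb]
    ring
  have hq0 : qq (c2v x) 0 = x 2 + x 3 := by
    simp [qq, Fin.sum_univ_six, cl]
    ring
  have hq1 : qq (c2v x) 1 = x 0 + x 1 + x 3 := by
    simp [qq, Fin.sum_univ_six, cl]
    ring
  have hq2 : qq (c2v x) 2 = x 0 + x 1 + x 2 := by
    simp [qq, Fin.sum_univ_six, cl]
    ring
  have e0 := h1 0
  have e2 := h1 2
  have f0 := h2 0
  have f1 := h2 1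
  have f2 := h2 2
  rw [ht0, hH] at e0
  rw [ht2, hH] at e2
  rw [hq0, hH] at f0
  rw [hq1, hH] at f1
  rw [hq2, hH] at f2
  have g0 := lt_of_mul_lt_mul_left e0 pi_pos.le
  have g2 := lt_of_mul_lt_mul_left e2 pi_pos.le
  have k0 := lt_of_mul_lt_mul_left f0 pi_pos.le
  have k1 := lt_of_mul_lt_mul_left f1 pi_pos.le
  have k2 := lt_of_mul_lt_mul_left f2 pi_pos.le
  refine ⟨by linarith, by linarith, by linarith, by linarith, by linarith⟩

theorem c2_pos {x : Fin 4 → ℝ} (h : c2v x ∈ TT) : ∀ i, 0 < x i := by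
  obtain ⟨h1, -⟩ := TT_facts h
  have a0 := h1 0
  have a1 := h1 1
  have a2 := h1 2
  have a5 := h1 5
  rw [c2v_0] at a0
  rw [c2v_1] at a1
  rw [c2v_2] at a2
  rw [c2v_5] at a5
  intro i
  fin_cases i
  · exact a0
  · exact a5
  · show 0 < x 2
    linarith
  · show 0 < x 3
    linarith

/-- the cosine relations of the class -/
private theorem c2ineq_cos {x : Fin 4 → ℝ} (h : c2v x ∈ TT) :
    ∃ h1 h2 c : ℝ, 0 < h1 ∧ 0 < h2 ∧ 0 < c ∧ 1 - cos (al (c2v x) 0) = c / h1 ∧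
      1 - cos (al (c2v x) 5) = c / h2 ∧
      cos (al (c2v x) 1) + cos (al (c2v x) 2) = c / (√h2 * √h1) := by
  obtain ⟨-, hD, hc, -⟩ := TT_facts h
  obtain ⟨d0, d1, d2, d3⟩ := c2_D x
  obtain ⟨w0, w5, w12, -⟩ := c2_W x
  have hP := ((c2_TT x (c2_pos h)).1 h).1
  have k1 := hD 2
  have k2 := hD 1
  have e0 : cos (al (c2v x) 0) = W (c2v x) 0 / (√(D (c2v x) 2) * √(D (c2v x) 3)) := hc 0
  have e5 : cos (al (c2v x) 5) = W (c2v x) 5 / (√(D (c2v x) 0) * √(D (c2v x) 1)) := hc 5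
  have e1 : cos (al (c2v x) 1) = W (c2v x) 1 / (√(D (c2v x) 1) * √(D (c2v x) 3)) := hc 1
  have e2 : cos (al (c2v x) 2) = W (c2v x) 2 / (√(D (c2v x) 1) * √(D (c2v x) 2)) := hc 2
  rw [show D (c2v x) 3 = D (c2v x) 2 by rw [d3, d2]] at e0 e1
  rw [show D (c2v x) 0 = D (c2v x) 1 by rw [d0, d1]] at e5
  rw [mul_self_sqrt k1.le] at e0
  rw [mul_self_sqrt k2.le] at e5
  refine ⟨D (c2v x) 2, D (c2v x) 1, cP x / 8, k1, k2, by positivity, ?_, ?_, ?_⟩
  · rw [e0, one_sub_div k1.ne']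
    congr 1
    rw [d2, w0]
    ring
  · rw [e5, one_sub_div k2.ne']
    congr 1
    rw [d1, w5]
    ring
  · rw [e1, e2, ← add_div, w12]

theorem c2_angles {x : Fin 4 → ℝ} (h : c2v x ∈ TT) :
    (∀ i, ca (c2v x) i ∈ Ioo 0 π) ∧ FC (ca (c2v x)) = 0 ∧
    |ca (c2v x) 0 - ca (c2v x) 1| / 2 + (π - (ca (c2v x) 0 + ca (c2v x) 1) / 2) <
      ca (c2v x) 2 + ca (c2v x) 3 ∧
    ca (c2v x) 2 + ca (c2v x) 3 < π := by
  obtain ⟨-, -, -, -, hI, -⟩ := TT_facts h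
  obtain ⟨h3, h4⟩ := c2_al x
  obtain ⟨hsv, hgc⟩ := TT_strict h
  obtain ⟨p, q, c, hp, hq, hc, r0, r5, r12⟩ := c2ineq_cos h
  refine ⟨?_, ?_, ?_, ?_⟩
  · intro i
    fin_cases i
    · exact hI 0
    · exact hI 5
    · exact hI 1
    · exact hI 2
  · unfold FC
    simp only [ca_0, ca_1, ca_2, ca_3]
    have s0 : 0 < sin (al (c2v x) 0 / 2) :=
      sin_pos_of_pos_of_lt_pi (by linarith [(hI 0).1]) (by linarith [(hI 0).1, (hI 0).2])
    have s5 : 0 < sin (al (c2v x) 5 / 2) :=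
      sin_pos_of_pos_of_lt_pi (by linarith [(hI 5).1]) (by linarith [(hI 5).1, (hI 5).2])
    have t0 : 2 * sin (al (c2v x) 0 / 2) ^ 2 = c / p := by
      rw [← r0, sin_sq_eq_half_sub]
      rw [show 2 * (al (c2v x) 0 / 2) = al (c2v x) 0 by ring]
      ring
    have t5 : 2 * sin (al (c2v x) 5 / 2) ^ 2 = c / q := by
      rw [← r5, sin_sq_eq_half_sub]
      rw [show 2 * (al (c2v x) 5 / 2) = al (c2v x) 5 by ring]
      ring
    have key : 2 * sin (al (c2v x) 0 / 2) * sin (al (c2v x) 5 / 2) = c / (√q * √p) := by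
      have hsp := sqrt_pos.2 hp
      have hsq := sqrt_pos.2 hq
      have h5 : (2 * sin (al (c2v x) 0 / 2) * sin (al (c2v x) 5 / 2)) ^ 2 =
          (c / (√q * √p)) ^ 2 := by
        have h6 : (2 * sin (al (c2v x) 0 / 2) * sin (al (c2v x) 5 / 2)) ^ 2 =
            (2 * sin (al (c2v x) 0 / 2) ^ 2) * (2 * sin (al (c2v x) 5 / 2) ^ 2) := by ring
        rw [h6, t0, t5, div_pow, mul_pow, sq_sqrt hp.le, sq_sqrt hq.le]
        field_simp
      exact (pow_left_inj₀ (by positivity) (by positivity) two_ne_zero).1 h5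
    have k1 : cos ((al (c2v x) 0 - al (c2v x) 5) / 2) =
        cos (al (c2v x) 0 / 2) * cos (al (c2v x) 5 / 2) +
          sin (al (c2v x) 0 / 2) * sin (al (c2v x) 5 / 2) := by
      rw [sub_div, cos_sub]
    have k2 : cos ((al (c2v x) 0 + al (c2v x) 5) / 2) =
        cos (al (c2v x) 0 / 2) * cos (al (c2v x) 5 / 2) -
          sin (al (c2v x) 0 / 2) * sin (al (c2v x) 5 / 2) := by
      rw [add_div, cos_add]
    rw [k1, k2]
    linear_combination key - r12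
  · have u0 := hsv 0
    have u2 := hsv 2
    simp [sv, Fin.sum_univ_six, ea, eb] at u0 u2
    simp only [ca_0, ca_1, ca_2, ca_3]
    rw [h4] at u2
    have h7 : |al (c2v x) 0 - al (c2v x) 5| <
        2 * (al (c2v x) 1 + al (c2v x) 2) - 2 * π + (al (c2v x) 0 + al (c2v x) 5) := by
      rw [abs_lt]
      constructor <;> linarith
    linarith
  · have u0 := hgc 0
    simp [gc, Fin.sum_univ_six, cl] at u0
    simp only [ca_2, ca_3]
    rw [h3, h4] at u0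
    refine lt_of_le_of_ne (by linarith) fun h8 => ?_
    have h9 : al (c2v x) 1 = π - al (c2v x) 2 := by linarith
    rw [h9, cos_pi_sub] at r12
    have hsp := sqrt_pos.2 hp
    have hsq := sqrt_pos.2 hq
    have : 0 < c / (√q * √p) := by positivity
    linarith

end Pool.Agent.Helper13.HT
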