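import Pool.Agent.Helper1.Tet.Boundary
import Pool.Agent.Helper13.HT.C2Ineq

/-!
# HT-19 (B): Hill tetrahedra from their angles

Let `l = c2v x ∈ TT`, `α j = al l j`, `α 4 = α 1`, `α 3 = α 2` (`c2_al`). `TT_facts`: `Phi (al l) j = κ * l j`, `κ > 0`. Let
`y = θ 2 = α 1`. From the hypotheses: `{θ 0, θ 1} = {π/3, π - 2 y}` (`θ 0 = π - B + A'`, `θ 1 = π - B - A'` with
`A' = (θ 0 - θ 1)/2 = ±(y - π/3)`, `B = y + π/3`), and `θ 3 = α 2 = α 3 = π/2`.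
Case `θ 1 = π/3`, `θ 0 = π - 2y`: with `cos α0 = -cos 2y`, `cos α5 = 1/2`, `cos α1 = cos α4 = cos y`, `cos α2 = cos α3 = 0` the
formulas `Phi_0, Phi_1, Phi_2, Phi_5` (Helper1/Tet/Boundary) give, with `K = 3/4 - cos² y`:
`Phi 0 = Phi 1 = sin 2y · K`, `Phi 2 = 2 cos y · K`, `Phi 5 = (√3/2) · 4 cos² y · K` (`sin (π/3) = √3/2`). So `l 0 = l 1`
(`a = b`), and `3 (Phi 2 ² - Phi 1 ²) = 12 K² cos² y (1 - sin² y) = 12 K² cos⁴ y = Phi 5 ²`: `HillRel (x 0) (x 1) (x 2 / 2) (x 3 / 2)`.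
Case `θ 0 = π/3`, `θ 1 = π - 2y`: the same with the roles of `0` and `5` exchanged (`Phi 5 = Phi 1`, `3 (Phi 2² - Phi 1²) = Phi 0²`):
`HillRel (x 1) (x 0) (x 2 / 2) (x 3 / 2)`.
`hill_of_angles'`: the same with `1 ↔ 2` exchanged (`θ 2 = π/2`, `y = θ 3`): last two alternatives of `HillC`.
-/

open Real Set
open Pool.Agent.Helper1.Tet

namespace Pool.Agent.Helper13.HT

/-- the algebra: from the values of `Phi` to the Hill relation -/
private theorem hillang_alg {κ a a' b c C S R : ℝ} (hκ : 0 < κ) (hS : S ^ 2 + C ^ 2 = 1)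
    (hR : R ^ 2 = 3) (h0 : (2 * S * C) * (3 / 4 - C ^ 2) = κ * a)
    (h1 : (2 * S * C) * (3 / 4 - C ^ 2) = κ * b) (h2 : 2 * C * (3 / 4 - C ^ 2) = κ * c)
    (h5 : (R / 2) * (4 * C ^ 2 * (3 / 4 - C ^ 2)) = κ * a') : HillRel a a' b c := by
  refine ⟨?_, ?_⟩
  · have : κ * a = κ * b := by rw [← h0, ← h1]
    exact mul_left_cancel₀ hκ.ne' this
  · have e : κ ^ 2 * (3 * (c ^ 2 - b ^ 2)) = κ ^ 2 * a' ^ 2 := by
      have e1 : κ ^ 2 * (3 * (c ^ 2 - b ^ 2)) = 3 * ((κ * c) ^ 2 - (κ * b) ^ 2) := by ring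
      have e2 : κ ^ 2 * a' ^ 2 = (κ * a') ^ 2 := by ring
      rw [e1, e2, ← h1, ← h2, ← h5]
      have hS' : S ^ 2 = 1 - C ^ 2 := by linarith
      have e3 : (2 * S * C * (3 / 4 - C ^ 2)) ^ 2 = 4 * S ^ 2 * C ^ 2 * (3 / 4 - C ^ 2) ^ 2 := by ring
      have e4 : (R / 2 * (4 * C ^ 2 * (3 / 4 - C ^ 2))) ^ 2 =
        R ^ 2 / 4 * (4 * C ^ 2 * (3 / 4 - C ^ 2)) ^ 2 := by ring
      rw [e3, e4, hS', hR]
      ring
    exact mul_left_cancel₀ (pow_ne_zero 2 hκ.ne') e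

/-- the general form: `u` and `v` are the two middle edges (1, 4) and (2, 3) in some order -/
private theorem hillang_main {x : Fin 4 → ℝ} (h : c2v x ∈ TT) (y : ℝ)
    (hy : (al (c2v x) 1 = y ∧ al (c2v x) 2 = π / 2) ∨ (al (c2v x) 2 = y ∧ al (c2v x) 1 = π / 2))
    (hB : π - (al (c2v x) 0 + al (c2v x) 5) / 2 = y + π / 3)
    (hA : |(al (c2v x) 0 - al (c2v x) 5) / 2| = |y - π / 3|) : HillC x := by
  obtain ⟨-, -, -, -, -, -, -, -, κ, hκ, hP⟩ := TT_facts h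
  obtain ⟨h4, h3⟩ := c2_al x
  have P0 := (BD.Phi_0 (al (c2v x))).symm.trans (hP 0)
  have P1 := (BD.Phi_1 (al (c2v x))).symm.trans (hP 1)
  have P2 := (BD.Phi_2 (al (c2v x))).symm.trans (hP 2)
  have P5 := (BD.Phi_5 (al (c2v x))).symm.trans (hP 5)
  simp only [c2v_0, c2v_1, c2v_2, c2v_5, h4, h3] at P0 P1 P2 P5
  have hc3 : cos (π / 3) = 1 / 2 := Real.cos_pi_div_three
  have hs3 : sin (π / 3) = √3 / 2 := Real.sin_pi_div_three
  have hc2 : cos (π / 2) = 0 := Real.cos_pi_div_two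
  have hs2 : sin (π / 2) = 1 := Real.sin_pi_div_two
  have hcy : cos (π - 2 * y) = 1 - 2 * cos y ^ 2 := by
    rw [Real.cos_pi_sub, Real.cos_two_mul]; ring
  have hsy : sin (π - 2 * y) = 2 * sin y * cos y := by
    rw [Real.sin_pi_sub, Real.sin_two_mul]
  have hS := Real.sin_sq_add_cos_sq y
  have hR : √3 ^ 2 = (3 : ℝ) := Real.sq_sqrt (by norm_num)
  rcases abs_eq_abs.1 hA with hA' | hA'
  · have a0 : al (c2v x) 0 = π / 3 := by linarith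
    have a5 : al (c2v x) 5 = π - 2 * y := by linarith
    rcases hy with ⟨a1, a2⟩ | ⟨a2, a1⟩
    · rw [a0, a1, a2, a5, hc3, hc2, hcy] at P0 P1 P2 P5
      rw [hs3] at P0
      rw [hs2] at P2
      rw [hsy] at P5
      refine Or.inr (Or.inl (hillang_alg hκ hS hR (a := x 1) (a' := x 0) (b := x 2 / 2)
        (c := x 3 / 2) ?_ ?_ ?_ ?_))
      · rw [← P5]; ring
      · rw [← P1]; ring
      · rw [← P2]; ring
      · rw [← P0]; ring
    · rw [a0, a1, a2, a5, hc3, hc2, hcy] at P0 P1 P2 P5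
      rw [hs3] at P0
      rw [hs2] at P1
      rw [hsy] at P5
      refine Or.inr (Or.inr (Or.inr (hillang_alg hκ hS hR (a := x 1) (a' := x 0) (b := x 3 / 2)
        (c := x 2 / 2) ?_ ?_ ?_ ?_)))
      · rw [← P5]; ring
      · rw [← P2]; ring
      · rw [← P1]; ring
      · rw [← P0]; ring
  · have a0 : al (c2v x) 0 = π - 2 * y := by linarith
    have a5 : al (c2v x) 5 = π / 3 := by linarith
    rcases hy with ⟨a1, a2⟩ | ⟨a2, a1⟩
    · rw [a0, a1, a2, a5, hc3, hc2, hcy] at P0 P1 P2 P5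
      rw [hs3] at P5
      rw [hs2] at P2
      rw [hsy] at P0
      refine Or.inl (hillang_alg hκ hS hR (a := x 0) (a' := x 1) (b := x 2 / 2)
        (c := x 3 / 2) ?_ ?_ ?_ ?_)
      · rw [← P0]; ring
      · rw [← P1]; ring
      · rw [← P2]; ring
      · rw [← P5]; ring
    · rw [a0, a1, a2, a5, hc3, hc2, hcy] at P0 P1 P2 P5
      rw [hs3] at P5
      rw [hs2] at P1
      rw [hsy] at P0
      refine Or.inr (Or.inr (Or.inl (hillang_alg hκ hS hR (a := x 0) (a' := x 1) (b := x 3 / 2)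
        (c := x 2 / 2) ?_ ?_ ?_ ?_)))
      · rw [← P0]; ring
      · rw [← P2]; ring
      · rw [← P1]; ring
      · rw [← P5]; ring

theorem hill_of_angles {x : Fin 4 → ℝ} (h : c2v x ∈ TT) (h3 : ca (c2v x) 3 = π / 2)
    (hB : π - (ca (c2v x) 0 + ca (c2v x) 1) / 2 = ca (c2v x) 2 + π / 3)
    (hA : |(ca (c2v x) 0 - ca (c2v x) 1) / 2| = |ca (c2v x) 2 - π / 3|) : HillC x :=
  hillang_main h (al (c2v x) 1) (Or.inl ⟨rfl, h3⟩) hB hA

theorem hill_of_angles' {x : Fin 4 → ℝ} (h : c2v x ∈ TT) (h2 : ca (c2v x) 2 = π / 2)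
    (hB : π - (ca (c2v x) 0 + ca (c2v x) 1) / 2 = ca (c2v x) 3 + π / 3)
    (hA : |(ca (c2v x) 0 - ca (c2v x) 1) / 2| = |ca (c2v x) 3 - π / 3|) : HillC x :=
  hillang_main h (al (c2v x) 2) (Or.inr ⟨rfl, h2⟩) hB hA

end Pool.Agent.Helper13.HT
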