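import Pool.Agent.Helper13.HT.Defs

/-!
# HT-18 (C): at most two half-integral relations along the second family

Let `n i : ℕ` with `u i = n i / 2`. From `h2` (divide by `a ≠ 0`): `n 0 - n 1 + σ (n 2 - n 3) = 0`. In `h1` the terms with `A` are
`A (u 0 - u 1 + σ (u 2 - u 3)) = 0`; the rest divided by `π`: `3 (n 0 + n 1) + 2 (n 2 + n 3) = 12`. With `S = n 0 + n 1`,
`T = n 2 + n 3`: `(S, T) ∈ {(4,0), (2,3), (0,6)}`, and `S ≡ n 0 - n 1 ≡ n 2 - n 3 ≡ T mod 2`, so `(4, 0)` or `(0, 6)`.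
`(4,0)`: `n 2 = n 3 = 0`, `n 0 = n 1 = 2`. `(0,6)`: `n 0 = n 1 = 0`, `n 2 = n 3 = 3`. (Cast to `ℤ`/`ℕ` and `omega`.)
-/

open Real

namespace Pool.Agent.Helper13.HT

private theorem kkpr_arith (n0 n1 n2 n3 s : ℤ) (hs : s = 1 ∨ s = -1) (p0 : 0 ≤ n0) (p1 : 0 ≤ n1)
    (p2 : 0 ≤ n2) (p3 : 0 ≤ n3) (h1 : 3 * (n0 + n1) + 2 * (n2 + n3) = 12)
    (h2 : n0 - n1 + s * (n2 - n3) = 0) :
    (n0 = 2 ∧ n1 = 2 ∧ n2 = 0 ∧ n3 = 0) ∨ (n0 = 0 ∧ n1 = 0 ∧ n2 = 3 ∧ n3 = 3) := by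
  have hS : n0 + n1 = 4 ∨ n0 + n1 = 2 ∨ n0 + n1 = 0 := by omega
  rcases hs with rfl | rfl <;> rcases hS with h | h | h <;> omega

theorem kkpr_two (a A σ : ℝ) (ha : a ≠ 0) (hσ : σ = 1 ∨ σ = -1) (u : Fin 4 → ℝ) (hu : HalfNat u)
    (h1 : u 0 * (π / 2 + A) + u 1 * (π / 2 - A) + u 2 * (π / 3 + σ * A) + u 3 * (π / 3 - σ * A) = π)
    (h2 : u 0 * a - u 1 * a + u 2 * (σ * a) - u 3 * (σ * a) = 0) :
    u = ![1, 1, 0, 0] ∨ u = ![0, 0, 3 / 2, 3 / 2] := by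
  have h3 : u 0 - u 1 + σ * (u 2 - u 3) = 0 := by
    have h : a * (u 0 - u 1 + σ * (u 2 - u 3)) = 0 := by linear_combination h2
    exact (mul_eq_zero.mp h).resolve_left ha
  have h4 : 3 * (u 0 + u 1) + 2 * (u 2 + u 3) = 6 := by
    have hpi : π ≠ 0 := Real.pi_ne_zero
    have h : π * (3 * (u 0 + u 1) + 2 * (u 2 + u 3) - 6) = 0 := by
      linear_combination 6 * h1 - 6 * A * h3
    linarith [(mul_eq_zero.mp h).resolve_left hpi]
  obtain ⟨n0, e0⟩ := hu 0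
  obtain ⟨n1, e1⟩ := hu 1
  obtain ⟨n2, e2⟩ := hu 2
  obtain ⟨n3, e3⟩ := hu 3
  have h5 : 3 * ((n0 : ℤ) + n1) + 2 * ((n2 : ℤ) + n3) = 12 := by
    have h : (3 * ((n0 : ℝ) + n1) + 2 * ((n2 : ℝ) + n3)) = 12 := by
      rw [e0, e1, e2, e3] at h4; linarith
    exact_mod_cast h
  obtain ⟨s, hs, hsσ⟩ : ∃ s : ℤ, (s = 1 ∨ s = -1) ∧ (s : ℝ) = σ := by
    rcases hσ with h | h
    · exact ⟨1, Or.inl rfl, by rw [h]; norm_num⟩
    · exact ⟨-1, Or.inr rfl, by rw [h]; norm_num⟩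
  have h6 : (n0 : ℤ) - n1 + s * ((n2 : ℤ) - n3) = 0 := by
    have h : ((n0 : ℝ) - n1 + s * ((n2 : ℝ) - n3)) = 0 := by
      rw [hsσ]
      rw [e0, e1, e2, e3] at h3
      linarith
    exact_mod_cast h
  rcases kkpr_arith n0 n1 n2 n3 s hs (by positivity) (by positivity) (by positivity) (by positivity)
    h5 h6 with ⟨q0, q1, q2, q3⟩ | ⟨q0, q1, q2, q3⟩
  · left
    have r0 : (n0 : ℝ) = 2 := by exact_mod_cast q0
    have r1 : (n1 : ℝ) = 2 := by exact_mod_cast q1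
    have r2 : (n2 : ℝ) = 0 := by exact_mod_cast q2
    have r3 : (n3 : ℝ) = 0 := by exact_mod_cast q3
    funext i
    fin_cases i
    · show u 0 = 1
      rw [e0, r0]; norm_num
    · show u 1 = 1
      rw [e1, r1]; norm_num
    · show u 2 = 0
      rw [e2, r2]; norm_num
    · show u 3 = 0
      rw [e3, r3]; norm_num
  · right
    have r0 : (n0 : ℝ) = 0 := by exact_mod_cast q0
    have r1 : (n1 : ℝ) = 0 := by exact_mod_cast q1
    have r2 : (n2 : ℝ) = 3 := by exact_mod_cast q2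
    have r3 : (n3 : ℝ) = 3 := by exact_mod_cast q3
    funext i
    fin_cases i
    · show u 0 = 0
      rw [e0, r0]; norm_num
    · show u 1 = 0
      rw [e1, r1]; norm_num
    · show u 2 = 3 / 2
      rw [e2, r2]
    · show u 3 = 3 / 2
      rw [e3, r3]

end Pool.Agent.Helper13.HT
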