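import Pool.Agent.Helper1.Tet.TTFacts
import Pool.Agent.Helper13.HT.Defs

/-!
# HT-08 (B): formulas for the class with a mirror plane

`miv x = (p, a, b, a, b, q)` with `p = x 0, q = x 1, x 2 = 2a, x 3 = 2b`. All are polynomial identities after unfolding
(`simp [D, W, heron, wform, ea, eb, ec, ed, ix, miv]`, then `ring`; constants checked numerically), except `mi_TT`:
if `x 0 < x 2`, `x 0 < x 3`, `0 < HM x` then `Gr > 0` (`mi_Gr`) and all `D v > 0` (`mi_D`), and `heron > 0` with positive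
sides gives the triangle inequalities. Conversely `miv x ∈ TT`: the faces `(p, a, a)` and `(p, b, b)` give
`x 0 < x 2`, `x 0 < x 3`, and `Gr > 0` gives `HM x > 0`.
-/

open Real Set
open Pool.Agent.Helper1.Tet

namespace Pool.Agent.Helper13.HT

private theorem mif_heron {a b q : ℝ} (ha : 0 < a) (hb : 0 < b) (hq : 0 < q) (h : 0 < heron a b q) :
    q < a + b ∧ b < a + q ∧ a < b + q := by
  unfold heron at h
  have h0 : 0 < a + b + q := by linarith
  refine ⟨?_, ?_, ?_⟩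
  · by_contra hc
    push Not at hc
    have h1 : a + b - q ≤ 0 := by linarith
    have h2 : 0 < a - b + q := by linarith
    have h3 : 0 < -a + b + q := by linarith
    have h4 : (a + b + q) * (a + b - q) * (a - b + q) * (-a + b + q) ≤ 0 := by
      have h5 : (a + b + q) * (a + b - q) ≤ 0 := mul_nonpos_of_nonneg_of_nonpos h0.le h1
      have h6 : (a + b + q) * (a + b - q) * (a - b + q) ≤ 0 := mul_nonpos_of_nonpos_of_nonneg h5 h2.le
      exact mul_nonpos_of_nonpos_of_nonneg h6 h3.le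
    linarith
  · by_contra hc
    push Not at hc
    have h1 : 0 < a + b - q := by linarith
    have h2 : a - b + q ≤ 0 := by linarith
    have h3 : 0 < -a + b + q := by linarith
    have h4 : (a + b + q) * (a + b - q) * (a - b + q) * (-a + b + q) ≤ 0 := by
      have h5 : 0 ≤ (a + b + q) * (a + b - q) := mul_nonneg h0.le h1.le
      have h6 : (a + b + q) * (a + b - q) * (a - b + q) ≤ 0 := mul_nonpos_of_nonneg_of_nonpos h5 h2
      exact mul_nonpos_of_nonpos_of_nonneg h6 h3.le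
    linarith
  · by_contra hc
    push Not at hc
    have h1 : 0 < a + b - q := by linarith
    have h2 : 0 < a - b + q := by linarith
    have h3 : -a + b + q ≤ 0 := by linarith
    have h4 : (a + b + q) * (a + b - q) * (a - b + q) * (-a + b + q) ≤ 0 := by
      have h5 : 0 ≤ (a + b + q) * (a + b - q) := mul_nonneg h0.le h1.le
      have h6 : 0 ≤ (a + b + q) * (a + b - q) * (a - b + q) := mul_nonneg h5 h2.le
      exact mul_nonpos_of_nonneg_of_nonpos h6 h3
    linarith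

theorem mi_al (x : Fin 4 → ℝ) : al (miv x) 3 = al (miv x) 1 ∧ al (miv x) 4 = al (miv x) 2 := by
  have hD : D (miv x) 0 = D (miv x) 1 := by
    simp [D, heron]
  have hW3 : W (miv x) 3 = W (miv x) 1 := by
    simp only [W, wform, ea, eb, ec, ed, ix]
    simp
  have hW4 : W (miv x) 4 = W (miv x) 2 := by
    simp only [W, wform, ea, eb, ec, ed, ix]
    simp
  constructor
  · unfold al
    rw [hW3]
    have h1 : ec 3 = 0 := rfl
    have h2 : ec 1 = 1 := rfl
    have h3 : ed 3 = ed 1 := rfl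
    rw [h1, h2, h3, hD]
  · unfold al
    rw [hW4]
    have h1 : ec 4 = 0 := rfl
    have h2 : ec 2 = 1 := rfl
    have h3 : ed 4 = ed 2 := rfl
    rw [h1, h2, h3, hD]

theorem mi_D (x : Fin 4 → ℝ) :
    D (miv x) 0 = x 0 ^ 2 * x 1 ^ 2 + HM x / 16 ∧ D (miv x) 1 = x 0 ^ 2 * x 1 ^ 2 + HM x / 16 ∧
    D (miv x) 2 = x 0 ^ 2 * (x 3 ^ 2 - x 0 ^ 2) ∧ D (miv x) 3 = x 0 ^ 2 * (x 2 ^ 2 - x 0 ^ 2) := by
  refine ⟨?_, ?_, ?_, ?_⟩ <;>
  · simp only [D, heron, HM]
    simp
    ring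

theorem mi_W (x : Fin 4 → ℝ) :
    W (miv x) 0 = x 0 ^ 2 * (x 2 ^ 2 + x 3 ^ 2 - 2 * x 0 ^ 2 - 4 * x 1 ^ 2) / 2 ∧
    W (miv x) 5 = HM x / 16 - x 0 ^ 2 * x 1 ^ 2 ∧
    W (miv x) 1 = x 0 ^ 2 * (x 2 ^ 2 - x 3 ^ 2 + 4 * x 1 ^ 2) / 4 ∧
    W (miv x) 2 = x 0 ^ 2 * (x 3 ^ 2 - x 2 ^ 2 + 4 * x 1 ^ 2) / 4 := by
  refine ⟨?_, ?_, ?_, ?_⟩ <;>
  · simp only [W, wform, ea, eb, ec, ed, ix, HM]
    simp
    ring

theorem mi_Gr (x : Fin 4 → ℝ) : 64 * Gr (miv x) = x 0 ^ 2 * HM x := by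
  simp only [Gr, HM]
  simp
  ring

theorem mi_TT (x : Fin 4 → ℝ) (hx : ∀ i, 0 < x i) :
    miv x ∈ TT ↔ x 0 < x 2 ∧ x 0 < x 3 ∧ 0 < HM x := by
  have h0 := hx 0
  have h1 := hx 1
  have h2 := hx 2
  have h3 := hx 3
  have hGr := mi_Gr x
  have hx0 : 0 < x 0 ^ 2 := by positivity
  constructor
  · rintro ⟨hT, hG⟩
    have t1 : x 0 < x 2 := by
      have h4 := hT 0 2 1 (by decide) (by decide) (by decide)
      simp [ix] at h4
      linarith
    have t2 : x 0 < x 3 := by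
      have h4 := hT 0 3 1 (by decide) (by decide) (by decide)
      simp [ix] at h4
      linarith
    refine ⟨t1, t2, ?_⟩
    have h4 : 0 < x 0 ^ 2 * HM x := by rw [← hGr]; linarith
    exact (mul_pos_iff_of_pos_left hx0).1 h4
  · rintro ⟨t1, t2, hH⟩
    have hG : 0 < Gr (miv x) := by
      have h4 : 0 < x 0 ^ 2 * HM x := mul_pos hx0 hH
      linarith
    refine ⟨?_, hG⟩
    have hD := (mi_D x).2.1
    have hDp : 0 < heron (x 2 / 2) (x 3 / 2) (x 1) := by
      have h4 : D (miv x) 1 = heron (x 2 / 2) (x 3 / 2) (x 1) := by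
        simp [D]
      rw [← h4, hD]
      have h5 : 0 < x 0 ^ 2 * x 1 ^ 2 := by positivity
      linarith
    obtain ⟨s1, s2, s3⟩ := mif_heron (by linarith) (by linarith) h1 hDp
    intro a b c hab hbc hac
    fin_cases a <;> fin_cases b <;> fin_cases c <;> simp [ix] at hab hbc hac ⊢ <;> linarith

end Pool.Agent.Helper13.HT
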