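import Pool.Agent.Helper1.Tet.TTFacts
import Pool.Agent.Helper13.HT.C2Form
import Pool.Agent.Helper13.HT.MiForm

/-!
# HT-26 (E): the class angles determine the normalized point

`angles_inj`: all six angles of `V x` are determined by `ca (V x)` (`c2_al`, `mi_al`), so `al (V x) = al (V y)`. `TT_facts`: `Phi (al (V x)) j = κ * V x j`, `κ > 0`, and the same for
`y` with `κ'`: `V y = t • V x`, `t = κ/κ' > 0`; so `y = t • x` (`x 0 = V x 0`, `x 1 = V x 5`, `x 2 = 2 V x 1`, `x 3 = 2 V x 2`), and `∑ y i θ i = t ∑ x i θ i`, i.e. `π = t π`.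
`rank_four`: four linearly independent `u k` in `ℝ⁴` with `∑ u k i θ i = π` determine `θ` (if `θ, θ'` are solutions, `θ - θ'` is orthogonal to a basis:
e.g. `LinearIndependent` of 4 vectors in `Fin 4 → ℝ` spans (`basisOfLinearIndependentOfCardEqFinrank`), or the matrix `Matrix.of u` is invertible and
`mulVec` is injective).
-/

open Real Set
open Pool.Agent.Helper1.Tet

namespace Pool.Agent.Helper13.HT

private theorem scale_eq {V : (Fin 4 → ℝ) → Fin 6 → ℝ} {x y : Fin 4 → ℝ} (hx : Nrm V x)
    (hy : Nrm V y) (hal : al (V x) = al (V y)) (h : ca (V x) = ca (V y))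
    (hco : ∀ t : ℝ, (∀ j, V y j = t * V x j) → ∀ i, y i = t * x i) : x = y := by
  obtain ⟨-, -, -, -, -, -, -, -, κ, hκ, hk⟩ := TT_facts hx.1
  obtain ⟨-, -, -, -, -, -, -, -, κ', hκ', hk'⟩ := TT_facts hy.1
  have h1 : ∀ j, V y j = (κ / κ') * V x j := by
    intro j
    have h2 : κ * V x j = κ' * V y j := by
      rw [← hk j, ← hk' j, hal]
    rw [div_mul_eq_mul_div, h2, mul_comm κ', mul_div_assoc, div_self hκ'.ne', mul_one]
  have h3 := hco _ h1
  have h4 : ∑ i, y i * ca (V y) i = (κ / κ') * ∑ i, x i * ca (V x) i := by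
    rw [Finset.mul_sum]
    refine Finset.sum_congr rfl fun i _ => ?_
    rw [h3 i, h, mul_assoc]
  rw [hx.2, hy.2] at h4
  have h5 : κ / κ' = 1 := by
    have h6 : (κ / κ') * π = 1 * π := by rw [one_mul]; exact h4.symm
    exact mul_right_cancel₀ pi_pos.ne' h6
  funext i
  rw [h3 i, h5, one_mul]

theorem angles_inj {V : (Fin 4 → ℝ) → Fin 6 → ℝ} (hV : V = c2v ∨ V = miv) {x y : Fin 4 → ℝ}
    (hx : Nrm V x) (hy : Nrm V y) (h : ca (V x) = ca (V y)) : x = y := by
  have e0 : al (V x) 0 = al (V y) 0 := congrFun h 0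
  have e5 : al (V x) 5 = al (V y) 5 := congrFun h 1
  have e1 : al (V x) 1 = al (V y) 1 := congrFun h 2
  have e2 : al (V x) 2 = al (V y) 2 := congrFun h 3
  rcases hV with rfl | rfl
  · have e4 : al (c2v x) 4 = al (c2v y) 4 := by rw [(c2_al x).1, (c2_al y).1, e1]
    have e3 : al (c2v x) 3 = al (c2v y) 3 := by rw [(c2_al x).2, (c2_al y).2, e2]
    have hal : al (c2v x) = al (c2v y) := by
      funext j
      fin_cases j
      · exact e0
      · exact e1
      · exact e2
      · exact e3
      · exact e4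
      · exact e5
    refine scale_eq hx hy hal h fun t ht i => ?_
    have t0 := ht 0
    have t5 := ht 5
    have t1 := ht 1
    have t2 := ht 2
    simp only [c2v_0, c2v_1, c2v_2, c2v_5] at t0 t1 t2 t5
    fin_cases i
    · exact t0
    · exact t5
    · show y 2 = t * x 2
      linarith
    · show y 3 = t * x 3
      linarith
  · have e3 : al (miv x) 3 = al (miv y) 3 := by rw [(mi_al x).1, (mi_al y).1, e1]
    have e4 : al (miv x) 4 = al (miv y) 4 := by rw [(mi_al x).2, (mi_al y).2, e2]
    have hal : al (miv x) = al (miv y) := by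
      funext j
      fin_cases j
      · exact e0
      · exact e1
      · exact e2
      · exact e3
      · exact e4
      · exact e5
    refine scale_eq hx hy hal h fun t ht i => ?_
    have t0 := ht 0
    have t5 := ht 5
    have t1 := ht 1
    have t2 := ht 2
    simp only [miv_0, miv_1, miv_2, miv_5] at t0 t1 t2 t5
    fin_cases i
    · exact t0
    · exact t5
    · show y 2 = t * x 2
      linarith
    · show y 3 = t * x 3
      linarith

theorem rank_four {V : (Fin 4 → ℝ) → Fin 6 → ℝ} (hV : V = c2v ∨ V = miv)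
    (u : Fin 4 → Fin 4 → ℝ) (hu : LinearIndependent ℝ u) {x y : Fin 4 → ℝ} (hx : Nrm V x)
    (hy : Nrm V y) (h1 : ∀ k, ∑ i, u k i * ca (V x) i = π)
    (h2 : ∀ k, ∑ i, u k i * ca (V y) i = π) : x = y := by
  refine angles_inj hV hx hy ?_
  have hM : IsUnit (Matrix.of u) := Matrix.linearIndependent_rows_iff_isUnit.1 hu
  apply Matrix.mulVec_injective_iff_isUnit.2 hM
  funext k
  show ∑ i, u k i * ca (V x) i = ∑ i, u k i * ca (V y) i
  rw [h1, h2]

end Pool.Agent.Helper13.HT
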