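import Pool.Agent.Helper1.Tet.Analytic
import Pool.Agent.Helper13.HT.Rank4

/-!
# HT-27 (E): a relation between the angles holds on the whole line

The vectors `u 0, u 1, u 2` are linearly independent in `ℝ⁴`, so their common kernel `{β : ∀ k, ∑ i, u k i * β i = 0}` is spanned by one `β ≠ 0`
(rank–nullity). Fix `x₀ ∈ S'` and `θ₀ = ca (V x₀)`. For `x ∈ S'`: `ca (V x) - θ₀ = t(x) • β`. `t` is injective on `S'` (`angles_inj`), and bounded (angles in `(0, π)`, `β ≠ 0`),
so `T = t '' S'` is an infinite bounded set of reals, it has an accumulation point `t₀`. The function `t ↦ f (θ₀ + t • β)` is analytic on `ℝ` and vanishes on `T`, so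
it is identically `0` (`AnalyticOnNhd.eqOn_zero_of_preconnected_of_frequently_eq_zero`). For `x ∈ S'`, `ca (V x) + t • β = θ₀ + (t(x) + t) • β`.
(`hf` is stated on `Fin 4 → ℝ`; compose with the affine map.)
-/

open Real Set Filter Topology
open Pool.Agent.Helper1.Tet
open scoped ContDiff

namespace Pool.Agent.Helper13.HT

private theorem kernel_line (u : Fin 3 → Fin 4 → ℝ) (hu : LinearIndependent ℝ u) :
    ∃ β : Fin 4 → ℝ, β ≠ 0 ∧ (∀ k, ∑ i, u k i * β i = 0) ∧
      ∀ w : Fin 4 → ℝ, (∀ k, ∑ i, u k i * w i = 0) → ∃ t : ℝ, w = t • β := by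
  classical
  set M : Matrix (Fin 3) (Fin 4) ℝ := Matrix.of u with hM
  have hrow : LinearIndependent ℝ M.row := hu
  have hrank : M.rank = 3 := by
    rw [LinearIndependent.rank_matrix hrow]
    rfl
  have h1 := LinearMap.finrank_range_add_finrank_ker M.mulVecLin
  have h2 : Module.finrank ℝ (LinearMap.range M.mulVecLin) = 3 := hrank
  have h3 : Module.finrank ℝ (Fin 4 → ℝ) = 4 := by simp
  have h4 : Module.finrank ℝ (LinearMap.ker M.mulVecLin) = 1 := by omega
  obtain ⟨β, hβ, hall⟩ := finrank_eq_one_iff'.1 h4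
  have hmem : ∀ w : Fin 4 → ℝ, w ∈ LinearMap.ker M.mulVecLin ↔ ∀ k, ∑ i, u k i * w i = 0 := by
    intro w
    rw [LinearMap.mem_ker]
    constructor
    · intro h k
      exact congrFun h k
    · intro h
      funext k
      exact h k
  refine ⟨β.1, ?_, (hmem β.1).1 β.2, ?_⟩
  · intro h
    exact hβ (Subtype.ext h)
  · intro w hw
    obtain ⟨c, hc⟩ := hall ⟨w, (hmem w).2 hw⟩
    refine ⟨c, ?_⟩
    have := congrArg Subtype.val hc
    exact this.symm

private theorem ca_mem {V : (Fin 4 → ℝ) → Fin 6 → ℝ} {x : Fin 4 → ℝ} (hx : Nrm V x) (i : Fin 4) :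
    0 < ca (V x) i ∧ ca (V x) i < π := by
  obtain ⟨-, -, -, -, hal, -⟩ := TT_facts hx.1
  fin_cases i
  · exact hal 0
  · exact hal 5
  · exact hal 1
  · exact hal 2

theorem line_analytic {V : (Fin 4 → ℝ) → Fin 6 → ℝ} (hV : V = c2v ∨ V = miv)
    (u : Fin 3 → Fin 4 → ℝ) (hu : LinearIndependent ℝ u) (S' : Set (Fin 4 → ℝ))
    (hS' : S'.Infinite) (hn : ∀ x ∈ S', Nrm V x) (hr : ∀ x ∈ S', ∀ k, ∑ i, u k i * ca (V x) i = π)
    (f : (Fin 4 → ℝ) → ℝ) (hf : AnalyticOnNhd ℝ f univ) (hfS : ∀ x ∈ S', f (ca (V x)) = 0) :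
    ∃ β : Fin 4 → ℝ, β ≠ 0 ∧ (∀ k, ∑ i, u k i * β i = 0) ∧
      ∀ x ∈ S', ∀ t : ℝ, f (ca (V x) + t • β) = 0 := by
  classical
  obtain ⟨β, hβ, hker, hline⟩ := kernel_line u hu
  refine ⟨β, hβ, hker, ?_⟩
  obtain ⟨x₀, hx₀⟩ := hS'.nonempty
  set θ : Fin 4 → ℝ := ca (V x₀) with hθ
  have hT : ∀ x ∈ S', ∃ t : ℝ, ca (V x) - θ = t • β := by
    intro x hx
    refine hline _ fun k => ?_
    have h1 := hr x hx k
    have h2 := hr x₀ hx₀ k
    have h3 : ∑ i, u k i * (ca (V x) - θ) i =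
        ∑ i, u k i * ca (V x) i - ∑ i, u k i * ca (V x₀) i := by
      rw [← Finset.sum_sub_distrib]
      refine Finset.sum_congr rfl fun i _ => ?_
      rw [Pi.sub_apply, mul_sub]
    rw [h3, h1, h2, sub_self]
  choose! τ hτ using hT
  have hinj : InjOn τ S' := by
    intro x hx y hy hxy
    refine angles_inj hV (hn x hx) (hn y hy) ?_
    have h1 := hτ x hx
    have h2 := hτ y hy
    rw [hxy, ← h2] at h1
    exact sub_left_injective h1
  have hTinf : (τ '' S').Infinite := hS'.image hinj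
  obtain ⟨i, hi⟩ : ∃ i, β i ≠ 0 := by
    by_contra hcon
    push Not at hcon
    exact hβ (funext hcon)
  have hbd : τ '' S' ⊆ Icc (-(π / |β i|)) (π / |β i|) := by
    rintro s ⟨x, hx, rfl⟩
    rw [mem_Icc, ← abs_le, le_div_iff₀ (abs_pos.2 hi), ← abs_mul]
    have h1 := congrFun (hτ x hx) i
    simp only [Pi.sub_apply, Pi.smul_apply, smul_eq_mul] at h1
    rw [← h1, abs_le]
    have h2 := ca_mem (hn x hx) i
    have h3 := ca_mem (hn x₀ hx₀) i
    constructor <;> linarith [h2.1, h2.2, h3.1, h3.2]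
  obtain ⟨t₀, -, ht₀⟩ := hTinf.exists_accPt_of_subset_isCompact isCompact_Icc hbd
  rw [accPt_iff_frequently_nhdsNE] at ht₀
  have hfT : ∀ s ∈ τ '' S', f (θ + s • β) = 0 := by
    rintro s ⟨x, hx, rfl⟩
    rw [← hτ x hx, add_sub_cancel]
    exact hfS x hx
  have hg : AnalyticOnNhd ℝ (fun s : ℝ => f (θ + s • β)) univ := by
    intro s _
    have h1 : AnalyticAt ℝ (fun s : ℝ => θ + s • β) s := by fun_prop
    exact AnalyticAt.fun_comp (g := f) (f := fun s : ℝ => θ + s • β) (hf (θ + s • β) (mem_univ _)) h1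
  have hzero := hg.eqOn_zero_of_preconnected_of_frequently_eq_zero isPreconnected_univ
    (mem_univ t₀) (ht₀.mono fun s hs => hfT s hs)
  intro x hx t
  have h1 : ca (V x) + t • β = θ + (τ x + t) • β := by
    rw [add_smul, ← hτ x hx]
    abel
  rw [h1]
  exact hzero (mem_univ (τ x + t))

/-- the two relations are analytic -/
theorem analytic_FC : AnalyticOnNhd ℝ FC univ := by
  intro θ _
  have h : ContDiff ℝ ω FC := by
    unfold FC
    fun_prop
  exact h.contDiffAt.analyticAt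

theorem analytic_FM : AnalyticOnNhd ℝ FM univ := by
  intro θ _
  have h : ContDiff ℝ ω FM := by
    unfold FM
    fun_prop
  exact h.contDiffAt.analyticAt

end Pool.Agent.Helper13.HT
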