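import Pool.Agent.Helper13.HT.RankThree
import Pool.Agent.Helper13.HT.C2Line
import Pool.Agent.Helper13.HT.Kkpr
import Pool.Agent.Helper13.HT.HillAng
import Pool.Agent.Helper13.HT.LineAn

/-!
# HT-28c (E): finitely many non-Hill tiling shapes in a compact set of the class with a two-fold axis

Suppose the set is infinite; `pigeon` gives `r`, `u`, `S'`; `rank_three`: `r = 3` (`subst`). `line_analytic` with `f = FC` (`c2_angles`, `analytic_FC`): `β ≠ 0`, `FC (θ + t β) = 0` for all `t`, at `θ = ca (c2v x)`,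
`x ∈ S'`. Put `A = (θ0-θ1)/2`, `B = π - (θ0+θ1)/2`, `C = θ2`, `D = θ3` with slopes `a = (β0-β1)/2`, `b = -(β0+β1)/2`, `c = β2`, `d = β3` (not all 0); `-cos ((θ0+θ1)/2) = cos B`. `c2_line` (its hypotheses: `c2_angles`;
`|A| < B` is `max(θ0, θ1) < π`). First two alternatives: `HillC x` by `hill_of_angles`, `hill_of_angles'`: excluded. Third: `b = 0`, so `β1 = -β0`, `a = β0`, `B = π/2`, `θ0 = π/2 + A`, `θ1 = π/2 - A`,
and `θ2 = π/3 + σA`, `θ3 = π/3 - σA`, `β2 = σ a`, `β3 = -σ a`, `σ = ±1`: `kkpr_two` for `u 0, u 1, u 2`: two of the three are equal: contradiction with linear independence (`LinearIndependent.injective`).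
-/

open Real Set
open Pool.Agent.Helper1.Tet

namespace Pool.Agent.Helper13.HT

theorem c2_finite (K : Set (Fin 4 → ℝ)) (hK : IsCompact K) (hKT : ∀ x ∈ K, c2v x ∈ TT) :
    {x | x ∈ K ∧ Nrm c2v x ∧ Cone c2v x ∧ ¬ HillC x}.Finite := by
  by_contra hS
  obtain ⟨r, u, S', hr, hsub, hinf, hli, hhalf, htup⟩ := pigeon (Or.inl rfl) K hK hKT _ hS
    (fun x hx => hx.1) (fun x hx => ⟨hx.2.1, hx.2.2.1⟩)
  have hr3 : r = 3 := rank_three (Or.inl rfl) K hK hKT S' hinf (fun x hx => (hsub hx).1)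
    (fun x hx => (hsub hx).2.1) r hr u hli hhalf htup
  subst hr3
  obtain ⟨β, hβ, hβu, hline⟩ := line_analytic (Or.inl rfl) u hli S' hinf
    (fun x hx => (hsub hx).2.1) (fun x hx => (htup x hx).1) FC analytic_FC
    (fun x hx => (c2_angles (hsub hx).2.1.1).2.1)
  obtain ⟨x, hx⟩ := hinf.nonempty
  have hT := (hsub hx).2.1.1
  have hnH := (hsub hx).2.2.2
  obtain ⟨h0, -, h1, h2⟩ := c2_angles hT
  have hrel := (htup x hx).1
  have hln := hline x hx
  have hHill := fun a b c => hnH (hill_of_angles hT a b c)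
  have hHill' := fun a b c => hnH (hill_of_angles' hT a b c)
  clear hline htup hS hK hKT hinf hsub hnH
  generalize ca (c2v x) = θ at *
  have hl : ∀ t : ℝ, cos ((θ 0 - θ 1) / 2 + (β 0 - β 1) / 2 * t) +
      cos (π - (θ 0 + θ 1) / 2 + -(β 0 + β 1) / 2 * t) = cos (θ 2 + β 2 * t) +
        cos (θ 3 + β 3 * t) := by
    intro t
    have h := hln t
    simp only [FC, Pi.add_apply, Pi.smul_apply, smul_eq_mul] at h
    have e1 : (θ 0 + t * β 0 - (θ 1 + t * β 1)) / 2 = (θ 0 - θ 1) / 2 + (β 0 - β 1) / 2 * t := by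
      ring
    have e2 : π - (θ 0 + θ 1) / 2 + -(β 0 + β 1) / 2 * t =
        π - (θ 0 + t * β 0 + (θ 1 + t * β 1)) / 2 := by ring
    rw [e2, cos_pi_sub, ← e1, mul_comm (β 2), mul_comm (β 3)]
    linarith
  have hne : ¬ ((β 0 - β 1) / 2 = 0 ∧ -(β 0 + β 1) / 2 = 0 ∧ β 2 = 0 ∧ β 3 = 0) := by
    rintro ⟨q0, q1, q2, q3⟩
    apply hβ
    funext i
    fin_cases i
    · show β 0 = 0
      linarith
    · show β 1 = 0
      linarith
    · exact q2
    · exact q3
  have hA : |(θ 0 - θ 1) / 2| = |θ 0 - θ 1| / 2 := by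
    rw [abs_div, abs_of_pos (by norm_num : (0 : ℝ) < 2)]
  have hAB : |(θ 0 - θ 1) / 2| < π - (θ 0 + θ 1) / 2 := by
    rw [abs_lt]
    have a0 := (h0 0).2
    have a1 := (h0 1).2
    constructor <;> linarith
  have three : ∀ (σ : ℝ), (σ = 1 ∨ σ = -1) → π - (θ 0 + θ 1) / 2 = π / 2 →
      -(β 0 + β 1) / 2 = 0 → (β 0 - β 1) / 2 ≠ 0 → θ 2 = π / 3 + σ * ((θ 0 - θ 1) / 2) →
      θ 3 = π / 3 - σ * ((θ 0 - θ 1) / 2) → β 2 = σ * ((β 0 - β 1) / 2) →
      β 3 = -(σ * ((β 0 - β 1) / 2)) → False := by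
    intro σ hσ hB hb ha hC hD hc hd
    have key : ∀ k : Fin 3, u k = ![1, 1, 0, 0] ∨ u k = ![0, 0, 3 / 2, 3 / 2] := by
      intro k
      refine kkpr_two ((β 0 - β 1) / 2) ((θ 0 - θ 1) / 2) σ ha hσ (u k) (hhalf k) ?_ ?_
      · have h := hrel k
        rw [Fin.sum_univ_four] at h
        rw [← hC, ← hD]
        have t0 : π / 2 + (θ 0 - θ 1) / 2 = θ 0 := by linarith
        have t1 : π / 2 - (θ 0 - θ 1) / 2 = θ 1 := by linarith
        rw [t0, t1]
        exact h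
      · have h := hβu k
        rw [Fin.sum_univ_four] at h
        have t0 : (β 0 - β 1) / 2 = β 0 := by linarith
        have t1 : β 1 = -β 0 := by linarith
        rw [hc, hd, t0, t1] at h
        rw [t0]
        linarith
    have hi := hli.injective
    have n01 : u 0 ≠ u 1 := fun e => absurd (hi e) (by decide)
    have n02 : u 0 ≠ u 2 := fun e => absurd (hi e) (by decide)
    have n12 : u 1 ≠ u 2 := fun e => absurd (hi e) (by decide)
    rcases key 0 with k0 | k0 <;> rcases key 1 with k1 | k1 <;> rcases key 2 with k2 | k2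
    · exact n01 (k0.trans k1.symm)
    · exact n01 (k0.trans k1.symm)
    · exact n02 (k0.trans k2.symm)
    · exact n12 (k1.trans k2.symm)
    · exact n12 (k1.trans k2.symm)
    · exact n02 (k0.trans k2.symm)
    · exact n01 (k0.trans k1.symm)
    · exact n01 (k0.trans k1.symm)
  rcases c2_line _ _ _ _ _ _ _ _ hl hne hAB (by rw [hA]; exact h1) h2 (h0 2).1 (h0 3).1 with
    ⟨q1, q2, q3⟩ | ⟨q1, q2, q3⟩ | ⟨q1, q2, q3, ⟨q4, q5, q6, q7⟩ | ⟨q4, q5, q6, q7⟩⟩
  · exact hHill q1 q2 q3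
  · exact hHill' q1 q2 q3
  · exact three 1 (Or.inl rfl) q1 q2 q3 (by rw [one_mul]; exact q4) (by rw [one_mul]; exact q5)
      (by rw [one_mul]; exact q6) (by rw [one_mul]; exact q7)
  · exact three (-1) (Or.inr rfl) q1 q2 q3 (by rw [q4]; ring) (by rw [q5]; ring)
      (by rw [q6]; ring) (by rw [q7]; ring)

end Pool.Agent.Helper13.HT
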