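import Pool.Agent.Helper13.HT.C2End

/-!
# HT-22 (D): no segment in the class with a two-fold axis

`c2_cl` : by continuity from `c2_G` on `(s, e)`: at `q ∈ [s, e]` the point `x = seg u w q` satisfies the non-strict inequalities, and `cQ x ≥ 0`
(`c2_TT` on the open interval; continuity; `Icc s e = closure (Ioo s e)`).
Main argument. `N(q) = seg u w q 0 + seg u w q 1` is affine in `q` and `< 1` on `(s, e)`.
* `e < 1` and `s > 0`: `c2_end` at `e`, and at `s` for the swapped segment (`Good.swap`, `seg_swap`): `N(s) = N(e) = 1`, so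
  `N = 1` on `(s, e)`: contradiction.
* `e < 1`, `s = 0` (and symmetrically `e = 1`, `s > 0`, by the swap): `w = seg u w 0` satisfies the non-strict inequalities; `N(0) < 1` (`N(e) = 1`,
  `N < 1` inside, affine: if `N(0) ≥ 1` then `N ≥ 1` on `(0, e)`), so `w 0 + w 1 ≤ 1/2` (half integers); and if
  `x 2 = 1` at `e` then `w 2 < 1` (same argument with the affine function `seg u w q 2`, `< 1` inside), so `w 2 ≤ 1/2`; else `w 3 ≤ 1/2`. Now
  `w 0 + (w2+w3)/2 ≥ 1`, `w 1 + (w2+w3)/2 ≥ 1`, `w 2, w 3 ≤ 1`: `w2 + w3 ≤ 3/2`, so `w 0 ≥ 1/4`, `w 1 ≥ 1/4`, so both `≥ 1/2`: contradiction.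
* `s = 0`, `e = 1`: both `u`, `w` satisfy the non-strict inequalities and `cQ ≥ 0`. `N(1/2) < 1`: one of them, say `u`, has `u 0 + u 1 < 1`,
  so `≤ 1/2`, and as before `u 2 ≤ 1/2` or `u 3 ≤ 1/2` is impossible: `u 2 = u 3 = 1`. As `x 2 < 1`, `x 3 < 1` at `q = 1/2`: `w 2, w 3 < 1`, so
  `≤ 1/2`; then `w 0, w 1 ≥ 1/2`, and `w 0 + w 1 ≤ 1`: `w 0 = w 1 = 1/2`, `w2 = w3 = 1/2`; `cQ w = 1/4 + 1/4 - 1/2 - 1/2 < 0`: contradiction.
-/

open Real Set Filter Topology
open Pool.Agent.Helper1.Tet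

namespace Pool.Agent.Helper13.HT

private lemma c2seg_ge {f : ℝ → ℝ} (hf : Continuous f) {s e : ℝ} (hse : s < e)
    (h : ∀ q ∈ Ioo s e, 0 ≤ f q) : ∀ q ∈ Icc s e, 0 ≤ f q := by
  intro q hq
  have h1 : q ∈ closure (Ioo s e) := by rwa [closure_Ioo hse.ne]
  exact closure_minimal (show Ioo s e ⊆ {q | 0 ≤ f q} from h)
    (isClosed_le continuous_const hf) h1

private lemma c2seg_cont (u w : Fin 4 → ℝ) (i : Fin 4) : Continuous fun q => seg u w q i := by
  unfold seg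
  fun_prop

/-- closure of the inequalities -/
private lemma c2_cl (u w : Fin 4 → ℝ) (s e : ℝ) (hse : s < e) (hI : Good c2v u w s e) :
    ∀ q ∈ Icc s e, seg u w q 0 + seg u w q 1 ≤ 1 ∧ seg u w q 2 ≤ 1 ∧ seg u w q 3 ≤ 1 ∧
      1 ≤ seg u w q 0 + (seg u w q 2 + seg u w q 3) / 2 ∧
      1 ≤ seg u w q 1 + (seg u w q 2 + seg u w q 3) / 2 ∧ 0 ≤ cQ (seg u w q) := by
  have c0 := c2seg_cont u w 0
  have c1 := c2seg_cont u w 1
  have c2 := c2seg_cont u w 2
  have c3 := c2seg_cont u w 3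
  have hG : ∀ q ∈ Ioo s e, _ := fun q hq => c2_G (hI.nrm hq)
  intro q hq
  refine ⟨?_, ?_, ?_, ?_, ?_, ?_⟩
  · have := c2seg_ge (f := fun q => 1 - (seg u w q 0 + seg u w q 1)) (by fun_prop) hse
      (fun q hq => by have := (hG q hq).1; show (0:ℝ) ≤ 1 - (seg u w q 0 + seg u w q 1); linarith) q hq
    linarith
  · have := c2seg_ge (f := fun q => 1 - seg u w q 2) (by fun_prop) hse
      (fun q hq => by have := (hG q hq).2.1; show (0:ℝ) ≤ 1 - seg u w q 2; linarith) q hq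
    linarith
  · have := c2seg_ge (f := fun q => 1 - seg u w q 3) (by fun_prop) hse
      (fun q hq => by have := (hG q hq).2.2.1; show (0:ℝ) ≤ 1 - seg u w q 3; linarith) q hq
    linarith
  · have := c2seg_ge (f := fun q => seg u w q 0 + (seg u w q 2 + seg u w q 3) / 2 - 1)
      (by fun_prop) hse
      (fun q hq => by
        have := (hG q hq).2.2.2.1
        show (0:ℝ) ≤ seg u w q 0 + (seg u w q 2 + seg u w q 3) / 2 - 1; linarith) q hq
    linarith
  · have := c2seg_ge (f := fun q => seg u w q 1 + (seg u w q 2 + seg u w q 3) / 2 - 1)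
      (by fun_prop) hse
      (fun q hq => by
        have := (hG q hq).2.2.2.2
        show (0:ℝ) ≤ seg u w q 1 + (seg u w q 2 + seg u w q 3) / 2 - 1; linarith) q hq
    linarith
  · refine c2seg_ge (f := fun q => cQ (seg u w q)) (by unfold cQ; fun_prop) hse
      (fun q hq => ?_) q hq
    have h1 := (hI q hq).1
    exact ((c2_TT _ (c2_pos h1)).1 h1).2.le

private lemma half_lt {a : ℝ} (h : ∃ k : ℕ, a = (k : ℝ) / 2) (h1 : a < 1) : a ≤ 1 / 2 := by
  obtain ⟨k, rfl⟩ := h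
  have h2 : (k : ℝ) < 2 := by linarith
  have h3 : k < 2 := by exact_mod_cast h2
  have h4 : k ≤ 1 := by omega
  have h5 : (k : ℝ) ≤ 1 := by exact_mod_cast h4
  linarith

private lemma half_ge {a : ℝ} (h : ∃ k : ℕ, a = (k : ℝ) / 2) (h1 : 1 / 4 ≤ a) : 1 / 2 ≤ a := by
  obtain ⟨k, rfl⟩ := h
  have h2 : (0 : ℝ) < k := by linarith
  have h3 : 0 < k := by exact_mod_cast h2
  have h5 : (1 : ℝ) ≤ k := by exact_mod_cast h3
  linarith

private lemma half_bad {v : Fin 4 → ℝ} (hv : HalfNat v) (h1 : v 0 + v 1 < 1) (h2 : v 2 ≤ 1)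
    (h3 : v 3 ≤ 1) (h23 : v 2 ≤ 1 / 2 ∨ v 3 ≤ 1 / 2) (h4 : 1 ≤ v 0 + (v 2 + v 3) / 2)
    (h5 : 1 ≤ v 1 + (v 2 + v 3) / 2) : False := by
  have h6 : v 2 + v 3 ≤ 3 / 2 := by
    rcases h23 with h | h <;> linarith
  have h7 := half_ge (hv 0) (by linarith)
  have h8 := half_ge (hv 1) (by linarith)
  linarith

private lemma halfNat_nonneg {v : Fin 4 → ℝ} (hv : HalfNat v) (i : Fin 4) : 0 ≤ v i := by
  obtain ⟨k, hk⟩ := hv i
  rw [hk]
  positivity

/-- the case `s = 0`, `e < 1` -/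
private lemma c2_seg_false_a (u w : Fin 4 → ℝ) (hu : HalfNat u) (hw : HalfNat w) (e : ℝ)
    (hse : 0 < e) (he : e < 1) (hI : Good c2v u w 0 e) (he' : c2v (seg u w e) ∉ TT) : False := by
  obtain ⟨hN, h23⟩ := c2_end u w (halfNat_nonneg hu) (halfNat_nonneg hw) 0 e le_rfl hse he hI he'
  obtain ⟨a1, a2, a3, a4, a5, -⟩ := c2_cl u w 0 e hse hI 0 ⟨le_rfl, hse.le⟩
  obtain ⟨b1, b2, b3, -, -⟩ := c2_G (hI.nrm (q := e / 2) ⟨by linarith, by linarith⟩)
  have hw0 : ∀ i, seg u w 0 i = w i := fun i => by simp [seg]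
  have hmid : ∀ i, seg u w (e / 2) i = (w i + seg u w e i) / 2 := fun i => by
    simp only [seg]
    ring
  simp only [hw0] at a1 a2 a3 a4 a5
  rw [hmid, hmid] at b1
  rw [hmid] at b2 b3
  refine half_bad hw (by linarith) a2 a3 ?_ a4 a5
  rcases h23 with h | h
  · left
    exact half_lt (hw 2) (by linarith)
  · right
    exact half_lt (hw 3) (by linarith)

/-- the case `s = 0`, `e = 1`, `u 0 + u 1 < 1` -/
private lemma c2_seg_false_b (u w : Fin 4 → ℝ) (hu : HalfNat u) (hw : HalfNat w)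
    (hI : Good c2v u w 0 1) (hu1 : u 0 + u 1 < 1) : False := by
  obtain ⟨a1, a2, a3, a4, a5, a6⟩ := c2_cl u w 0 1 one_pos hI 0 ⟨le_rfl, zero_le_one⟩
  obtain ⟨c1, c2, c3, c4, c5, -⟩ := c2_cl u w 0 1 one_pos hI 1 ⟨zero_le_one, le_rfl⟩
  obtain ⟨b1, b2, b3, -, -⟩ := c2_G (hI.nrm (q := 1 / 2) ⟨by norm_num, by norm_num⟩)
  have hw0 : seg u w 0 = w := by funext i; simp [seg]
  have hu0 : seg u w 1 = u := by funext i; simp [seg]
  have hmid : ∀ i, seg u w (1 / 2) i = (w i + u i) / 2 := fun i => by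
    simp only [seg]
    ring
  rw [hw0] at a1 a2 a3 a4 a5 a6
  rw [hu0] at c1 c2 c3 c4 c5
  rw [hmid] at b2 b3
  have hu2 : ¬ u 2 ≤ 1 / 2 := fun h => half_bad hu hu1 c2 c3 (Or.inl h) c4 c5
  have hu3 : ¬ u 3 ≤ 1 / 2 := fun h => half_bad hu hu1 c2 c3 (Or.inr h) c4 c5
  have hu2' : 1 ≤ u 2 := by
    by_contra h
    exact hu2 (half_lt (hu 2) (lt_of_not_ge h))
  have hu3' : 1 ≤ u 3 := by
    by_contra h
    exact hu3 (half_lt (hu 3) (lt_of_not_ge h))
  have hw2 : w 2 ≤ 1 / 2 := half_lt (hw 2) (by linarith)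
  have hw3 : w 3 ≤ 1 / 2 := half_lt (hw 3) (by linarith)
  have e0 : w 0 = 1 / 2 := by linarith
  have e1 : w 1 = 1 / 2 := by linarith
  have e2 : w 2 = 1 / 2 := by linarith
  have e3 : w 3 = 1 / 2 := by linarith
  unfold cQ at a6
  rw [e0, e1, e2, e3] at a6
  norm_num at a6

theorem c2_seg_false (u w : Fin 4 → ℝ) (hu : HalfNat u) (hw : HalfNat w) (s e : ℝ) (hs : 0 ≤ s)
    (hse : s < e) (he : e ≤ 1) (hI : Good c2v u w s e) (hs' : s = 0 ∨ c2v (seg u w s) ∉ TT)
    (he' : e = 1 ∨ c2v (seg u w e) ∉ TT) : False := by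
  rcases hs.eq_or_lt with h0 | h0
  · subst h0
    rcases he.eq_or_lt with h1 | h1
    · subst h1
      obtain ⟨b1, -⟩ := c2_G (hI.nrm (q := 1 / 2) ⟨by norm_num, by norm_num⟩)
      have hmid : ∀ i, seg u w (1 / 2) i = (w i + u i) / 2 := fun i => by
        simp only [seg]
        ring
      rw [hmid, hmid] at b1
      by_cases hu1 : u 0 + u 1 < 1
      · exact c2_seg_false_b u w hu hw hI hu1
      · have hw1 : w 0 + w 1 < 1 := by linarith
        have hI' : Good c2v w u 0 1 := by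
          have := hI.swap
          rwa [sub_self, sub_zero] at this
        exact c2_seg_false_b w u hw hu hI' hw1
    · exact c2_seg_false_a u w hu hw e hse h1 hI (he'.resolve_left h1.ne)
  · have hs'' : c2v (seg u w s) ∉ TT := hs'.resolve_left h0.ne'
    have hsw : c2v (seg w u (1 - s)) ∉ TT := by rwa [seg_swap]
    rcases he.eq_or_lt with h1 | h1
    · subst h1
      have hI' : Good c2v w u 0 (1 - s) := by
        have := hI.swap
        rwa [sub_self] at this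
      exact c2_seg_false_a w u hw hu (1 - s) (by linarith) (by linarith) hI' hsw
    · obtain ⟨hN, -⟩ := c2_end u w (halfNat_nonneg hu) (halfNat_nonneg hw) s e hs hse h1 hI
        (he'.resolve_left h1.ne)
      obtain ⟨hM, -⟩ := c2_end w u (halfNat_nonneg hw) (halfNat_nonneg hu) (1 - e) (1 - s)
        (by linarith) (by linarith) (by linarith) hI.swap hsw
      rw [seg_swap] at hM
      obtain ⟨b1, -⟩ := c2_G (hI.nrm (q := (s + e) / 2) ⟨by linarith, by linarith⟩)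
      have hmid : ∀ i, seg u w ((s + e) / 2) i = (seg u w s i + seg u w e i) / 2 := fun i => by
        simp only [seg]
        ring
      rw [hmid, hmid] at b1
      linarith

end Pool.Agent.Helper13.HT
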