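import Pool.Agent.Helper1.Tet.Strict
import Pool.Agent.Helper1.Tet.Perimeter
import Pool.Agent.Helper13.HT.MiForm

/-!
# HT-09 (B): inequalities for the class with a mirror plane

`mi_G`: as `c2_G` (see HT/C2Ineq.lean): `perimeter`, `∑ l j α j = ∑ x i θ i = π`. Opposite edges: `{01,23}`: `x0 + x1 < 1`;
`{02,13}`: `x2/2 + x3/2 < 1`. Vertices: 0: `x0 + x2/2 + x3/2 > 1`; 2: `x2 + x1 > 1`; 3: `x3 + x1 > 1`.
`mi_angles`: `θ = (φ, ψ, α, β) = (al 0, al 5, al 1, al 2)`, `al 3 = al 1`, `al 4 = al 2` (`mi_al`). The relation: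
`det (GG (al l)) = 0` (`TT_facts`) and `det = -2 (1 + cos ψ) FM θ` (formula `t4_det` of Helper1/Tet/Trig or `det_GG_eq` of
Boundary; `sin² = 1 - cos²`, `ring`/`linear_combination`), and `cos ψ > -1` as `ψ ∈ (0, π)`.
`TT_strict`: `sv > 0` at the vertices 2, 3: `2α + ψ > π`, `2β + ψ > π`; `gc ≥ 0` (class 0): `2α + 2β ≤ 2π`.
-/

open Real Set
open Pool.Agent.Helper1.Tet

namespace Pool.Agent.Helper13.HT

theorem mi_G {x : Fin 4 → ℝ} (h : Nrm miv x) :
    x 0 + x 1 < 1 ∧ x 2 + x 3 < 2 ∧ 1 < x 0 + (x 2 + x 3) / 2 ∧ 1 < x 1 + x 2 ∧ 1 < x 1 + x 3 := by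
  obtain ⟨hT, hs⟩ := h
  obtain ⟨h1, h2⟩ := perimeter hT
  obtain ⟨h3, h4⟩ := mi_al x
  have hH : HH (miv x) = π * (x 0 + x 1 + x 2 + x 3 - 1) := by
    rw [Fin.sum_univ_four] at hs
    simp only [ca_0, ca_1, ca_2, ca_3] at hs
    unfold HH
    simp only [Fin.sum_univ_six, miv_0, miv_1, miv_2, miv_3, miv_4, miv_5]
    rw [h3, h4]
    linear_combination -hs
  have ht0 : tt (miv x) 0 = x 2 / 2 + x 3 / 2 + x 1 := by
    simp [tt, Fin.sum_univ_six, ea, eb]
  have ht2 : tt (miv x) 2 = x 0 + x 3 := by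
    simp [tt, Fin.sum_univ_six, ea, eb]
    ring
  have ht3 : tt (miv x) 3 = x 0 + x 2 := by
    simp [tt, Fin.sum_univ_six, ea, eb]
    ring
  have hq0 : qq (miv x) 0 = x 2 + x 3 := by
    simp [qq, Fin.sum_univ_six, cl]
    ring
  have hq1 : qq (miv x) 1 = x 0 + x 1 + (x 2 + x 3) / 2 := by
    simp [qq, Fin.sum_univ_six, cl]
    ring
  have e0 := h1 0
  have e2 := h1 2
  have e3 := h1 3
  have f0 := h2 0
  have f1 := h2 1
  rw [ht0, hH] at e0
  rw [ht2, hH] at e2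
  rw [ht3, hH] at e3
  rw [hq0, hH] at f0
  rw [hq1, hH] at f1
  have g0 := lt_of_mul_lt_mul_left e0 pi_pos.le
  have g2 := lt_of_mul_lt_mul_left e2 pi_pos.le
  have g3 := lt_of_mul_lt_mul_left e3 pi_pos.le
  have k0 := lt_of_mul_lt_mul_left f0 pi_pos.le
  have k1 := lt_of_mul_lt_mul_left f1 pi_pos.le
  refine ⟨by linarith, by linarith, by linarith, by linarith, by linarith⟩

theorem mi_pos {x : Fin 4 → ℝ} (h : miv x ∈ TT) : ∀ i, 0 < x i := by
  obtain ⟨h1, -⟩ := TT_facts h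
  have a0 := h1 0
  have a1 := h1 1
  have a2 := h1 2
  have a5 := h1 5
  rw [miv_0] at a0
  rw [miv_1] at a1
  rw [miv_2] at a2
  rw [miv_5] at a5
  intro i
  fin_cases i
  · exact a0
  · exact a5
  · show 0 < x 2
    linarith
  · show 0 < x 3
    linarith

theorem mi_angles {x : Fin 4 → ℝ} (h : miv x ∈ TT) :
    (∀ i, ca (miv x) i ∈ Ioo 0 π) ∧ FM (ca (miv x)) = 0 ∧
    π < 2 * ca (miv x) 2 + ca (miv x) 1 ∧ π < 2 * ca (miv x) 3 + ca (miv x) 1 ∧
    ca (miv x) 2 + ca (miv x) 3 ≤ π := by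
  obtain ⟨-, -, -, -, hI, hdet, -⟩ := TT_facts h
  obtain ⟨h3, h4⟩ := mi_al x
  obtain ⟨hsv, hgc⟩ := TT_strict h
  refine ⟨?_, ?_, ?_, ?_, ?_⟩
  · intro i
    fin_cases i
    · exact hI 0
    · exact hI 5
    · exact hI 1
    · exact hI 2
  · have hc : -1 < cos (al (miv x) 5) := by
      have h5 := hI 5
      have := cos_lt_cos_of_nonneg_of_le_pi h5.1.le le_rfl h5.2
      rwa [cos_pi] at this
    have hd : (GG (al (miv x))).det =
        -2 * (1 + cos (al (miv x) 5)) * FM (ca (miv x)) := by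
      have hs := sin_sq (al (miv x) 0)
      rw [t4_det, h3, h4]
      unfold FM
      simp only [ca_0, ca_1, ca_2, ca_3]
      rw [hs]
      ring
    rw [hdet] at hd
    have h6 : -2 * (1 + cos (al (miv x) 5)) ≠ 0 := by
      intro h7
      linarith
    rcases mul_eq_zero.1 hd.symm with h7 | h7
    · exact absurd h7 h6
    · exact h7
  · have := hsv 2
    simp [sv, Fin.sum_univ_six, ea, eb] at this
    simp only [ca_1, ca_2]
    rw [h3] at this
    linarith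
  · have := hsv 3
    simp [sv, Fin.sum_univ_six, ea, eb] at this
    simp only [ca_1, ca_3]
    rw [h4] at this
    linarith
  · have := hgc 0
    simp [gc, Fin.sum_univ_six, cl] at this
    simp only [ca_2, ca_3]
    rw [h3, h4] at this
    linarith

end Pool.Agent.Helper13.HT
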