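import Pool.Agent.Helper13.HT.ConeHull
import Pool.Agent.Helper13.HT.C2Ineq
import Pool.Agent.Helper13.HT.MiIneq
import Pool.Agent.Helper1.Tet.Analytic

/-!
# HT-05 (A): the cone condition in class coordinates

`V = c2v` (equal angles `al 4 = al 1`, `al 3 = al 2`: `c2_al`) or `V = miv` (`al 3 = al 1`, `al 4 = al 2`: `mi_al`).
Let `l = len p = V y ∈ TT` (`len_mem_TT`), `θ = ca l`; `∑ l j α j = ∑ y i θ i =: s > 0`. `t = π/s > 0`,
`nz V y = t • y`, `V (t • y) = t • V y` (`V` is linear), `al_smul`: the angles do not change, `TT_smul`. So `Nrm V (nz V y)`.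
Cone: `tiles_cone` gives `t • l ∈ convexHull {u : Fin 6 → ℝ | ...}`. Apply the linear map
`π6 : (Fin 6 → ℝ) → (Fin 4 → ℝ)`, `v ↦ (v 0, v 5, v 1 + v 4, v 2 + v 3)` (class `c2v`) resp. `(v 0, v 5, v 1 + v 3, v 2 + v 4)`
(class `miv`): `LinearMap.image_convexHull` (or `convexHull_min`), it maps `t • l` to `t • y` and `{u}` into the set of `Cone`
(a sum of two half integers is a half integer; `∑ (π6 u) i θ i = ∑ u j α j`).
-/

open Real MeasureTheory Set
open Pool.Agent.Helper1.Tet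

namespace Pool.Agent.Helper13.HT

/-- linearity of the two class maps -/
theorem class_smul {V : (Fin 4 → ℝ) → Fin 6 → ℝ} (hV : V = c2v ∨ V = miv) (t : ℝ)
    (y : Fin 4 → ℝ) : V (t • y) = t • V y := by
  rcases hV with rfl | rfl
  · ext j
    fin_cases j <;> simp [c2v] <;> ring
  · ext j
    fin_cases j <;> simp [miv] <;> ring

/-- the total angle in class coordinates -/
theorem class_sum {V : (Fin 4 → ℝ) → Fin 6 → ℝ} (hV : V = c2v ∨ V = miv) (y : Fin 4 → ℝ) :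
    ∑ j, V y j * al (V y) j = ∑ i, y i * ca (V y) i := by
  rcases hV with rfl | rfl
  · obtain ⟨h4, h3⟩ := c2_al y
    rw [Fin.sum_univ_six, Fin.sum_univ_four, h4, h3]
    simp only [c2v_0, c2v_1, c2v_2, c2v_3, c2v_4, c2v_5, ca_0, ca_1, ca_2, ca_3]
    ring
  · obtain ⟨h3, h4⟩ := mi_al y
    rw [Fin.sum_univ_six, Fin.sum_univ_four, h4, h3]
    simp only [miv_0, miv_1, miv_2, miv_3, miv_4, miv_5, ca_0, ca_1, ca_2, ca_3]
    ring

private theorem class_sum_pos {V : (Fin 4 → ℝ) → Fin 6 → ℝ} (hV : V = c2v ∨ V = miv)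
    {y : Fin 4 → ℝ} (hy : V y ∈ TT) : 0 < ∑ i, y i * ca (V y) i := by
  rw [← class_sum hV]
  obtain ⟨hpos, -, -, -, hI, -⟩ := TT_facts hy
  exact Finset.sum_pos (fun j _ => mul_pos (hpos j) (hI j).1) ⟨0, Finset.mem_univ _⟩

/-- normalization -/
theorem class_nrm {V : (Fin 4 → ℝ) → Fin 6 → ℝ} (hV : V = c2v ∨ V = miv) {y : Fin 4 → ℝ}
    (hy : V y ∈ TT) : 0 < (∑ i, y i * ca (V y) i) ∧ Nrm V (nz V y) ∧ ca (V (nz V y)) = ca (V y) := by
  have hs := class_sum_pos hV hy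
  have ht : 0 < π / ∑ i, y i * ca (V y) i := div_pos pi_pos hs
  have hVn : V (nz V y) = (π / ∑ i, y i * ca (V y) i) • V y := class_smul hV _ y
  have hca : ca (V (nz V y)) = ca (V y) := by
    unfold ca
    rw [hVn, al_smul ht]
  refine ⟨hs, ⟨?_, ?_⟩, hca⟩
  · rw [hVn]
    exact (TT_smul ht).2 hy
  · rw [hca]
    unfold nz
    have h1 : ∀ i, ((π / ∑ i, y i * ca (V y) i) • y) i * ca (V y) i =
        (π / ∑ i, y i * ca (V y) i) * (y i * ca (V y) i) := by
      intro i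
      rw [Pi.smul_apply, smul_eq_mul, mul_assoc]
    rw [Finset.sum_congr rfl fun i _ => h1 i, ← Finset.mul_sum]
    exact div_mul_cancel₀ _ hs.ne'

private theorem half_add {a b : ℝ} (ha : ∃ k : ℕ, a = (k : ℝ) / 2) (hb : ∃ k : ℕ, b = (k : ℝ) / 2) :
    ∃ k : ℕ, a + b = (k : ℝ) / 2 := by
  obtain ⟨k, rfl⟩ := ha
  obtain ⟨m, rfl⟩ := hb
  exact ⟨k + m, by push_cast; ring⟩

private theorem class_lin {V : (Fin 4 → ℝ) → Fin 6 → ℝ} (hV : V = c2v ∨ V = miv) (y : Fin 4 → ℝ) :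
    ∃ L : (Fin 6 → ℝ) →ₗ[ℝ] (Fin 4 → ℝ), L (V y) = y ∧
      (∀ u : Fin 6 → ℝ, HalfNat u → HalfNat (L u)) ∧
      ∀ u : Fin 6 → ℝ, ∑ i, L u i * ca (V y) i = ∑ j, u j * al (V y) j := by
  rcases hV with rfl | rfl
  · refine ⟨⟨⟨fun v => ![v 0, v 5, v 1 + v 4, v 2 + v 3], ?_⟩, ?_⟩, ?_, ?_, ?_⟩
    · intro v w
      ext i
      fin_cases i <;> simp <;> ring
    · intro t v
      ext i
      fin_cases i <;> simp <;> ring
    · ext i
      fin_cases i <;> simp
    · intro u hu i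
      fin_cases i
      · exact hu 0
      · exact hu 5
      · exact half_add (hu 1) (hu 4)
      · exact half_add (hu 2) (hu 3)
    · intro u
      obtain ⟨h4, h3⟩ := c2_al y
      rw [Fin.sum_univ_six, Fin.sum_univ_four, h4, h3]
      simp only [ca_0, ca_1, ca_2, ca_3, LinearMap.coe_mk, AddHom.coe_mk, Matrix.cons_val]
      ring
  · refine ⟨⟨⟨fun v => ![v 0, v 5, v 1 + v 3, v 2 + v 4], ?_⟩, ?_⟩, ?_, ?_, ?_⟩
    · intro v w
      ext i
      fin_cases i <;> simp <;> ring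
    · intro t v
      ext i
      fin_cases i <;> simp <;> ring
    · ext i
      fin_cases i <;> simp
    · intro u hu i
      fin_cases i
      · exact hu 0
      · exact hu 5
      · exact half_add (hu 1) (hu 3)
      · exact half_add (hu 2) (hu 4)
    · intro u
      obtain ⟨h3, h4⟩ := mi_al y
      rw [Fin.sum_univ_six, Fin.sum_univ_four, h4, h3]
      simp only [ca_0, ca_1, ca_2, ca_3, LinearMap.coe_mk, AddHom.coe_mk, Matrix.cons_val]
      ring

theorem class_cone {V : (Fin 4 → ℝ) → Fin 6 → ℝ} (hV : V = c2v ∨ V = miv) (p : Fin 4 → E3)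
    (hp : AffineIndependent ℝ p) (hT : TilesSpace (convexHull ℝ (range p))) (y : Fin 4 → ℝ)
    (hy : len p = V y) : Cone V (nz V y) := by
  have hTT : V y ∈ TT := hy ▸ len_mem_TT p hp
  obtain ⟨-, -, hca⟩ := class_nrm hV hTT
  have h := tiles_cone p hp hT
  rw [hy, class_sum hV] at h
  obtain ⟨L, hL1, hL2, hL3⟩ := class_lin hV y
  unfold Cone
  rw [hca]
  have h1 : L ((π / ∑ i, y i * ca (V y) i) • V y) ∈
      L '' convexHull ℝ {u : Fin 6 → ℝ | HalfNat u ∧ ∑ j, u j * al (V y) j = π} :=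
    mem_image_of_mem _ h
  rw [LinearMap.image_convexHull, map_smul, hL1] at h1
  refine convexHull_mono ?_ h1
  rintro _ ⟨u, ⟨hu1, hu2⟩, rfl⟩
  exact ⟨hL2 u hu1, by rw [hL3, hu2]⟩

end Pool.Agent.Helper13.HT
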