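import Pool.Agent.Helper1.Tet.Analytic
import Pool.Agent.Helper1.Tet.Realize
import Pool.Agent.Helper1.Tet.Volume
import Pool.Agent.Helper1.Tet.Dual

/-!
# HT-29a (E): limits of tetrahedra with positive volume are tetrahedra

`closed_TT`: if `l ∈ closure TT` and `0 < Gr l` then `l ∈ TT`. `exists_points` (Helper1/Tet/Realize): `l = len p` for some `p : Fin 4 → E3`; `Gr_len` (Helper1/Tet/Volume): `Gr l = (det (emap p))² > 0`, so the vectors
`p i - p 0` (i = 1, 2, 3) are linearly independent and `p` is affinely independent; `len_mem_TT` (Helper1/Tet/Dual). (Or: strict triangle inequalities directly: if `l (ix a c) = l (ix a b) + l (ix b c)`, the three points are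
collinear and `Gr = 0`.)
-/

open Real Set
open Pool.Agent.Helper1.Tet

namespace Pool.Agent.Helper13.HT

theorem closed_TT {l : Fin 6 → ℝ} (hl : l ∈ closure TT) (hG : 0 < Gr l) : l ∈ TT := by
  obtain ⟨p, rfl⟩ := exists_points hl
  rw [Gr_len] at hG
  have hd : LinearMap.det (emap p) ≠ 0 := by
    intro h0
    rw [h0] at hG
    norm_num at hG
  have hinj : Function.Injective (emap p) := (LinearMap.equivOfDetNeZero (emap p) hd).injective
  apply len_mem_TT
  let f : E3 →ᵃ[ℝ] E3 := (emap p).toAffineMap + AffineMap.const ℝ E3 (p 0)
  have hf : Function.Injective f := by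
    intro x y hxy
    have h1 : emap p x + p 0 = emap p y + p 0 := hxy
    exact hinj (add_right_cancel h1)
  have h2 := stdTet_indep.map' f hf
  have h3 : f ∘ stdTet = p := by
    funext i
    have h4 : emap p (stdTet i) + p 0 = p i := by
      rw [add_comm]
      exact (emap_std p i).symm
    exact h4
  rwa [h3] at h2

end Pool.Agent.Helper13.HT
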