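import Pool.Agent.Helper13.HT.ClosedTT
import Pool.Agent.Helper13.HT.ClassCone

/-!
# HT-29b (E): compactness of the normalized volume-one points

`compact_norm`: `Y = {y | V y ∈ TT, c √(Gr (V y)) = 1, V y j ≤ R}` is bounded (`0 < V y j ≤ R`, `TT_facts`; `y 0 = V y 0`, `y 1 = V y 5`, `y 2 = 2 V y 1`, `y 3 = 2 V y 2`) and closed (limits: `V y ∈ closure TT`,
`Gr (V y) = 1/c² > 0`, `closed_TT`), so compact; `nz V` is continuous on `Y` (`ca (V y)` is continuous there by `contDiffAt_al`, the denominator is `> 0`: `class_nrm`); the set is `nz V '' Y`.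
`nz_inj`: `nz V y = nz V y'` gives `y' = t • y` with `t > 0`; `V y' = t • V y` (`class_smul`), `Gr_smul`: `Gr (V y') = t ^ 6 Gr (V y)`, so `t ^ 6 = 1`, `t = 1`.
-/

open Real Set
open Pool.Agent.Helper1.Tet

namespace Pool.Agent.Helper13.HT

private lemma cont_V {V : (Fin 4 → ℝ) → Fin 6 → ℝ} (hV : V = c2v ∨ V = miv) : Continuous V := by
  rcases hV with rfl | rfl
  · refine continuous_pi fun j => ?_
    fin_cases j <;> simp [c2v] <;> fun_prop
  · refine continuous_pi fun j => ?_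
    fin_cases j <;> simp [miv] <;> fun_prop

private lemma V_coords {V : (Fin 4 → ℝ) → Fin 6 → ℝ} (hV : V = c2v ∨ V = miv) (y : Fin 4 → ℝ) :
    y 0 = V y 0 ∧ y 1 = V y 5 ∧ y 2 = 2 * V y 1 ∧ y 3 = 2 * V y 2 := by
  rcases hV with rfl | rfl
  · simp [c2v]
    constructor <;> ring
  · simp [miv]
    constructor <;> ring

theorem compact_norm {V : (Fin 4 → ℝ) → Fin 6 → ℝ} (hV : V = c2v ∨ V = miv) (c R : ℝ) (hc : 0 < c) :
    IsCompact {x : Fin 4 → ℝ | ∃ y : Fin 4 → ℝ, V y ∈ TT ∧ c * √(Gr (V y)) = 1 ∧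
      (∀ j, V y j ≤ R) ∧ x = nz V y} := by
  have hVc := cont_V hV
  set Y : Set (Fin 4 → ℝ) := {y | V y ∈ TT ∧ c * √(Gr (V y)) = 1 ∧ ∀ j, V y j ≤ R} with hY
  have hpos : ∀ y ∈ Y, ∀ j, 0 < V y j := fun y hy j => (TT_facts hy.1).1 j
  have hcl : IsClosed Y := by
    have h1 : Y = V ⁻¹' (closure TT) ∩ ({y | c * √(Gr (V y)) = 1} ∩ {y | ∀ j, V y j ≤ R}) := by
      ext y
      constructor
      · rintro ⟨h1, h2, h3⟩
        exact ⟨subset_closure h1, h2, h3⟩
      · rintro ⟨h1, h2, h3⟩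
        refine ⟨closed_TT h1 ?_, h2, h3⟩
        by_contra h
        have h4 : √(Gr (V y)) = 0 := Real.sqrt_eq_zero_of_nonpos (not_lt.1 h)
        have h5 : c * √(Gr (V y)) = 1 := h2
        rw [h4, mul_zero] at h5
        exact zero_ne_one h5
    rw [h1]
    refine (isClosed_closure.preimage hVc).inter (IsClosed.inter ?_ ?_)
    · exact isClosed_eq (continuous_const.mul (contDiff_Gr.continuous.comp hVc).sqrt)
        continuous_const
    · have h2 : {y | ∀ j, V y j ≤ R} = ⋂ j, {y | V y j ≤ R} := by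
        ext y
        simp
      rw [h2]
      exact isClosed_iInter fun j => isClosed_le ((continuous_apply j).comp hVc) continuous_const
  have hbd : Y ⊆ Set.pi univ (fun _ : Fin 4 => Icc (0 : ℝ) (2 * R)) := by
    intro y hy i _
    obtain ⟨e0, e1, e2, e3⟩ := V_coords hV y
    have p0 := hpos y hy 0
    have p1 := hpos y hy 1
    have p2 := hpos y hy 2
    have p5 := hpos y hy 5
    have q0 := hy.2.2 0
    have q1 := hy.2.2 1
    have q2 := hy.2.2 2
    have q5 := hy.2.2 5
    fin_cases i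
    · exact ⟨by simp only [Fin.zero_eta]; linarith, by simp only [Fin.zero_eta]; linarith⟩
    · exact ⟨by simp only [Fin.mk_one]; linarith, by simp only [Fin.mk_one]; linarith⟩
    · exact ⟨by simp only [Fin.reduceFinMk]; linarith, by simp only [Fin.reduceFinMk]; linarith⟩
    · exact ⟨by simp only [Fin.reduceFinMk]; linarith, by simp only [Fin.reduceFinMk]; linarith⟩
  have hYc : IsCompact Y :=
    (isCompact_univ_pi fun _ => isCompact_Icc).of_isClosed_subset hcl hbd
  have him : {x : Fin 4 → ℝ | ∃ y : Fin 4 → ℝ, V y ∈ TT ∧ c * √(Gr (V y)) = 1 ∧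
      (∀ j, V y j ≤ R) ∧ x = nz V y} = nz V '' Y := by
    ext x
    constructor
    · rintro ⟨y, h1, h2, h3, rfl⟩
      exact ⟨y, ⟨h1, h2, h3⟩, rfl⟩
    · rintro ⟨y, ⟨h1, h2, h3⟩, rfl⟩
      exact ⟨y, h1, h2, h3, rfl⟩
  rw [him]
  refine hYc.image_of_continuousOn fun y hy => ContinuousAt.continuousWithinAt ?_
  have hal : ∀ j, ContinuousAt (fun y => al (V y) j) y := fun j =>
    ContinuousAt.comp (f := V) (g := fun l => al l j) (contDiffAt_al hy.1 j).continuousAt
      hVc.continuousAt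
  have hca : ∀ i, ContinuousAt (fun y => ca (V y) i) y := by
    intro i
    fin_cases i
    · exact hal 0
    · exact hal 5
    · exact hal 1
    · exact hal 2
  have hsum : ContinuousAt (fun y : Fin 4 → ℝ => ∑ i, y i * ca (V y) i) y := by
    refine tendsto_finset_sum _ fun i _ => ?_
    exact (continuous_apply i).continuousAt.mul (hca i)
  exact (continuousAt_const.div hsum (class_nrm hV hy.1).1.ne').smul continuousAt_id

theorem nz_inj {V : (Fin 4 → ℝ) → Fin 6 → ℝ} (hV : V = c2v ∨ V = miv) {c : ℝ} (hc : 0 < c)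
    {y y' : Fin 4 → ℝ} (hy : V y ∈ TT) (hy' : V y' ∈ TT) (h : c * √(Gr (V y)) = 1)
    (h' : c * √(Gr (V y')) = 1) (he : nz V y = nz V y') : y = y' := by
  have hs := (class_nrm hV hy).1
  have hs' := (class_nrm hV hy').1
  set s := ∑ i, y i * ca (V y) i with hs0
  set s' := ∑ i, y' i * ca (V y') i with hs0'
  have he' : (π / s) • y = (π / s') • y' := he
  have hy2 : y' = (s' / s) • y := by
    have h1 : (s' / π) • ((π / s) • y) = (s' / π) • ((π / s') • y') := by rw [he']
    rw [smul_smul, smul_smul] at h1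
    have h2 : s' / π * (π / s') = 1 := by
      field_simp
    have h3 : s' / π * (π / s) = s' / s := by
      field_simp
    rw [h2, h3, one_smul] at h1
    exact h1.symm
  have ht : 0 < s' / s := div_pos hs' hs
  have hG : Gr (V y') = (s' / s) ^ 6 * Gr (V y) := by
    rw [hy2, class_smul hV, Gr_smul]
  have hGy : 0 < Gr (V y) := hy.2
  have hGe : √(Gr (V y')) = √(Gr (V y)) := by
    have := h.trans h'.symm
    exact (mul_left_cancel₀ hc.ne' this).symm
  have hGe2 : Gr (V y') = Gr (V y) := by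
    have h1 : √(Gr (V y')) ^ 2 = √(Gr (V y)) ^ 2 := by rw [hGe]
    rwa [Real.sq_sqrt hy'.2.le, Real.sq_sqrt hGy.le] at h1
  rw [hGe2] at hG
  have ht6 : (s' / s) ^ 6 = 1 := by
    have h1 : (s' / s) ^ 6 * Gr (V y) = 1 * Gr (V y) := by rw [one_mul]; exact hG.symm
    exact mul_right_cancel₀ hGy.ne' h1
  have ht1 : s' / s = 1 := (pow_eq_one_iff_of_nonneg ht.le (by norm_num)).1 ht6
  rw [hy2, ht1, one_smul]

end Pool.Agent.Helper13.HT
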