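import Pool.Agent.Helper13.HT.ConeIneq
import Pool.Agent.Helper13.HT.Defs
import Pool.Agent.Helper1.Tet.TTFacts
import Pool.Agent.Helper1.Tet.Dual

/-!
# HT-04 (A): the normalized edge vector is a convex combination of half-integral relations

`U = {u half-integral, ≥ 0, u·α = π}` is finite: `u j ≤ π / al j` and `u j ∈ ½ℕ` (`al j > 0` by
`TT_facts (len_mem_TT p hp)`). So `C := convexHull U` is closed (compact) and convex
(`Set.Finite.isCompact_convexHull` or `Set.Finite.isClosed_convexHull`). Let `l = len p`, `s = ∑ l j α j > 0`,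
`x = (π/s) • l`, so `∑ x j α j = π`.
Suppose `x ∉ C`. `geometric_hahn_banach_point_closed` (or `geometric_hahn_banach_closed_point`) gives a
continuous linear `f` and `m` with `f x < m < f u` for all `u ∈ C` (if `U` is empty take `f = 0`, `m = 1`:
then `f x < m`). Write `f v = ∑ j, f (Pi.single j 1) * v j` and put
`β j := f (Pi.single j 1) - (m/π) * α j`. Then `∑ u j β j = f u - m > 0` for `u ∈ U` and `∑ x j β j = f x - m < 0`.
If `n : Fin 6 → ℕ` has `∑ n α = π` then `u = n = (2n)/2 ∈ U`; if `∑ n α = 2π` then `u = n/2 ∈ U`; so `∑ n j β j ≥ 0` in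
both cases. By `cone_ineq`: `0 ≤ ∑ l j β j = (s/π) ∑ x j β j < 0`. Contradiction.
-/

open Real MeasureTheory Set InnerProductGeometry Filter Topology
open scoped RealInnerProductSpace ENNReal
open Pool.Agent.Helper1.Tet

namespace Pool.Agent.Helper13.HT

private lemma ConeHull_finite (a : Fin 6 → ℝ) (ha : ∀ j, 0 < a j) :
    {u : Fin 6 → ℝ | HalfNat u ∧ ∑ j, u j * a j = π}.Finite := by
  set N : ℕ := ∑ j, ⌈2 * π / a j⌉₊ with hN
  refine (Set.finite_range (fun v : Fin 6 → Fin (N + 1) => fun j => ((v j : ℕ) : ℝ) / 2)).subset ?_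
  rintro u ⟨hu, hs⟩
  choose k hk using hu
  have hk0 : ∀ j, 0 ≤ u j * a j := fun j => by
    rw [hk j]
    exact mul_nonneg (by positivity) (ha j).le
  have hle : ∀ j, k j ≤ N := by
    intro j
    have h1 : u j * a j ≤ π := by
      rw [← hs]
      exact Finset.single_le_sum (f := fun j => u j * a j) (fun i _ => hk0 i) (Finset.mem_univ j)
    rw [hk j] at h1
    have h2 : (k j : ℝ) ≤ 2 * π / a j := by
      rw [le_div_iff₀ (ha j)]
      linarith
    have h3 : k j ≤ ⌈2 * π / a j⌉₊ := by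
      have h4 : (k j : ℝ) ≤ (⌈2 * π / a j⌉₊ : ℝ) := h2.trans (Nat.le_ceil _)
      exact_mod_cast h4
    exact h3.trans (Finset.single_le_sum (f := fun j => ⌈2 * π / a j⌉₊)
      (fun i _ => Nat.zero_le _) (Finset.mem_univ j))
  refine ⟨fun j => ⟨k j, Nat.lt_succ_of_le (hle j)⟩, ?_⟩
  funext j
  exact (hk j).symm

theorem tiles_cone (p : Fin 4 → E3) (hp : AffineIndependent ℝ p)
    (hT : TilesSpace (convexHull ℝ (range p))) :
    (π / ∑ j, len p j * al (len p) j) • len p ∈
      convexHull ℝ {u : Fin 6 → ℝ | HalfNat u ∧ ∑ j, u j * al (len p) j = π} := by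
  by_contra hx
  obtain ⟨hl, -, -, -, hal, -⟩ := TT_facts (len_mem_TT p hp)
  have hal' : ∀ j, 0 < al (len p) j := fun j => (hal j).1
  have hπ : 0 < π := pi_pos
  set s : ℝ := ∑ j, len p j * al (len p) j with hs
  have hs0 : 0 < s := Finset.sum_pos (fun j _ => mul_pos (hl j) (hal' j)) ⟨0, Finset.mem_univ _⟩
  obtain ⟨f, m, hfx, hfu⟩ := geometric_hahn_banach_point_closed (convex_convexHull ℝ _)
    ((ConeHull_finite (al (len p)) hal').isClosed_convexHull ℝ) hx
  set e : Fin 6 → ℝ := fun j => f (fun i => if j = i then 1 else 0) with he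
  have hf : ∀ v : Fin 6 → ℝ, f v = ∑ j, v j * e j := by
    intro v
    have h1 := LinearMap.pi_apply_eq_sum_univ (f : (Fin 6 → ℝ) →ₗ[ℝ] ℝ) v
    exact h1
  set β : Fin 6 → ℝ := fun j => e j - m / π * al (len p) j with hβdef
  have hsum : ∀ w : Fin 6 → ℝ, ∑ j, w j * β j = f w - m / π * ∑ j, w j * al (len p) j := by
    intro w
    rw [hf w, Finset.mul_sum, ← Finset.sum_sub_distrib]
    apply Finset.sum_congr rfl
    intro j _
    rw [hβdef]
    ring
  have hpos : ∀ u : Fin 6 → ℝ, HalfNat u → ∑ j, u j * al (len p) j = π →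
      0 < ∑ j, u j * β j := by
    intro u h1 h2
    rw [hsum u, h2, div_mul_cancel₀ _ hπ.ne']
    have h3 := hfu u (subset_convexHull ℝ _ ⟨h1, h2⟩)
    linarith
  have hβ : ∀ n : Fin 6 → ℕ, (∑ j, (n j : ℝ) * al (len p) j = π ∨
      ∑ j, (n j : ℝ) * al (len p) j = 2 * π) → 0 ≤ ∑ j, (n j : ℝ) * β j := by
    intro n hn
    rcases hn with hn | hn
    · exact (hpos (fun j => (n j : ℝ)) (fun j => ⟨2 * n j, by push_cast; ring⟩) hn).le
    · have h1 : ∑ j, (n j : ℝ) / 2 * al (len p) j = π := by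
        have h2 : ∑ j, (n j : ℝ) / 2 * al (len p) j = (∑ j, (n j : ℝ) * al (len p) j) / 2 := by
          rw [Finset.sum_div]
          apply Finset.sum_congr rfl
          intro j _
          ring
        rw [h2, hn]
        ring
      have h3 := hpos (fun j => (n j : ℝ) / 2) (fun j => ⟨n j, rfl⟩) h1
      have h4 : ∑ j, (n j : ℝ) / 2 * β j = (∑ j, (n j : ℝ) * β j) / 2 := by
        rw [Finset.sum_div]
        apply Finset.sum_congr rfl
        intro j _
        ring
      rw [h4] at h3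
      linarith
  have h0 := cone_ineq p hp hT hal' β hβ
  have h1 : ∑ j, ((π / s) • len p) j * β j = π / s * ∑ j, len p j * β j := by
    rw [Finset.mul_sum]
    apply Finset.sum_congr rfl
    intro j _
    rw [Pi.smul_apply, smul_eq_mul]
    ring
  have h2 : ∑ j, ((π / s) • len p) j * al (len p) j = π := by
    have h3 : ∑ j, ((π / s) • len p) j * al (len p) j = π / s * s := by
      rw [hs, Finset.mul_sum]
      apply Finset.sum_congr rfl
      intro j _
      rw [Pi.smul_apply, smul_eq_mul]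
      ring
    rw [h3, div_mul_cancel₀ _ hs0.ne']
  have h3 := hsum ((π / s) • len p)
  rw [h1, h2, div_mul_cancel₀ _ hπ.ne'] at h3
  have h4 : 0 ≤ π / s * ∑ j, len p j * β j := mul_nonneg (by positivity) h0
  linarith

end Pool.Agent.Helper13.HT
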