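import Pool.Agent.Helper1.Tet.Density

/-!
# HT-01 (A): the density of a tetrahedron at a point, exact value

Same proof as `Pool.Agent.Helper1.Tet.density` (file Helper1/Tet/Density.lean, about 150 lines);
only the last clause changes: instead of `f θ = ∑ ...` for all ℚ-linear `f` killing `π` we record the
exact value: on the edge `j`: `θ = al (len p) j`, `k = 0`; inside a face: `θ = π`, `k = 1`; in the
interior: `θ = 2π`, `k = 2`.
-/

open Real MeasureTheory Set InnerProductGeometry Filter Topology
open scoped RealInnerProductSpace ENNReal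
open Pool.Agent.Helper1.Tet

namespace Pool.Agent.Helper13.HT

theorem density2 (p : Fin 4 → E3) (hp : AffineIndependent ℝ p) (x : E3)
    (hx : x ∈ convexHull ℝ (range p)) (hx' : x ∉ range p) :
    ∃ (θ : ℝ) (k : ℕ), 0 ≤ θ ∧ (∃ r₀ > 0, ∀ r, 0 < r → r < r₀ →
      volume (convexHull ℝ (range p) ∩ Metric.ball x r) =
        ENNReal.ofReal (θ / (2 * π)) * volume (Metric.ball x r)) ∧
      θ = ∑ j, (segment ℝ (p (ea j)) (p (eb j))).indicator (fun _ => al (len p) j) x + k * π := by
  classical
  obtain ⟨g, hg⟩ := exists_dual p hp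
  have hlam : ∀ y, y ∈ convexHull ℝ (range p) ↔ ∀ i, 0 ≤ dn_lam p g y i := fun y =>
    mem_hull_iff p g hp hg y
  have hx0 := (hlam x).1 hx
  have hinj : Function.Injective p := hp.injective
  have hsum := dn_lam_sum p g hp hg x
  have hexp := dn_lam_expand p g hp hg x
  have hseg := dn_mem_segment p g hp hg x hx0
  -- the coordinates which are positive at x stay positive near x
  obtain ⟨r₀, hr₀, hnear⟩ : ∃ r₀ > 0, ∀ y ∈ Metric.ball x r₀, ∀ i, 0 < dn_lam p g x i →
      0 < dn_lam p g y i := by
    have h1 : ∀ i, ∀ᶠ y in 𝓝 x, 0 < dn_lam p g x i → 0 < dn_lam p g y i := by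
      intro i
      by_cases hi : 0 < dn_lam p g x i
      · have hc : Continuous fun y => dn_lam p g y i := by
          unfold dn_lam; fun_prop
        filter_upwards [hc.continuousAt.eventually (lt_mem_nhds hi)] with y hy _
        exact hy
      · exact Eventually.of_forall fun y h => absurd h hi
    have h2 := eventually_all.2 h1
    rw [Metric.eventually_nhds_iff_ball] at h2
    exact h2
  -- wedge formula for the intersection with a small ball
  have hwedge : ∀ c d : Fin 4, dn_lam p g x c = 0 → dn_lam p g x d = 0 →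
      (∀ i, i ≠ c → i ≠ d → 0 < dn_lam p g x i) → (∃ a b, a ≠ b ∧ a ≠ c ∧ a ≠ d ∧ b ≠ c ∧ b ≠ d) →
      ∀ r, 0 < r → r < r₀ → volume (convexHull ℝ (range p) ∩ Metric.ball x r) =
        ENNReal.ofReal ((π - angle (g c) (g d)) / (2 * π)) * volume (Metric.ball x r) := by
    rintro c d hc hd hpos ⟨a, b, hab, hac, had, hbc, hbd⟩ r hr hrr
    have he : p b - p a ≠ 0 := sub_ne_zero.2 fun h => hab (hinj h).symm
    have h1 : ⟪p b - p a, g c⟫ = 0 := by
      rw [real_inner_comm, hg, if_neg hbc.symm, if_neg hac.symm, sub_zero]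
    have h2 : ⟪p b - p a, g d⟫ = 0 := by
      rw [real_inner_comm, hg, if_neg hbd.symm, if_neg had.symm, sub_zero]
    rw [← dn_wedge_vol (p b - p a) (g c) (g d) he (dual_ne_zero p g hg c) (dual_ne_zero p g hg d)
      h1 h2 x r]
    congr 1
    ext y
    simp only [Set.mem_inter_iff, Set.mem_ofPred_eq]
    refine and_congr_left fun hy => ?_
    rw [hlam]
    constructor
    · intro h
      have h3 := h c
      have h4 := h d
      rw [dn_lam_shift p g x y, hc, zero_add] at h3
      rw [dn_lam_shift p g x y, hd, zero_add] at h4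
      exact ⟨h3, h4⟩
    · rintro ⟨h3, h4⟩ i
      by_cases hic : i = c
      · rw [hic, dn_lam_shift p g x y, hc, zero_add]; exact h3
      · by_cases hid : i = d
        · rw [hid, dn_lam_shift p g x y, hd, zero_add]; exact h4
        · exact (hnear y (Metric.ball_subset_ball hrr.le hy) i (hpos i hic hid)).le
  have hπ := Real.pi_pos
  by_cases hA : ∃ j, dn_lam p g x (ec j) = 0 ∧ dn_lam p g x (ed j) = 0
  · -- on an edge
    obtain ⟨j, hjc, hjd⟩ := hA
    have hpos : ∀ i, i ≠ ec j → i ≠ ed j → 0 < dn_lam p g x i := by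
      intro i hic hid
      refine lt_of_le_of_ne (hx0 i) fun h0 => ?_
      -- the remaining vertex
      obtain ⟨k, hk⟩ : ∃ k : Fin 4, k ≠ i ∧ k ≠ ec j ∧ k ≠ ed j ∧
          ∀ m : Fin 4, m ≠ k → m = i ∨ m = ec j ∨ m = ed j := by
        clear hjc hjd h0
        revert i j
        decide
      apply hx'
      have hz : ∀ m, m ≠ k → dn_lam p g x m = 0 := by
        intro m hm
        rcases hk.2.2.2 m hm with h | h | h
        · rw [h]; exact h0.symm
        · rw [h]; exact hjc
        · rw [h]; exact hjd
      have h1 : dn_lam p g x k = 1 := by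
        rw [← hsum]
        exact (Finset.sum_eq_single k (fun m _ hm => hz m hm)
          (fun h => absurd (Finset.mem_univ k) h)).symm
      refine ⟨k, ?_⟩
      rw [← hexp, Finset.sum_eq_single k (fun m _ hm => by rw [hz m hm, zero_smul])
        (fun h => absurd (Finset.mem_univ k) h), h1, one_smul]
    refine ⟨al (len p) j, 0, Real.arccos_nonneg _, ⟨r₀, hr₀, fun r hr hrr => ?_⟩, ?_⟩
    · rw [al_len p g hp hg j]
      exact hwedge (ec j) (ed j) hjc hjd hpos
        ⟨ea j, eb j, by fin_cases j <;> decide, by fin_cases j <;> decide,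
          by fin_cases j <;> decide, by fin_cases j <;> decide, by fin_cases j <;> decide⟩ r hr hrr
    · rw [Nat.cast_zero, zero_mul, add_zero, Finset.sum_eq_single j]
      · rw [Set.indicator_of_mem ((hseg j).2 ⟨hjc, hjd⟩)]
      · intro j' _ hne
        rw [Set.indicator_of_notMem]
        rw [hseg]
        rintro ⟨h1, h2⟩
        have h3 : ec j' = ec j ∨ ec j' = ed j := by
          by_contra hcon
          push Not at hcon
          exact absurd h1 (hpos _ hcon.1 hcon.2).ne'
        have h4 : ed j' = ec j ∨ ed j' = ed j := by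
          by_contra hcon
          push Not at hcon
          exact absurd h2 (hpos _ hcon.1 hcon.2).ne'
        have h5 : ∀ j j' : Fin 6, (ec j' = ec j ∨ ec j' = ed j) → (ed j' = ec j ∨ ed j' = ed j) →
            j' = j := by decide
        exact hne (h5 j j' h3 h4)
      · intro h; exact absurd (Finset.mem_univ j) h
  · have hzero : ∑ j, (segment ℝ (p (ea j)) (p (eb j))).indicator
        (fun _ => al (len p) j) x = 0 := by
      refine Finset.sum_eq_zero fun j _ => ?_
      rw [Set.indicator_of_notMem]
      rw [hseg]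
      exact fun h => hA ⟨j, h⟩
    by_cases hB : ∃ i, dn_lam p g x i = 0
    · obtain ⟨i, hi⟩ := hB
      have hpos : ∀ k, k ≠ i → k ≠ i → 0 < dn_lam p g x k := by
        intro k hk _
        refine lt_of_le_of_ne (hx0 k) fun h0 => ?_
        obtain ⟨j, hj⟩ : ∃ j : Fin 6, (ec j = k ∧ ed j = i) ∨ (ec j = i ∧ ed j = k) := by
          clear hi h0
          revert k i
          decide
        apply hA
        rcases hj with ⟨h1, h2⟩ | ⟨h1, h2⟩
        · exact ⟨j, by rw [h1]; exact h0.symm, by rw [h2]; exact hi⟩
        · exact ⟨j, by rw [h1]; exact hi, by rw [h2]; exact h0.symm⟩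
      refine ⟨π, 1, hπ.le, ⟨r₀, hr₀, fun r hr hrr => ?_⟩, ?_⟩
      · have h1 := hwedge i i hi hi hpos (by
          clear hi hpos
          revert i
          decide) r hr hrr
        rw [angle_self (dual_ne_zero p g hg i), sub_zero] at h1
        exact h1
      · rw [hzero, Nat.cast_one, one_mul, zero_add]
    · have hpos : ∀ k, 0 < dn_lam p g x k := fun k =>
        lt_of_le_of_ne (hx0 k) fun h0 => hB ⟨k, h0.symm⟩
      refine ⟨2 * π, 2, by positivity, ⟨r₀, hr₀, fun r hr hrr => ?_⟩, ?_⟩
      · rw [div_self (by positivity), ENNReal.ofReal_one, one_mul]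
        congr 1
        rw [Set.inter_eq_right]
        intro y hy
        rw [hlam]
        exact fun i => (hnear y (Metric.ball_subset_ball hrr.le hy) i (hpos i)).le
      · rw [hzero, Nat.cast_ofNat, zero_add]

end Pool.Agent.Helper13.HT
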