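import Pool.Agent.Helper1.Tet.LocalRel
import Pool.Agent.Helper13.HT.Density2

/-!
# HT-02 (A): the local relation at a point of a tiling, exact value

Same proof as `Pool.Agent.Helper1.Tet.local_relation` (file Helper1/Tet/LocalRel.lean), with
`density2` in place of `density`: the densities at `x` of the tiles containing `x` add up to `2π`.
-/

open Real MeasureTheory Set InnerProductGeometry Filter Topology
open scoped RealInnerProductSpace ENNReal
open Pool.Agent.Helper1.Tet

namespace Pool.Agent.Helper13.HT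

theorem local_relation2 {ι : Type*} (P : ι → Fin 4 → E3) (l : Fin 6 → ℝ)
    (hP : ∀ i, AffineIndependent ℝ (P i)) (hl : ∀ i, len (P i) = l)
    (hcov : ⋃ i, convexHull ℝ (range (P i)) = univ)
    (hdis : Pairwise fun i i' => Disjoint (interior (convexHull ℝ (range (P i))))
      (interior (convexHull ℝ (range (P i')))))
    (hfin : ∀ R : ℝ, {i | (convexHull ℝ (range (P i)) ∩ Metric.ball 0 R).Nonempty}.Finite)
    (x : E3) (hx : ∀ i, x ∉ range (P i)) (s : Finset ι)
    (hs : ∀ i, x ∈ convexHull ℝ (range (P i)) → i ∈ s) :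
    ∃ k : ℕ, ∑ i ∈ s, ∑ j, (segment ℝ (P i (ea j)) (P i (eb j))).indicator
      (fun _ => al l j) x + k * π = 2 * π := by
  classical
  set T : ι → Set E3 := fun i => convexHull ℝ (range (P i)) with hT
  set F : Finset ι := s.filter (fun i => x ∈ T i) with hF
  have hFmem : ∀ i, i ∈ F ↔ x ∈ T i := fun i => by
    rw [hF, Finset.mem_filter]
    exact ⟨fun h => h.2, fun h => ⟨hs i h, h⟩⟩
  -- densities
  have hd : ∀ i ∈ F, ∃ (θ : ℝ) (k : ℕ), 0 ≤ θ ∧ (∃ r₀ > 0, ∀ r, 0 < r → r < r₀ →
      volume (T i ∩ Metric.ball x r) =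
        ENNReal.ofReal (θ / (2 * π)) * volume (Metric.ball x r)) ∧
      θ = ∑ j, (segment ℝ (P i (ea j)) (P i (eb j))).indicator (fun _ => al l j) x + k * π := by
    intro i hi
    obtain ⟨θ, k, h0, h1, h2⟩ := density2 (P i) (hP i) x ((hFmem i).1 hi) (hx i)
    refine ⟨θ, k, h0, h1, ?_⟩
    rwa [hl i] at h2
  choose! θ k hθ0 hθr hθf using hd
  choose! r₀ hr₀ hvol using hθr
  -- small ball meets only tiles of `F`
  set B := (hfin (‖x‖ + 1)).toFinset with hB
  have hopen : IsOpen (⋂ i ∈ B \ F, (T i)ᶜ) := by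
    apply isOpen_biInter_finset
    intro i _
    exact (isClosed_tile (P i)).isOpen_compl
  have hxU : x ∈ ⋂ i ∈ B \ F, (T i)ᶜ := by
    simp only [mem_iInter]
    intro i hi
    rw [Finset.mem_sdiff] at hi
    exact fun h => hi.2 ((hFmem i).2 h)
  obtain ⟨r₁, hr₁, hball⟩ := Metric.isOpen_iff.1 hopen x hxU
  -- choose the radius
  obtain ⟨r, hr, hr1, hr2, hrF⟩ : ∃ r : ℝ, 0 < r ∧ r < r₁ ∧ r < 1 ∧ ∀ i ∈ F, r < r₀ i := by
    have h1 : ∀ᶠ r in 𝓝[>] (0 : ℝ), ∀ i ∈ F, r < r₀ i := by
      rw [Filter.eventually_all_finset]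
      intro i hi
      exact eventually_nhdsWithin_of_eventually_nhds (gt_mem_nhds (hr₀ i hi))
    have h2 : ∀ᶠ r in 𝓝[>] (0 : ℝ), r < r₁ :=
      eventually_nhdsWithin_of_eventually_nhds (gt_mem_nhds hr₁)
    have h3 : ∀ᶠ r in 𝓝[>] (0 : ℝ), r < 1 :=
      eventually_nhdsWithin_of_eventually_nhds (gt_mem_nhds one_pos)
    have h4 : ∀ᶠ r in 𝓝[>] (0 : ℝ), 0 < r := eventually_mem_nhdsWithin
    obtain ⟨r, a, b, c, d⟩ := (h1.and (h2.and (h3.and h4))).exists
    exact ⟨r, d, b, c, a⟩
  have hcover : Metric.ball x r = ⋃ i ∈ F, (T i ∩ Metric.ball x r) := by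
    ext y
    simp only [mem_iUnion]
    constructor
    · intro hy
      have h1 : y ∈ ⋃ i, T i := by rw [hcov]; exact mem_univ y
      obtain ⟨i, hi⟩ := mem_iUnion.1 h1
      refine ⟨i, ?_, hi, hy⟩
      by_contra hiF
      have hiB : i ∈ B := by
        rw [hB, Set.Finite.mem_toFinset]
        refine ⟨y, hi, ?_⟩
        rw [mem_ball_zero_iff]
        have h2 : ‖y - x‖ < 1 := by
          rw [← dist_eq_norm]
          exact lt_trans (Metric.mem_ball.1 hy) hr2
        calc ‖y‖ = ‖(y - x) + x‖ := by rw [sub_add_cancel]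
          _ ≤ ‖y - x‖ + ‖x‖ := norm_add_le _ _
          _ < ‖x‖ + 1 := by linarith
      have h3 := hball (Metric.ball_subset_ball hr1.le hy)
      simp only [mem_iInter] at h3
      exact h3 i (Finset.mem_sdiff.2 ⟨hiB, hiF⟩) hi
    · rintro ⟨i, _, _, hy⟩
      exact hy
  have hmeas : volume (Metric.ball x r) = ∑ i ∈ F, volume (T i ∩ Metric.ball x r) := by
    conv_lhs => rw [hcover]
    apply measure_biUnion_finset₀
    · intro i _ i' _ hii
      show volume ((T i ∩ Metric.ball x r) ∩ (T i' ∩ Metric.ball x r)) = 0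
      refine measure_mono_null ?_ (aedisjoint_tile (P i) (P i') (hdis hii))
      rintro y ⟨⟨h1, _⟩, ⟨h2, _⟩⟩
      exact ⟨h1, h2⟩
    · intro i _
      exact ((isClosed_tile (P i)).measurableSet.inter Metric.isOpen_ball.measurableSet).nullMeasurableSet
  have hpos : 0 < volume (Metric.ball x r) := Metric.measure_ball_pos volume x hr
  have hlt : volume (Metric.ball x r) < ∞ := measure_ball_lt_top
  have h2pi : (0 : ℝ) < 2 * π := by positivity
  have hsum : ∑ i ∈ F, θ i = 2 * π := by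
    rw [Finset.sum_congr rfl (fun i hi => hvol i hi r hr (hrF i hi)), ← Finset.sum_mul,
      ← ENNReal.ofReal_sum_of_nonneg (fun i hi => div_nonneg (hθ0 i hi) h2pi.le)] at hmeas
    have h1 : ENNReal.ofReal (∑ i ∈ F, θ i / (2 * π)) = 1 := by
      have h2 : ENNReal.ofReal (∑ i ∈ F, θ i / (2 * π)) * volume (Metric.ball x r) =
          1 * volume (Metric.ball x r) := by rw [one_mul]; exact hmeas.symm
      exact (ENNReal.mul_left_inj hpos.ne' hlt.ne).1 h2
    rw [ENNReal.ofReal_eq_one, ← Finset.sum_div, div_eq_one_iff_eq h2pi.ne'] at h1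
    exact h1
  -- conclusion
  have h1 : ∑ i ∈ s, ∑ j, (segment ℝ (P i (ea j)) (P i (eb j))).indicator
      (fun _ => al l j) x = ∑ i ∈ F, ∑ j, (segment ℝ (P i (ea j)) (P i (eb j))).indicator
      (fun _ => al l j) x := by
    rw [hF, Finset.sum_filter]
    apply Finset.sum_congr rfl
    intro i _
    split_ifs with hi
    · rfl
    · apply Finset.sum_eq_zero
      intro j _
      apply indicator_of_notMem
      intro hseg
      exact hi (segment_subset_convexHull (mem_range_self _) (mem_range_self _) hseg)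
  refine ⟨∑ i ∈ F, k i, ?_⟩
  rw [Finset.sum_congr rfl hθf, Finset.sum_add_distrib, ← Finset.sum_mul] at hsum
  rw [h1, Nat.cast_sum]
  exact hsum

end Pool.Agent.Helper13.HT
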