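import Pool.Agent.Helper1.Tet.Defs
import Pool.Agent.Helper1.Tet.Dual

/-!
# HT-31a (F): congruent tetrahedra tile together

Two affinely independent 4-tuples with the same mutual distances are related by an isometry `g` of `E3` (`g (p i) = q i`): the vectors `p i - p 0` and `q i - q 0` (i = 1, 2, 3) have the same Gram matrix
(`2⟪a,b⟫ = ‖a‖² + ‖b‖² - ‖a-b‖²`) and are bases of `E3`; the linear map sending one basis to the other preserves inner products, so it is a linear isometry (equivalence, by finite dimension); compose with translations.
Then `convexHull (range q) = g '' convexHull (range p)` (affine map, `AffineMap.image_convexHull`, cf. the end of Helper1/Tet/DehnZero), and a tiling by copies of one is a tiling by copies of the other (compose the isometries).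
-/

open Real Set MeasureTheory
open Pool.Agent.Helper1.Tet

namespace Pool.Agent.Helper13.HT

private theorem congr_iso (p q : Fin 4 → E3) (hp : AffineIndependent ℝ p)
    (hq : AffineIndependent ℝ q) (h : ∀ i j, dist (p i) (p j) = dist (q i) (q j)) :
    ∃ g : E3 ≃ᵢ E3, ∀ i, g (q i) = p i := by
  set bp := t1Basis p hp with hbp
  set bq := t1Basis q hq with hbq
  have hqf : (bq : Fin 4 → E3) = q := rfl
  have hpf : (bp : Fin 4 → E3) = p := rfl
  have hiso : Isometry fun x : E3 =>
      Finset.univ.affineCombination ℝ p (fun i => bq.coord i x) := by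
    apply Isometry.of_dist_eq
    intro x y
    have h1 := EuclideanGeometry.dist_affineCombination (s := Finset.univ) (V := E3) p
      (bq.sum_coord_apply_eq_one x) (bq.sum_coord_apply_eq_one y)
    have h2 := EuclideanGeometry.dist_affineCombination (s := Finset.univ) (V := E3) q
      (bq.sum_coord_apply_eq_one x) (bq.sum_coord_apply_eq_one y)
    simp only at h1 h2
    have hx : Finset.univ.affineCombination ℝ q (fun i => bq.coord i x) = x := by
      rw [← hqf]; exact bq.affineCombination_coord_eq_self x
    have hy : Finset.univ.affineCombination ℝ q (fun i => bq.coord i y) = y := by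
      rw [← hqf]; exact bq.affineCombination_coord_eq_self y
    rw [hx, hy] at h2
    simp only [h] at h1
    rw [← h2] at h1
    exact (mul_self_inj dist_nonneg dist_nonneg).1 h1
  refine ⟨IsometryEquiv.mk' _ (fun y => Finset.univ.affineCombination ℝ q
    (fun i => bp.coord i y)) (fun y => ?_) hiso, fun i => ?_⟩
  · have h3 : ∀ i, bq.coord i (Finset.univ.affineCombination ℝ q (fun i => bp.coord i y)) =
        bp.coord i y := by
      intro i
      rw [← hqf]
      exact bq.coord_apply_combination_of_mem (Finset.mem_univ i)
        (bp.sum_coord_apply_eq_one y)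
    simp only [h3]
    rw [← hpf]
    exact bp.affineCombination_coord_eq_self y
  · have h4 : (fun j => bq.coord j (q i)) = Pi.single i (1 : ℝ) := by
      funext j
      have := bq.coord_apply j i
      rw [hqf] at this
      rw [this]
      by_cases hji : j = i
      · subst hji; simp
      · simp [hji]
    show Finset.univ.affineCombination ℝ p (fun j => bq.coord j (q i)) = p i
    rw [h4]
    exact Finset.univ.affineCombination_of_eq_one_of_eq_zero _ _ (Finset.mem_univ i) (by simp)
      (fun j _ hj => by simp [hj])

theorem congr_tiles (p q : Fin 4 → E3) (hp : AffineIndependent ℝ p) (hq : AffineIndependent ℝ q)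
    (h : ∀ i j, dist (p i) (p j) = dist (q i) (q j)) (hT : TilesSpace (convexHull ℝ (range p))) :
    TilesSpace (convexHull ℝ (range q)) := by
  obtain ⟨g, hg⟩ := congr_iso p q hp hq h
  obtain ⟨a, ha⟩ : ∃ a : E3 ≃ᵃ[ℝ] E3, ∀ x, a x = g x :=
    ⟨g.toRealAffineIsometryEquiv.toAffineEquiv, fun x => rfl⟩
  have hhull : convexHull ℝ (range p) = g '' convexHull ℝ (range q) := by
    have e1 : range p = a.toAffineMap '' range q := by
      have : p = a.toAffineMap ∘ q := by
        funext i
        show p i = a (q i)
        rw [ha, hg]
      rw [← range_comp, ← this]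
    rw [e1, ← AffineMap.image_convexHull]
    ext y
    constructor
    · rintro ⟨x, hx, rfl⟩
      exact ⟨x, hx, (ha x).symm⟩
    · rintro ⟨x, hx, rfl⟩
      exact ⟨x, hx, ha x⟩
  obtain ⟨𝒯, h1, h2, h3⟩ := hT
  refine ⟨𝒯, fun S hS => ?_, h2, h3⟩
  obtain ⟨φ, hφ⟩ := h1 S hS
  refine ⟨g.trans φ, ?_⟩
  rw [hφ, hhull, ← image_comp]
  rfl

end Pool.Agent.Helper13.HT
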