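import Pool.Agent.Helper1.Tet.Dual
import Pool.Agent.Helper13.HT.Defs

/-!
# HT-30 (F): a symmetric tetrahedron can be relabelled into one of the two classes

`len (p ∘ τ) = (|τ0 τ1|, |τ0 τ2|, |τ0 τ3|, |τ1 τ2|, |τ1 τ3|, |τ2 τ3|)`; class `c2v` iff `|τ0 τ2| = |τ1 τ3|` and `|τ0 τ3| = |τ1 τ2|`; class `miv` iff
`|τ0 τ2| = |τ1 τ2|` and `|τ0 τ3| = |τ1 τ3|` (take `y = (l 0, l 5, 2 l 1, 2 l 2)`).
Iterating the hypothesis: `dist (p ((σ^n) i)) (p ((σ^n) j)) = dist (p i) (p j)`. Some power of `σ ≠ 1` is a transposition, a double transposition or a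
3-cycle. Transposition `(i j)`: `τ0 = i, τ1 = j`: `miv`. Double transposition `(i j)(k l)`: `τ = (i, j, k, l)`: `c2v`. 3-cycle `(i j k)`, fixed point `l`:
`τ = (i, j, k, l)`: `|ik| = |jk|` and `|il| = |jl|`: `miv`. Possible proof: a decidable statement: for all `σ ≠ 1` there are `τ` and `n, m ≤ 3` such that
[`{σ^n τ0, σ^n τ2} = {τ1, τ3}` and `{σ^m τ0, σ^m τ3} = {τ1, τ2}`] or [`{σ^n τ0, σ^n τ2} = {τ1, τ2}` and `{σ^m τ0, σ^m τ3} = {τ1, τ3}`] (as unordered pairs); prove by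
`decide` or by `fin_cases σ`-like enumeration of the images `σ 0, σ 1, σ 2, σ 3`.
-/

open Real Set
open Pool.Agent.Helper1.Tet

namespace Pool.Agent.Helper13.HT

/-- a nontrivial permutation of the vertices preserves the distances -/
def Sym (p : Fin 4 → E3) : Prop :=
  ∃ σ : Equiv.Perm (Fin 4), σ ≠ 1 ∧ ∀ i j, dist (p (σ i)) (p (σ j)) = dist (p i) (p j)

/-- equality of unordered pairs -/
private def EP (a b c d : Fin 4) : Prop := (a = c ∧ b = d) ∨ (a = d ∧ b = c)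

private instance (a b c d : Fin 4) : Decidable (EP a b c d) := by
  unfold EP
  infer_instance

/-- iterates -/
private def it (σ : Equiv.Perm (Fin 4)) : ℕ → Fin 4 → Fin 4
  | 0, a => a
  | n + 1, a => σ (it σ n a)

private theorem perm_class : ∀ σ : Equiv.Perm (Fin 4), σ ≠ 1 →
    ∃ τ : Equiv.Perm (Fin 4), ∃ n m : Fin 4,
      (EP (it σ n (τ 0)) (it σ n (τ 2)) (τ 1) (τ 3) ∧
        EP (it σ m (τ 0)) (it σ m (τ 3)) (τ 1) (τ 2)) ∨
      (EP (it σ n (τ 0)) (it σ n (τ 2)) (τ 1) (τ 2) ∧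
        EP (it σ m (τ 0)) (it σ m (τ 3)) (τ 1) (τ 3)) := by
  decide +kernel

private theorem dist_it {p : Fin 4 → E3} {σ : Equiv.Perm (Fin 4)}
    (h : ∀ i j, dist (p (σ i)) (p (σ j)) = dist (p i) (p j)) (n : ℕ) (i j : Fin 4) :
    dist (p (it σ n i)) (p (it σ n j)) = dist (p i) (p j) := by
  induction n with
  | zero => rfl
  | succ n ih => rw [← ih]; exact h _ _

private theorem dist_EP {p : Fin 4 → E3} {a b c d : Fin 4} (h : EP a b c d) :
    dist (p a) (p b) = dist (p c) (p d) := by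
  rcases h with ⟨rfl, rfl⟩ | ⟨rfl, rfl⟩
  · rfl
  · exact dist_comm _ _

theorem sym_class (p : Fin 4 → E3) (h : Sym p) :
    ∃ τ : Equiv.Perm (Fin 4), (∃ y, len (p ∘ τ) = c2v y) ∨ (∃ y, len (p ∘ τ) = miv y) := by
  obtain ⟨σ, hσ, hd⟩ := h
  obtain ⟨τ, n, m, hc⟩ := perm_class σ hσ
  refine ⟨τ, ?_⟩
  rcases hc with ⟨h1, h2⟩ | ⟨h1, h2⟩
  · left
    have e1 : dist (p (τ 0)) (p (τ 2)) = dist (p (τ 1)) (p (τ 3)) :=
      (dist_it hd n _ _).symm.trans (dist_EP h1)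
    have e2 : dist (p (τ 0)) (p (τ 3)) = dist (p (τ 1)) (p (τ 2)) :=
      (dist_it hd m _ _).symm.trans (dist_EP h2)
    refine ⟨![dist (p (τ 0)) (p (τ 1)), dist (p (τ 2)) (p (τ 3)), 2 * dist (p (τ 0)) (p (τ 2)),
      2 * dist (p (τ 0)) (p (τ 3))], ?_⟩
    funext j
    fin_cases j
    · rfl
    · change dist (p (τ 0)) (p (τ 2)) = 2 * dist (p (τ 0)) (p (τ 2)) / 2
      ring
    · change dist (p (τ 0)) (p (τ 3)) = 2 * dist (p (τ 0)) (p (τ 3)) / 2
      ring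
    · change dist (p (τ 1)) (p (τ 2)) = 2 * dist (p (τ 0)) (p (τ 3)) / 2
      rw [e2]
      ring
    · change dist (p (τ 1)) (p (τ 3)) = 2 * dist (p (τ 0)) (p (τ 2)) / 2
      rw [e1]
      ring
    · rfl
  · right
    have e1 : dist (p (τ 0)) (p (τ 2)) = dist (p (τ 1)) (p (τ 2)) :=
      (dist_it hd n _ _).symm.trans (dist_EP h1)
    have e2 : dist (p (τ 0)) (p (τ 3)) = dist (p (τ 1)) (p (τ 3)) :=
      (dist_it hd m _ _).symm.trans (dist_EP h2)
    refine ⟨![dist (p (τ 0)) (p (τ 1)), dist (p (τ 2)) (p (τ 3)), 2 * dist (p (τ 0)) (p (τ 2)),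
      2 * dist (p (τ 0)) (p (τ 3))], ?_⟩
    funext j
    fin_cases j
    · rfl
    · change dist (p (τ 0)) (p (τ 2)) = 2 * dist (p (τ 0)) (p (τ 2)) / 2
      ring
    · change dist (p (τ 0)) (p (τ 3)) = 2 * dist (p (τ 0)) (p (τ 3)) / 2
      ring
    · change dist (p (τ 1)) (p (τ 2)) = 2 * dist (p (τ 0)) (p (τ 2)) / 2
      rw [e1]
      ring
    · change dist (p (τ 1)) (p (τ 3)) = 2 * dist (p (τ 0)) (p (τ 3)) / 2
      rw [e2]
      ring
    · rfl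

private theorem ix_ends : ∀ a b : Fin 4, a ≠ b → EP (ea (ix a b)) (eb (ix a b)) a b := by
  decide +kernel

private theorem ea_ne_eb : ∀ j : Fin 6, ea j ≠ eb j := by
  decide +kernel

/-- relabelling the vertices permutes the edge lengths -/
theorem len_relabel (τ : Equiv.Perm (Fin 4)) :
    ∃ s : Fin 6 → Fin 6, ∀ p : Fin 4 → E3, len p = fun j => len (p ∘ τ) (s j) := by
  refine ⟨fun j => ix (τ.symm (ea j)) (τ.symm (eb j)), fun p => ?_⟩
  funext j
  have hne : τ.symm (ea j) ≠ τ.symm (eb j) := fun h => ea_ne_eb j (τ.symm.injective h)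
  have h1 := dist_EP (p := p ∘ τ) (ix_ends _ _ hne)
  change dist (p (ea j)) (p (eb j)) = dist ((p ∘ τ) _) ((p ∘ τ) _)
  rw [h1]
  simp

end Pool.Agent.Helper13.HT
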