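import Pool.Agent.Helper1.Tet.Lower
import Pool.Agent.Helper13.HT.Congr
import Pool.Agent.Helper13.HT.C2Ineq
import Pool.Agent.Helper13.HT.SymRed

/-!
# HT-31b (F): Hill tetrahedra

`hill_tiles`: `gold h'` has `|01| = |12| = |23| = √(3 + h'²)`, `|02| = |13| = √(3 + 4h'²)`, `|03| = 3h'` (compute with `EuclideanSpace.dist_eq`, cf. `len_gold_zero`, `len_gold_two`).
With `c = e/√3`, `h' = √3 h/e`: `c • gold h'` has the distances `√(e² + h²)`, `√(e² + 4h²)`, `3h`. `gold_tiles`, `TilesSpace.smul`, `range_smul'`, `convexHull_smul`, `congr_tiles` with `p ∘ τ`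
(`range (p ∘ τ) = range p`).
`hill_sym`: `σ` = `τ (0 3)(1 2) τ⁻¹`. `hill_relabel`: compose the permutations.
`hill_of_class`: `len p = c2v y`: `|01| = y0 =: a`, `|02| = |13| = b`, `|03| = |12| = c`, `|23| = y1 =: a'`. If `a = b`, `3(c² - b²) = a'²`: `h = a'/3`, `e² = b² - h²`, where `b > h`: `c2_TT` (`cP > 0`):
`c² - b² < a a'`, i.e. `a'²/3 < b a'`, `h < b`. Path `2 - 0 - 1 - 3` (`τ = (2,0,1,3)`): `|20| = |01| = |13| = b = √(e²+h²)`, `|21| = |03| = c = √(e² + 4h²)` (`c² = b² + 3h²`), `|23| = 3h`.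
The other three alternatives of `HillC`: `a' = b`: path `0 - 2 - 3 - 1` (`b, a', b`; distances two apart `|03| = c`, `|21| = c`; ends `|01| = a = 3h`); `a = c` with `b, c` exchanged: path `3 - 0 - 1 - 2`;
`a' = c`: path `0 - 3 - 2 - 1`.
-/

open Real Set MeasureTheory
open Pool.Agent.Helper1.Tet

namespace Pool.Agent.Helper13.HT

/-- Hill tetrahedra (Sommerville, Hill, Goldberg): three edges of a path have length `√(e²+h²)`, the
distances of vertices two apart are `√(e²+4h²)`, the ends have distance `3h` -/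
def IsHill (p : Fin 4 → E3) : Prop :=
  ∃ (e h : ℝ) (τ : Equiv.Perm (Fin 4)), 0 < e ∧ 0 < h ∧
    dist (p (τ 0)) (p (τ 1)) = √(e ^ 2 + h ^ 2) ∧ dist (p (τ 1)) (p (τ 2)) = √(e ^ 2 + h ^ 2) ∧
    dist (p (τ 2)) (p (τ 3)) = √(e ^ 2 + h ^ 2) ∧ dist (p (τ 0)) (p (τ 2)) = √(e ^ 2 + 4 * h ^ 2) ∧
    dist (p (τ 1)) (p (τ 3)) = √(e ^ 2 + 4 * h ^ 2) ∧ dist (p (τ 0)) (p (τ 3)) = 3 * h

private lemma gd01 (h : ℝ) : dist (gold h 0) (gold h 1) = √(3 + h ^ 2) := len_gold_zero h

private lemma gd03 (h : ℝ) (hh : 0 < h) : dist (gold h 0) (gold h 3) = 3 * h :=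
  len_gold_two h hh

private lemma gd12 (h : ℝ) : dist (gold h 1) (gold h 2) = √(3 + h ^ 2) := by
  have h3 : √3 ^ 2 = (3 : ℝ) := Real.sq_sqrt (by norm_num)
  simp only [gold, EuclideanSpace.dist_eq, Fin.sum_univ_three]
  congr 1
  simp [Real.dist_eq, sq_abs]
  nlinarith [h3, (sq_abs (√3)).trans h3, sq_abs h]

private lemma gd23 (h : ℝ) : dist (gold h 2) (gold h 3) = √(3 + h ^ 2) := by
  have h3 : √3 ^ 2 = (3 : ℝ) := Real.sq_sqrt (by norm_num)
  simp only [gold, EuclideanSpace.dist_eq, Fin.sum_univ_three]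
  congr 1
  simp [Real.dist_eq, sq_abs]
  nlinarith [h3, (sq_abs (√3)).trans h3, sq_abs h]

private lemma gd02 (h : ℝ) : dist (gold h 0) (gold h 2) = √(3 + 4 * h ^ 2) := by
  have h3 : √3 ^ 2 = (3 : ℝ) := Real.sq_sqrt (by norm_num)
  simp only [gold, EuclideanSpace.dist_eq, Fin.sum_univ_three]
  congr 1
  simp [Real.dist_eq, sq_abs]
  nlinarith [h3, (sq_abs (√3)).trans h3, sq_abs h]

private lemma gd13 (h : ℝ) : dist (gold h 1) (gold h 3) = √(3 + 4 * h ^ 2) := by
  have h3 : √3 ^ 2 = (3 : ℝ) := Real.sq_sqrt (by norm_num)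
  simp only [gold, EuclideanSpace.dist_eq, Fin.sum_univ_three]
  congr 1
  simp [Real.dist_eq, sq_abs]
  nlinarith [h3, (sq_abs (√3)).trans h3, sq_abs h]

/-- two quadruples with the same six distances have the same distance function -/
private lemma all_dist {p q : Fin 4 → E3}
    (h01 : dist (p 0) (p 1) = dist (q 0) (q 1)) (h12 : dist (p 1) (p 2) = dist (q 1) (q 2))
    (h23 : dist (p 2) (p 3) = dist (q 2) (q 3)) (h02 : dist (p 0) (p 2) = dist (q 0) (q 2))
    (h13 : dist (p 1) (p 3) = dist (q 1) (q 3)) (h03 : dist (p 0) (p 3) = dist (q 0) (q 3)) :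
    ∀ i j, dist (p i) (p j) = dist (q i) (q j) := by
  have key : ∀ i j : Fin 4, i ≤ j → dist (p i) (p j) = dist (q i) (q j) := by
    intro i j hij
    fin_cases i <;> fin_cases j <;>
      first
        | exact absurd hij (by decide)
        | exact (dist_self _).trans (dist_self _).symm
        | exact h01
        | exact h12
        | exact h23
        | exact h02
        | exact h13
        | exact h03
  intro i j
  rcases le_total i j with h | h
  · exact key i j h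
  · rw [dist_comm (p i), dist_comm (q i)]
    exact key j i h

theorem hill_tiles (p : Fin 4 → E3) (hp : AffineIndependent ℝ p) (h : IsHill p) :
    TilesSpace (convexHull ℝ (range p)) := by
  obtain ⟨e, h, τ, he, hh, h01, h12, h23, h02, h13, h03⟩ := h
  have s3 : (0 : ℝ) < √3 := by positivity
  have s3' : √3 ^ 2 = (3 : ℝ) := Real.sq_sqrt (by norm_num)
  set c : ℝ := e / √3 with hc
  set g : ℝ := √3 * h / e with hg
  have hcpos : 0 < c := by positivity
  have hgpos : 0 < g := by positivity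
  have hc2 : c ^ 2 = e ^ 2 / 3 := by rw [hc, div_pow, s3']
  have hg2 : g ^ 2 = 3 * h ^ 2 / e ^ 2 := by rw [hg, div_pow, mul_pow, s3']
  have hene : e ≠ 0 := he.ne'
  have e1 : c * √(3 + g ^ 2) = √(e ^ 2 + h ^ 2) := by
    rw [← Real.sqrt_sq hcpos.le, ← Real.sqrt_mul (by positivity), hc2, hg2]
    congr 1
    field_simp
  have e2 : c * √(3 + 4 * g ^ 2) = √(e ^ 2 + 4 * h ^ 2) := by
    rw [← Real.sqrt_sq hcpos.le, ← Real.sqrt_mul (by positivity), hc2, hg2]
    congr 1
    field_simp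
  have e3 : c * (3 * g) = 3 * h := by
    rw [hc, hg]
    field_simp
  have hd : ∀ i j, dist (c • gold g i) (c • gold g j) = c * dist (gold g i) (gold g j) := by
    intro i j
    rw [dist_smul₀, Real.norm_of_nonneg hcpos.le]
  have hall := all_dist (p := fun i => c • gold g i) (q := p ∘ τ)
    (by show dist (c • gold g 0) (c • gold g 1) = dist (p (τ 0)) (p (τ 1))
        rw [hd, gd01, e1, h01])
    (by show dist (c • gold g 1) (c • gold g 2) = dist (p (τ 1)) (p (τ 2))
        rw [hd, gd12, e1, h12])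
    (by show dist (c • gold g 2) (c • gold g 3) = dist (p (τ 2)) (p (τ 3))
        rw [hd, gd23, e1, h23])
    (by show dist (c • gold g 0) (c • gold g 2) = dist (p (τ 0)) (p (τ 2))
        rw [hd, gd02, e2, h02])
    (by show dist (c • gold g 1) (c • gold g 3) = dist (p (τ 1)) (p (τ 3))
        rw [hd, gd13, e2, h13])
    (by show dist (c • gold g 0) (c • gold g 3) = dist (p (τ 0)) (p (τ 3))
        rw [hd, gd03 g hgpos, e3, h03])
  have hT : TilesSpace (convexHull ℝ (range fun i => c • gold g i)) := by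
    rw [range_smul', convexHull_smul]
    exact (gold_tiles g hgpos).smul hcpos
  have hq : AffineIndependent ℝ (p ∘ τ) := hp.comp_embedding τ.toEmbedding
  have := congr_tiles _ (p ∘ τ) (indep_smul hcpos (gold_indep g hgpos)) hq hall hT
  rwa [τ.surjective.range_comp p] at this

theorem hill_sym (p : Fin 4 → E3) (h : IsHill p) : Sym p := by
  obtain ⟨e, h, τ, he, hh, h01, h12, h23, h02, h13, h03⟩ := h
  refine ⟨τ * Fin.revPerm * τ⁻¹, ?_, ?_⟩
  · intro h1
    have h2 : τ (Fin.revPerm (τ.symm (τ 0))) = τ 0 :=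
      congrArg (fun s : Equiv.Perm (Fin 4) => s (τ 0)) h1
    rw [τ.symm_apply_apply] at h2
    have h3 := τ.injective h2
    exact absurd h3 (by decide)
  · have hall := all_dist (p := fun i => p (τ (Fin.revPerm i))) (q := fun i => p (τ i))
      (by show dist (p (τ 3)) (p (τ 2)) = dist (p (τ 0)) (p (τ 1))
          rw [dist_comm, h23, h01])
      (by show dist (p (τ 2)) (p (τ 1)) = dist (p (τ 1)) (p (τ 2))
          rw [dist_comm])
      (by show dist (p (τ 1)) (p (τ 0)) = dist (p (τ 2)) (p (τ 3))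
          rw [dist_comm, h23, h01])
      (by show dist (p (τ 3)) (p (τ 1)) = dist (p (τ 0)) (p (τ 2))
          rw [dist_comm, h13, h02])
      (by show dist (p (τ 2)) (p (τ 0)) = dist (p (τ 1)) (p (τ 3))
          rw [dist_comm, h13, h02])
      (by show dist (p (τ 3)) (p (τ 0)) = dist (p (τ 0)) (p (τ 3))
          rw [dist_comm])
    intro i j
    have h4 := hall (τ.symm i) (τ.symm j)
    simp only [τ.apply_symm_apply] at h4
    exact h4

theorem hill_relabel (p : Fin 4 → E3) (τ : Equiv.Perm (Fin 4)) (h : IsHill (p ∘ τ)) : IsHill p := by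
  obtain ⟨e, h, σ, he, hh, h01, h12, h23, h02, h13, h03⟩ := h
  exact ⟨e, h, τ * σ, he, hh, h01, h12, h23, h02, h13, h03⟩

private lemma mk (p : Fin 4 → E3) (τ : Equiv.Perm (Fin 4)) {b c d : ℝ} (hc : 0 < c)
    (hd : 0 < d) (h01 : dist (p (τ 0)) (p (τ 1)) = b) (h12 : dist (p (τ 1)) (p (τ 2)) = b)
    (h23 : dist (p (τ 2)) (p (τ 3)) = b) (h02 : dist (p (τ 0)) (p (τ 2)) = c)
    (h13 : dist (p (τ 1)) (p (τ 3)) = c) (h03 : dist (p (τ 0)) (p (τ 3)) = d)
    (hb : d / 3 < b) (hr : 3 * (c ^ 2 - b ^ 2) = d ^ 2) : IsHill p := by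
  have hbpos : 0 < b := by linarith
  have hpos : 0 < b ^ 2 - (d / 3) ^ 2 := by nlinarith
  have hs : √(b ^ 2 - (d / 3) ^ 2) ^ 2 = b ^ 2 - (d / 3) ^ 2 := Real.sq_sqrt hpos.le
  have e1 : √(√(b ^ 2 - (d / 3) ^ 2) ^ 2 + (d / 3) ^ 2) = b := by
    rw [hs, show b ^ 2 - (d / 3) ^ 2 + (d / 3) ^ 2 = b ^ 2 by ring, Real.sqrt_sq hbpos.le]
  have e2 : √(√(b ^ 2 - (d / 3) ^ 2) ^ 2 + 4 * (d / 3) ^ 2) = c := by
    rw [hs, show b ^ 2 - (d / 3) ^ 2 + 4 * (d / 3) ^ 2 = c ^ 2 by nlinarith,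
      Real.sqrt_sq hc.le]
  refine ⟨√(b ^ 2 - (d / 3) ^ 2), d / 3, τ, Real.sqrt_pos.2 hpos, by positivity, ?_, ?_, ?_, ?_,
    ?_, ?_⟩
  · rw [e1, h01]
  · rw [e1, h12]
  · rw [e1, h23]
  · rw [e2, h02]
  · rw [e2, h13]
  · rw [h03]; ring

theorem hill_of_class (p : Fin 4 → E3) (hp : AffineIndependent ℝ p) (y : Fin 4 → ℝ)
    (hy : len p = c2v y) (hH : HillC y) : IsHill p := by
  have d01 : dist (p 0) (p 1) = y 0 := congrFun hy 0
  have d02 : dist (p 0) (p 2) = y 2 / 2 := congrFun hy 1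
  have d03 : dist (p 0) (p 3) = y 3 / 2 := congrFun hy 2
  have d12 : dist (p 1) (p 2) = y 3 / 2 := congrFun hy 3
  have d13 : dist (p 1) (p 3) = y 2 / 2 := congrFun hy 4
  have d23 : dist (p 2) (p 3) = y 1 := congrFun hy 5
  have hne : ∀ i j : Fin 4, i ≠ j → 0 < dist (p i) (p j) := fun i j hij =>
    dist_pos.2 fun h => hij (hp.injective h)
  have y0 : 0 < y 0 := d01 ▸ hne 0 1 (by decide)
  have y1 : 0 < y 1 := d23 ▸ hne 2 3 (by decide)
  have y2' : 0 < y 2 / 2 := d02 ▸ hne 0 2 (by decide)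
  have y3' : 0 < y 3 / 2 := d03 ▸ hne 0 3 (by decide)
  have y2 : 0 < y 2 := by linarith
  have y3 : 0 < y 3 := by linarith
  have hx : ∀ i, 0 < y i := by
    intro i
    fin_cases i
    · exact y0
    · exact y1
    · exact y2
    · exact y3
  have hTT : c2v y ∈ TT := hy ▸ len_mem_TT p hp
  have hP := ((c2_TT y hx).1 hTT).1
  unfold cP at hP
  have habs : |(y 3 / 2) ^ 2 - (y 2 / 2) ^ 2| < y 0 * y 1 := by
    apply abs_lt_of_sq_lt_sq _ (by positivity)
    nlinarith
  have hlt1 := (abs_lt.1 habs).2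
  have hlt2 := (abs_lt.1 habs).1
  rcases hH with ⟨h1, h2⟩ | ⟨h1, h2⟩ | ⟨h1, h2⟩ | ⟨h1, h2⟩
  · -- path 2 0 1 3
    refine mk p (Equiv.ofBijective ![2, 0, 1, 3] (by decide)) (b := y 2 / 2) (c := y 3 / 2)
      (d := y 1) y3' y1 ?_ ?_ ?_ ?_ ?_ ?_ ?_ h2
    · show dist (p 2) (p 0) = _
      rw [dist_comm, d02]
    · show dist (p 0) (p 1) = _
      rw [d01, h1]
    · show dist (p 1) (p 3) = _
      exact d13
    · show dist (p 2) (p 1) = _
      rw [dist_comm, d12]
    · show dist (p 0) (p 3) = _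
      exact d03
    · show dist (p 2) (p 3) = _
      exact d23
    · have : y 1 * (y 1 / 3) < y 1 * (y 2 / 2) := by
        rw [← h1]; nlinarith
      exact lt_of_mul_lt_mul_left this y1.le
  · -- path 0 2 3 1
    refine mk p (Equiv.ofBijective ![0, 2, 3, 1] (by decide)) (b := y 2 / 2) (c := y 3 / 2)
      (d := y 0) y3' y0 ?_ ?_ ?_ ?_ ?_ ?_ ?_ h2
    · show dist (p 0) (p 2) = _
      exact d02
    · show dist (p 2) (p 3) = _
      rw [d23, h1]
    · show dist (p 3) (p 1) = _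
      rw [dist_comm, d13]
    · show dist (p 0) (p 3) = _
      exact d03
    · show dist (p 2) (p 1) = _
      rw [dist_comm, d12]
    · show dist (p 0) (p 1) = _
      exact d01
    · have : y 0 * (y 0 / 3) < y 0 * (y 2 / 2) := by
        rw [← h1]; nlinarith
      exact lt_of_mul_lt_mul_left this y0.le
  · -- path 3 0 1 2
    refine mk p (Equiv.ofBijective ![3, 0, 1, 2] (by decide)) (b := y 3 / 2) (c := y 2 / 2)
      (d := y 1) y2' y1 ?_ ?_ ?_ ?_ ?_ ?_ ?_ h2
    · show dist (p 3) (p 0) = _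
      rw [dist_comm, d03]
    · show dist (p 0) (p 1) = _
      rw [d01, h1]
    · show dist (p 1) (p 2) = _
      exact d12
    · show dist (p 3) (p 1) = _
      rw [dist_comm, d13]
    · show dist (p 0) (p 2) = _
      exact d02
    · show dist (p 3) (p 2) = _
      rw [dist_comm, d23]
    · have : y 1 * (y 1 / 3) < y 1 * (y 3 / 2) := by
        rw [← h1]; nlinarith
      exact lt_of_mul_lt_mul_left this y1.le
  · -- path 0 3 2 1
    refine mk p (Equiv.ofBijective ![0, 3, 2, 1] (by decide)) (b := y 3 / 2) (c := y 2 / 2)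
      (d := y 0) y2' y0 ?_ ?_ ?_ ?_ ?_ ?_ ?_ h2
    · show dist (p 0) (p 3) = _
      exact d03
    · show dist (p 3) (p 2) = _
      rw [dist_comm, d23, h1]
    · show dist (p 2) (p 1) = _
      rw [dist_comm, d12]
    · show dist (p 0) (p 2) = _
      exact d02
    · show dist (p 3) (p 1) = _
      rw [dist_comm, d13]
    · show dist (p 0) (p 1) = _
      exact d01
    · have : y 0 * (y 0 / 3) < y 0 * (y 3 / 2) := by
        rw [← h1]; nlinarith
      exact lt_of_mul_lt_mul_left this y0.le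

end Pool.Agent.Helper13.HT
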