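import Pool.Agent.Helper13.HT.MiRel

/-!
# HT-14 (C): the mirror relation along a line, case `a < b + f`, `0 < b ≤ a`

So `f > 0`. Let `s = a + b + f`. Of frequency `±s`: `8 cos (α+β+φ)`; not: `2a, 2b < s`; `a+b-f`, `a-b+f`, `a-b-f` (absolute value `< s`,
as `a, b, f > 0`). Possible: `g` (amplitude 4), `2f` (4), `g + 2f` (2), `g - 2f` (2).
* `g = s` and `2f = s`: then `g + 2f = 2s`, and `mi_rel` at the frequency `2s` has the single term `-2 cos (ψ + 2φ)`
  (all other frequencies are `< 2s`; `g - 2f = 0`): `cos = sin = 0`, contradiction.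
* `g = s`, `2f ≠ s`: `g + 2f ≠ s`; `g - 2f = s` no (`f > 0`); `2f - g = s` iff `f = s`, no. Total amplitude of the others `4 < 8`.
* `g ≠ s`, `2f = s`, `g = 0`: `4 cos 2φ - 2 cos(ψ+2φ) - 2 cos(ψ-2φ) = 4 cos 2φ (1 - cos ψ)`, in the sine relation
  `ks (-2) (g-2f) (ψ-2φ) s = -(-2 sin(ψ-2φ))` (frequency `-s`), so `4 sin 2φ - 2 sin(ψ+2φ) + 2 sin(ψ-2φ) = 4 sin 2φ (1 - cos ψ)`:
  amplitude `4 (1 - cos ψ) < 8` as `cos ψ > -1`. Contradiction.
* `g ≠ s`, `2f = s`, `g > 0`: `g + 2f ≠ s`; amplitude `≤ 4 + 2 = 6 < 8`.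
* `g ≠ s`, `2f ≠ s`: amplitude `≤ 2 + 2 = 4 < 8`.
The amplitude argument: `8 cos X = -∑ c_k cos Y_k`, `8 sin X = -∑ ± c_k sin Y_k`; `64 = (∑ c_k cos Y_k)² + (∑ ± c_k sin Y_k)² ≤ (∑ |c_k|)²`
(first prove this as a lemma for one, two and three terms, e.g. with `Complex.exp` and the triangle inequality or by
`nlinarith`/Cauchy–Schwarz).
-/

open Real

namespace Pool.Agent.Helper13.HT

private theorem mb_kc_zero {c f p s : ℝ} (h1 : f ≠ s) (h2 : f ≠ -s) : kc c f p s = 0 := by
  unfold kc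
  rw [if_neg]
  rintro (h | h)
  · exact h1 h
  · exact h2 h

private theorem mb_ks_zero {c f p s : ℝ} (h1 : f ≠ s) (h2 : f ≠ -s) : ks c f p s = 0 := by
  unfold ks
  rw [if_neg h1, if_neg h2]

private theorem mb_kc_eq {c f p s : ℝ} (h : f = s) : kc c f p s = c * cos p := by
  unfold kc
  rw [if_pos (Or.inl h)]

private theorem mb_ks_eq {c f p s : ℝ} (h : f = s) : ks c f p s = c * sin p := by
  unfold ks
  rw [if_pos h]

private theorem mb_kc_neg {c f p s : ℝ} (h : f = -s) : kc c f p s = c * cos p := by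
  unfold kc
  rw [if_pos (Or.inr h)]

private theorem mb_ks_neg {c f p s : ℝ} (hs : 0 < s) (h : f = -s) : ks c f p s = -(c * sin p) := by
  unfold ks
  rw [if_neg (by intro h'; linarith), if_pos h]

private theorem mb_bound (c f p s : ℝ) : kc c f p s ^ 2 + ks c f p s ^ 2 ≤ c ^ 2 := by
  have h := sin_sq_add_cos_sq p
  have h0 := sq_nonneg c
  unfold kc ks
  by_cases h1 : f = s
  · rw [if_pos (Or.inl h1), if_pos h1]
    have : (c * cos p) ^ 2 + (c * sin p) ^ 2 = c ^ 2 := by
      linear_combination c ^ 2 * h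
    rw [this]
  · by_cases h2 : f = -s
    · rw [if_pos (Or.inr h2), if_neg h1, if_pos h2]
      have : (c * cos p) ^ 2 + (-(c * sin p)) ^ 2 = c ^ 2 := by
        linear_combination c ^ 2 * h
      rw [this]
    · rw [if_neg (by tauto), if_neg h1, if_neg h2]
      simpa using h0

private theorem mb_dot {u v m : ℝ} (X : ℝ) (hm : 0 ≤ m) (h : u ^ 2 + v ^ 2 ≤ m ^ 2) :
    -m ≤ cos X * u + sin X * v := by
  have hX := sin_sq_add_cos_sq X
  have h1 : (cos X * u + sin X * v) ^ 2 ≤ m ^ 2 := by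
    nlinarith [sq_nonneg (cos X * v - sin X * u), hX]
  exact (abs_le.1 (abs_le_of_sq_le_sq h1 hm)).1

private theorem mb_amp {X u v m : ℝ} (hm : 0 ≤ m) (hm8 : m < 8) (h : u ^ 2 + v ^ 2 ≤ m ^ 2)
    (h1 : 8 * cos X + u = 0) (h2 : 8 * sin X + v = 0) : False := by
  have hX := sin_sq_add_cos_sq X
  have h3 := mb_dot X hm h
  have h5 : 8 + (cos X * u + sin X * v) = 0 := by
    linear_combination cos X * h1 + sin X * h2 - 8 * hX
  linarith

private theorem mb_amp2 {X u v m u' v' m' : ℝ} (hm : 0 ≤ m) (hm' : 0 ≤ m') (hm8 : m + m' < 8)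
    (h : u ^ 2 + v ^ 2 ≤ m ^ 2) (h' : u' ^ 2 + v' ^ 2 ≤ m' ^ 2)
    (h1 : 8 * cos X + u + u' = 0) (h2 : 8 * sin X + v + v' = 0) : False := by
  have hX := sin_sq_add_cos_sq X
  have h3 := mb_dot X hm h
  have h4 := mb_dot X hm' h'
  have h5 : 8 + (cos X * u + sin X * v) + (cos X * u' + sin X * v') = 0 := by
    linear_combination cos X * h1 + sin X * h2 - 8 * hX
  linarith

theorem mi_caseB (α β φ ψ a b f g : ℝ)
    (hid : ∀ t : ℝ, MS (α + a * t) (β + b * t) (φ + f * t) (ψ + g * t) = 0)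
    (hψ : -1 < cos ψ) (hb : 0 < b) (hba : b ≤ a) (hf : 0 ≤ f) (hg : 0 ≤ g) (hab : a < b + f) :
    False := by
  have hf0 : 0 < f := by linarith
  have ha : 0 < a := by linarith
  obtain ⟨s, hs⟩ : ∃ s, s = a + b + f := ⟨_, rfl⟩
  have hs0 : 0 < s := by linarith
  by_cases hdouble : g = s ∧ 2 * f = s
  · obtain ⟨hgs, hfs⟩ := hdouble
    obtain ⟨r1, r2⟩ := mi_rel α β φ ψ a b f g hid (2 * s) (by linarith)
    have z : ∀ (c x p : ℝ), x < 2 * s → -(2 * s) < x → kc c x p (2 * s) = 0 ∧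
        ks c x p (2 * s) = 0 := fun c x p h1 h2 =>
      ⟨mb_kc_zero h1.ne (by intro h; linarith), mb_ks_zero h1.ne (by intro h; linarith)⟩
    rw [(z 8 (2 * a) _ (by linarith) (by linarith)).1,
      (z 8 (2 * b) _ (by linarith) (by linarith)).1,
      (z 8 (a + b + f) _ (by linarith) (by linarith)).1,
      (z 8 (a + b - f) _ (by linarith) (by linarith)).1,
      (z 8 (a - b + f) _ (by linarith) (by linarith)).1,
      (z 8 (a - b - f) _ (by linarith) (by linarith)).1,
      (z 4 g _ (by linarith) (by linarith)).1,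
      (z 4 (2 * f) _ (by linarith) (by linarith)).1,
      (z (-2) (g - 2 * f) _ (by linarith) (by linarith)).1,
      mb_kc_eq (by linarith : g + 2 * f = 2 * s)] at r1
    rw [(z 8 (2 * a) _ (by linarith) (by linarith)).2,
      (z 8 (2 * b) _ (by linarith) (by linarith)).2,
      (z 8 (a + b + f) _ (by linarith) (by linarith)).2,
      (z 8 (a + b - f) _ (by linarith) (by linarith)).2,
      (z 8 (a - b + f) _ (by linarith) (by linarith)).2,
      (z 8 (a - b - f) _ (by linarith) (by linarith)).2,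
      (z 4 g _ (by linarith) (by linarith)).2,
      (z 4 (2 * f) _ (by linarith) (by linarith)).2,
      (z (-2) (g - 2 * f) _ (by linarith) (by linarith)).2,
      mb_ks_eq (by linarith : g + 2 * f = 2 * s)] at r2
    have h3 : cos (ψ + 2 * φ) = 0 := by linarith
    have h4 : sin (ψ + 2 * φ) = 0 := by linarith
    have h5 := sin_sq_add_cos_sq (ψ + 2 * φ)
    rw [h3, h4] at h5
    norm_num at h5
  · obtain ⟨r1, r2⟩ := mi_rel α β φ ψ a b f g hid s hs0
    have z : ∀ (c x p : ℝ), x ≠ s → x ≠ -s → kc c x p s = 0 ∧ ks c x p s = 0 :=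
      fun c x p h1 h2 => ⟨mb_kc_zero h1 h2, mb_ks_zero h1 h2⟩
    rw [(z 8 (2 * a) _ (by intro h; linarith) (by intro h; linarith)).1,
      (z 8 (2 * b) _ (by intro h; linarith) (by intro h; linarith)).1,
      mb_kc_eq hs.symm,
      (z 8 (a + b - f) _ (by intro h; linarith) (by intro h; linarith)).1,
      (z 8 (a - b + f) _ (by intro h; linarith) (by intro h; linarith)).1,
      (z 8 (a - b - f) _ (by intro h; linarith) (by intro h; linarith)).1] at r1
    rw [(z 8 (2 * a) _ (by intro h; linarith) (by intro h; linarith)).2,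
      (z 8 (2 * b) _ (by intro h; linarith) (by intro h; linarith)).2,
      mb_ks_eq hs.symm,
      (z 8 (a + b - f) _ (by intro h; linarith) (by intro h; linarith)).2,
      (z 8 (a - b + f) _ (by intro h; linarith) (by intro h; linarith)).2,
      (z 8 (a - b - f) _ (by intro h; linarith) (by intro h; linarith)).2] at r2
    have b1 := mb_bound 4 g ψ s
    have b2 := mb_bound 4 (2 * f) (2 * φ) s
    have b3 := mb_bound (-2) (g + 2 * f) (ψ + 2 * φ) s
    have b4 := mb_bound (-2) (g - 2 * f) (ψ - 2 * φ) s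
    by_cases hgs : g = s
    · have hfs : 2 * f ≠ s := fun h => hdouble ⟨hgs, h⟩
      have z2 := z 4 (2 * f) (2 * φ) hfs (by intro h; linarith)
      have z3 := z (-2) (g + 2 * f) (ψ + 2 * φ) (by intro h; linarith) (by intro h; linarith)
      have z4 := z (-2) (g - 2 * f) (ψ - 2 * φ) (by intro h; linarith) (by intro h; linarith)
      rw [z2.1, z3.1, z4.1] at r1
      rw [z2.2, z3.2, z4.2] at r2
      exact mb_amp (X := α + β + φ) (by norm_num : (0 : ℝ) ≤ 4) (by norm_num) b1
        (by linarith) (by linarith)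
    · have z1 := z 4 g ψ hgs (by intro h; linarith)
      by_cases hfs : 2 * f = s
      · rcases hg.eq_or_lt with hg0 | hg0
        · rw [z1.1, mb_kc_eq hfs, mb_kc_eq (by linarith : g + 2 * f = s),
            mb_kc_neg (by linarith : g - 2 * f = -s)] at r1
          rw [z1.2, mb_ks_eq hfs, mb_ks_eq (by linarith : g + 2 * f = s),
            mb_ks_neg hs0 (by linarith : g - 2 * f = -s)] at r2
          have hc := cos_le_one ψ
          have e1 : 4 * cos (2 * φ) + -2 * cos (ψ + 2 * φ) + -2 * cos (ψ - 2 * φ) =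
              4 * cos (2 * φ) * (1 - cos ψ) := by
            rw [cos_add, cos_sub]
            ring
          have e2 : 4 * sin (2 * φ) + -2 * sin (ψ + 2 * φ) + -(-2 * sin (ψ - 2 * φ)) =
              4 * sin (2 * φ) * (1 - cos ψ) := by
            rw [sin_add, sin_sub]
            ring
          refine mb_amp (X := α + β + φ) (m := 4 * (1 - cos ψ))
            (u := 4 * cos (2 * φ) * (1 - cos ψ)) (v := 4 * sin (2 * φ) * (1 - cos ψ))
            (by linarith) (by linarith) ?_ (by linarith) (by linarith)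
          have h5 := sin_sq_add_cos_sq (2 * φ)
          have h6 : (4 * cos (2 * φ) * (1 - cos ψ)) ^ 2 + (4 * sin (2 * φ) * (1 - cos ψ)) ^ 2 =
              (4 * (1 - cos ψ)) ^ 2 := by
            linear_combination (16 * (1 - cos ψ) ^ 2) * h5
          rw [h6]
        · have z3 := z (-2) (g + 2 * f) (ψ + 2 * φ) (by intro h; linarith) (by intro h; linarith)
          rw [z1.1, z3.1] at r1
          rw [z1.2, z3.2] at r2
          have b4' : kc (-2) (g - 2 * f) (ψ - 2 * φ) s ^ 2 + ks (-2) (g - 2 * f) (ψ - 2 * φ) s ^ 2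
              ≤ 2 ^ 2 := by norm_num at b4 ⊢; exact b4
          exact mb_amp2 (X := α + β + φ) (by norm_num : (0 : ℝ) ≤ 4) (by norm_num : (0 : ℝ) ≤ 2)
            (by norm_num) b2 b4' (by linarith) (by linarith)
      · have z2 := z 4 (2 * f) (2 * φ) hfs (by intro h; linarith)
        rw [z1.1, z2.1] at r1
        rw [z1.2, z2.2] at r2
        have b3' : kc (-2) (g + 2 * f) (ψ + 2 * φ) s ^ 2 + ks (-2) (g + 2 * f) (ψ + 2 * φ) s ^ 2
            ≤ 2 ^ 2 := by norm_num at b3 ⊢; exact b3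
        have b4' : kc (-2) (g - 2 * f) (ψ - 2 * φ) s ^ 2 + ks (-2) (g - 2 * f) (ψ - 2 * φ) s ^ 2
            ≤ 2 ^ 2 := by norm_num at b4 ⊢; exact b4
        exact mb_amp2 (X := α + β + φ) (by norm_num : (0 : ℝ) ≤ 2) (by norm_num : (0 : ℝ) ≤ 2)
          (by norm_num) b3' b4' (by linarith) (by linarith)

end Pool.Agent.Helper13.HT
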