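import Pool.Agent.Helper13.HT.MiRel

/-!
# HT-15 (C): the mirror relation along a line, case `b = 0`, `0 ≤ a ≤ f`, `0 < f`

`g > 0`: `mi_rel` at `s = g + 2f`: all other frequencies `0, 2a, ±a±f, g, 2f, g - 2f` have absolute value `< s`
(`2a ≤ 2f < s`), so `cos (ψ+2φ) = sin (ψ+2φ) = 0`, contradiction. So `g = 0`.
* `a < f`: `mi_rel` at `s = 2f`: frequency `±s` have only `4 cos 2φ`, `-2 cos (ψ+2φ)`, `-2 cos (ψ-2φ)` (`2a < 2f`, `|a ± f| < 2f`),
  so `4 (1 - cos ψ) cos 2φ = 0` and `4 (1 - cos ψ) sin 2φ = 0`: contradiction as `cos ψ < 1`.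
* `a = f`: put `δ = α - φ`. `mi_rel0`: `12 + 8 cos 2β + 8 cos(α+β-φ) + 8 cos(α-β-φ) + 4 cos ψ = 0`, i.e.
  `4 cos²β + 4 cos β cos δ + 1 + cos ψ = 0`. `mi_rel` at `s = 2f`: `8 cos 2α + 8 cos(α+β+φ) + 8 cos(α-β+φ) + 4 (1 - cos ψ) cos 2φ = 0`, same with
  `sin`; i.e. (times `e^{-i(α+φ)}/4`) `2 e^{iδ} + 4 cos β + (1 - cos ψ) e^{-iδ} = 0`: imaginary part
  `(1 + cos ψ) sin δ = 0`, so `sin δ = 0`, `cos δ = ±1`, real part `(3 - cos ψ) cos δ + 4 cos β = 0`. Insert in the first:
  `4 · (const) = (3-c)² - 4(3-c) + 4 + 4c = (1 + c)²`, `c = cos ψ`; so `cos ψ = -1`. Contradiction.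
-/

open Real

namespace Pool.Agent.Helper13.HT

private lemma kc_zero' {c x p s : ℝ} (h1 : x ≠ s) (h2 : x ≠ -s) : kc c x p s = 0 := by
  unfold kc
  rw [if_neg]
  rintro (h | h)
  · exact h1 h
  · exact h2 h

private lemma ks_zero' {c x p s : ℝ} (h1 : x ≠ s) (h2 : x ≠ -s) : ks c x p s = 0 := by
  unfold ks
  rw [if_neg h1, if_neg h2]

private lemma kc_pos' {c x p s : ℝ} (h1 : x = s) : kc c x p s = c * cos p := by
  unfold kc
  rw [if_pos (Or.inl h1)]

private lemma ks_pos' {c x p s : ℝ} (h1 : x = s) : ks c x p s = c * sin p := by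
  unfold ks
  rw [if_pos h1]

private lemma kc_neg' {c x p s : ℝ} (h1 : x = -s) : kc c x p s = c * cos p := by
  unfold kc
  rw [if_pos (Or.inr h1)]

private lemma ks_neg' {c x p s : ℝ} (h1 : x = -s) (h2 : x ≠ s) : ks c x p s = -(c * sin p) := by
  unfold ks
  rw [if_neg h2, if_pos h1]

private lemma k0_zero' {c x p : ℝ} (h1 : x ≠ 0) : k0 c x p = 0 := by
  unfold k0
  rw [if_neg h1]

private lemma k0_pos' {c x p : ℝ} (h1 : x = 0) : k0 c x p = c * cos p := by
  unfold k0
  rw [if_pos h1]

theorem mi_caseC (α β φ ψ a f g : ℝ)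
    (hid : ∀ t : ℝ, MS (α + a * t) (β + 0 * t) (φ + f * t) (ψ + g * t) = 0)
    (hψ : -1 < cos ψ) (hψ1 : cos ψ < 1) (ha : 0 ≤ a) (haf : a ≤ f) (hf : 0 < f) (hg : 0 ≤ g) :
    False := by
  rcases hg.lt_or_eq with hg | hg
  · -- `g > 0`
    obtain ⟨h1, h2⟩ := mi_rel α β φ ψ a 0 f g hid (g + 2 * f) (by linarith)
    rw [kc_zero' (x := 2 * a) (by intro h; linarith) (by intro h; linarith),
      kc_zero' (x := 2 * 0) (by intro h; linarith) (by intro h; linarith),
      kc_zero' (x := a + 0 + f) (by intro h; linarith) (by intro h; linarith),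
      kc_zero' (x := a + 0 - f) (by intro h; linarith) (by intro h; linarith),
      kc_zero' (x := a - 0 + f) (by intro h; linarith) (by intro h; linarith),
      kc_zero' (x := a - 0 - f) (by intro h; linarith) (by intro h; linarith),
      kc_zero' (x := g) (by intro h; linarith) (by intro h; linarith),
      kc_zero' (x := 2 * f) (by intro h; linarith) (by intro h; linarith),
      kc_pos' (x := g + 2 * f) rfl,
      kc_zero' (x := g - 2 * f) (by intro h; linarith) (by intro h; linarith)] at h1
    rw [ks_zero' (x := 2 * a) (by intro h; linarith) (by intro h; linarith),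
      ks_zero' (x := 2 * 0) (by intro h; linarith) (by intro h; linarith),
      ks_zero' (x := a + 0 + f) (by intro h; linarith) (by intro h; linarith),
      ks_zero' (x := a + 0 - f) (by intro h; linarith) (by intro h; linarith),
      ks_zero' (x := a - 0 + f) (by intro h; linarith) (by intro h; linarith),
      ks_zero' (x := a - 0 - f) (by intro h; linarith) (by intro h; linarith),
      ks_zero' (x := g) (by intro h; linarith) (by intro h; linarith),
      ks_zero' (x := 2 * f) (by intro h; linarith) (by intro h; linarith),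
      ks_pos' (x := g + 2 * f) rfl,
      ks_zero' (x := g - 2 * f) (by intro h; linarith) (by intro h; linarith)] at h2
    have h3 := sin_sq_add_cos_sq (ψ + 2 * φ)
    have h4 : cos (ψ + 2 * φ) = 0 := by linarith
    have h5 : sin (ψ + 2 * φ) = 0 := by linarith
    rw [h4, h5] at h3
    norm_num at h3
  · subst hg
    obtain ⟨h1, h2⟩ := mi_rel α β φ ψ a 0 f 0 hid (2 * f) (by linarith)
    rcases haf.lt_or_eq with haf | haf
    · -- `a < f`
      rw [kc_zero' (x := 2 * a) (by intro h; linarith) (by intro h; linarith),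
        kc_zero' (x := 2 * 0) (by intro h; linarith) (by intro h; linarith),
        kc_zero' (x := a + 0 + f) (by intro h; linarith) (by intro h; linarith),
        kc_zero' (x := a + 0 - f) (by intro h; linarith) (by intro h; linarith),
        kc_zero' (x := a - 0 + f) (by intro h; linarith) (by intro h; linarith),
        kc_zero' (x := a - 0 - f) (by intro h; linarith) (by intro h; linarith),
        kc_zero' (x := 0) (by intro h; linarith) (by intro h; linarith),
        kc_pos' (x := 2 * f) rfl,
        kc_pos' (x := 0 + 2 * f) (by ring),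
        kc_neg' (x := 0 - 2 * f) (by ring)] at h1
      rw [ks_zero' (x := 2 * a) (by intro h; linarith) (by intro h; linarith),
        ks_zero' (x := 2 * 0) (by intro h; linarith) (by intro h; linarith),
        ks_zero' (x := a + 0 + f) (by intro h; linarith) (by intro h; linarith),
        ks_zero' (x := a + 0 - f) (by intro h; linarith) (by intro h; linarith),
        ks_zero' (x := a - 0 + f) (by intro h; linarith) (by intro h; linarith),
        ks_zero' (x := a - 0 - f) (by intro h; linarith) (by intro h; linarith),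
        ks_zero' (x := 0) (by intro h; linarith) (by intro h; linarith),
        ks_pos' (x := 2 * f) rfl,
        ks_pos' (x := 0 + 2 * f) (by ring),
        ks_neg' (x := 0 - 2 * f) (by ring) (by intro h; linarith)] at h2
      rw [cos_add, cos_sub] at h1
      rw [sin_add, sin_sub] at h2
      have h3 := sin_sq_add_cos_sq (2 * φ)
      have h4 : (1 - cos ψ) * cos (2 * φ) = 0 := by linarith
      have h5 : (1 - cos ψ) * sin (2 * φ) = 0 := by linarith
      have h6 : cos (2 * φ) = 0 := by
        rcases mul_eq_zero.1 h4 with h | h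
        · linarith
        · exact h
      have h7 : sin (2 * φ) = 0 := by
        rcases mul_eq_zero.1 h5 with h | h
        · linarith
        · exact h
      rw [h6, h7] at h3
      norm_num at h3
    · -- `a = f`
      subst haf
      have h0 := mi_rel0 α β φ ψ a 0 a 0 hid
      rw [kc_pos' (x := 2 * a) rfl,
        kc_zero' (x := 2 * 0) (by intro h; linarith) (by intro h; linarith),
        kc_pos' (x := a + 0 + a) (by ring),
        kc_zero' (x := a + 0 - a) (by intro h; linarith) (by intro h; linarith),
        kc_pos' (x := a - 0 + a) (by ring),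
        kc_zero' (x := a - 0 - a) (by intro h; linarith) (by intro h; linarith),
        kc_zero' (x := 0) (by intro h; linarith) (by intro h; linarith),
        kc_pos' (x := 2 * a) rfl,
        kc_pos' (x := 0 + 2 * a) (by ring),
        kc_neg' (x := 0 - 2 * a) (by ring)] at h1
      rw [ks_pos' (x := 2 * a) rfl,
        ks_zero' (x := 2 * 0) (by intro h; linarith) (by intro h; linarith),
        ks_pos' (x := a + 0 + a) (by ring),
        ks_zero' (x := a + 0 - a) (by intro h; linarith) (by intro h; linarith),
        ks_pos' (x := a - 0 + a) (by ring),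
        ks_zero' (x := a - 0 - a) (by intro h; linarith) (by intro h; linarith),
        ks_zero' (x := 0) (by intro h; linarith) (by intro h; linarith),
        ks_pos' (x := 2 * a) rfl,
        ks_pos' (x := 0 + 2 * a) (by ring),
        ks_neg' (x := 0 - 2 * a) (by ring) (by intro h; linarith)] at h2
      rw [k0_zero' (x := 2 * a) (by intro h; linarith),
        k0_pos' (x := 2 * 0) (by ring),
        k0_zero' (x := a + 0 + a) (by intro h; linarith),
        k0_pos' (x := a + 0 - a) (by ring),
        k0_zero' (x := a - 0 + a) (by intro h; linarith),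
        k0_pos' (x := a - 0 - a) (by ring),
        k0_pos' (x := 0) rfl,
        k0_zero' (x := 2 * a) (by intro h; linarith),
        k0_zero' (x := 0 + 2 * a) (by intro h; linarith),
        k0_zero' (x := 0 - 2 * a) (by intro h; linarith)] at h0
      have e1 : α + β + φ = (α + φ) + β := by ring
      have e2 : α - β + φ = (α + φ) - β := by ring
      have e3 : α + β - φ = (α - φ) + β := by ring
      have e4 : α - β - φ = (α - φ) - β := by ring
      have e5 : 2 * α = (α + φ) + (α - φ) := by ring
      have e6 : 2 * φ = (α + φ) - (α - φ) := by ring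
      rw [e3, e4, cos_add (α - φ) β, cos_sub (α - φ) β, cos_two_mul β] at h0
      rw [cos_add ψ, cos_sub ψ, e1, e2, e5, e6, cos_add (α + φ) β, cos_sub (α + φ) β,
        cos_add (α + φ) (α - φ), cos_sub (α + φ) (α - φ),
        sin_sub (α + φ) (α - φ)] at h1
      rw [sin_add ψ, sin_sub ψ, e1, e2, e5, e6, sin_add (α + φ) β, sin_sub (α + φ) β,
        sin_add (α + φ) (α - φ), cos_sub (α + φ) (α - φ),
        sin_sub (α + φ) (α - φ)] at h2
      have hs := sin_sq_add_cos_sq (α + φ)
      have hd := sin_sq_add_cos_sq (α - φ)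
      set C := cos (α + φ)
      set S := sin (α + φ)
      set X := cos (α - φ)
      set Y := sin (α - φ)
      set c := cos ψ
      set d := sin ψ
      set B := cos β
      have k1 : (3 - c) * X + 4 * B = 0 := by
        linear_combination (1 / 4) * (C * h1 + S * h2) - ((3 - c) * X + 4 * B) * hs
      have k2 : (1 + c) * Y = 0 := by
        linear_combination (1 / 4) * (C * h2 - S * h1) - ((1 + c) * Y) * hs
      have k3 : Y = 0 := by
        rcases mul_eq_zero.1 k2 with h | h
        · linarith
        · exact h
      have k4 : X ^ 2 = 1 := by rw [k3] at hd; linarith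
      have k5 : (1 + c) ^ 2 = 0 := by
        linear_combination h0 - (4 * B + 4 * X - (3 - c) * X) * k1 + (4 * (3 - c) - (3 - c) ^ 2) * k4
      have k6 : 1 + c = 0 := by
        exact pow_eq_zero_iff (two_ne_zero) |>.1 k5
      linarith

end Pool.Agent.Helper13.HT
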