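import Pool.Agent.Helper13.HT.MiRel

/-!
# HT-16 (C): the mirror relation along a line, case `a = b + f` with `b > 0`, and case `a = b = f = 0`

1. `mi_caseD1`: `a = b + f`, `b > 0`, `f > 0`. `mi_rel0`: constant terms: `12`, `8 cos (α-β-φ)` (frequency `a-b-f = 0`); `2a, 2b, a+b+f, a+b-f = 2b,
   a-b+f = 2f, 2f, g+2f` are `> 0`. If `g = 0`: `12 + 8 cos δ + 4 cos ψ = 0` with `cos ψ > -1`: impossible. If `g = 2f`:
   `12 + 8 cos δ - 2 cos (ψ-2φ) = 0`: impossible. Otherwise `12 + 8 cos δ = 0`: impossible.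
2. `mi_caseD2`: `a = b > 0`, `f = 0` (`φ` constant, `|cos φ| < 1`). Frequencies: `2a`: `8 cos 2α + 8 cos 2β + 8 cos(α+β+φ) + 8 cos(α+β-φ)`
   `= 16 cos(α+β) (cos(α-β) + cos φ)`, in the sine relation `16 sin(α+β) (cos(α-β) + cos φ)`; `0`: `12 + 8 cos(α-β+φ) + 8 cos(α-β-φ) + 4 cos 2φ`
   `= 8 + 16 cos φ cos(α-β) + 8 cos²φ` (+ ψ terms if `g = 0`); `g`: `4 cos ψ - 2 cos(ψ+2φ) - 2 cos(ψ-2φ) = 8 sin²φ cos ψ`.
   - `g > 0`: `mi_rel0` gives `1 + 2 cos φ cos(α-β) + cos²φ = 0`, impossible: `≥ 1 - 2|cos φ| + cos²φ = (1-|cos φ|)² > 0`.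
   - `g = 0`: `mi_rel` at `2a`: `cos(α-β) = -cos φ`; `mi_rel0`: `8 + 16 cos φ cos(α-β) + 8 cos²φ + 8 sin²φ cos ψ = 8 sin²φ (1 + cos ψ) = 0`:
     impossible.
3. `mi_caseD3`: `a = b = f = 0`, `g > 0`: `mi_rel` at `s = g`: `4 cos ψ - 2 cos(ψ+2φ) - 2 cos(ψ-2φ) = 8 sin²φ cos ψ = 0` and
   `8 sin²φ sin ψ = 0`: impossible.
-/

open Real

namespace Pool.Agent.Helper13.HT

private theorem kc_of {c f p s : ℝ} (h : f = s) : kc c f p s = c * cos p := if_pos (Or.inl h)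

private theorem ks_of {c f p s : ℝ} (h : f = s) : ks c f p s = c * sin p := if_pos h

private theorem kc_no {c f p s : ℝ} (h : f ≠ s) (h' : f ≠ -s) : kc c f p s = 0 :=
  if_neg (fun h1 => h1.elim h h')

private theorem ks_no {c f p s : ℝ} (h : f ≠ s) (h' : f ≠ -s) : ks c f p s = 0 := by
  unfold ks
  rw [if_neg h, if_neg h']

private theorem k0_of {c f p : ℝ} (h : f = 0) : k0 c f p = c * cos p := if_pos h

private theorem k0_no {c f p : ℝ} (h : f ≠ 0) : k0 c f p = 0 := if_neg h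

theorem mi_caseD1 (α β φ ψ b f g : ℝ)
    (hid : ∀ t : ℝ, MS (α + (b + f) * t) (β + b * t) (φ + f * t) (ψ + g * t) = 0)
    (hψ : -1 < cos ψ) (hb : 0 < b) (hf : 0 < f) (hg : 0 ≤ g) : False := by
  have h := mi_rel0 α β φ ψ (b + f) b f g hid
  have n1 : 2 * (b + f) ≠ 0 := fun h => by linarith
  have n2 : 2 * b ≠ 0 := fun h => by linarith
  have n3 : b + f + b + f ≠ 0 := fun h => by linarith
  have n4 : b + f + b - f ≠ 0 := fun h => by linarith
  have n5 : b + f - b + f ≠ 0 := fun h => by linarith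
  have n6 : b + f - b - f = 0 := by ring
  have n8 : 2 * f ≠ 0 := fun h => by linarith
  have n9 : g + 2 * f ≠ 0 := fun h => by linarith
  rw [k0_no n1, k0_no n2, k0_no n3, k0_no n4, k0_no n5, k0_of n6, k0_no n8, k0_no n9] at h
  have c1 := neg_one_le_cos (α - β - φ)
  by_cases h7 : g = 0
  · have n10 : g - 2 * f ≠ 0 := fun h => by linarith
    rw [k0_of h7, k0_no n10] at h
    linarith
  · rw [k0_no h7] at h
    by_cases h10 : g - 2 * f = 0
    · rw [k0_of h10] at h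
      have c2 := cos_le_one (ψ - 2 * φ)
      linarith
    · rw [k0_no h10] at h
      linarith

theorem mi_caseD2 (α β φ ψ a g : ℝ)
    (hid : ∀ t : ℝ, MS (α + a * t) (β + a * t) (φ + 0 * t) (ψ + g * t) = 0)
    (hψ : -1 < cos ψ) (hφ : |cos φ| < 1) (ha : 0 < a) (hg : 0 ≤ g) : False := by
  have h := mi_rel0 α β φ ψ a a 0 g hid
  have hφ1 := abs_lt.1 hφ
  have n1 : 2 * a ≠ 0 := fun h => by linarith
  have n3 : a + a + 0 ≠ 0 := fun h => by linarith
  have n4 : a + a - 0 ≠ 0 := fun h => by linarith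
  have n5 : a - a + 0 = 0 := by ring
  have n6 : a - a - 0 = 0 := by ring
  have n8 : (2 : ℝ) * 0 = 0 := by ring
  rw [k0_no n1, k0_no n1, k0_no n3, k0_no n4, k0_of n5, k0_of n6, k0_of n8] at h
  rw [cos_add (α - β), cos_sub (α - β) φ, cos_two_mul φ] at h
  have c1 := neg_one_le_cos (α - β)
  have c2 := cos_le_one (α - β)
  by_cases h7 : g = 0
  · subst h7
    have n9 : (0 : ℝ) + 2 * 0 = 0 := by ring
    have n10 : (0 : ℝ) - 2 * 0 = 0 := by ring
    rw [k0_of rfl, k0_of n9, k0_of n10] at h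
    obtain ⟨hc, hs⟩ := mi_rel α β φ ψ a a 0 0 hid (2 * a) (by linarith)
    have m3 : a + a + 0 = 2 * a := by ring
    have m4 : a + a - 0 = 2 * a := by ring
    have m5 : a - a + 0 ≠ 2 * a := fun h => by linarith
    have m5' : a - a + 0 ≠ -(2 * a) := fun h => by linarith
    have m6 : a - a - 0 ≠ 2 * a := fun h => by linarith
    have m6' : a - a - 0 ≠ -(2 * a) := fun h => by linarith
    have m7 : (0 : ℝ) ≠ 2 * a := fun h => by linarith
    have m7' : (0 : ℝ) ≠ -(2 * a) := fun h => by linarith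
    have m8 : (2 : ℝ) * 0 ≠ 2 * a := fun h => by linarith
    have m8' : (2 : ℝ) * 0 ≠ -(2 * a) := fun h => by linarith
    have m9 : (0 : ℝ) + 2 * 0 ≠ 2 * a := fun h => by linarith
    have m9' : (0 : ℝ) + 2 * 0 ≠ -(2 * a) := fun h => by linarith
    have m10 : (0 : ℝ) - 2 * 0 ≠ 2 * a := fun h => by linarith
    have m10' : (0 : ℝ) - 2 * 0 ≠ -(2 * a) := fun h => by linarith
    rw [kc_of rfl, kc_of rfl, kc_of m3, kc_of m4, kc_no m5 m5', kc_no m6 m6', kc_no m7 m7',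
      kc_no m8 m8', kc_no m9 m9', kc_no m10 m10'] at hc
    rw [ks_of rfl, ks_of rfl, ks_of m3, ks_of m4, ks_no m5 m5', ks_no m6 m6', ks_no m7 m7',
      ks_no m8 m8', ks_no m9 m9', ks_no m10 m10'] at hs
    have e1 : 2 * α = (α + β) + (α - β) := by ring
    have e2 : 2 * β = (α + β) - (α - β) := by ring
    rw [e1, e2, cos_add (α + β) (α - β), cos_sub (α + β) (α - β), cos_add (α + β) φ,
      cos_sub (α + β) φ] at hc
    rw [e1, e2, sin_add (α + β) (α - β), sin_sub (α + β) (α - β), sin_add (α + β) φ,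
      sin_sub (α + β) φ] at hs
    have q1 := sin_sq_add_cos_sq (α + β)
    have e3 : cos (α - β) = -cos φ := by
      linear_combination (1 / 16) * cos (α + β) * hc + (1 / 16) * sin (α + β) * hs -
        (cos (α - β) + cos φ) * q1
    rw [cos_add ψ, cos_sub ψ, cos_two_mul φ, e3] at h
    have e4 : (1 - cos φ ^ 2) * (1 + cos ψ) = 0 := by
      linear_combination (1 / 8) * h
    have e5 : 0 < 1 - cos φ ^ 2 := by nlinarith
    have e6 : 0 < 1 + cos ψ := by linarith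
    exact absurd e4 (mul_pos e5 e6).ne'
  · have hg' : 0 < g := lt_of_le_of_ne hg (Ne.symm h7)
    have n9 : g + 2 * 0 ≠ 0 := fun h => by linarith
    have n10 : g - 2 * 0 ≠ 0 := fun h => by linarith
    rw [k0_no h7, k0_no n9, k0_no n10] at h
    have e1 : 1 + 2 * cos φ * cos (α - β) + cos φ ^ 2 = 0 := by
      linear_combination (1 / 8) * h
    have e2 : -|cos φ| ≤ cos φ * cos (α - β) := by
      have h1 : |cos φ * cos (α - β)| ≤ |cos φ| := by
        rw [abs_mul]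
        exact mul_le_of_le_one_right (abs_nonneg _) (abs_cos_le_one _)
      linarith [neg_abs_le (cos φ * cos (α - β))]
    have e3 : cos φ ^ 2 = |cos φ| ^ 2 := (sq_abs _).symm
    have e4 : 0 < (1 - |cos φ|) ^ 2 := by
      have : 0 < 1 - |cos φ| := by linarith
      positivity
    nlinarith

theorem mi_caseD3 (α β φ ψ g : ℝ)
    (hid : ∀ t : ℝ, MS (α + 0 * t) (β + 0 * t) (φ + 0 * t) (ψ + g * t) = 0)
    (hφ : |cos φ| < 1) (hg : 0 < g) : False := by
  have hφ1 := abs_lt.1 hφ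
  obtain ⟨hc, hs⟩ := mi_rel α β φ ψ 0 0 0 g hid g hg
  have m0 : (2 : ℝ) * 0 ≠ g := fun h => by linarith
  have m0' : (2 : ℝ) * 0 ≠ -g := fun h => by linarith
  have m3 : (0 : ℝ) + 0 + 0 ≠ g := fun h => by linarith
  have m3' : (0 : ℝ) + 0 + 0 ≠ -g := fun h => by linarith
  have m4 : (0 : ℝ) + 0 - 0 ≠ g := fun h => by linarith
  have m4' : (0 : ℝ) + 0 - 0 ≠ -g := fun h => by linarith
  have m5 : (0 : ℝ) - 0 + 0 ≠ g := fun h => by linarith
  have m5' : (0 : ℝ) - 0 + 0 ≠ -g := fun h => by linarith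
  have m6 : (0 : ℝ) - 0 - 0 ≠ g := fun h => by linarith
  have m6' : (0 : ℝ) - 0 - 0 ≠ -g := fun h => by linarith
  have m9 : g + 2 * 0 = g := by ring
  have m10 : g - 2 * 0 = g := by ring
  rw [kc_no m0 m0', kc_no m0 m0', kc_no m3 m3', kc_no m4 m4', kc_no m5 m5', kc_no m6 m6',
    kc_of rfl, kc_no m0 m0', kc_of m9, kc_of m10, cos_add ψ, cos_sub ψ, cos_two_mul φ] at hc
  rw [ks_no m0 m0', ks_no m0 m0', ks_no m3 m3', ks_no m4 m4', ks_no m5 m5', ks_no m6 m6',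
    ks_of rfl, ks_no m0 m0', ks_of m9, ks_of m10, sin_add ψ, sin_sub ψ, cos_two_mul φ] at hs
  have q := sin_sq_add_cos_sq ψ
  have e5 : 0 < 1 - cos φ ^ 2 := by nlinarith
  have e6 : 1 - cos φ ^ 2 = 0 := by
    linear_combination (1 / 8) * cos ψ * hc + (1 / 8) * sin ψ * hs - (1 - cos φ ^ 2) * q
  linarith

end Pool.Agent.Helper13.HT
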