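import Pool.Agent.Helper13.HT.MiCaseA
import Pool.Agent.Helper13.HT.MiCaseB
import Pool.Agent.Helper13.HT.MiCaseC
import Pool.Agent.Helper13.HT.MiCaseD

/-!
# HT-17 (C): no line of angles in the mirror class

`p = (φ, ψ, α, β)` values, `f = (f0, f1, f2, f3)` slopes. `mi_expand`: the eleven-term sum vanishes on the line.
`MS` is even in each of its four variables and symmetric in the first two (from `mi_expand`: `FM` depends only on
`cos (θ i)` and `sin² (θ 0)`), so for signs `ε_i = ±1`: the same identity for `ε_i p_i`, slopes `ε_i f_i ≥ 0`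
(choose `ε_i = -1` if `f_i < 0`). `cos (ε p) = cos p`. WLOG slope of `α` `≥` slope of `β` (prove the core statement
`core : 0 ≤ b ≤ a, 0 ≤ f, 0 ≤ g, not all zero → cos β = 0 ∧ cos ψ = -cos (2α) ∧ (the case A)`, then apply it to `(α, β)` or `(β, α)`).
Core: `b + f < a`: `mi_caseA`. `a < b + f`, `b > 0`: `mi_caseB`. `a < b + f`, `b = 0`: `mi_caseC` (`a < f`). `a = b + f`: `b > 0, f > 0`: D1;
`b > 0, f = 0`: D2; `b = 0, f > 0`: `mi_caseC` (`a = f`); `b = f = 0`: `a = 0`, `g > 0`: D3.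
Conclusion: say `cos β = 0`, `cos ψ = -cos 2α` (values in `(0, π)`): `β = π/2`, so `α ≤ π/2` by `h3`; `cos ψ = cos (π - 2α)` with
`π - 2α ∈ [0, π)`: `ψ = π - 2α`, against `h1 : π < 2α + ψ`. The other case in the same way with `h2`.
-/

open Real Set

namespace Pool.Agent.Helper13.HT

private noncomputable def GG (α β φ ψ : ℝ) : ℝ :=
  cos α ^ 2 + cos β ^ 2 + 2 * cos α * cos β * cos φ - (1 - cos ψ) * sin φ ^ 2 / 2

private theorem ml_expand (α β φ ψ : ℝ) : 16 * GG α β φ ψ = MS α β φ ψ := by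
  have h := mi_expand (![φ, ψ, α, β] : Fin 4 → ℝ)
  simpa [FM, GG] using h

private theorem ml_sign (x : ℝ) : ∃ e : ℝ, (e = 1 ∨ e = -1) ∧ e * x = |x| := by
  rcases le_total 0 x with h | h
  · exact ⟨1, Or.inl rfl, by rw [one_mul, abs_of_nonneg h]⟩
  · exact ⟨-1, Or.inr rfl, by rw [abs_of_nonpos h]; ring⟩

private theorem ml_cos {e : ℝ} (he : e = 1 ∨ e = -1) (y : ℝ) : cos (e * y) = cos y := by
  rcases he with h | h
  · rw [h, one_mul]
  · rw [h, neg_one_mul, cos_neg]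

private theorem ml_sin {e : ℝ} (he : e = 1 ∨ e = -1) (y : ℝ) : sin (e * y) ^ 2 = sin y ^ 2 := by
  rcases he with h | h
  · rw [h, one_mul]
  · rw [h, neg_one_mul, sin_neg, neg_sq]

private theorem ml_core (α β φ ψ a b f g : ℝ)
    (h : ∀ t : ℝ, GG (α + a * t) (β + b * t) (φ + f * t) (ψ + g * t) = 0)
    (hn : ¬ (a = 0 ∧ b = 0 ∧ f = 0 ∧ g = 0)) (hψ : -1 < cos ψ) (hψ1 : cos ψ < 1)
    (hφ : |cos φ| < 1) (hb : 0 ≤ b) (hba : b ≤ a) (hf : 0 ≤ f) (hg : 0 ≤ g) :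
    cos β = 0 ∧ cos ψ = -cos (2 * α) := by
  have hid : ∀ t : ℝ, MS (α + a * t) (β + b * t) (φ + f * t) (ψ + g * t) = 0 := by
    intro t
    rw [← ml_expand, h t, mul_zero]
  rcases lt_trichotomy a (b + f) with hlt | heq | hgt
  · exfalso
    rcases hb.lt_or_eq with hb0 | hb0
    · exact mi_caseB α β φ ψ a b f g hid hψ hb0 hba hf hg hlt
    · subst hb0
      exact mi_caseC α β φ ψ a f g hid hψ hψ1 hba (by linarith) (by linarith) hg
  · exfalso
    rcases hb.lt_or_eq with hb0 | hb0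
    · rcases hf.lt_or_eq with hf0 | hf0
      · rw [heq] at hid
        exact mi_caseD1 α β φ ψ b f g hid hψ hb0 hf0 hg
      · subst hf0
        rw [add_zero] at heq
        subst heq
        exact mi_caseD2 α β φ ψ a g hid hψ hφ hb0 hg
    · subst hb0
      rcases hf.lt_or_eq with hf0 | hf0
      · exact mi_caseC α β φ ψ a f g hid hψ hψ1 hba (by linarith) hf0 hg
      · subst hf0
        rw [add_zero] at heq
        subst heq
        have hg0 : 0 < g := lt_of_le_of_ne hg (fun h0 => hn ⟨rfl, rfl, rfl, h0.symm⟩)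
        exact mi_caseD3 α β φ ψ g hid hφ hg0
  · have h0 : cos α ^ 2 + cos β ^ 2 + 2 * cos α * cos β * cos φ -
        (1 - cos ψ) * sin φ ^ 2 / 2 = 0 := by
      have := h 0
      simpa [GG] using this
    exact mi_caseA α β φ ψ a b f g hid h0 hb hf hg hgt

private theorem ml_core' (α β φ ψ a b f g : ℝ)
    (h : ∀ t : ℝ, GG (α + a * t) (β + b * t) (φ + f * t) (ψ + g * t) = 0)
    (hn : ¬ (a = 0 ∧ b = 0 ∧ f = 0 ∧ g = 0)) (hψ : -1 < cos ψ) (hψ1 : cos ψ < 1)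
    (hφ : |cos φ| < 1) (hba : |b| ≤ |a|) :
    cos β = 0 ∧ cos ψ = -cos (2 * α) := by
  obtain ⟨ea, hea, ea'⟩ := ml_sign a
  obtain ⟨eb, heb, eb'⟩ := ml_sign b
  obtain ⟨ef, hef, ef'⟩ := ml_sign f
  obtain ⟨eg, heg, eg'⟩ := ml_sign g
  have key := ml_core (ea * α) (eb * β) (ef * φ) (eg * ψ) |a| |b| |f| |g| (by
    intro t
    rw [← ea', ← eb', ← ef', ← eg', mul_assoc, mul_assoc, mul_assoc, mul_assoc, ← mul_add,
      ← mul_add, ← mul_add, ← mul_add]
    have := h t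
    unfold GG at this ⊢
    rw [ml_cos hea, ml_cos heb, ml_cos hef, ml_cos heg, ml_sin hef]
    exact this) (by
    rintro ⟨h1, h2, h3, h4⟩
    exact hn ⟨abs_eq_zero.1 h1, abs_eq_zero.1 h2, abs_eq_zero.1 h3, abs_eq_zero.1 h4⟩)
    (by rw [ml_cos heg]; exact hψ) (by rw [ml_cos heg]; exact hψ1) (by rw [ml_cos hef]; exact hφ)
    (abs_nonneg _) hba (abs_nonneg _) (abs_nonneg _)
  have e2 : 2 * (ea * α) = ea * (2 * α) := by ring
  rw [ml_cos heb, ml_cos heg, e2, ml_cos hea] at key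
  exact key

private theorem ml_cos_bounds {x : ℝ} (hx : x ∈ Ioo 0 π) : -1 < cos x ∧ cos x < 1 := by
  have h1 : 0 < sin x := sin_pos_of_mem_Ioo hx
  have h2 := sin_sq_add_cos_sq x
  have h3 : 0 < sin x ^ 2 := by positivity
  constructor
  · nlinarith [neg_one_le_cos x, cos_le_one x]
  · nlinarith [neg_one_le_cos x, cos_le_one x]

private theorem ml_end {α β ψ : ℝ} (hα : α ∈ Ioo 0 π) (hβ : β ∈ Ioo 0 π) (hψ : ψ ∈ Ioo 0 π)
    (h3 : α + β ≤ π) (h1 : π < 2 * α + ψ) (hc : cos β = 0 ∧ cos ψ = -cos (2 * α)) : False := by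
  obtain ⟨hc1, hc2⟩ := hc
  have e1 : β = π / 2 := by
    apply injOn_cos ⟨hβ.1.le, hβ.2.le⟩ ⟨by linarith [pi_pos], by linarith [pi_pos]⟩
    rw [hc1, cos_pi_div_two]
  have e2 : ψ = π - 2 * α := by
    apply injOn_cos ⟨hψ.1.le, hψ.2.le⟩ ⟨by linarith, by linarith [hα.1]⟩
    rw [hc2, cos_pi_sub]
  linarith

theorem mi_line (p f : Fin 4 → ℝ) (h : ∀ t : ℝ, FM (fun i => p i + f i * t) = 0) (hf : f ≠ 0)
    (h0 : ∀ i, p i ∈ Ioo 0 π) (h1 : π < 2 * p 2 + p 1) (h2 : π < 2 * p 3 + p 1)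
    (h3 : p 2 + p 3 ≤ π) : False := by
  have hψ := ml_cos_bounds (h0 1)
  have hφ := ml_cos_bounds (h0 0)
  have hφ' : |cos (p 0)| < 1 := abs_lt.2 hφ
  have hn : ¬ (f 2 = 0 ∧ f 3 = 0 ∧ f 0 = 0 ∧ f 1 = 0) := by
    rintro ⟨a2, a3, a0, a1⟩
    apply hf
    funext i
    fin_cases i
    · exact a0
    · exact a1
    · exact a2
    · exact a3
  rcases le_total |f 3| |f 2| with hle | hle
  · have hc := ml_core' (p 2) (p 3) (p 0) (p 1) (f 2) (f 3) (f 0) (f 1) (fun t => h t) hn hψ.1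
      hψ.2 hφ' hle
    exact ml_end (h0 2) (h0 3) (h0 1) h3 h1 hc
  · have hc := ml_core' (p 3) (p 2) (p 0) (p 1) (f 3) (f 2) (f 0) (f 1) (fun t => by
      have := h t
      unfold FM at this
      unfold GG
      linear_combination this) (fun h4 => hn ⟨h4.2.1, h4.1, h4.2.2.1, h4.2.2.2⟩) hψ.1
      hψ.2 hφ' hle
    exact ml_end (h0 3) (h0 2) (h0 1) (by linarith) h2 hc

end Pool.Agent.Helper13.HT
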