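import Pool.Agent.Helper13.HT.RankThree
import Pool.Agent.Helper13.HT.MiLine
import Pool.Agent.Helper13.HT.LineAn

/-!
# HT-28b (E): finitely many tiling shapes in a compact set of the mirror class

Suppose the set is infinite; `pigeon` gives `r`, `u`, `S'`; `rank_three`: `r = 3` (`subst`). `line_analytic` with `f = FM` (`mi_angles`, `analytic_FM`), then `mi_line` at a point of `S'` (`p = ca (miv x)`,
slopes `β`; `mi_angles` gives the inequalities).
-/

open Real Set
open Pool.Agent.Helper1.Tet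

namespace Pool.Agent.Helper13.HT

theorem mi_finite (K : Set (Fin 4 → ℝ)) (hK : IsCompact K) (hKT : ∀ x ∈ K, miv x ∈ TT) :
    {x | x ∈ K ∧ Nrm miv x ∧ Cone miv x}.Finite := by
  by_contra hS
  obtain ⟨r, u, S', hr, hsub, hinf, hli, hhalf, htup⟩ := pigeon (Or.inr rfl) K hK hKT _ hS
    (fun x hx => hx.1) (fun x hx => hx.2)
  have hr3 : r = 3 := rank_three (Or.inr rfl) K hK hKT S' hinf (fun x hx => (hsub hx).1)
    (fun x hx => (hsub hx).2.1) r hr u hli hhalf htup
  subst hr3
  obtain ⟨β, hβ, -, hline⟩ := line_analytic (Or.inr rfl) u hli S' hinf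
    (fun x hx => (hsub hx).2.1) (fun x hx => (htup x hx).1) FM analytic_FM
    (fun x hx => (mi_angles (hsub hx).2.1.1).2.1)
  obtain ⟨x, hx⟩ := hinf.nonempty
  obtain ⟨h0, -, h1, h2, h3⟩ := mi_angles (hsub hx).2.1.1
  refine mi_line (ca (miv x)) β (fun t => ?_) hβ h0 h1 h2 h3
  have h := hline x hx t
  have e : (fun i => ca (miv x) i + β i * t) = ca (miv x) + t • β := by
    funext i
    simp only [Pi.add_apply, Pi.smul_apply, smul_eq_mul]
    ring
  rw [e]
  exact h

end Pool.Agent.Helper13.HT
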