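import Pool.Agent.Helper1.Tet.Volume
import Pool.Agent.Helper13.HT.MiFin
import Pool.Agent.Helper13.HT.C2Fin
import Pool.Agent.Helper13.HT.CompNrm
import Pool.Agent.Helper13.HT.SymRed
import Pool.Agent.Helper13.HT.Hill

/-!
# HT-32 (F): symmetric tetrahedra of volume one and bounded diameter that tile space

`volume_tet` gives `c > 0` with `volume = ofReal (c √(Gr (len p)))`. For each of the finitely many `τ` and each class: the set
`Y_V = {y | V y ∈ TT, c √(Gr (V y)) = 1, V y ≤ R, Cone V (nz V y), (V = c2v → ¬ HillC y)}` is finite: `nz V` is injective on it (`nz_inj`) and maps it into the finite set of `mi_finite` / `c2_finite` for the compact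
`K` of `compact_norm` (`HillC` is invariant under positive scaling). If `l = len p` belongs to the set, take `τ` from `sym_class`, `len (p ∘ τ) = V y`; `p ∘ τ` is affinely independent, has
the same hull (`range (p ∘ τ) = range p`), volume 1, tiles; `class_cone`; if `HillC y` then `IsHill (p ∘ τ)` (`hill_of_class`), so `IsHill p`
(`hill_relabel`). So `y ∈ Y_V` and `l = fun j => V y (s j)` with `s` from `len_relabel τ`: a finite union of images of finite sets.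
-/

open Real Set MeasureTheory
open Pool.Agent.Helper1.Tet

namespace Pool.Agent.Helper13.HT

private theorem ht32_rel {t : ℝ} (ht : 0 < t) (a a' b c : ℝ) :
    HillRel (t * a) (t * a') (t * b / 2) (t * c / 2) ↔ HillRel a a' (b / 2) (c / 2) := by
  unfold HillRel
  have ht0 : t ≠ 0 := ht.ne'
  have e1 : t * b / 2 = t * (b / 2) := by ring
  have e2 : t * c / 2 = t * (c / 2) := by ring
  have e3 : 3 * ((t * (c / 2)) ^ 2 - (t * (b / 2)) ^ 2) =
      t ^ 2 * (3 * ((c / 2) ^ 2 - (b / 2) ^ 2)) := by ring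
  have e4 : (t * a') ^ 2 = t ^ 2 * a' ^ 2 := by ring
  rw [e1, e2, e3, e4, mul_right_inj' ht0, mul_right_inj' (pow_ne_zero 2 ht0)]

theorem hillC_smul {t : ℝ} (ht : 0 < t) (y : Fin 4 → ℝ) : HillC (t • y) ↔ HillC y := by
  unfold HillC
  simp only [Pi.smul_apply, smul_eq_mul]
  rw [ht32_rel ht, ht32_rel ht, ht32_rel ht, ht32_rel ht]

private theorem ht32_fin {V : (Fin 4 → ℝ) → Fin 6 → ℝ} (hV : V = c2v ∨ V = miv)
    (P : (Fin 4 → ℝ) → Prop) (hP : ∀ (t : ℝ) (y : Fin 4 → ℝ), 0 < t → P y → P (t • y))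
    (hfin : ∀ K : Set (Fin 4 → ℝ), IsCompact K → (∀ x ∈ K, V x ∈ TT) →
      {x | x ∈ K ∧ Nrm V x ∧ Cone V x ∧ P x}.Finite) (c R : ℝ) (hc : 0 < c) :
    {y : Fin 4 → ℝ | V y ∈ TT ∧ c * √(Gr (V y)) = 1 ∧ (∀ j, V y j ≤ R) ∧
      Cone V (nz V y) ∧ P y}.Finite := by
  have hK := compact_norm hV c R hc
  have hKT : ∀ x ∈ {x : Fin 4 → ℝ | ∃ y : Fin 4 → ℝ, V y ∈ TT ∧ c * √(Gr (V y)) = 1 ∧
      (∀ j, V y j ≤ R) ∧ x = nz V y}, V x ∈ TT := by
    rintro x ⟨y, hy, _, _, rfl⟩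
    exact (class_nrm hV hy).2.1.1
  refine Set.Finite.of_finite_image (f := nz V) ((hfin _ hK hKT).subset ?_) ?_
  · rintro x ⟨y, ⟨h1, h2, h3, h4, h5⟩, rfl⟩
    refine ⟨⟨y, h1, h2, h3, rfl⟩, (class_nrm hV h1).2.1, h4, ?_⟩
    exact hP _ _ (div_pos Real.pi_pos (class_nrm hV h1).1) h5
  · rintro y ⟨h1, h2, _⟩ y' ⟨h1', h2', _⟩ he
    exact nz_inj hV hc h1 h1' h2 h2' he

theorem main_finite (R : ℝ) :
    {l : Fin 6 → ℝ | ∃ p : Fin 4 → E3, AffineIndependent ℝ p ∧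
      volume (convexHull ℝ (range p)) = 1 ∧ TilesSpace (convexHull ℝ (range p)) ∧ Sym p ∧
      ¬ IsHill p ∧ (∀ i j, dist (p i) (p j) ≤ R) ∧ l = len p}.Finite := by
  obtain ⟨c, hc, hvol⟩ := volume_tet
  have hF1 := ht32_fin (V := c2v) (Or.inl rfl) (fun y => ¬ HillC y)
    (fun t y ht h h' => h ((hillC_smul ht y).1 h'))
    (fun K hK hKT => c2_finite K hK hKT) c R hc
  have hF2 := ht32_fin (V := miv) (Or.inr rfl) (fun _ => True)
    (fun t y ht h => trivial)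
    (fun K hK hKT => (mi_finite K hK hKT).subset (fun x hx => ⟨hx.1, hx.2.1, hx.2.2.1⟩)) c R hc
  choose s hs using len_relabel
  have hU : (⋃ τ : Equiv.Perm (Fin 4),
      ((fun y : Fin 4 → ℝ => fun j : Fin 6 => c2v y (s τ j)) ''
        {y : Fin 4 → ℝ | c2v y ∈ TT ∧ c * √(Gr (c2v y)) = 1 ∧ (∀ j, c2v y j ≤ R) ∧
          Cone c2v (nz c2v y) ∧ ¬ HillC y}) ∪
      ((fun y : Fin 4 → ℝ => fun j : Fin 6 => miv y (s τ j)) ''
        {y : Fin 4 → ℝ | miv y ∈ TT ∧ c * √(Gr (miv y)) = 1 ∧ (∀ j, miv y j ≤ R) ∧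
          Cone miv (nz miv y) ∧ True})).Finite := by
    refine Set.finite_iUnion (fun τ => ?_)
    exact (hF1.image _).union (hF2.image _)
  refine hU.subset ?_
  rintro l ⟨p, hp, hv, hT, hS, hH, hR, rfl⟩
  obtain ⟨τ, hτ⟩ := sym_class p hS
  have hq : AffineIndependent ℝ (p ∘ τ) := hp.comp_embedding τ.toEmbedding
  have hrange : range (p ∘ τ) = range p := EquivLike.range_comp p τ
  have hv' : volume (convexHull ℝ (range (p ∘ τ))) = 1 := by rw [hrange]; exact hv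
  have hT' : TilesSpace (convexHull ℝ (range (p ∘ τ))) := by rw [hrange]; exact hT
  have hc1 : c * √(Gr (len (p ∘ τ))) = 1 := by
    rw [hvol _ hq] at hv'
    exact ENNReal.ofReal_eq_one.1 hv'
  have hR' : ∀ j, len (p ∘ τ) j ≤ R := fun j => hR _ _
  have hTT := len_mem_TT (p ∘ τ) hq
  rw [mem_iUnion]
  refine ⟨τ, ?_⟩
  rcases hτ with ⟨y, hy⟩ | ⟨y, hy⟩
  · left
    have hcone := class_cone (V := c2v) (Or.inl rfl) (p ∘ τ) hq hT' y hy
    refine ⟨y, ⟨?_, ?_, ?_, hcone, ?_⟩, ?_⟩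
    · rw [← hy]; exact hTT
    · rw [← hy]; exact hc1
    · rw [← hy]; exact hR'
    · intro hHC
      exact hH (hill_relabel p τ (hill_of_class (p ∘ τ) hq y hy hHC))
    · have h1 := hs τ p
      rw [h1, hy]
  · right
    have hcone := class_cone (V := miv) (Or.inr rfl) (p ∘ τ) hq hT' y hy
    refine ⟨y, ⟨?_, ?_, ?_, hcone, trivial⟩, ?_⟩
    · rw [← hy]; exact hTT
    · rw [← hy]; exact hc1
    · rw [← hy]; exact hR'
    · have h1 := hs τ p
      rw [h1, hy]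

end Pool.Agent.Helper13.HT
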