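import Mathlib

/-!
# HT-10 (C): a vanishing sum of cosines vanishes frequency by frequency

Differentiate: the function `F t = ∑ c i cos (p i + f i t)` is `0`, so all its derivatives vanish:
`F^(2k)(t) = (-1)^k ∑ c i (f i ^ 2)^k cos (p i + f i t) = 0` and
`F^(2k+1)(t) = (-1)^(k+1) ∑ c i f i (f i ^ 2)^k sin (p i + f i t) = 0` (induction with `HasDerivAt`; the derivative of the
zero function is zero). So for every polynomial `P`: `∑ P(f i ^ 2) c i cos(..) = 0` and `∑ P(f i ^ 2) c i f i sin (..) = 0`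
(`Polynomial.induction_on` or `Polynomial.eval_eq_sum`). Take `P = ∏_{w ∈ s} (X - C w)`, `s` = the (Finset) image of the
values `f i ^ 2` without `v`: `P(f i ^ 2) = 0` unless `f i ^ 2 = v`, and `P(v) ≠ 0`; divide by `P(v)`.
-/

open Real

namespace Pool.Agent.Helper13.HT

private theorem gr_deriv {n : ℕ} (c p f : Fin n → ℝ) (t : ℝ) :
    HasDerivAt (fun t : ℝ => ∑ i, c i * cos (p i + f i * t))
      (-∑ i, c i * f i * sin (p i + f i * t)) t := by
  have h1 : ∀ i ∈ (Finset.univ : Finset (Fin n)),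
      HasDerivAt (fun t : ℝ => c i * cos (p i + f i * t))
        (-(c i * f i * sin (p i + f i * t))) t := by
    intro i _
    have h2 : HasDerivAt (fun t : ℝ => p i + f i * t) (f i) t := by
      simpa using ((hasDerivAt_id t).const_mul (f i)).const_add (p i)
    have h3 := (h2.cos).const_mul (c i)
    have h5 : c i * (-sin (p i + f i * t) * f i) = -(c i * f i * sin (p i + f i * t)) := by ring
    rw [h5] at h3
    exact h3
  have h4 := HasDerivAt.fun_sum h1
  rw [Finset.sum_neg_distrib] at h4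
  exact h4

private theorem gr_deriv' {n : ℕ} (c p f : Fin n → ℝ) (t : ℝ) :
    HasDerivAt (fun t : ℝ => ∑ i, c i * f i * sin (p i + f i * t))
      (∑ i, f i ^ 2 * c i * cos (p i + f i * t)) t := by
  have h1 : ∀ i ∈ (Finset.univ : Finset (Fin n)),
      HasDerivAt (fun t : ℝ => c i * f i * sin (p i + f i * t))
        (f i ^ 2 * c i * cos (p i + f i * t)) t := by
    intro i _
    have h2 : HasDerivAt (fun t : ℝ => p i + f i * t) (f i) t := by
      simpa using ((hasDerivAt_id t).const_mul (f i)).const_add (p i)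
    have h3 := (h2.sin).const_mul (c i * f i)
    have h5 : c i * f i * (cos (p i + f i * t) * f i) = f i ^ 2 * c i * cos (p i + f i * t) := by
      ring
    rw [h5] at h3
    exact h3
  exact HasDerivAt.fun_sum h1

private theorem gr_zero {F : ℝ → ℝ} {a t : ℝ} (h : ∀ t, F t = 0) (h' : HasDerivAt F a t) :
    a = 0 := by
  have h1 : F = fun _ => 0 := funext h
  rw [h1] at h'
  exact h'.unique (hasDerivAt_const t 0)

private theorem gr_step {n : ℕ} (c p f : Fin n → ℝ)
    (h : ∀ t : ℝ, ∑ i, c i * cos (p i + f i * t) = 0) :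
    (∀ t : ℝ, ∑ i, c i * f i * sin (p i + f i * t) = 0) ∧
    (∀ t : ℝ, ∑ i, f i ^ 2 * c i * cos (p i + f i * t) = 0) := by
  have h1 : ∀ t : ℝ, ∑ i, c i * f i * sin (p i + f i * t) = 0 := by
    intro t
    exact neg_eq_zero.mp (gr_zero h (gr_deriv c p f t))
  exact ⟨h1, fun t => gr_zero h1 (gr_deriv' c p f t)⟩

private theorem gr_pow {n : ℕ} (p f : Fin n → ℝ) : ∀ (k : ℕ) (c : Fin n → ℝ),
    (∀ t : ℝ, ∑ i, c i * cos (p i + f i * t) = 0) →
    (∀ t : ℝ, ∑ i, (f i ^ 2) ^ k * c i * cos (p i + f i * t) = 0) ∧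
    (∀ t : ℝ, ∑ i, (f i ^ 2) ^ k * c i * f i * sin (p i + f i * t) = 0)
  | 0, c, h => by
    refine ⟨fun t => ?_, fun t => ?_⟩
    · simpa using h t
    · simpa using (gr_step c p f h).1 t
  | k + 1, c, h => by
    have h1 := gr_pow p f k (fun i => f i ^ 2 * c i) (gr_step c p f h).2
    refine ⟨fun t => ?_, fun t => ?_⟩
    · rw [← h1.1 t]
      refine Finset.sum_congr rfl fun i _ => ?_
      ring
    · rw [← h1.2 t]
      refine Finset.sum_congr rfl fun i _ => ?_
      ring

private theorem gr_poly {n : ℕ} (g X : Fin n → ℝ) (h : ∀ k : ℕ, ∑ i, g i ^ k * X i = 0)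
    (P : Polynomial ℝ) : ∑ i, P.eval (g i) * X i = 0 := by
  have h1 : ∀ i ∈ (Finset.univ : Finset (Fin n)), P.eval (g i) * X i =
      ∑ k ∈ Finset.range (P.natDegree + 1), P.coeff k * (g i ^ k * X i) := by
    intro i _
    rw [Polynomial.eval_eq_sum_range, Finset.sum_mul]
    refine Finset.sum_congr rfl fun k _ => ?_
    ring
  rw [Finset.sum_congr rfl h1, Finset.sum_comm]
  refine Finset.sum_eq_zero fun k _ => ?_
  rw [← Finset.mul_sum, h k, mul_zero]

private theorem gr_sel {n : ℕ} (g X : Fin n → ℝ) (h : ∀ k : ℕ, ∑ i, g i ^ k * X i = 0) (v : ℝ) :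
    (∑ i, if g i = v then X i else 0) = 0 := by
  classical
  let s : Finset ℝ := (Finset.univ.image g).erase v
  let P : Polynomial ℝ := ∏ w ∈ s, (Polynomial.X - Polynomial.C w)
  have hP : ∀ x, P.eval x = ∏ w ∈ s, (x - w) := by
    intro x
    simp only [P, Polynomial.eval_prod, Polynomial.eval_sub, Polynomial.eval_X,
      Polynomial.eval_C]
  have hv : P.eval v ≠ 0 := by
    rw [hP, Finset.prod_ne_zero_iff]
    intro w hw h0
    exact (Finset.mem_erase.mp hw).1 (sub_eq_zero.mp h0).symm
  have h1 := gr_poly g X h P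
  have h2 : ∀ i ∈ (Finset.univ : Finset (Fin n)), P.eval (g i) * X i =
      P.eval v * (if g i = v then X i else 0) := by
    intro i _
    split_ifs with hi
    · rw [hi]
    · rw [mul_zero]
      have h3 : P.eval (g i) = 0 := by
        rw [hP]
        refine Finset.prod_eq_zero (i := g i) ?_ (sub_self _)
        exact Finset.mem_erase.mpr ⟨hi, Finset.mem_image_of_mem _ (Finset.mem_univ i)⟩
      rw [h3, zero_mul]
  rw [Finset.sum_congr rfl h2, ← Finset.mul_sum] at h1
  exact (mul_eq_zero.mp h1).resolve_left hv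

theorem group_lemma {n : ℕ} (c p f : Fin n → ℝ)
    (h : ∀ t : ℝ, ∑ i, c i * cos (p i + f i * t) = 0) (v t : ℝ) :
    (∑ i, if f i ^ 2 = v then c i * cos (p i + f i * t) else 0) = 0 ∧
    (∑ i, if f i ^ 2 = v then c i * f i * sin (p i + f i * t) else 0) = 0 := by
  constructor
  · refine gr_sel (fun i => f i ^ 2) (fun i => c i * cos (p i + f i * t)) (fun k => ?_) v
    rw [← (gr_pow p f k c h).1 t]
    refine Finset.sum_congr rfl fun i _ => ?_
    ring
  · refine gr_sel (fun i => f i ^ 2) (fun i => c i * f i * sin (p i + f i * t)) (fun k => ?_) v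
    rw [← (gr_pow p f k c h).2 t]
    refine Finset.sum_congr rfl fun i _ => ?_
    ring

end Pool.Agent.Helper13.HT
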