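import Pool.Agent.Helper13.HT.MiRel

/-!
# HT-13 (C): the mirror relation along a line, case `b + f < a`

Use `mi_rel` with `s = 2a > 0`. The term `8 cos 2α` has frequency `s`. Not of frequency `±s`: `2b, a+b+f, a+b-f, a-b+f, a-b-f`
(all of absolute value `< 2a`), `2f` (`f < a`). Possible: `g`, `g + 2f`, `g - 2f`.
* `f > 0`: at most one of `g = s`, `g + 2f = s`, `g - 2f = s` holds (`2f - g = s` is impossible as `2f < s`), so the other terms have total
  amplitude `≤ 4 < 8`: contradiction (square and add the two relations, or: `8 cos X = -c cos Y`, `8 sin X = ∓c sin Y`,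
  `|c| ≤ 4`, `cos² + sin² = 1`).
* `f = 0`: if `g ≠ s` then `8 cos 2α = 0 = 8 sin 2α`: contradiction. If `g = s`: the relations say
  `8 cos 2α + 4 cos ψ - 2 cos(ψ+2φ) - 2 cos(ψ-2φ) = 8 cos 2α + 8 sin²φ cos ψ = 0` and the same with `sin` for `cos` of `2α` and `ψ`. Square and
  add: `sin⁴ φ = 1`, so `sin² φ = 1`, `cos φ = 0`, `cos ψ = - cos 2α`. Then `h0` gives
  `cos²α + cos²β - (1 + cos 2α)/2 = cos² β = 0`.
-/

open Real

namespace Pool.Agent.Helper13.HT

private theorem kc_of {c f p s : ℝ} (h : f = s) : kc c f p s = c * cos p := if_pos (Or.inl h)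

private theorem ks_of {c f p s : ℝ} (h : f = s) : ks c f p s = c * sin p := if_pos h

private theorem kc_no {c f p s : ℝ} (h : f ≠ s) (h' : f ≠ -s) : kc c f p s = 0 :=
  if_neg (fun h1 => h1.elim h h')

private theorem ks_no {c f p s : ℝ} (h : f ≠ s) (h' : f ≠ -s) : ks c f p s = 0 := by
  unfold ks
  rw [if_neg h, if_neg h']

private theorem no_small {x y c : ℝ} (hc : c ^ 2 < 64) (h1 : 8 * cos x + c * cos y = 0)
    (h2 : 8 * sin x + c * sin y = 0) : False := by
  have e1 : 8 * cos x = -(c * cos y) := by linarith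
  have e2 : 8 * sin x = -(c * sin y) := by linarith
  have e3 : (8 * cos x) ^ 2 + (8 * sin x) ^ 2 = c ^ 2 := by
    rw [e1, e2]
    have := sin_sq_add_cos_sq y
    linear_combination c ^ 2 * this
  have e4 : (8 * cos x) ^ 2 + (8 * sin x) ^ 2 = 64 := by
    have := sin_sq_add_cos_sq x
    linear_combination 64 * this
  linarith

theorem mi_caseA (α β φ ψ a b f g : ℝ)
    (hid : ∀ t : ℝ, MS (α + a * t) (β + b * t) (φ + f * t) (ψ + g * t) = 0)
    (h0 : cos α ^ 2 + cos β ^ 2 + 2 * cos α * cos β * cos φ - (1 - cos ψ) * sin φ ^ 2 / 2 = 0)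
    (hb : 0 ≤ b) (hf : 0 ≤ f) (hg : 0 ≤ g) (hab : b + f < a) :
    cos β = 0 ∧ cos ψ = -cos (2 * α) := by
  have ha : 0 < a := by linarith
  obtain ⟨hc, hs⟩ := mi_rel α β φ ψ a b f g hid (2 * a) (by linarith)
  have n2 : 2 * b ≠ 2 * a := fun h => by linarith
  have n2' : 2 * b ≠ -(2 * a) := fun h => by linarith
  have n3 : a + b + f ≠ 2 * a := fun h => by linarith
  have n3' : a + b + f ≠ -(2 * a) := fun h => by linarith
  have n4 : a + b - f ≠ 2 * a := fun h => by linarith
  have n4' : a + b - f ≠ -(2 * a) := fun h => by linarith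
  have n5 : a - b + f ≠ 2 * a := fun h => by linarith
  have n5' : a - b + f ≠ -(2 * a) := fun h => by linarith
  have n6 : a - b - f ≠ 2 * a := fun h => by linarith
  have n6' : a - b - f ≠ -(2 * a) := fun h => by linarith
  have n7' : g ≠ -(2 * a) := fun h => by linarith
  have n8 : 2 * f ≠ 2 * a := fun h => by linarith
  have n8' : 2 * f ≠ -(2 * a) := fun h => by linarith
  have n9' : g + 2 * f ≠ -(2 * a) := fun h => by linarith
  have n10' : g - 2 * f ≠ -(2 * a) := fun h => by linarith
  rw [kc_of rfl, kc_no n2 n2', kc_no n3 n3', kc_no n4 n4', kc_no n5 n5', kc_no n6 n6',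
    kc_no n8 n8'] at hc
  rw [ks_of rfl, ks_no n2 n2', ks_no n3 n3', ks_no n4 n4', ks_no n5 n5', ks_no n6 n6',
    ks_no n8 n8'] at hs
  simp only [add_zero] at hc hs
  by_cases h7 : g = 2 * a
  · by_cases hf0 : f = 0
    · have h9 : g + 2 * f = 2 * a := by rw [hf0, h7]; ring
      have h10 : g - 2 * f = 2 * a := by rw [hf0, h7]; ring
      rw [kc_of h7, kc_of h9, kc_of h10] at hc
      rw [ks_of h7, ks_of h9, ks_of h10] at hs
      rw [cos_add ψ, cos_sub ψ, cos_two_mul φ] at hc
      rw [sin_add ψ, sin_sub ψ, cos_two_mul φ] at hs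
      have hφ := sin_sq_add_cos_sq φ
      have hψ := sin_sq_add_cos_sq ψ
      have hα := sin_sq_add_cos_sq (2 * α)
      have e1 : cos (2 * α) = -(sin φ ^ 2 * cos ψ) := by
        linear_combination (1 / 8) * hc + cos ψ * hφ
      have e2 : sin (2 * α) = -(sin φ ^ 2 * sin ψ) := by
        linear_combination (1 / 8) * hs + sin ψ * hφ
      have e3 : (sin φ ^ 2) ^ 2 = 1 := by
        rw [e1, e2] at hα
        linear_combination hα - (sin φ ^ 2) ^ 2 * hψ
      have e4 : sin φ ^ 2 = 1 := by
        nlinarith [sq_nonneg (sin φ)]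
      have e5 : cos φ ^ 2 = 0 := by linarith
      have e6 : cos φ = 0 := by
        simpa using e5
      have e7 : cos ψ = -cos (2 * α) := by
        rw [e1, e4]
        ring
      refine ⟨?_, e7⟩
      rw [e4, e6, e7, cos_two_mul] at h0
      have e8 : cos β ^ 2 = 0 := by linear_combination h0
      simpa using e8
    · exfalso
      have hf' : 0 < f := lt_of_le_of_ne hf (Ne.symm hf0)
      have n9 : g + 2 * f ≠ 2 * a := fun h => by linarith
      have n10 : g - 2 * f ≠ 2 * a := fun h => by linarith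
      rw [kc_of h7, kc_no n9 n9', kc_no n10 n10'] at hc
      rw [ks_of h7, ks_no n9 n9', ks_no n10 n10'] at hs
      simp only [add_zero] at hc hs
      exact no_small (by norm_num) hc hs
  · exfalso
    rw [kc_no h7 n7'] at hc
    rw [ks_no h7 n7'] at hs
    by_cases h9 : g + 2 * f = 2 * a
    · by_cases h10 : g - 2 * f = 2 * a
      · exact h7 (by linarith)
      · rw [kc_of h9, kc_no h10 n10'] at hc
        rw [ks_of h9, ks_no h10 n10'] at hs
        simp only [add_zero] at hc hs
        exact no_small (by norm_num) hc hs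
    · by_cases h10 : g - 2 * f = 2 * a
      · rw [kc_no h9 n9', kc_of h10] at hc
        rw [ks_no h9 n9', ks_of h10] at hs
        simp only [add_zero] at hc hs
        exact no_small (by norm_num) hc hs
      · rw [kc_no h9 n9', kc_no h10 n10'] at hc
        rw [ks_no h9 n9', ks_no h10 n10'] at hs
        simp only [add_zero] at hc hs
        exact no_small (x := 2 * α) (y := 0) (c := 0) (by norm_num) (by rw [hc]; ring)
          (by rw [hs]; ring)

end Pool.Agent.Helper13.HT
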