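import Pool.Agent.Helper13.HT.MiIneq
import Pool.Agent.Helper13.HT.SegAn

/-!
# HT-23c (D): interior end of a segment in the mirror class, a collapsing face

Let `x = seg u w e`, `0 < e < 1`, `(p, q, 2a, 2b) = x`. For `r ∈ (s, e)` the coordinates of `seg u w r` are `> 0` (`mi_pos`), so `u i, w i` are not both `0` and `x i > 0`; by continuity
(`mi_TT` on `(s, e)`) `x 0 ≤ x 2`, `x 0 ≤ x 3`, `HM x ≥ 0`; the non-strict inequalities of `mi_G` hold at `x` (`Good.nrm`).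
`mi_end_collapse`: `x 0 = x 2` (`a = p/2`). `HM x = -(x3² - x0² - 4 x1²)² ≥ 0`, so `x3² = x0² + 4x1² = x2² + 4 x1²`, and `x 3 > x 0`. For `r ∈ (s, e)` near `e` let
  `A(r)² = x2² - x0² = (x2 - x0)(x2 + x0)` at `seg u w r`, where `x2 - x0` is affine in `r`, `> 0` on `(s,e)` and `0` at `e`, so `= κ (e - r)` with `κ > 0`, and `x2 + x0 ≥ c > 0`: `A(r)² ≥ c κ (e - r)`;
  `N(r) = x3² - x0² - 4x1²` is a quadratic polynomial in `r` vanishing at `e`: `|N(r)| ≤ C (e - r)`. So `N/A → 0`, `A → 0` as `r → e-`. With `B = √(x3² - x0²) → 2 x1(e) > 0`: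
  `cos φ = W 0/√(D 2 D 3) = (A² + N)/(2 A B) → 0`, `cos α = W 1/√(D 1 D 3) → 0` (`W 1 = x0² (A² - N)/4`, `√D 3 = x0 A`, `D 1 → x0² x1² > 0`),
  `cos ψ = W 5/D 0 → -1`, `cos β = W 2/√(D 1 D 2) → 1` (`W 2 = x0² (N - A² + 8 x1²)/4 → 2 x0² x1²`, `√(D 1 D 2) → x0 x1 · x0 · 2 x1`).
  So `ca → (π/2, π, π/2, 0)` (`arccos` is continuous): the relation gives `u 0/2 + u 1 + u 2/2 = 1`, same for `w`; then `x 0 + 2 x 1 + x 2 = 2` at `e`, with `x 2 = x 0`: `x 0 + x 1 = 1`.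
-/

open Real Set Filter Topology
open Pool.Agent.Helper1.Tet

namespace Pool.Agent.Helper13.HT

private lemma co_pos {u w : Fin 4 → ℝ} (hu : ∀ i, 0 ≤ u i) (hw : ∀ i, 0 ≤ w i) {s e : ℝ}
    (hs : 0 ≤ s) (hse : s < e) (he : e < 1) (hI : Good miv u w s e) (i : Fin 4) :
    0 < seg u w e i := by
  have h1 := mi_pos (hI ((s + e) / 2) ⟨by linarith, by linarith⟩).1 i
  simp only [seg] at h1 ⊢
  have he0 : 0 < e := by linarith
  have he1 : 0 < 1 - e := by linarith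
  rcases (hu i).eq_or_lt with h | h
  · rcases (hw i).eq_or_lt with h' | h'
    · rw [← h, ← h'] at h1
      simp at h1
    · have := hu i
      positivity
  · have := hw i
    positivity

/-- the four class angles for a tetrahedron of the class -/
private lemma co_ca (x : Fin 4 → ℝ) (hx : ∀ i, 0 < x i) (hT : miv x ∈ TT) :
    ca (miv x) 0 = arccos ((√(x 2 ^ 2 - x 0 ^ 2) +
      (x 3 ^ 2 - x 0 ^ 2 - 4 * x 1 ^ 2) / √(x 2 ^ 2 - x 0 ^ 2)) /
        (2 * √(x 3 ^ 2 - x 0 ^ 2))) ∧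
    ca (miv x) 1 = arccos ((HM x / 16 - x 0 ^ 2 * x 1 ^ 2) /
      (x 0 ^ 2 * x 1 ^ 2 + HM x / 16)) ∧
    ca (miv x) 2 = arccos (x 0 * (√(x 2 ^ 2 - x 0 ^ 2) -
      (x 3 ^ 2 - x 0 ^ 2 - 4 * x 1 ^ 2) / √(x 2 ^ 2 - x 0 ^ 2)) /
        (4 * √(x 0 ^ 2 * x 1 ^ 2 + HM x / 16))) ∧
    ca (miv x) 3 = arccos (x 0 ^ 2 * (x 3 ^ 2 - x 2 ^ 2 + 4 * x 1 ^ 2) / 4 /
      (√(x 0 ^ 2 * x 1 ^ 2 + HM x / 16) * (x 0 * √(x 3 ^ 2 - x 0 ^ 2)))) := by
  obtain ⟨hD0, hD1, hD2, hD3⟩ := mi_D x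
  obtain ⟨hW0, hW5, hW1, hW2⟩ := mi_W x
  obtain ⟨t1, t2, t3⟩ := (mi_TT x hx).1 hT
  have hx0 := hx 0
  have hx1 := hx 1
  have p2 : 0 < x 2 ^ 2 - x 0 ^ 2 := by nlinarith
  have p3 : 0 < x 3 ^ 2 - x 0 ^ 2 := by nlinarith
  have hAp : 0 < √(x 2 ^ 2 - x 0 ^ 2) := sqrt_pos.2 p2
  have hBp : 0 < √(x 3 ^ 2 - x 0 ^ 2) := sqrt_pos.2 p3
  have hA2 : √(x 2 ^ 2 - x 0 ^ 2) ^ 2 = x 2 ^ 2 - x 0 ^ 2 := sq_sqrt p2.le
  have hE : 0 < x 0 ^ 2 * x 1 ^ 2 + HM x / 16 := by positivity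
  have hEp : 0 < √(x 0 ^ 2 * x 1 ^ 2 + HM x / 16) := sqrt_pos.2 hE
  have s2 : √(D (miv x) 2) = x 0 * √(x 3 ^ 2 - x 0 ^ 2) := by
    rw [hD2, sqrt_mul (by positivity), sqrt_sq hx0.le]
  have s3 : √(D (miv x) 3) = x 0 * √(x 2 ^ 2 - x 0 ^ 2) := by
    rw [hD3, sqrt_mul (by positivity), sqrt_sq hx0.le]
  have e0 : ec 0 = 2 := rfl
  have e0' : ed 0 = 3 := rfl
  have e5 : ec 5 = 0 := rfl
  have e5' : ed 5 = 1 := rfl
  have e1 : ec 1 = 1 := rfl
  have e1' : ed 1 = 3 := rfl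
  have e2 : ec 2 = 1 := rfl
  have e2' : ed 2 = 2 := rfl
  refine ⟨?_, ?_, ?_, ?_⟩
  · rw [ca_0]
    unfold al
    rw [e0, e0', s2, s3, hW0]
    congr 1
    set A := √(x 2 ^ 2 - x 0 ^ 2) with hA
    set B := √(x 3 ^ 2 - x 0 ^ 2) with hB
    rw [show x 2 ^ 2 + x 3 ^ 2 - 2 * x 0 ^ 2 - 4 * x 1 ^ 2 =
      A ^ 2 + (x 3 ^ 2 - x 0 ^ 2 - 4 * x 1 ^ 2) by rw [hA2]; ring]
    generalize x 3 ^ 2 - x 0 ^ 2 - 4 * x 1 ^ 2 = N
    field_simp
  · rw [ca_1]
    unfold al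
    rw [e5, e5', hD0, hD1, hW5, mul_self_sqrt hE.le]
  · rw [ca_2]
    unfold al
    rw [e1, e1', s3, hD1, hW1]
    congr 1
    set A := √(x 2 ^ 2 - x 0 ^ 2) with hA
    set E := √(x 0 ^ 2 * x 1 ^ 2 + HM x / 16) with hEE
    rw [show x 2 ^ 2 - x 3 ^ 2 + 4 * x 1 ^ 2 =
      A ^ 2 - (x 3 ^ 2 - x 0 ^ 2 - 4 * x 1 ^ 2) by rw [hA2]; ring]
    generalize x 3 ^ 2 - x 0 ^ 2 - 4 * x 1 ^ 2 = N
    field_simp
  · rw [ca_3]
    unfold al
    rw [e2, e2', s2, hD1, hW2]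

/-- the quotient `N / A` tends to `0` at the end -/
private lemma co_NA (u w : Fin 4 → ℝ) (s e : ℝ) (hse : s < e)
    (hk : 0 < u 0 - w 0 - (u 2 - w 2)) (h2 : seg u w e 2 = seg u w e 0)
    (h0 : 0 < seg u w e 0) (hp : ∀ r ∈ Ioo s e, 0 < seg u w r 2 ^ 2 - seg u w r 0 ^ 2)
    (hN : seg u w e 3 ^ 2 - seg u w e 0 ^ 2 - 4 * seg u w e 1 ^ 2 = 0) :
    Tendsto (fun r : ℝ => (seg u w r 3 ^ 2 - seg u w r 0 ^ 2 - 4 * seg u w r 1 ^ 2) /
      √(seg u w r 2 ^ 2 - seg u w r 0 ^ 2)) (𝓝[<] e) (𝓝 0) := by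
  have hIn : ∀ᶠ r in 𝓝[<] e, r ∈ Ioo s e := Ioo_mem_nhdsLT hse
  -- the polynomial `n` with `N = (e - r) n`
  let n : ℝ → ℝ := fun r => -2 * seg u w e 3 * (u 3 - w 3) + 2 * seg u w e 0 * (u 0 - w 0) +
    8 * seg u w e 1 * (u 1 - w 1) +
    (e - r) * ((u 3 - w 3) ^ 2 - (u 0 - w 0) ^ 2 - 4 * (u 1 - w 1) ^ 2)
  have hn : ∀ r, seg u w r 3 ^ 2 - seg u w r 0 ^ 2 - 4 * seg u w r 1 ^ 2 = (e - r) * n r := by
    intro r
    have h3 : ∀ i, seg u w r i = seg u w e i - (e - r) * (u i - w i) := by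
      intro i
      simp only [seg]
      ring
    rw [h3 3, h3 0, h3 1]
    simp only [n]
    linear_combination hN
  have hA : ∀ r, seg u w r 2 ^ 2 - seg u w r 0 ^ 2 =
      (e - r) * ((u 0 - w 0 - (u 2 - w 2)) * (seg u w r 2 + seg u w r 0)) := by
    intro r
    have h4 : seg u w r 2 - seg u w r 0 = (e - r) * (u 0 - w 0 - (u 2 - w 2)) := by
      simp only [seg] at h2 ⊢
      linear_combination h2
    rw [show seg u w r 2 ^ 2 - seg u w r 0 ^ 2 =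
      (seg u w r 2 - seg u w r 0) * (seg u w r 2 + seg u w r 0) by ring, h4]
    ring
  -- the square of the quotient
  have hcs : Continuous fun r : ℝ => seg u w r := by
    unfold seg; fun_prop
  have hci : ∀ i, Continuous fun r : ℝ => seg u w r i := fun i =>
    (continuous_apply i).comp hcs
  have hnc : Continuous n := by
    simp only [n]
    fun_prop
  have hsq : Tendsto (fun r : ℝ => (e - r) * n r ^ 2 /
      ((u 0 - w 0 - (u 2 - w 2)) * (seg u w r 2 + seg u w r 0))) (𝓝[<] e) (𝓝 0) := by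
    have h5 : ContinuousAt (fun r : ℝ => (e - r) * n r ^ 2 /
      ((u 0 - w 0 - (u 2 - w 2)) * (seg u w r 2 + seg u w r 0))) e := by
      refine ContinuousAt.div ?_ ?_ ?_
      · exact ((continuous_const.sub continuous_id).mul (hnc.pow 2)).continuousAt
      · exact (continuous_const.mul ((hci 2).add (hci 0))).continuousAt
      · rw [h2]
        positivity
    have h6 := h5.tendsto.mono_left (nhdsWithin_le_nhds (s := Iio e))
    simpa using h6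
  have hev : ∀ᶠ r in 𝓝[<] e, (e - r) * n r ^ 2 /
      ((u 0 - w 0 - (u 2 - w 2)) * (seg u w r 2 + seg u w r 0)) =
      ((seg u w r 3 ^ 2 - seg u w r 0 ^ 2 - 4 * seg u w r 1 ^ 2) /
      √(seg u w r 2 ^ 2 - seg u w r 0 ^ 2)) ^ 2 := by
    refine hIn.mono fun r hr => ?_
    have h7 := hp r hr
    have h8 : 0 < e - r := by linarith [hr.2]
    rw [div_pow, sq_sqrt h7.le, hn r, hA r]
    rw [hA r] at h7
    have h9 : (u 0 - w 0 - (u 2 - w 2)) * (seg u w r 2 + seg u w r 0) ≠ 0 :=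
      (pos_of_mul_pos_right h7 h8.le).ne'
    generalize (u 0 - w 0 - (u 2 - w 2)) * (seg u w r 2 + seg u w r 0) = M at h9
    field_simp
  have h10 := hsq.congr' hev
  have h11 := (continuous_sqrt.tendsto 0).comp h10
  rw [sqrt_zero] at h11
  have h12 : Tendsto (fun r : ℝ => |(seg u w r 3 ^ 2 - seg u w r 0 ^ 2 - 4 * seg u w r 1 ^ 2) /
      √(seg u w r 2 ^ 2 - seg u w r 0 ^ 2)|) (𝓝[<] e) (𝓝 0) := by
    refine h11.congr fun r => ?_
    simp only [Function.comp]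
    exact sqrt_sq_eq_abs _
  exact (tendsto_zero_iff_abs_tendsto_zero _).2 h12

theorem mi_end_collapse (u w : Fin 4 → ℝ) (hu : ∀ i, 0 ≤ u i) (hw : ∀ i, 0 ≤ w i) (s e : ℝ)
    (hs : 0 ≤ s) (hse : s < e) (he : e < 1) (hI : Good miv u w s e)
    (h2 : seg u w e 2 = seg u w e 0) :
    seg u w e 0 + seg u w e 1 = 1 ∧ seg u w e 3 ^ 2 = seg u w e 2 ^ 2 + 4 * seg u w e 1 ^ 2 ∧
      u 0 + 2 * u 1 + u 2 = 2 ∧ w 0 + 2 * w 1 + w 2 = 2 := by
  have hpos := co_pos hu hw hs hse he hI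
  have hx0 := hpos 0
  have hx1 := hpos 1
  have hx3 := hpos 3
  have hIn : ∀ᶠ r in 𝓝[<] e, r ∈ Ioo s e := Ioo_mem_nhdsLT hse
  have hcs : Continuous fun r : ℝ => seg u w r := by
    unfold seg; fun_prop
  have hci : ∀ i, Continuous fun r : ℝ => seg u w r i := fun i =>
    (continuous_apply i).comp hcs
  have hHM : Continuous fun r : ℝ => HM (seg u w r) := by
    unfold HM seg
    fun_prop
  have hTT : ∀ r ∈ Ioo s e, seg u w r 0 < seg u w r 2 ∧ seg u w r 0 < seg u w r 3 ∧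
      0 < HM (seg u w r) := fun r hr =>
    (mi_TT _ (mi_pos (hI r hr).1)).1 (hI r hr).1
  have hH0 : 0 ≤ HM (seg u w e) := by
    have h4 : Tendsto (fun r : ℝ => HM (seg u w r)) (𝓝[<] e) (𝓝 (HM (seg u w e))) :=
      (hHM.tendsto e).mono_left nhdsWithin_le_nhds
    exact ge_of_tendsto h4 (hIn.mono fun r hr => (hTT r hr).2.2.le)
  have hHN : HM (seg u w e) =
      -(seg u w e 3 ^ 2 - seg u w e 0 ^ 2 - 4 * seg u w e 1 ^ 2) ^ 2 := by
    unfold HM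
    rw [h2]
    ring
  have hN : seg u w e 3 ^ 2 - seg u w e 0 ^ 2 - 4 * seg u w e 1 ^ 2 = 0 := by
    have h4 : (seg u w e 3 ^ 2 - seg u w e 0 ^ 2 - 4 * seg u w e 1 ^ 2) ^ 2 ≤ 0 := by
      rw [hHN] at hH0
      linarith
    have h5 := sq_nonneg (seg u w e 3 ^ 2 - seg u w e 0 ^ 2 - 4 * seg u w e 1 ^ 2)
    exact pow_eq_zero_iff (two_ne_zero) |>.1 (le_antisymm h4 h5)
  have hH : HM (seg u w e) = 0 := by rw [hHN, hN]; ring
  -- slope
  have hr : (s + e) / 2 ∈ Ioo s e := ⟨by linarith, by linarith⟩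
  have hk : 0 < u 0 - w 0 - (u 2 - w 2) := by
    have h4 := (hTT _ hr).1
    have h5 : seg u w ((s + e) / 2) 2 - seg u w ((s + e) / 2) 0 =
        (e - s) / 2 * (u 0 - w 0 - (u 2 - w 2)) := by
      simp only [seg] at h2 ⊢
      linear_combination h2
    have h6 : 0 < (e - s) / 2 * (u 0 - w 0 - (u 2 - w 2)) := by
      rw [← h5]
      linarith
    exact (mul_pos_iff_of_pos_left (by linarith)).1 h6
  have hp : ∀ r ∈ Ioo s e, 0 < seg u w r 2 ^ 2 - seg u w r 0 ^ 2 := by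
    intro r hr
    have h4 := (hTT r hr).1
    have h5 := mi_pos (hI r hr).1 0
    nlinarith
  have hNA := co_NA u w s e hse hk h2 hx0 hp hN
  have hA : Tendsto (fun r : ℝ => √(seg u w r 2 ^ 2 - seg u w r 0 ^ 2)) (𝓝[<] e) (𝓝 0) := by
    have h4 : Continuous fun r : ℝ => √(seg u w r 2 ^ 2 - seg u w r 0 ^ 2) :=
      continuous_sqrt.comp (((hci 2).pow 2).sub ((hci 0).pow 2))
    have h5 := (h4.tendsto e).mono_left (nhdsWithin_le_nhds (s := Iio e))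
    simpa [h2] using h5
  have hB : Tendsto (fun r : ℝ => √(seg u w r 3 ^ 2 - seg u w r 0 ^ 2)) (𝓝[<] e)
      (𝓝 (2 * seg u w e 1)) := by
    have h4 : Continuous fun r : ℝ => √(seg u w r 3 ^ 2 - seg u w r 0 ^ 2) :=
      continuous_sqrt.comp (((hci 3).pow 2).sub ((hci 0).pow 2))
    have h5 := (h4.tendsto e).mono_left (nhdsWithin_le_nhds (s := Iio e))
    have h6 : √(seg u w e 3 ^ 2 - seg u w e 0 ^ 2) = 2 * seg u w e 1 := by
      rw [show seg u w e 3 ^ 2 - seg u w e 0 ^ 2 = (2 * seg u w e 1) ^ 2 by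
        linear_combination hN]
      exact sqrt_sq (by positivity)
    rwa [h6] at h5
  have hE : Tendsto (fun r : ℝ => √(seg u w r 0 ^ 2 * seg u w r 1 ^ 2 + HM (seg u w r) / 16))
      (𝓝[<] e) (𝓝 (seg u w e 0 * seg u w e 1)) := by
    have h4 : Continuous fun r : ℝ =>
        √(seg u w r 0 ^ 2 * seg u w r 1 ^ 2 + HM (seg u w r) / 16) :=
      continuous_sqrt.comp ((((hci 0).pow 2).mul ((hci 1).pow 2)).add (hHM.div_const 16))
    have h5 := (h4.tendsto e).mono_left (nhdsWithin_le_nhds (s := Iio e))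
    have h6 : √(seg u w e 0 ^ 2 * seg u w e 1 ^ 2 + HM (seg u w e) / 16) =
        seg u w e 0 * seg u w e 1 := by
      rw [hH, show seg u w e 0 ^ 2 * seg u w e 1 ^ 2 + 0 / 16 =
        (seg u w e 0 * seg u w e 1) ^ 2 by ring]
      exact sqrt_sq (by positivity)
    rwa [h6] at h5
  have hi : ∀ i, Tendsto (fun r : ℝ => seg u w r i) (𝓝[<] e) (𝓝 (seg u w e i)) := fun i =>
    ((hci i).tendsto e).mono_left nhdsWithin_le_nhds
  have hHMt : Tendsto (fun r : ℝ => HM (seg u w r)) (𝓝[<] e) (𝓝 0) := by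
    have h5 := (hHM.tendsto e).mono_left (nhdsWithin_le_nhds (s := Iio e))
    rwa [hH] at h5
  have hca : ∀ᶠ r in 𝓝[<] e, _ := hIn.mono fun r hr =>
    co_ca (seg u w r) (mi_pos (hI r hr).1) (hI r hr).1
  -- limits of the four angles
  have t0 : Tendsto (fun r : ℝ => ca (miv (seg u w r)) 0) (𝓝[<] e) (𝓝 (π / 2)) := by
    have h4 := ((hA.add hNA).div (hB.const_mul 2) (by positivity))
    have h5 := (continuous_arccos.tendsto _).comp h4
    rw [add_zero, zero_div, arccos_zero] at h5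
    exact h5.congr' (hca.mono fun r hr => hr.1.symm)
  have t1 : Tendsto (fun r : ℝ => ca (miv (seg u w r)) 1) (𝓝[<] e) (𝓝 π) := by
    have h4 := (((hHMt.div_const 16).sub (((hi 0).pow 2).mul ((hi 1).pow 2))).div
      ((((hi 0).pow 2).mul ((hi 1).pow 2)).add (hHMt.div_const 16)) (by positivity))
    have h5 := (continuous_arccos.tendsto _).comp h4
    have h6 : (0 / 16 - seg u w e 0 ^ 2 * seg u w e 1 ^ 2) /
        (seg u w e 0 ^ 2 * seg u w e 1 ^ 2 + 0 / 16) = -1 := by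
      field_simp
      ring
    rw [h6, arccos_neg_one] at h5
    exact h5.congr' (hca.mono fun r hr => hr.2.1.symm)
  have t2 : Tendsto (fun r : ℝ => ca (miv (seg u w r)) 2) (𝓝[<] e) (𝓝 (π / 2)) := by
    have h4 := (((hi 0).mul (hA.sub hNA)).div (hE.const_mul 4) (by positivity))
    have h5 := (continuous_arccos.tendsto _).comp h4
    rw [sub_zero, mul_zero, zero_div, arccos_zero] at h5
    exact h5.congr' (hca.mono fun r hr => hr.2.2.1.symm)
  have t3 : Tendsto (fun r : ℝ => ca (miv (seg u w r)) 3) (𝓝[<] e) (𝓝 0) := by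
    have h4 := (((((hi 0).pow 2).mul ((((hi 3).pow 2).sub ((hi 2).pow 2)).add
      (((hi 1).pow 2).const_mul 4))).div_const 4).div (hE.mul ((hi 0).mul hB))
      (by positivity))
    have h5 := (continuous_arccos.tendsto _).comp h4
    have h6 : seg u w e 0 ^ 2 * (seg u w e 3 ^ 2 - seg u w e 2 ^ 2 + 4 * seg u w e 1 ^ 2) / 4 /
        (seg u w e 0 * seg u w e 1 * (seg u w e 0 * (2 * seg u w e 1))) = 1 := by
      rw [div_eq_one_iff_eq (by positivity), h2, show seg u w e 3 ^ 2 =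
        seg u w e 0 ^ 2 + 4 * seg u w e 1 ^ 2 by linear_combination hN]
      ring
    rw [h6, arccos_one] at h5
    exact h5.congr' (hca.mono fun r hr => hr.2.2.2.symm)
  have hlim : ∀ v : Fin 4 → ℝ, (∀ r ∈ Ioo s e, ∑ i, v i * ca (miv (seg u w r)) i = π) →
      v 0 + 2 * v 1 + v 2 = 2 := by
    intro v hv
    have h4 : Tendsto (fun r : ℝ => v 0 * ca (miv (seg u w r)) 0 + v 1 * ca (miv (seg u w r)) 1 +
        v 2 * ca (miv (seg u w r)) 2 + v 3 * ca (miv (seg u w r)) 3) (𝓝[<] e)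
        (𝓝 (v 0 * (π / 2) + v 1 * π + v 2 * (π / 2) + v 3 * 0)) :=
      (((t0.const_mul _).add (t1.const_mul _)).add (t2.const_mul _)).add (t3.const_mul _)
    have h5 : Tendsto (fun r : ℝ => v 0 * ca (miv (seg u w r)) 0 + v 1 * ca (miv (seg u w r)) 1 +
        v 2 * ca (miv (seg u w r)) 2 + v 3 * ca (miv (seg u w r)) 3) (𝓝[<] e) (𝓝 π) :=
      tendsto_const_nhds.congr' (hIn.mono fun r hr => by
        have h6 := hv r hr
        rw [Fin.sum_univ_four] at h6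
        exact h6.symm)
    have h7 := tendsto_nhds_unique h4 h5
    apply mul_right_cancel₀ pi_pos.ne'
    linarith
  have hru := hlim u fun r hr => (hI r hr).2.1
  have hrw := hlim w fun r hr => (hI r hr).2.2
  refine ⟨?_, ?_, hru, hrw⟩
  · have h4 : seg u w e 0 + 2 * seg u w e 1 + seg u w e 2 = 2 := by
      simp only [seg]
      linear_combination e * hru + (1 - e) * hrw
    rw [h2] at h4
    linarith
  · rw [h2]
    linear_combination hN

end Pool.Agent.Helper13.HT
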