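import Pool.Agent.Helper13.HT.MiIneq
import Pool.Agent.Helper13.HT.SegAn

/-!
# HT-23b (D): interior end of a segment in the mirror class, planar case

Let `x = seg u w e`, `0 < e < 1`, `(p, q, 2a, 2b) = x`. For `r ∈ (s, e)` the coordinates of `seg u w r` are `> 0` (`mi_pos`), so `u i, w i` are not both `0` and `x i > 0`; by continuity
(`mi_TT` on `(s, e)`) `x 0 ≤ x 2`, `x 0 ≤ x 3`, `HM x ≥ 0`; the non-strict inequalities of `mi_G` hold at `x` (`Good.nrm`).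
`mi_end_flat`: `x 0 < x 2`, `x 0 < x 3`, so `HM x = 0` by `mi_TT`. All `D > 0` at `x` (`mi_D`), so the angles `arccos (W/(√D √D))` are continuous at `x`.
  Put `A = √(x2² - x0²) > 0`, `B = √(x3² - x0²) > 0` (`= 2 m_a, 2 m_b`), `Q = 2 x 1 > 0`. `HM x = (2AB)² - (A² + B² - Q²)² = 0`, i.e.
  `(A+B+Q)(A+B-Q)(A-B+Q)(-A+B+Q) = 0`. `D 0 = D 1 = x0² x1²`, `D 2 = x0² B²`, `D 3 = x0² A²`, `W 5 = -x0² x1²`: `cos ψ = -1`, `ψ → π`.
  `cos φ = W 0/√(D 2 D 3) = (A² + B² - Q²)/(2AB)`, `cos α = W 1/√(D 1 D 3) = (A² - B² + Q²)/(2AQ)`, `cos β = W 2/√(D 1 D 2) = (B² - A² + Q²)/(2BQ)`.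
  - `Q = A + B`: `cos φ = -1`, `cos α = cos β = 1`: `ca → (π, π, 0, 0)`, so `u 0 + u 1 = 1 = w 0 + w 1` (limit of the relations), against `x 0 + x 1 < 1` on `(s,e)`.
  - `A = B + Q`: `cos φ = 1, cos α = 1, cos β = -1`: `ca → (0, π, 0, π)`: `u 1 + u 3 = 1 = w 1 + w 3`, against `1 < x 1 + x 3` on `(s, e)`.
  - `B = A + Q`: `ca → (0, π, π, 0)`: against `1 < x 1 + x 2`.
-/

open Real Set Filter Topology
open Pool.Agent.Helper1.Tet

namespace Pool.Agent.Helper13.HT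

private lemma fl_pos {u w : Fin 4 → ℝ} (hu : ∀ i, 0 ≤ u i) (hw : ∀ i, 0 ≤ w i) {s e : ℝ}
    (hs : 0 ≤ s) (hse : s < e) (he : e < 1) (hI : Good miv u w s e) (i : Fin 4) :
    0 < seg u w e i := by
  have h1 := mi_pos (hI ((s + e) / 2) ⟨by linarith, by linarith⟩).1 i
  simp only [seg] at h1 ⊢
  have he0 : 0 < e := by linarith
  have he1 : 0 < 1 - e := by linarith
  rcases (hu i).eq_or_lt with h | h
  · rcases (hw i).eq_or_lt with h' | h'
    · rw [← h, ← h'] at h1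
      simp at h1
    · have := hu i
      positivity
  · have := hw i
    positivity

private lemma fl_W (x : Fin 4 → ℝ) (A B Q : ℝ) (hx0 : 0 < x 0) (hx1 : 0 < x 1) (hA : 0 < A)
    (hB : 0 < B) (hQ : Q = 2 * x 1) (hA2 : A ^ 2 = x 2 ^ 2 - x 0 ^ 2)
    (hB2 : B ^ 2 = x 3 ^ 2 - x 0 ^ 2) (hH : HM x = 0) :
    ca (miv x) 0 = arccos ((A ^ 2 + B ^ 2 - Q ^ 2) / (2 * A * B)) ∧
    ca (miv x) 1 = π ∧
    ca (miv x) 2 = arccos ((A ^ 2 - B ^ 2 + Q ^ 2) / (2 * A * Q)) ∧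
    ca (miv x) 3 = arccos ((B ^ 2 - A ^ 2 + Q ^ 2) / (2 * B * Q)) := by
  obtain ⟨hD0, hD1, hD2, hD3⟩ := mi_D x
  obtain ⟨hW0, hW5, hW1, hW2⟩ := mi_W x
  have s0 : √(D (miv x) 0) = x 0 * x 1 := by
    rw [hD0, hH, show x 0 ^ 2 * x 1 ^ 2 + 0 / 16 = (x 0 * x 1) ^ 2 by ring]
    exact sqrt_sq (by positivity)
  have s1 : √(D (miv x) 1) = x 0 * x 1 := by
    rw [hD1, hH, show x 0 ^ 2 * x 1 ^ 2 + 0 / 16 = (x 0 * x 1) ^ 2 by ring]
    exact sqrt_sq (by positivity)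
  have s2 : √(D (miv x) 2) = x 0 * B := by
    rw [hD2, ← hB2, ← mul_pow]
    exact sqrt_sq (by positivity)
  have s3 : √(D (miv x) 3) = x 0 * A := by
    rw [hD3, ← hA2, ← mul_pow]
    exact sqrt_sq (by positivity)
  have e0 : ec 0 = 2 := rfl
  have e0' : ed 0 = 3 := rfl
  have e5 : ec 5 = 0 := rfl
  have e5' : ed 5 = 1 := rfl
  have e1 : ec 1 = 1 := rfl
  have e1' : ed 1 = 3 := rfl
  have e2 : ec 2 = 1 := rfl
  have e2' : ed 2 = 2 := rfl
  have hx : x 1 = Q / 2 := by rw [hQ]; ring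
  have hQp : 0 < Q := by rw [hQ]; linarith
  refine ⟨?_, ?_, ?_, ?_⟩
  · rw [ca_0]
    unfold al
    rw [e0, e0', s2, s3, hW0]
    congr 1
    rw [hx, show x 2 ^ 2 + x 3 ^ 2 - 2 * x 0 ^ 2 - 4 * (Q / 2) ^ 2 = A ^ 2 + B ^ 2 - Q ^ 2 by
      rw [hA2, hB2]; ring]
    field_simp
  · rw [ca_1]
    unfold al
    rw [e5, e5', s0, s1, hW5, hH, ← arccos_neg_one]
    congr 1
    field_simp
    ring
  · rw [ca_2]
    unfold al
    rw [e1, e1', s1, s3, hW1]
    congr 1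
    rw [hx, show x 2 ^ 2 - x 3 ^ 2 + 4 * (Q / 2) ^ 2 = A ^ 2 - B ^ 2 + Q ^ 2 by
      rw [hA2, hB2]; ring]
    field_simp
    ring
  · rw [ca_3]
    unfold al
    rw [e2, e2', s1, s2, hW2]
    congr 1
    rw [hx, show x 3 ^ 2 - x 2 ^ 2 + 4 * (Q / 2) ^ 2 = B ^ 2 - A ^ 2 + Q ^ 2 by
      rw [hA2, hB2]; ring]
    field_simp
    ring

private lemma fl_vals (x : Fin 4 → ℝ) (hx0 : 0 < x 0) (hx1 : 0 < x 1) (h2 : x 0 < x 2)
    (h3 : x 0 < x 3) (hH : HM x = 0) : ca (miv x) 1 = π ∧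
    ((ca (miv x) 0 = π ∧ ca (miv x) 2 = 0 ∧ ca (miv x) 3 = 0) ∨
      (ca (miv x) 0 = 0 ∧ ca (miv x) 2 = 0 ∧ ca (miv x) 3 = π) ∨
      (ca (miv x) 0 = 0 ∧ ca (miv x) 2 = π ∧ ca (miv x) 3 = 0)) := by
  have p2 : 0 < x 2 ^ 2 - x 0 ^ 2 := by nlinarith
  have p3 : 0 < x 3 ^ 2 - x 0 ^ 2 := by nlinarith
  set A := √(x 2 ^ 2 - x 0 ^ 2) with hA
  set B := √(x 3 ^ 2 - x 0 ^ 2) with hB
  have hAp : 0 < A := sqrt_pos.2 p2
  have hBp : 0 < B := sqrt_pos.2 p3
  have hA2 : A ^ 2 = x 2 ^ 2 - x 0 ^ 2 := sq_sqrt p2.le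
  have hB2 : B ^ 2 = x 3 ^ 2 - x 0 ^ 2 := sq_sqrt p3.le
  obtain ⟨Q, hQ⟩ : ∃ Q : ℝ, Q = 2 * x 1 := ⟨_, rfl⟩
  have hQp : 0 < Q := by rw [hQ]; linarith
  obtain ⟨c0, c1, c2, c3⟩ := fl_W x A B Q hx0 hx1 hAp hBp hQ hA2 hB2 hH
  have hf : (A + B + Q) * ((A + B - Q) * ((A - B + Q) * (-A + B + Q))) = 0 := by
    have h4 : HM x = (A + B + Q) * ((A + B - Q) * ((A - B + Q) * (-A + B + Q))) := by
      unfold HM
      rw [← hA2, ← hB2, show x 2 ^ 2 + x 3 ^ 2 - 2 * x 0 ^ 2 - 4 * x 1 ^ 2 =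
        A ^ 2 + B ^ 2 - Q ^ 2 by rw [hA2, hB2, hQ]; ring]
      ring
    rw [← h4, hH]
  refine ⟨c1, ?_⟩
  rcases mul_eq_zero.1 hf with h | h
  · exfalso
    linarith
  rcases mul_eq_zero.1 h with h | h
  · have hQ' : Q = A + B := by linarith
    left
    refine ⟨?_, ?_, ?_⟩
    · rw [c0, ← arccos_neg_one]
      congr 1
      rw [hQ']
      field_simp
      ring
    · rw [c2, ← arccos_one]
      congr 1
      rw [hQ', div_eq_one_iff_eq (by positivity)]
      ring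
    · rw [c3, ← arccos_one]
      congr 1
      rw [hQ', div_eq_one_iff_eq (by positivity)]
      ring
  rcases mul_eq_zero.1 h with h | h
  · -- `B = A + Q`
    have hB' : B = A + Q := by linarith
    right; right
    refine ⟨?_, ?_, ?_⟩
    · rw [c0, ← arccos_one]
      congr 1
      rw [div_eq_one_iff_eq (by positivity), hB']
      ring
    · rw [c2, ← arccos_neg_one]
      congr 1
      rw [div_eq_iff (by positivity), hB']
      ring
    · rw [c3, ← arccos_one]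
      congr 1
      rw [div_eq_one_iff_eq (by positivity), hB']
      ring
  · -- `A = B + Q`
    have hA' : A = B + Q := by linarith
    right; left
    refine ⟨?_, ?_, ?_⟩
    · rw [c0, ← arccos_one]
      congr 1
      rw [div_eq_one_iff_eq (by positivity), hA']
      ring
    · rw [c2, ← arccos_one]
      congr 1
      rw [div_eq_one_iff_eq (by positivity), hA']
      ring
    · rw [c3, ← arccos_neg_one]
      congr 1
      rw [div_eq_iff (by positivity), hA']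
      ring

private lemma fl_cont (u w : Fin 4 → ℝ) (e : ℝ) (hD : ∀ v, 0 < D (miv (seg u w e)) v)
    (i : Fin 4) : ContinuousAt (fun r : ℝ => ca (miv (seg u w r)) i) e := by
  have hm : Continuous fun r : ℝ => miv (seg u w r) := by
    refine continuous_pi fun j => ?_
    fin_cases j <;> simp [seg] <;> fun_prop
  have hDc : ∀ v, Continuous fun r : ℝ => D (miv (seg u w r)) v := fun v =>
    (contDiff_D v).continuous.comp hm
  have hWc : ∀ j, Continuous fun r : ℝ => W (miv (seg u w r)) j := fun j =>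
    (contDiff_W j).continuous.comp hm
  have hal : ∀ j : Fin 6, ContinuousAt (fun r : ℝ => al (miv (seg u w r)) j) e := by
    intro j
    unfold al
    refine continuous_arccos.continuousAt.comp ?_
    refine ContinuousAt.div (hWc j).continuousAt ?_ ?_
    · exact ((continuous_sqrt.comp (hDc _)).mul (continuous_sqrt.comp (hDc _))).continuousAt
    · exact (mul_pos (sqrt_pos.2 (hD _)) (sqrt_pos.2 (hD _))).ne'
  fin_cases i
  · exact hal 0
  · exact hal 5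
  · exact hal 1
  · exact hal 2

theorem mi_end_flat (u w : Fin 4 → ℝ) (hu : ∀ i, 0 ≤ u i) (hw : ∀ i, 0 ≤ w i) (s e : ℝ)
    (hs : 0 ≤ s) (hse : s < e) (he : e < 1) (hI : Good miv u w s e)
    (hend : miv (seg u w e) ∉ TT) (h2 : seg u w e 0 < seg u w e 2)
    (h3 : seg u w e 0 < seg u w e 3) : False := by
  have hpos := fl_pos hu hw hs hse he hI
  have hx0 := hpos 0
  have hx1 := hpos 1
  have hIn : ∀ᶠ r in 𝓝[<] e, r ∈ Ioo s e := Ioo_mem_nhdsLT hse
  have hHM : Continuous fun r : ℝ => HM (seg u w r) := by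
    unfold HM seg
    fun_prop
  have hH0 : 0 ≤ HM (seg u w e) := by
    have h4 : Tendsto (fun r : ℝ => HM (seg u w r)) (𝓝[<] e) (𝓝 (HM (seg u w e))) :=
      (hHM.tendsto e).mono_left nhdsWithin_le_nhds
    refine ge_of_tendsto h4 (hIn.mono fun r hr => ?_)
    have h5 := (hI r hr).1
    exact ((mi_TT _ (mi_pos h5)).1 h5).2.2.le
  have hH : HM (seg u w e) = 0 := by
    rcases hH0.eq_or_lt with h | h
    · exact h.symm
    · exact absurd ((mi_TT _ hpos).2 ⟨h2, h3, h⟩) hend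
  have hD : ∀ v, 0 < D (miv (seg u w e)) v := by
    obtain ⟨d0, d1, d2, d3⟩ := mi_D (seg u w e)
    have p2 : 0 < seg u w e 2 ^ 2 - seg u w e 0 ^ 2 := by nlinarith
    have p3 : 0 < seg u w e 3 ^ 2 - seg u w e 0 ^ 2 := by nlinarith
    intro v
    fin_cases v
    · change 0 < D (miv (seg u w e)) 0
      rw [d0, hH]; positivity
    · change 0 < D (miv (seg u w e)) 1
      rw [d1, hH]; positivity
    · change 0 < D (miv (seg u w e)) 2
      rw [d2]; positivity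
    · change 0 < D (miv (seg u w e)) 3
      rw [d3]; positivity
  have hlim : ∀ v : Fin 4 → ℝ, (∀ r ∈ Ioo s e, ∑ i, v i * ca (miv (seg u w r)) i = π) →
      ∑ i, v i * ca (miv (seg u w e)) i = π := by
    intro v hv
    have h4 : Tendsto (fun r : ℝ => ∑ i, v i * ca (miv (seg u w r)) i) (𝓝[<] e)
        (𝓝 (∑ i, v i * ca (miv (seg u w e)) i)) := by
      refine tendsto_finsetSum _ fun i _ => ?_
      exact ((fl_cont u w e hD i).tendsto.const_mul (v i)).mono_left nhdsWithin_le_nhds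
    have h5 : Tendsto (fun r : ℝ => ∑ i, v i * ca (miv (seg u w r)) i) (𝓝[<] e) (𝓝 π) :=
      tendsto_const_nhds.congr' (hIn.mono fun r hr => (hv r hr).symm)
    exact tendsto_nhds_unique h4 h5
  have hru := hlim u fun r hr => (hI r hr).2.1
  have hrw := hlim w fun r hr => (hI r hr).2.2
  simp only [Fin.sum_univ_four] at hru hrw
  obtain ⟨c1, hc⟩ := fl_vals (seg u w e) hx0 hx1 h2 h3 hH
  have hr : (s + e) / 2 ∈ Ioo s e := ⟨by linarith, by linarith⟩
  obtain ⟨g1, -, -, g4, g5⟩ := mi_G (hI.nrm hr)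
  simp only [seg] at g1 g4 g5
  have hπ := pi_pos
  rcases hc with ⟨c0, c2, c3⟩ | ⟨c0, c2, c3⟩ | ⟨c0, c2, c3⟩ <;>
    rw [c0, c1, c2, c3] at hru hrw
  · have a1 : u 0 + u 1 = 1 := by
      apply mul_right_cancel₀ hπ.ne'
      linarith
    have a2 : w 0 + w 1 = 1 := by
      apply mul_right_cancel₀ hπ.ne'
      linarith
    have a3 : u 1 = 1 - u 0 := by linarith
    have a4 : w 1 = 1 - w 0 := by linarith
    rw [a3, a4] at g1
    linarith
  · have a1 : u 1 + u 3 = 1 := by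
      apply mul_right_cancel₀ hπ.ne'
      linarith
    have a2 : w 1 + w 3 = 1 := by
      apply mul_right_cancel₀ hπ.ne'
      linarith
    have a3 : u 1 = 1 - u 3 := by linarith
    have a4 : w 1 = 1 - w 3 := by linarith
    rw [a3, a4] at g5
    linarith
  · have a1 : u 1 + u 2 = 1 := by
      apply mul_right_cancel₀ hπ.ne'
      linarith
    have a2 : w 1 + w 2 = 1 := by
      apply mul_right_cancel₀ hπ.ne'
      linarith
    have a3 : u 1 = 1 - u 2 := by linarith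
    have a4 : w 1 = 1 - w 2 := by linarith
    rw [a3, a4] at g4
    linarith

end Pool.Agent.Helper13.HT
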