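import Pool.Agent.Helper13.HT.MiSwap
import Pool.Agent.Helper13.HT.MiFlat
import Pool.Agent.Helper13.HT.MiColl

/-!
# HT-23d (D): interior end of a segment in the mirror class

Let `x = seg u w e`. As in MiFlat: `x i > 0`, `x 0 ≤ x 2`, `x 0 ≤ x 3` (continuity and `mi_TT`). `x 0 < x 2` and `x 0 < x 3`: `mi_end_flat`. `x 0 = x 2`: `mi_end_collapse`. `x 0 = x 3`: `mi_end_collapse` for `sw u`,
`sw w`: `seg (sw u) (sw w) r = sw (seg u w r)`, and `Good miv (sw u) (sw w) s e` by `mi_swap` (`∑ (sw u) i * ca (miv (sw x)) i = ∑ u i * ca (miv x) i`).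
-/

open Real Set Filter Topology
open Pool.Agent.Helper1.Tet

namespace Pool.Agent.Helper13.HT

private theorem MiEnd_seg_sw (u w : Fin 4 → ℝ) (r : ℝ) : seg (sw u) (sw w) r = sw (seg u w r) := by
  funext i
  fin_cases i <;> rfl

private theorem MiEnd_sum (u v : Fin 4 → ℝ) : ∑ i, sw u i * sw v i = ∑ i, u i * v i := by
  rw [Fin.sum_univ_four, Fin.sum_univ_four]
  change u 0 * v 0 + u 1 * v 1 + u 3 * v 3 + u 2 * v 2 = _
  ring

private theorem MiEnd_good (u w : Fin 4 → ℝ) (s e : ℝ) (hI : Good miv u w s e) :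
    Good miv (sw u) (sw w) s e := by
  intro q hq
  obtain ⟨h1, h2, h3⟩ := hI q hq
  rw [MiEnd_seg_sw]
  obtain ⟨h4, h5⟩ := mi_swap (seg u w q)
  refine ⟨h4.2 h1, ?_, ?_⟩
  · rw [h5, MiEnd_sum, h2]
  · rw [h5, MiEnd_sum, h3]

private theorem MiEnd_le (u w : Fin 4 → ℝ) (s e : ℝ) (hse : s < e) (j k : Fin 4)
    (h : ∀ q ∈ Ioo s e, seg u w q j < seg u w q k) : seg u w e j ≤ seg u w e k := by
  have hc : ∀ i, Tendsto (fun q => seg u w q i) (𝓝[<] e) (𝓝 (seg u w e i)) := by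
    intro i
    have h1 : Continuous fun q : ℝ => seg u w q i := by
      unfold seg
      fun_prop
    exact (h1.tendsto e).mono_left nhdsWithin_le_nhds
  refine le_of_tendsto_of_tendsto (hc j) (hc k) ?_
  filter_upwards [Ioo_mem_nhdsLT hse] with q hq
  exact (h q hq).le

theorem mi_end (u w : Fin 4 → ℝ) (hu : ∀ i, 0 ≤ u i) (hw : ∀ i, 0 ≤ w i) (s e : ℝ) (hs : 0 ≤ s)
    (hse : s < e) (he : e < 1) (hI : Good miv u w s e) (hend : miv (seg u w e) ∉ TT) :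
    seg u w e 0 + seg u w e 1 = 1 ∧
    ((seg u w e 2 = seg u w e 0 ∧ seg u w e 3 ^ 2 = seg u w e 2 ^ 2 + 4 * seg u w e 1 ^ 2 ∧
        u 0 + 2 * u 1 + u 2 = 2 ∧ w 0 + 2 * w 1 + w 2 = 2) ∨
      (seg u w e 3 = seg u w e 0 ∧ seg u w e 2 ^ 2 = seg u w e 3 ^ 2 + 4 * seg u w e 1 ^ 2 ∧
        u 0 + 2 * u 1 + u 3 = 2 ∧ w 0 + 2 * w 1 + w 3 = 2)) := by
  have hlt : ∀ q ∈ Ioo s e, seg u w q 0 < seg u w q 2 ∧ seg u w q 0 < seg u w q 3 := by
    intro q hq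
    have h1 := (hI q hq).1
    have h2 := (mi_TT _ (mi_pos h1)).1 h1
    exact ⟨h2.1, h2.2.1⟩
  have h2 := MiEnd_le u w s e hse 0 2 fun q hq => (hlt q hq).1
  have h3 := MiEnd_le u w s e hse 0 3 fun q hq => (hlt q hq).2
  rcases h2.lt_or_eq with h2 | h2
  · rcases h3.lt_or_eq with h3 | h3
    · exact (mi_end_flat u w hu hw s e hs hse he hI hend h2 h3).elim
    · have hsw : ∀ v : Fin 4 → ℝ, (∀ i, 0 ≤ v i) → ∀ i, 0 ≤ sw v i := by
        intro v hv i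
        fin_cases i
        · exact hv 0
        · exact hv 1
        · exact hv 3
        · exact hv 2
      have hx : seg (sw u) (sw w) e 2 = seg (sw u) (sw w) e 0 := h3.symm
      obtain ⟨a, b, c, d⟩ := mi_end_collapse (sw u) (sw w) (hsw u hu) (hsw w hw) s e hs hse he
        (MiEnd_good u w s e hI) hx
      exact ⟨a, Or.inr ⟨h3.symm, b, c, d⟩⟩
  · obtain ⟨a, b, c, d⟩ := mi_end_collapse u w hu hw s e hs hse he hI h2.symm
    exact ⟨a, Or.inl ⟨h2.symm, b, c, d⟩⟩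

end Pool.Agent.Helper13.HT
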