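import Pool.Agent.Helper13.HT.Group
import Pool.Agent.Helper13.HT.Defs

/-!
# HT-12 (C): expansion of the mirror relation and its frequency relations

`mi_expand`: product-to-sum formulas. `cos² = (1 + cos 2·)/2`, `4 cos α cos β cos φ = sum of the four cos(α ± β ± φ)`,
`(1 - cos ψ) sin² φ · 8 = 4 (1 - cos ψ)(1 - cos 2φ)`, `cos ψ cos 2φ = (cos(ψ+2φ) + cos(ψ-2φ))/2`.
So `16 FM = 12 + 8 cos 2α + 8 cos 2β + 8 ∑ cos(α ± β ± φ) + 4 cos ψ + 4 cos 2φ - 2 cos(ψ+2φ) - 2 cos(ψ-2φ)`. (Proof: rewrite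
everything with `cos_add, cos_sub, sin_add, cos_two_mul, sin_two_mul`, then `ring_nf` / `linear_combination` with
`sin² = 1 - cos²`.)
`mi_rel`, `mi_rel0`: `group_lemma` with `n = 11`, `c = mcoef`, `p = mfr α β φ ψ`, `f = mfr a b f g`, `v = s²` at `t = 0`
(`f i ^ 2 = s² ↔ f i = s ∨ f i = -s`); the sine relation is divided by `s > 0`. Expand the sum over `Fin 11` with
`Fin.sum_univ_succ` and `simp [mcoef, mfr]`.
-/

open Real

namespace Pool.Agent.Helper13.HT

/-- the coefficients of the eleven terms -/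
noncomputable def mcoef : Fin 11 → ℝ := ![12, 8, 8, 8, 8, 8, 8, 4, 4, -2, -2]
/-- the phases (or frequencies) of the eleven terms -/
noncomputable def mfr (α β φ ψ : ℝ) : Fin 11 → ℝ :=
  ![0, 2 * α, 2 * β, α + β + φ, α + β - φ, α - β + φ, α - β - φ, ψ, 2 * φ, ψ + 2 * φ, ψ - 2 * φ]
/-- the sum of the eleven terms -/
noncomputable def MS (α β φ ψ : ℝ) : ℝ := ∑ i, mcoef i * cos (mfr α β φ ψ i)

/-- contribution of `c cos (p + f t)` to the cosine relation of frequency `s` -/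
noncomputable def kc (c f p s : ℝ) : ℝ := if f = s ∨ f = -s then c * cos p else 0
/-- contribution of `c cos (p + f t)` to the sine relation of frequency `s` -/
noncomputable def ks (c f p s : ℝ) : ℝ :=
  if f = s then c * sin p else if f = -s then -(c * sin p) else 0

private theorem sum11 (F : ℝ → ℝ → ℝ → ℝ) (α β φ ψ a b f g : ℝ) :
    ∑ i, F (mcoef i) (mfr a b f g i) (mfr α β φ ψ i) =
      F 12 0 0 + F 8 (2 * a) (2 * α) + F 8 (2 * b) (2 * β) + F 8 (a + b + f) (α + β + φ) +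
      F 8 (a + b - f) (α + β - φ) + F 8 (a - b + f) (α - β + φ) +
      F 8 (a - b - f) (α - β - φ) + F 4 g ψ + F 4 (2 * f) (2 * φ) +
      F (-2) (g + 2 * f) (ψ + 2 * φ) + F (-2) (g - 2 * f) (ψ - 2 * φ) := by
  simp [Fin.sum_univ_succ, mcoef, mfr]
  ring

private theorem MS_line (α β φ ψ a b f g t : ℝ) :
    MS (α + a * t) (β + b * t) (φ + f * t) (ψ + g * t) =
      ∑ i, mcoef i * cos (mfr α β φ ψ i + mfr a b f g i * t) := by
  unfold MS
  refine Finset.sum_congr rfl fun i _ => ?_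
  congr 2
  fin_cases i <;> simp [mfr] <;> ring

private theorem kc_eq (c f p s : ℝ) :
    (if f ^ 2 = s ^ 2 then c * cos (p + f * 0) else 0) = kc c f p s := by
  unfold kc
  rw [mul_zero, add_zero]
  simp only [sq_eq_sq_iff_eq_or_eq_neg]

private theorem ks_eq (c f p s : ℝ) :
    (if f ^ 2 = s ^ 2 then c * f * sin (p + f * 0) else 0) = s * ks c f p s := by
  unfold ks
  rw [mul_zero, add_zero]
  by_cases h1 : f = s
  · rw [if_pos (by rw [h1]), if_pos h1, h1]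
    ring
  · by_cases h2 : f = -s
    · rw [if_pos (by rw [h2]; ring), if_neg h1, if_pos h2, h2]
      ring
    · rw [if_neg (fun h => (sq_eq_sq_iff_eq_or_eq_neg.1 h).elim h1 h2), if_neg h1, if_neg h2,
        mul_zero]

theorem mi_expand (θ : Fin 4 → ℝ) : 16 * FM θ = MS (θ 2) (θ 3) (θ 0) (θ 1) := by
  have h := sum11 (fun c _ p => c * cos p) (θ 2) (θ 3) (θ 0) (θ 1) 0 0 0 0
  have h1 : MS (θ 2) (θ 3) (θ 0) (θ 1) = _ := h
  rw [h1]
  unfold FM
  rw [sin_sq]
  simp only [cos_add, cos_sub, sin_add, sin_sub, cos_two_mul, sin_two_mul, cos_zero]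
  have e0 := sin_sq_add_cos_sq (θ 0)
  ring

theorem mi_rel (α β φ ψ a b f g : ℝ)
    (hid : ∀ t : ℝ, MS (α + a * t) (β + b * t) (φ + f * t) (ψ + g * t) = 0) (s : ℝ) (hs : 0 < s) :
    kc 8 (2 * a) (2 * α) s + kc 8 (2 * b) (2 * β) s + kc 8 (a + b + f) (α + β + φ) s +
      kc 8 (a + b - f) (α + β - φ) s + kc 8 (a - b + f) (α - β + φ) s +
      kc 8 (a - b - f) (α - β - φ) s + kc 4 g ψ s + kc 4 (2 * f) (2 * φ) s +
      kc (-2) (g + 2 * f) (ψ + 2 * φ) s + kc (-2) (g - 2 * f) (ψ - 2 * φ) s = 0 ∧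
    ks 8 (2 * a) (2 * α) s + ks 8 (2 * b) (2 * β) s + ks 8 (a + b + f) (α + β + φ) s +
      ks 8 (a + b - f) (α + β - φ) s + ks 8 (a - b + f) (α - β + φ) s +
      ks 8 (a - b - f) (α - β - φ) s + ks 4 g ψ s + ks 4 (2 * f) (2 * φ) s +
      ks (-2) (g + 2 * f) (ψ + 2 * φ) s + ks (-2) (g - 2 * f) (ψ - 2 * φ) s = 0 := by
  have hid' : ∀ t : ℝ, ∑ i, mcoef i * cos (mfr α β φ ψ i + mfr a b f g i * t) = 0 := fun t => by
    rw [← MS_line]
    exact hid t
  obtain ⟨h1, h2⟩ := group_lemma mcoef (mfr α β φ ψ) (mfr a b f g) hid' (s ^ 2) 0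
  have hs0 : ¬ (0 : ℝ) = s := hs.ne
  have hs1 : ¬ (0 : ℝ) = -s := fun h => hs.ne' (by linarith)
  constructor
  · have h3 := sum11 (fun c f p => if f ^ 2 = s ^ 2 then c * cos (p + f * 0) else 0)
      α β φ ψ a b f g
    simp only [kc_eq] at h3 h1
    rw [h1] at h3
    have h4 : kc 12 0 0 s = 0 := by
      unfold kc
      rw [if_neg (not_or.2 ⟨hs0, hs1⟩)]
    rw [h4, zero_add] at h3
    exact h3.symm
  · have h3 := sum11 (fun c f p => if f ^ 2 = s ^ 2 then c * f * sin (p + f * 0) else 0)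
      α β φ ψ a b f g
    simp only [ks_eq] at h3 h2
    rw [h2] at h3
    have h4 : ks 12 0 0 s = 0 := by
      unfold ks
      rw [if_neg hs0, if_neg hs1]
    rw [h4, mul_zero, zero_add] at h3
    apply mul_left_cancel₀ hs.ne'
    rw [mul_zero, h3]
    ring

/-- contribution of `c cos (p + f t)` to the constant relation -/
noncomputable def k0 (c f p : ℝ) : ℝ := if f = 0 then c * cos p else 0

theorem mi_rel0 (α β φ ψ a b f g : ℝ)
    (hid : ∀ t : ℝ, MS (α + a * t) (β + b * t) (φ + f * t) (ψ + g * t) = 0) :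
    12 + k0 8 (2 * a) (2 * α) + k0 8 (2 * b) (2 * β) + k0 8 (a + b + f) (α + β + φ) +
      k0 8 (a + b - f) (α + β - φ) + k0 8 (a - b + f) (α - β + φ) +
      k0 8 (a - b - f) (α - β - φ) + k0 4 g ψ + k0 4 (2 * f) (2 * φ) +
      k0 (-2) (g + 2 * f) (ψ + 2 * φ) + k0 (-2) (g - 2 * f) (ψ - 2 * φ) = 0 := by
  have hid' : ∀ t : ℝ, ∑ i, mcoef i * cos (mfr α β φ ψ i + mfr a b f g i * t) = 0 := fun t => by
    rw [← MS_line]
    exact hid t
  obtain ⟨h1, -⟩ := group_lemma mcoef (mfr α β φ ψ) (mfr a b f g) hid' 0 0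
  have h3 := sum11 (fun c f p => if f ^ 2 = 0 then c * cos (p + f * 0) else 0)
      α β φ ψ a b f g
  have hk : ∀ c f p : ℝ, (if f ^ 2 = 0 then c * cos (p + f * 0) else 0) = k0 c f p := by
    intro c f p
    unfold k0
    rw [mul_zero, add_zero]
    simp only [pow_eq_zero_iff two_ne_zero]
  simp only [hk] at h3 h1
  rw [h1] at h3
  have h4 : k0 12 0 0 = 12 := by
    unfold k0
    rw [if_pos rfl, cos_zero, mul_one]
  rw [h4] at h3
  exact h3.symm

end Pool.Agent.Helper13.HT
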