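import Pool.Agent.Helper13.HT.MiEnd

/-!
# HT-24 (D): no segment in the mirror class

By continuity from `mi_G`, `mi_TT` on `(s, e)`: at `q ∈ [s, e]` the point `x = seg u w q` satisfies the non-strict inequalities
`x0+x1 ≤ 1`, `x2+x3 ≤ 2`, `1 ≤ x0+(x2+x3)/2`, `1 ≤ x1+x2`, `1 ≤ x1+x3`, and `x0 ≤ x2`, `x0 ≤ x3`, `HM x ≥ 0`. `N(q) = x0 + x1` is affine and `< 1` on `(s, e)`.
* `0 < s`, `e < 1`: `mi_end` at both ends (`Good.swap`, `seg_swap` for `s`): `N(s) = N(e) = 1`: contradiction.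
* `s = 0`, `e = 1`: `x2 + x3 < 2` at `q = 1/2`, so one of `u, w`, say `u`, has `u2 + u3 < 2`, so `≤ 3/2` (half integers). `2u1 + u2 + u3 ≥ 2`
  gives `u1 ≥ 1/4`, so `≥ 1/2`; `u0 ≥ 1 - 3/4`, so `≥ 1/2`; `u0 + u1 ≤ 1`: both `= 1/2`; `u2, u3 ≥ 1/2`. So
  `(u2, u3) = (1/2,1/2), (1/2,1), (1,1/2)`: `HM u = -(..)² < 0` (`HM = 4·0·.. - (1/4+1/4-1/2-1)² ` etc.): contradiction.
* `s = 0`, `e < 1`: `mi_end` at `e`. First alternative (the second one: exchange the coordinates 2 and 3). `w = seg u w 0` satisfies the non-strict inequalities, `N(0) < 1`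
  (as in C2Seg) so `w0 + w1 ≤ 1/2`. With `w0 + 2w1 + w2 = 2`: `w1 + w2 ≥ 3/2`. If `w1 = 0`: `w2 ≥ 3/2`, `w3 ≥ 1`: `w2 + w3 > 2`, no. So `w1 = 1/2`, `w0 = 0`,
  `w2 = 1`, `1 ≤ (w2 + w3)/2` and `w2 + w3 ≤ 2`: `w3 = 1`. At `e`: `e (u0 + u1) + (1-e)/2 = 1`, so `u0 + u1 > 1`, `≥ 3/2`, and
  `u1 + u2 = 2 - (u0 + u1) ≤ 1/2`. So `(u0,u1,u2) = (2,0,0)` with `e = 1/3`, or `(3/2,0,1/2)` or `(1,1/2,0)` with `e = 1/2`. Let `u3 = k/2`.
  `x3² = x2² + 4x1²` at `e`, multiplied by 36, 16, 16: `(k+4)² = 32`, `(k+2)² = 13`, `(k+2)² = 20`: impossible for natural numbers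
  (`nlinarith`/`interval_cases` after bounding `k`).
* `s > 0`, `e = 1`: swap `u` and `w` (`Good.swap`).
-/

open Real Set Filter Topology
open Pool.Agent.Helper1.Tet

namespace Pool.Agent.Helper13.HT

private theorem icc_of_ioo {g : ℝ → ℝ} (hg : Continuous g) {s e : ℝ} (hse : s < e)
    (h : ∀ q ∈ Ioo s e, 0 ≤ g q) : ∀ q ∈ Icc s e, 0 ≤ g q := by
  intro q hq
  have h1 : IsClosed {q | 0 ≤ g q} := isClosed_le continuous_const hg
  have h2 : closure (Ioo s e) ⊆ {q | 0 ≤ g q} := closure_minimal h h1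
  rw [closure_Ioo hse.ne] at h2
  exact h2 hq

private theorem seg_ct (u w : Fin 4 → ℝ) (i : Fin 4) : Continuous fun q : ℝ => seg u w q i := by
  unfold seg
  fun_prop

private theorem mi_closed {u w : Fin 4 → ℝ} {s e : ℝ} (hse : s < e) (hI : Good miv u w s e) :
    ∀ q ∈ Icc s e, seg u w q 0 + seg u w q 1 ≤ 1 ∧ seg u w q 2 + seg u w q 3 ≤ 2 ∧
      1 ≤ seg u w q 0 + (seg u w q 2 + seg u w q 3) / 2 ∧ 1 ≤ seg u w q 1 + seg u w q 2 ∧
      1 ≤ seg u w q 1 + seg u w q 3 ∧ 0 ≤ HM (seg u w q) := by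
  have c0 := seg_ct u w 0
  have c1 := seg_ct u w 1
  have c2 := seg_ct u w 2
  have c3 := seg_ct u w 3
  have hn : ∀ q ∈ Ioo s e, Nrm miv (seg u w q) := fun q hq => hI.nrm hq
  have h1 := icc_of_ioo (g := fun q => 1 - (seg u w q 0 + seg u w q 1)) (by fun_prop) hse
    (fun q hq => by
      have := (mi_G (hn q hq)).1
      linarith)
  have h2 := icc_of_ioo (g := fun q => 2 - (seg u w q 2 + seg u w q 3)) (by fun_prop) hse
    (fun q hq => by
      have := (mi_G (hn q hq)).2.1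
      linarith)
  have h3 := icc_of_ioo (g := fun q => seg u w q 0 + (seg u w q 2 + seg u w q 3) / 2 - 1)
    (by fun_prop) hse
    (fun q hq => by
      have := (mi_G (hn q hq)).2.2.1
      linarith)
  have h4 := icc_of_ioo (g := fun q => seg u w q 1 + seg u w q 2 - 1)
    (by fun_prop) hse
    (fun q hq => by
      have := (mi_G (hn q hq)).2.2.2.1
      linarith)
  have h5 := icc_of_ioo (g := fun q => seg u w q 1 + seg u w q 3 - 1)
    (by fun_prop) hse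
    (fun q hq => by
      have := (mi_G (hn q hq)).2.2.2.2
      linarith)
  have h6 := icc_of_ioo (g := fun q => HM (seg u w q))
    (by unfold HM; fun_prop) hse
    (fun q hq => by
      have h7 := (hn q hq).1
      exact ((mi_TT _ (mi_pos h7)).1 h7).2.2.le)
  intro q hq
  have a1 := h1 q hq
  have a2 := h2 q hq
  have a3 := h3 q hq
  have a4 := h4 q hq
  have a5 := h5 q hq
  have a6 := h6 q hq
  exact ⟨by linarith, by linarith, by linarith, by linarith, by linarith, a6⟩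

/-- no half-integral end with `x 2 + x 3 < 2` -/
private theorem half_end {x : Fin 4 → ℝ} (hx : HalfNat x) (h1 : x 0 + x 1 ≤ 1)
    (h2 : x 2 + x 3 < 2) (h3 : 1 ≤ x 0 + (x 2 + x 3) / 2) (h4 : 1 ≤ x 1 + x 2)
    (h5 : 1 ≤ x 1 + x 3) (h6 : 0 ≤ HM x) : False := by
  obtain ⟨a, ha⟩ := hx 0
  obtain ⟨b, hb⟩ := hx 1
  obtain ⟨c, hc⟩ := hx 2
  obtain ⟨d, hd⟩ := hx 3
  unfold HM at h6
  rw [ha, hb, hc, hd] at h6
  rw [ha, hb] at h1
  rw [hc, hd] at h2
  rw [ha, hc, hd] at h3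
  rw [hb, hc] at h4
  rw [hb, hd] at h5
  have n1 : a + b ≤ 2 := by
    have : (a : ℝ) + b ≤ 2 := by linarith
    exact_mod_cast this
  have n2 : c + d < 4 := by
    have : (c : ℝ) + d < 4 := by linarith
    exact_mod_cast this
  have n3 : 4 ≤ 2 * a + (c + d) := by
    have : (4 : ℝ) ≤ 2 * a + (c + d) := by linarith
    exact_mod_cast this
  have n4 : 2 ≤ b + c := by
    have : (2 : ℝ) ≤ b + c := by linarith
    exact_mod_cast this
  have n5 : 2 ≤ b + d := by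
    have : (2 : ℝ) ≤ b + d := by linarith
    exact_mod_cast this
  have ea : a = 1 := by omega
  have eb : b = 1 := by omega
  subst ea
  subst eb
  have hcd : (c = 1 ∧ d = 1) ∨ (c = 1 ∧ d = 2) ∨ (c = 2 ∧ d = 1) := by omega
  rcases hcd with ⟨rfl, rfl⟩ | ⟨rfl, rfl⟩ | ⟨rfl, rfl⟩ <;> norm_num at h6

private theorem sq_ne (k m : ℕ) (h : ((k : ℝ) + m) ^ 2 = 32 ∧ m = 4 ∨
    ((k : ℝ) + m) ^ 2 = 13 ∧ m = 2 ∨ ((k : ℝ) + m) ^ 2 = 20 ∧ m = 2) : False := by
  rcases h with ⟨h, rfl⟩ | ⟨h, rfl⟩ | ⟨h, rfl⟩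
  · have h1 : (k + 4) ^ 2 = 32 := by exact_mod_cast h
    have h2 : k ≤ 2 := by
      by_contra h3
      push Not at h3
      nlinarith
    interval_cases k <;> omega
  · have h1 : (k + 2) ^ 2 = 13 := by exact_mod_cast h
    have h2 : k ≤ 2 := by
      by_contra h3
      push Not at h3
      nlinarith
    interval_cases k <;> omega
  · have h1 : (k + 2) ^ 2 = 20 := by exact_mod_cast h
    have h2 : k ≤ 3 := by
      by_contra h3
      push Not at h3
      nlinarith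
    interval_cases k <;> omega

/-- arithmetic of the case of one half-integral end -/
private theorem one_end (a0 a1 a2 a3 b0 b1 b2 b3 : ℕ) (e : ℝ) (he0 : 0 < e) (he : e < 1)
    (hN : (b0 : ℝ) / 2 + b1 / 2 < 1) (h2 : (b2 : ℝ) / 2 + b3 / 2 ≤ 2)
    (h3 : 1 ≤ (b0 : ℝ) / 2 + ((b2 : ℝ) / 2 + b3 / 2) / 2) (h4 : 1 ≤ (b1 : ℝ) / 2 + b2 / 2)
    (h5 : 1 ≤ (b1 : ℝ) / 2 + b3 / 2)
    (k1 : (e * ((a0 : ℝ) / 2) + (1 - e) * (b0 / 2)) + (e * ((a1 : ℝ) / 2) + (1 - e) * (b1 / 2)) = 1)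
    (k2 : (e * ((a3 : ℝ) / 2) + (1 - e) * (b3 / 2)) ^ 2 =
      (e * ((a2 : ℝ) / 2) + (1 - e) * (b2 / 2)) ^ 2 +
        4 * (e * ((a1 : ℝ) / 2) + (1 - e) * (b1 / 2)) ^ 2)
    (k3 : (a0 : ℝ) / 2 + 2 * (a1 / 2) + a2 / 2 = 2)
    (k4 : (b0 : ℝ) / 2 + 2 * (b1 / 2) + b2 / 2 = 2) : False := by
  have n1 : b0 + b1 < 2 := by
    have : (b0 : ℝ) + b1 < 2 := by linarith
    exact_mod_cast this
  have n2 : b2 + b3 ≤ 4 := by
    have : (b2 : ℝ) + b3 ≤ 4 := by linarith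
    exact_mod_cast this
  have n3 : 4 ≤ 2 * b0 + (b2 + b3) := by
    have : (4 : ℝ) ≤ 2 * b0 + (b2 + b3) := by linarith
    exact_mod_cast this
  have n4 : 2 ≤ b1 + b2 := by
    have : (2 : ℝ) ≤ b1 + b2 := by linarith
    exact_mod_cast this
  have n5 : 2 ≤ b1 + b3 := by
    have : (2 : ℝ) ≤ b1 + b3 := by linarith
    exact_mod_cast this
  have m3 : a0 + 2 * a1 + a2 = 4 := by
    have : (a0 : ℝ) + 2 * a1 + a2 = 4 := by linarith
    exact_mod_cast this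
  have m4 : b0 + 2 * b1 + b2 = 4 := by
    have : (b0 : ℝ) + 2 * b1 + b2 = 4 := by linarith
    exact_mod_cast this
  have hb0 : b0 = 0 := by omega
  have hb1 : b1 = 1 := by omega
  have hb2 : b2 = 2 := by omega
  have hb3 : b3 = 2 := by omega
  subst hb0 hb1 hb2 hb3
  push_cast at k1 k2
  have hA : 3 ≤ a0 + a1 := by
    by_contra h
    push Not at h
    have h' : (a0 : ℝ) + a1 ≤ 2 := by
      have : a0 + a1 ≤ 2 := by omega
      exact_mod_cast this
    nlinarith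
  have hc : (a0 = 4 ∧ a1 = 0 ∧ a2 = 0) ∨ (a0 = 3 ∧ a1 = 0 ∧ a2 = 1) ∨
      (a0 = 2 ∧ a1 = 1 ∧ a2 = 0) := by omega
  rcases hc with ⟨rfl, rfl, rfl⟩ | ⟨rfl, rfl, rfl⟩ | ⟨rfl, rfl, rfl⟩
  · have hee : e = 1 / 3 := by
      push_cast at k1
      linarith
    subst hee
    apply sq_ne a3 4
    left
    refine ⟨?_, rfl⟩
    push_cast at k2 ⊢
    linarith
  · have hee : e = 1 / 2 := by
      push_cast at k1
      linarith
    subst hee
    apply sq_ne a3 2
    right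
    left
    refine ⟨?_, rfl⟩
    push_cast at k2 ⊢
    linarith
  · have hee : e = 1 / 2 := by
      push_cast at k1
      linarith
    subst hee
    apply sq_ne a3 2
    right
    right
    refine ⟨?_, rfl⟩
    push_cast at k2 ⊢
    linarith

private theorem one_lattice (u w : Fin 4 → ℝ) (hu : HalfNat u) (hw : HalfNat w) (e : ℝ)
    (he0 : 0 < e) (he : e < 1) (hI : Good miv u w 0 e) (he' : miv (seg u w e) ∉ TT) : False := by
  have hpu : ∀ i, 0 ≤ u i := fun i => by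
    obtain ⟨k, hk⟩ := hu i
    rw [hk]
    positivity
  have hpw : ∀ i, 0 ≤ w i := fun i => by
    obtain ⟨k, hk⟩ := hw i
    rw [hk]
    positivity
  obtain ⟨hN, hor⟩ := mi_end u w hpu hpw 0 e le_rfl he0 he hI he'
  obtain ⟨c1, c2, c3, c4, c5, -⟩ := mi_closed he0 hI 0 ⟨le_rfl, he0.le⟩
  have hmid := (mi_G (hI.nrm (q := e / 2) ⟨by linarith, by linarith⟩)).1
  simp only [seg, zero_mul, zero_add, sub_zero, one_mul] at c1 c2 c3 c4 c5
  simp only [seg] at hmid hN hor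
  have hN0 : w 0 + w 1 < 1 := by nlinarith
  obtain ⟨a0, ha0⟩ := hu 0
  obtain ⟨a1, ha1⟩ := hu 1
  obtain ⟨a2, ha2⟩ := hu 2
  obtain ⟨a3, ha3⟩ := hu 3
  obtain ⟨b0, hb0⟩ := hw 0
  obtain ⟨b1, hb1⟩ := hw 1
  obtain ⟨b2, hb2⟩ := hw 2
  obtain ⟨b3, hb3⟩ := hw 3
  rw [hb0, hb1] at hN0
  rw [hb2, hb3] at c2
  rw [hb0, hb2, hb3] at c3
  rw [hb1, hb2] at c4
  rw [hb1, hb3] at c5
  rw [ha0, hb0, ha1, hb1] at hN
  rcases hor with ⟨-, k2, k3, k4⟩ | ⟨-, k2, k3, k4⟩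
  · rw [ha3, hb3, ha2, hb2, ha1, hb1] at k2
    rw [ha0, ha1, ha2] at k3
    rw [hb0, hb1, hb2] at k4
    exact one_end a0 a1 a2 a3 b0 b1 b2 b3 e he0 he hN0 c2 c3 c4 c5 hN k2 k3 k4
  · rw [ha3, hb3, ha2, hb2, ha1, hb1] at k2
    rw [ha0, ha1, ha3] at k3
    rw [hb0, hb1, hb3] at k4
    exact one_end a0 a1 a3 a2 b0 b1 b3 b2 e he0 he hN0 (by linarith) (by linarith) c5 c4 hN k2 k3
      k4

theorem mi_seg_false (u w : Fin 4 → ℝ) (hu : HalfNat u) (hw : HalfNat w) (s e : ℝ) (hs : 0 ≤ s)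
    (hse : s < e) (he : e ≤ 1) (hI : Good miv u w s e) (hs' : s = 0 ∨ miv (seg u w s) ∉ TT)
    (he' : e = 1 ∨ miv (seg u w e) ∉ TT) : False := by
  rcases hs.eq_or_lt with h0 | h0
  · subst h0
    rcases he.eq_or_lt with h1 | h1
    · subst h1
      obtain ⟨c1, c2, c3, c4, c5, c6⟩ := mi_closed hse hI 0 ⟨le_rfl, hse.le⟩
      obtain ⟨d1, d2, d3, d4, d5, d6⟩ := mi_closed hse hI 1 ⟨hse.le, le_rfl⟩
      have hmid := (mi_G (hI.nrm (q := 1 / 2) ⟨by norm_num, by norm_num⟩)).2.1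
      have e0 : seg u w 0 = w := by
        funext i
        simp [seg]
      have e1 : seg u w 1 = u := by
        funext i
        simp [seg]
      rw [e0] at c1 c2 c3 c4 c5 c6
      rw [e1] at d1 d2 d3 d4 d5 d6
      simp only [seg] at hmid
      by_cases h : u 2 + u 3 < 2
      · exact half_end hu d1 h d3 d4 d5 d6
      · push Not at h
        exact half_end hw c1 (by linarith) c3 c4 c5 c6
    · have h2 : miv (seg u w e) ∉ TT := he'.resolve_left h1.ne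
      exact one_lattice u w hu hw e hse h1 hI h2
  · have hs2 : miv (seg u w s) ∉ TT := hs'.resolve_left h0.ne'
    have hsw : miv (seg w u (1 - s)) ∉ TT := by
      rw [seg_swap]
      exact hs2
    rcases he.eq_or_lt with h1 | h1
    · subst h1
      have hI2 : Good miv w u 0 (1 - s) := by
        have := hI.swap
        rwa [sub_self] at this
      exact one_lattice w u hw hu (1 - s) (by linarith) (by linarith) hI2 hsw
    · have h2 : miv (seg u w e) ∉ TT := he'.resolve_left h1.ne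
      have hpu : ∀ i, 0 ≤ u i := fun i => by
        obtain ⟨k, hk⟩ := hu i
        rw [hk]
        positivity
      have hpw : ∀ i, 0 ≤ w i := fun i => by
        obtain ⟨k, hk⟩ := hw i
        rw [hk]
        positivity
      have n1 := (mi_end u w hpu hpw s e hs hse h1 hI h2).1
      have n2 := (mi_end w u hpw hpu (1 - e) (1 - s) (by linarith) (by linarith) (by linarith)
        hI.swap hsw).1
      have hmid := (mi_G (hI.nrm (q := (s + e) / 2) ⟨by linarith, by linarith⟩)).1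
      simp only [seg] at n1 n2 hmid
      nlinarith

end Pool.Agent.Helper13.HT
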