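import Pool.Agent.Helper13.HT.MiForm

/-!
# HT-23a (B): exchanging the last two class coordinates of the mirror class

`miv (sw x) = (x0, x3/2, x2/2, x3/2, x2/2, x1)`: this is the relabelling `2 ↔ 3` of the vertices: the edges `1 ↔ 2`, `3 ↔ 4` are exchanged, `0` and `5` are fixed. `D` at the vertices `2 ↔ 3` and
`0, 1` fixed, `W` at the edges accordingly, `Gr` is invariant, `Tri` is invariant. Unfold (`simp [TT, Tri, Gr, D, W, heron, wform, al, ca, ix, ea, eb, ec, ed, miv, sw]`) or use `mi_D`, `mi_W`, `mi_Gr`, `mi_TT`-like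
identities: `HM (sw x) = HM x`. For `Tri`: a statement over `Fin 4`, `fin_cases`/`decide`-like case check, or: `Tri l ↔` the three inequalities for each of the four faces.
-/

open Real Set
open Pool.Agent.Helper1.Tet

namespace Pool.Agent.Helper13.HT

/-- exchange the last two coordinates -/
def sw (x : Fin 4 → ℝ) : Fin 4 → ℝ := ![x 0, x 1, x 3, x 2]

private def sg : Fin 4 → Fin 4 := ![0, 1, 3, 2]
private def pg : Fin 6 → Fin 6 := ![0, 2, 1, 4, 3, 5]

private lemma miv_sw (x : Fin 4 → ℝ) (j : Fin 6) : miv (sw x) j = miv x (pg j) := by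
  fin_cases j <;> simp [miv, sw, pg]

private lemma ix_sg : ∀ a b : Fin 4, a ≠ b → ix (sg a) (sg b) = pg (ix a b) := by decide

private lemma sg_inj : ∀ a b : Fin 4, a ≠ b → sg a ≠ sg b := by decide

private lemma sw_sw (x : Fin 4 → ℝ) : sw (sw x) = x := by
  funext i
  fin_cases i <;> simp [sw]

private lemma tri_sw (x : Fin 4 → ℝ) (h : Tri (miv x)) : Tri (miv (sw x)) := by
  intro a b c hab hbc hac
  have h1 := h (sg a) (sg b) (sg c) (sg_inj _ _ hab) (sg_inj _ _ hbc) (sg_inj _ _ hac)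
  rw [ix_sg _ _ hac, ix_sg _ _ hab, ix_sg _ _ hbc] at h1
  rw [miv_sw, miv_sw, miv_sw]
  exact h1

private lemma gr_sw (x : Fin 4 → ℝ) : Gr (miv (sw x)) = Gr (miv x) := by
  simp only [Gr, miv_0, miv_1, miv_2, miv_3, miv_4, miv_5]
  simp only [sw]
  simp
  ring

private lemma tt_sw (x : Fin 4 → ℝ) (h : miv x ∈ TT) : miv (sw x) ∈ TT :=
  ⟨tri_sw x h.1, by rw [gr_sw]; exact h.2⟩

theorem mi_swap (x : Fin 4 → ℝ) :
    (miv (sw x) ∈ TT ↔ miv x ∈ TT) ∧ ca (miv (sw x)) = sw (ca (miv x)) := by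
  constructor
  · constructor
    · intro h
      have := tt_sw _ h
      rwa [sw_sw] at this
    · exact tt_sw x
  · have hx0 : sw x 0 = x 0 := rfl
    have hx1 : sw x 1 = x 1 := rfl
    have hx2 : sw x 2 = x 3 := rfl
    have hx3 : sw x 3 = x 2 := rfl
    have hHM : HM (sw x) = HM x := by
      simp only [HM, hx0, hx1, hx2, hx3]
      ring
    obtain ⟨d0, d1, d2, d3⟩ := mi_D x
    obtain ⟨e0, e1, e2, e3⟩ := mi_D (sw x)
    obtain ⟨w0, w5, w1, w2⟩ := mi_W x
    obtain ⟨v0, v5, v1, v2⟩ := mi_W (sw x)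
    rw [hx0, hx1, hHM] at e0 e1
    rw [hx0, hx3] at e2
    rw [hx0, hx2] at e3
    rw [hx0, hx1, hx2, hx3] at v0 v1 v2
    rw [hx0, hx1, hHM] at v5
    funext i
    fin_cases i
    · show al (miv (sw x)) 0 = al (miv x) 0
      simp only [al, ec, ed]
      simp only [Matrix.cons_val_zero]
      rw [v0, w0, e2, e3, d2, d3]
      congr 1
      ring
    · show al (miv (sw x)) 5 = al (miv x) 5
      simp only [al, ec, ed]
      simp only [Matrix.cons_val]
      rw [v5, w5, e0, e1, d0, d1]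
    · show al (miv (sw x)) 1 = al (miv x) 2
      simp only [al, ec, ed]
      simp only [Matrix.cons_val]
      rw [v1, w2, e1, e3, d1, d2]
    · show al (miv (sw x)) 2 = al (miv x) 1
      simp only [al, ec, ed]
      simp only [Matrix.cons_val]
      rw [v2, w1, e1, e2, d1, d3]

end Pool.Agent.Helper13.HT
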