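import Pool.Agent.Helper1.Tet.Analytic
import Pool.Agent.Helper13.HT.Defs

/-!
# HT-25 (E): infinitely many points share one tuple of relations

`x ↦ ca (V x)` is continuous on `K` (`contDiffAt_al` / `analyticAt_al` on `TT`, `V` is linear) with values in `(0, π)` (`TT_facts`), so by
compactness there is `ε > 0` with `ca (V x) i ≥ ε` for all `x ∈ K` and `i` (`K` is nonempty as `S` is infinite). If `HalfNat u` and `∑ u i * ca (V x) i = π` then `u i ≤ π/ε`, so `u` lies in
the finite set `F` of half-integral vectors with entries `≤ π/ε` (image of `Fin 4 → Fin (N+1)`).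
For `x ∈ S`: `Cone V x`; `eq_pos_convex_span_of_mem_convexHull` gives a finite type `ι`, `z : ι → (Fin 4 → ℝ)` affinely independent with values in the set,
weights `w > 0`, `∑ w = 1`, `∑ w i • z i = x`. The `z i` are linearly independent: if `∑ c i • z i = 0` then, pairing with `ca (V x)`, `π ∑ c i = 0`, so `∑ c i = 0` and affine
independence gives `c = 0`. So `card ι ≤ 4` and, reindexing by `Fin r`, `r = card ι` (`Fintype.equivFin`), we get for every `x ∈ S` an element
`(r, u)` of the finite set `Σ r : Fin 5, (Fin r → F)`. An infinite set mapped to a finite set has an infinite fibre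
(`Set.Infinite.exists_infinite_fiber`-type lemma, or: `S` would be a finite union of finite sets).
-/

open Real Set
open Pool.Agent.Helper1.Tet

namespace Pool.Agent.Helper13.HT

/-- the point `x` is a positive combination of the relations `u` -/
def Tup (V : (Fin 4 → ℝ) → Fin 6 → ℝ) {r : ℕ} (u : Fin r → Fin 4 → ℝ) (x : Fin 4 → ℝ) : Prop :=
  (∀ k, ∑ i, u k i * ca (V x) i = π) ∧
    ∃ w : Fin r → ℝ, (∀ k, 0 < w k) ∧ ∑ k, w k = 1 ∧ x = ∑ k, w k • u k

private theorem contV {V : (Fin 4 → ℝ) → Fin 6 → ℝ} (hV : V = c2v ∨ V = miv) : Continuous V := by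
  rcases hV with rfl | rfl
  · refine continuous_pi fun j => ?_
    fin_cases j
    · exact continuous_apply 0
    · exact (continuous_apply (2 : Fin 4)).div_const 2
    · exact (continuous_apply (3 : Fin 4)).div_const 2
    · exact (continuous_apply (3 : Fin 4)).div_const 2
    · exact (continuous_apply (2 : Fin 4)).div_const 2
    · exact continuous_apply 1
  · refine continuous_pi fun j => ?_
    fin_cases j
    · exact continuous_apply 0
    · exact (continuous_apply (2 : Fin 4)).div_const 2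
    · exact (continuous_apply (3 : Fin 4)).div_const 2
    · exact (continuous_apply (2 : Fin 4)).div_const 2
    · exact (continuous_apply (3 : Fin 4)).div_const 2
    · exact continuous_apply 1

private theorem al_lower {V : (Fin 4 → ℝ) → Fin 6 → ℝ} (hV : V = c2v ∨ V = miv)
    (K : Set (Fin 4 → ℝ)) (hK : IsCompact K) (hKT : ∀ x ∈ K, V x ∈ TT) (hne : K.Nonempty)
    (j : Fin 6) : ∃ e : ℝ, 0 < e ∧ ∀ x ∈ K, e ≤ al (V x) j := by
  have hc : ContinuousOn (fun x => al (V x) j) K := by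
    intro x hx
    have h1 : ContinuousAt (fun l : Fin 6 → ℝ => al l j) (V x) :=
      (contDiffAt_al (hKT x hx) j).continuousAt
    exact (ContinuousAt.comp (f := V) (g := fun l : Fin 6 → ℝ => al l j) h1
      (contV hV).continuousAt).continuousWithinAt
  obtain ⟨y, hy, hmin⟩ := hK.exists_isMinOn hne hc
  obtain ⟨-, -, -, -, hal, -⟩ := TT_facts (hKT y hy)
  exact ⟨al (V y) j, (hal j).1, fun x hx => hmin hx⟩

private theorem ca_lower {V : (Fin 4 → ℝ) → Fin 6 → ℝ} (hV : V = c2v ∨ V = miv)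
    (K : Set (Fin 4 → ℝ)) (hK : IsCompact K) (hKT : ∀ x ∈ K, V x ∈ TT) (hne : K.Nonempty)
    (i : Fin 4) : ∃ e : ℝ, 0 < e ∧ ∀ x ∈ K, e ≤ ca (V x) i := by
  fin_cases i
  · exact al_lower hV K hK hKT hne 0
  · exact al_lower hV K hK hKT hne 5
  · exact al_lower hV K hK hKT hne 1
  · exact al_lower hV K hK hKT hne 2

private theorem ca_pos {V : (Fin 4 → ℝ) → Fin 6 → ℝ} {x : Fin 4 → ℝ} (hx : V x ∈ TT)
    (i : Fin 4) : 0 < ca (V x) i := by
  obtain ⟨-, -, -, -, hal, -⟩ := TT_facts hx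
  fin_cases i
  · exact (hal 0).1
  · exact (hal 5).1
  · exact (hal 1).1
  · exact (hal 2).1

private theorem finite_rel {V : (Fin 4 → ℝ) → Fin 6 → ℝ} (hV : V = c2v ∨ V = miv)
    (K : Set (Fin 4 → ℝ)) (hK : IsCompact K) (hKT : ∀ x ∈ K, V x ∈ TT) (hne : K.Nonempty) :
    ∃ F : Set (Fin 4 → ℝ), F.Finite ∧ ∀ x ∈ K, ∀ u, HalfNat u → ∑ i, u i * ca (V x) i = π →
      u ∈ F := by
  choose e he hle using ca_lower hV K hK hKT hne
  let N : ℕ := ∑ i, ⌈2 * (π / e i)⌉₊
  refine ⟨Set.range fun k : Fin 4 → Fin (N + 1) => fun i => ((k i : ℕ) : ℝ) / 2,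
    Set.finite_range _, ?_⟩
  intro x hx u hu hsum
  choose k hk using hu
  have hpos : ∀ j, 0 ≤ u j * ca (V x) j := by
    intro j
    rw [hk j]
    have := ca_pos (V := V) (hKT x hx) j
    positivity
  have hkN : ∀ i, k i < N + 1 := by
    intro i
    have h1 : u i * ca (V x) i ≤ π := by
      rw [← hsum]
      exact Finset.single_le_sum (f := fun j => u j * ca (V x) j) (fun j _ => hpos j)
        (Finset.mem_univ i)
    have h2 : u i * e i ≤ π := by
      refine le_trans (mul_le_mul_of_nonneg_left (hle i x hx) ?_) h1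
      rw [hk i]
      positivity
    have h3 : u i ≤ π / e i := (le_div_iff₀ (he i)).2 h2
    have h4 : (k i : ℝ) ≤ 2 * (π / e i) := by
      rw [hk i] at h3
      linarith
    have h5 : (k i : ℝ) ≤ (⌈2 * (π / e i)⌉₊ : ℝ) := le_trans h4 (Nat.le_ceil _)
    have h6 : k i ≤ ⌈2 * (π / e i)⌉₊ := by exact_mod_cast h5
    have h7 : ⌈2 * (π / e i)⌉₊ ≤ N :=
      Finset.single_le_sum (f := fun i => ⌈2 * (π / e i)⌉₊) (fun j _ => Nat.zero_le _)
        (Finset.mem_univ i)
    omega
  refine ⟨fun i => ⟨k i, hkN i⟩, ?_⟩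
  funext i
  exact (hk i).symm

private theorem exists_tuple {V : (Fin 4 → ℝ) → Fin 6 → ℝ} {x : Fin 4 → ℝ} (hc : Cone V x) :
    ∃ (r : ℕ) (u : Fin r → Fin 4 → ℝ), r < 5 ∧ LinearIndependent ℝ u ∧ (∀ k, HalfNat (u k)) ∧
      Tup V u x := by
  obtain ⟨ι, hι, z, w, hz, hai, hw, hw1, hx⟩ := eq_pos_convex_span_of_mem_convexHull hc
  have hz' : ∀ i, HalfNat (z i) ∧ ∑ j, z i j * ca (V x) j = π := fun i => hz ⟨i, rfl⟩
  have hli : LinearIndependent ℝ z := by
    rw [Fintype.linearIndependent_iff]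
    intro c hc0
    have h1 : ∑ i, c i * π = 0 := by
      have h2 : ∀ i, c i * π = ∑ j, (c i * z i j) * ca (V x) j := by
        intro i
        rw [← (hz' i).2, Finset.mul_sum]
        exact Finset.sum_congr rfl fun j _ => (mul_assoc _ _ _).symm
      rw [Finset.sum_congr rfl fun i _ => h2 i, Finset.sum_comm]
      refine Finset.sum_eq_zero fun j _ => ?_
      rw [← Finset.sum_mul]
      have h3 : ∑ i, c i * z i j = 0 := by
        have h4 := congrFun hc0 j
        rw [Finset.sum_apply] at h4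
        exact h4
      rw [h3, zero_mul]
    rw [← Finset.sum_mul] at h1
    have h5 : ∑ i, c i = 0 := by
      rcases mul_eq_zero.1 h1 with h | h
      · exact h
      · exact absurd h pi_pos.ne'
    intro i
    exact hai.eq_zero_of_sum_eq_zero (s := Finset.univ) h5 hc0 i (Finset.mem_univ i)
  have hcard : Fintype.card ι ≤ 4 := by
    have h := hli.fintype_card_le_finrank
    simpa using h
  let e := Fintype.equivFin ι
  refine ⟨Fintype.card ι, fun k => z (e.symm k), by omega,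
    hli.comp _ e.symm.injective, fun k => (hz' _).1, fun k => (hz' _).2,
    fun k => w (e.symm k), fun k => hw _, ?_, ?_⟩
  · rw [← hw1]
    exact Equiv.sum_comp e.symm w
  · rw [← hx]
    exact (Equiv.sum_comp e.symm fun i => w i • z i).symm

theorem pigeon {V : (Fin 4 → ℝ) → Fin 6 → ℝ} (hV : V = c2v ∨ V = miv) (K : Set (Fin 4 → ℝ))
    (hK : IsCompact K) (hKT : ∀ x ∈ K, V x ∈ TT) (S : Set (Fin 4 → ℝ)) (hS : S.Infinite)
    (hSK : S ⊆ K) (hSn : ∀ x ∈ S, Nrm V x ∧ Cone V x) :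
    ∃ (r : ℕ) (u : Fin r → Fin 4 → ℝ) (S' : Set (Fin 4 → ℝ)), r ≤ 4 ∧ S' ⊆ S ∧ S'.Infinite ∧
      LinearIndependent ℝ u ∧ (∀ k, HalfNat (u k)) ∧ ∀ x ∈ S', Tup V u x := by
  classical
  have hne : K.Nonempty := hS.nonempty.mono hSK
  obtain ⟨F, hF, hFmem⟩ := finite_rel hV K hK hKT hne
  haveI : Finite F := hF.to_subtype
  let P : (Σ r : Fin 5, (Fin r → F)) → Set (Fin 4 → ℝ) := fun p =>
    {x | x ∈ S ∧ LinearIndependent ℝ (fun k => (p.2 k : Fin 4 → ℝ)) ∧
      (∀ k, HalfNat (p.2 k : Fin 4 → ℝ)) ∧ Tup V (fun k => (p.2 k : Fin 4 → ℝ)) x}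
  have hcov : S ⊆ ⋃ p, P p := by
    intro x hx
    obtain ⟨r, u, hr, hli, hh, ht⟩ := exists_tuple (hSn x hx).2
    have hu : ∀ k, u k ∈ F := fun k => hFmem x (hSK hx) (u k) (hh k) (ht.1 k)
    rw [Set.mem_iUnion]
    exact ⟨⟨⟨r, hr⟩, fun k => ⟨u k, hu k⟩⟩, hx, hli, hh, ht⟩
  have hex : ∃ p, (P p).Infinite := by
    by_contra hno
    push Not at hno
    exact hS ((Set.finite_iUnion fun p => hno p).subset hcov)
  obtain ⟨p, hp⟩ := hex
  obtain ⟨x0, hx0⟩ := hp.nonempty
  exact ⟨p.1, fun k => (p.2 k : Fin 4 → ℝ), P p, by omega, fun x hx => hx.1, hp, hx0.2.1, hx0.2.2.1,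
    fun x hx => hx.2.2.2⟩

end Pool.Agent.Helper13.HT
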