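import Pool.Agent.Helper13.HT.C2Seg
import Pool.Agent.Helper13.HT.MiSeg
import Pool.Agent.Helper13.HT.Pigeon
import Pool.Agent.Helper13.HT.Rank4

/-!
# HT-28a (E): the tuple has three elements

* `no_half`: contradiction with `c2_G` resp. `mi_G`: C2: `x0 + x1 ≤ 1/2`, `x2 ≤ 1/2`, `x3 ≤ 1/2` (half integers `< 1`) but `x0 + x1 + x2 + x3 > 2`. Mi: `x0 + x1 ≤ 1/2`, `x2 + x3 ≤ 3/2`, so `x0 > 1/4`,
  `x0 = 1/2`, `x1 = 0`, `x2, x3 > 1`, so `≥ 3/2`: sum `≥ 3`.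
* `r = 0`: `∑ w = 1` over `Fin 0` is `0 = 1`.
* `r = 1`: `x = w • u 0` with `w = 1`: `x = u 0` is half-integral: `no_half`.
* `r = 2`: `x = w 0 • u 0 + w 1 • u 1 = seg (u 0) (u 1) (w 0)` with `w 0 ∈ (0, 1)`. The set `S` of the `q ∈ (0,1)` with `seg (u 0) (u 1) q ∈ S'` is infinite. Use
  `K' = K ∩ {x | ∑ x i * ca (V x) i = π}` (compact: `ca ∘ V` is continuous on `K`, by `contDiffAt_al` of Helper1/Tet/Analytic): it contains `S'`; if `u 0 ∈ K'` then `Nrm V (u 0)`, against `no_half`; same for `u 1`.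
  `seg_interval` with `K'`, then `c2_seg_false` resp. `mi_seg_false`.
* `r = 4`: `rank_four`: `S'` has at most one element.
-/

open Real Set
open Pool.Agent.Helper1.Tet

namespace Pool.Agent.Helper13.HT

theorem no_half {V : (Fin 4 → ℝ) → Fin 6 → ℝ} (hV : V = c2v ∨ V = miv) {x : Fin 4 → ℝ}
    (hx : Nrm V x) (h : HalfNat x) : False := by
  obtain ⟨k0, h0⟩ := h 0
  obtain ⟨k1, h1⟩ := h 1
  obtain ⟨k2, h2⟩ := h 2
  obtain ⟨k3, h3⟩ := h 3
  rcases hV with rfl | rfl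
  · obtain ⟨g1, g2, g3, g4, g5⟩ := c2_G hx
    rw [h0, h1] at g1
    rw [h2] at g2
    rw [h3] at g3
    rw [h0, h2, h3] at g4
    rw [h1, h2, h3] at g5
    have e1 : ((k0 + k1 : ℕ) : ℝ) < ((2 : ℕ) : ℝ) := by push_cast; linarith
    have e2 : ((k2 : ℕ) : ℝ) < ((2 : ℕ) : ℝ) := by push_cast; linarith
    have e3 : ((k3 : ℕ) : ℝ) < ((2 : ℕ) : ℝ) := by push_cast; linarith
    have e4 : ((4 : ℕ) : ℝ) < ((2 * k0 + k2 + k3 : ℕ) : ℝ) := by push_cast; linarith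
    have e5 : ((4 : ℕ) : ℝ) < ((2 * k1 + k2 + k3 : ℕ) : ℝ) := by push_cast; linarith
    rw [Nat.cast_lt] at e1 e2 e3 e4 e5
    omega
  · obtain ⟨g1, g2, g3, g4, g5⟩ := mi_G hx
    rw [h0, h1] at g1
    rw [h2, h3] at g2
    rw [h0, h2, h3] at g3
    rw [h1, h2] at g4
    rw [h1, h3] at g5
    have e1 : ((k0 + k1 : ℕ) : ℝ) < ((2 : ℕ) : ℝ) := by push_cast; linarith
    have e2 : ((k2 + k3 : ℕ) : ℝ) < ((4 : ℕ) : ℝ) := by push_cast; linarith
    have e3 : ((4 : ℕ) : ℝ) < ((2 * k0 + k2 + k3 : ℕ) : ℝ) := by push_cast; linarith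
    have e4 : ((2 : ℕ) : ℝ) < ((k1 + k2 : ℕ) : ℝ) := by push_cast; linarith
    have e5 : ((2 : ℕ) : ℝ) < ((k1 + k3 : ℕ) : ℝ) := by push_cast; linarith
    rw [Nat.cast_lt] at e1 e2 e3 e4 e5
    omega

private theorem rk_contV {V : (Fin 4 → ℝ) → Fin 6 → ℝ} (hV : V = c2v ∨ V = miv) :
    Continuous V := by
  rcases hV with rfl | rfl
  · refine continuous_pi fun i => ?_
    fin_cases i
    · exact continuous_apply 0
    · exact (continuous_apply 2).div_const 2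
    · exact (continuous_apply 3).div_const 2
    · exact (continuous_apply 3).div_const 2
    · exact (continuous_apply 2).div_const 2
    · exact continuous_apply 1
  · refine continuous_pi fun i => ?_
    fin_cases i
    · exact continuous_apply 0
    · exact (continuous_apply 2).div_const 2
    · exact (continuous_apply 3).div_const 2
    · exact (continuous_apply 2).div_const 2
    · exact (continuous_apply 3).div_const 2
    · exact continuous_apply 1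

private theorem rk_ca {V : (Fin 4 → ℝ) → Fin 6 → ℝ} (hV : V = c2v ∨ V = miv)
    {x : Fin 4 → ℝ} (hx : V x ∈ TT) (i : Fin 4) : ContinuousAt (fun y => ca (V y) i) x := by
  have h : ∀ j : Fin 6, ContinuousAt (fun y => al (V y) j) x := fun j =>
    ContinuousAt.comp (f := V) (g := fun l : Fin 6 → ℝ => al l j)
      (contDiffAt_al hx j).continuousAt (rk_contV hV).continuousAt
  fin_cases i
  · exact h 0
  · exact h 5
  · exact h 1
  · exact h 2

private theorem rk_two {V : (Fin 4 → ℝ) → Fin 6 → ℝ} (hV : V = c2v ∨ V = miv)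
    (K : Set (Fin 4 → ℝ)) (hK : IsCompact K) (hKT : ∀ x ∈ K, V x ∈ TT) (S' : Set (Fin 4 → ℝ))
    (hS' : S'.Infinite) (hSK : S' ⊆ K) (hn : ∀ x ∈ S', Nrm V x) (u : Fin 2 → Fin 4 → ℝ)
    (hh : ∀ k, HalfNat (u k)) (ht : ∀ x ∈ S', Tup V u x) : False := by
  have hcont : ContinuousOn (fun x : Fin 4 → ℝ => ∑ i, x i * ca (V x) i) K := by
    intro x hx
    refine ContinuousAt.continuousWithinAt ?_
    refine tendsto_finsetSum _ fun i _ => ?_
    exact (continuous_apply i).continuousAt.mul (rk_ca hV (hKT x hx) i)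
  let K' : Set (Fin 4 → ℝ) := K ∩ (fun x : Fin 4 → ℝ => ∑ i, x i * ca (V x) i) ⁻¹' {π}
  have hK' : IsCompact K' := by
    refine hK.of_isClosed_subset ?_ inter_subset_left
    exact hcont.preimage_isClosed_of_isClosed hK.isClosed isClosed_singleton
  let Sq : Set ℝ := {q | q ∈ Ioo (0 : ℝ) 1 ∧ seg (u 0) (u 1) q ∈ S'}
  have hseg : ∀ x ∈ S', ∃ q ∈ Sq, seg (u 0) (u 1) q = x := by
    intro x hx
    obtain ⟨-, w, hw, hw1, hxw⟩ := ht x hx
    rw [Fin.sum_univ_two] at hw1 hxw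
    have hx2 : seg (u 0) (u 1) (w 0) = x := by
      rw [hxw]
      funext i
      simp only [seg, Pi.add_apply, Pi.smul_apply, smul_eq_mul]
      rw [show 1 - w 0 = w 1 by linarith]
    refine ⟨w 0, ⟨⟨hw 0, by linarith [hw 1]⟩, ?_⟩, hx2⟩
    rw [hx2]
    exact hx
  have hinf : Sq.Infinite := by
    intro hfin
    apply hS'
    refine (hfin.image (seg (u 0) (u 1))).subset ?_
    intro x hx
    obtain ⟨q, hq, hqx⟩ := hseg x hx
    exact ⟨q, hq, hqx⟩
  have hnot : ∀ k : Fin 2, u k ∉ K' := by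
    intro k hk
    exact no_half hV ⟨hKT _ hk.1, hk.2⟩ (hh k)
  obtain ⟨s, e, hs, hse, he, hgood, hs', he'⟩ := seg_interval hV (u 0) (u 1) K' hK'
    (fun x hx => hKT x hx.1) Sq hinf (fun q hq => hq.1)
    (fun q hq => ⟨hSK hq.2, (hn _ hq.2).2⟩)
    (fun q hq => ⟨(ht _ hq.2).1 0, (ht _ hq.2).1 1⟩) (hnot 0) (hnot 1)
  rcases hV with rfl | rfl
  · exact c2_seg_false (u 0) (u 1) (hh 0) (hh 1) s e hs hse he hgood hs' he'
  · exact mi_seg_false (u 0) (u 1) (hh 0) (hh 1) s e hs hse he hgood hs' he'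

theorem rank_three {V : (Fin 4 → ℝ) → Fin 6 → ℝ} (hV : V = c2v ∨ V = miv) (K : Set (Fin 4 → ℝ))
    (hK : IsCompact K) (hKT : ∀ x ∈ K, V x ∈ TT) (S' : Set (Fin 4 → ℝ)) (hS' : S'.Infinite)
    (hSK : S' ⊆ K) (hn : ∀ x ∈ S', Nrm V x) (r : ℕ) (hr : r ≤ 4) (u : Fin r → Fin 4 → ℝ)
    (hu : LinearIndependent ℝ u) (hh : ∀ k, HalfNat (u k)) (ht : ∀ x ∈ S', Tup V u x) : r = 3 := by
  obtain ⟨x, hx⟩ := hS'.nonempty
  obtain ⟨y, hy, z, hz, hyz⟩ := hS'.nontrivial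
  interval_cases r
  · obtain ⟨-, w, -, hw1, -⟩ := ht x hx
    rw [Fin.sum_univ_zero] at hw1
    exact absurd hw1 zero_ne_one
  · obtain ⟨-, w, -, hw1, hxw⟩ := ht x hx
    rw [Fin.sum_univ_one] at hw1 hxw
    rw [hw1, one_smul] at hxw
    exact (no_half hV (hn x hx) (by rw [hxw]; exact hh 0)).elim
  · exact (rk_two hV K hK hKT S' hS' hSK hn u hh ht).elim
  · rfl
  · exact absurd (rank_four hV u hu (hn y hy) (hn z hz) (ht y hy).1 (ht z hz).1) hyz

end Pool.Agent.Helper13.HT
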